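import Pool.Agent.Lib.MP_100fe7_ntU.FinalU

/-!
The theorem in terms of the named definitions.
-/

namespace Pool.Agent.MP100fe7U

theorem all_number_fields {ι : Type} [Fintype ι] [DecidableEq ι] (F : ι → Type)
    [∀ i, Field (F i)] [∀ i, NumberField (F i)] (E : Type) [Field E] [NumberField E]
    (hE : Split F E) (τ₀ : E →+* ℂ) (n : ι → ℕ) (w : ι → ℤ)
    (T : ∀ i, MType (F i) E (n i) (w i)) (κ : Type) [Fintype κ] [DecidableEq κ]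
    (ρ : Rep F E n κ) (Φ : (E →+* ℂ) → Finset (Emb F E)) (hΦ : IsChoice Φ) :
    (∀ (M : ∀ i, Datum (T i)) (τ : E →+* ℂ) (q : Emb F E) (a : ℤ),
      ∃ v : ℂ, v ≠ 0 ∧ ∀ v', (M q.1).IsHodgePeriod τ q.2 a v' ↔ v' = v) ∧
    (∀ (M : ∀ i, Datum (T i)) (τ : E →+* ℂ) (q : Emb F E) (δ : ℤ), IsConj τ q.2 q.2 →
      (T q.1).IsScalar τ q.2 → δ = 1 ∨ δ = -1 →
        ∃ c : ℂ, c ≠ 0 ∧ ∀ c', (M q.1).IsRealPeriod τ q.2 δ c' ↔ c' = c) ∧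
    (ρ.NoMiddle T → ∀ ε : E, ε = 1 ∨ ε = -1 →
      ρ.IsStep T hE τ₀ ε ((ρ.motWeight w + 1) / 2)) ∧
    ∀ (ε : E) (a₀ : ℤ), ε = 1 ∨ ε = -1 → ρ.IsStep T hE τ₀ ε a₀ →
      ∃ (A B : Emb F ℂ → ℤ) (k : ι → ℤ) (S : Emb F E → ℤ → ℤ) (u : (E →+* ℂ) → E),
        ρ.IsExponents T hE τ₀ ε a₀ A B k S ∧ (∀ τ, u τ ≠ 0) ∧ ρ.IsGalRel T hE τ₀ ε Φ u ∧
        ∀ M : ∀ i, Datum (T i), (∃ x, ρ.IsPeriod M hE τ₀ ε x) ∧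
          ∀ x, ρ.IsPeriod M hE τ₀ ε x → (∀ τ, x τ ≠ 0) ∧ ∃ e : E, e ≠ 0 ∧
            ∀ (τ : E →+* ℂ) (c d : Emb F E → ℂ) (v : Emb F E → ℤ → ℂ),
              (∀ q, IsConj τ q.2 q.2 → (T q.1).IsScalar τ q.2 →
                (M q.1).IsRealPeriod τ q.2 1 (c q) ∧ (M q.1).IsRealPeriod τ q.2 (-1) (d q)) →
              (∀ q, ∀ a ∈ (T q.1).indices q.2, (M q.1).IsHodgePeriod τ q.2 a (v q a)) →
              x τ = τ e * τ (u τ) * ∏ q, Rep.factor M hE Φ A B k S τ c d v q := by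
  obtain ⟨h1, h2, h3, h4⟩ := u_periods F E hE τ₀ n w T κ ρ Φ hΦ
  refine ⟨fun M τ q a => h1 M q.1 τ q.2 a, fun M τ q δ => h2 M q.1 τ q.2 δ, h3, ?_⟩
  intro ε a₀ hε hst
  obtain ⟨A, B, k, S, u, e1, e2, e3, e4, e5, e6, e7, e8⟩ := h4 ε a₀ hε hst
  refine ⟨A, B, k, S, u, ⟨fun q => e1 q.1 q.2, fun q => e2 q.1 q.2, e3, e4,
    fun τ q => e5 q.1 τ q.2⟩, e6, ?_, ?_⟩
  · intro τ τ' hc hs hP v
    exact e7 τ τ' hc (fun i φ => hs ⟨i, φ⟩) hP v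
  intro M
  obtain ⟨h5, h6⟩ := e8 M
  refine ⟨h5, ?_⟩
  intro x hx
  obtain ⟨h7, e, he, h8⟩ := h6 x hx
  refine ⟨h7, e, he, ?_⟩
  intro τ c d v hcd hv
  exact h8 τ c d v hcd hv

end Pool.Agent.MP100fe7U
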