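import Pool.Agent.Lib.MP_100fe7_ntU.Expo

/-!
The determinant of `b γ y` for a block triangular family `b` and a symmetric family `y`.
-/

set_option linter.unusedSectionVars false

namespace Pool.Agent.MP100fe7U

open Matrix MP100fe7L
open MP100fe7T (detP detP_diagonal)

variable {ι : Type} [Fintype ι] [DecidableEq ι] {F : ι → Type} [∀ i, Field (F i)]
  [∀ i, NumberField (F i)] {E : Type} [Field E] [NumberField E] {n : ι → ℕ} {κ : Type}
  [Fintype κ] [DecidableEq κ] (ρ : Rep F E n κ) {w : ι → ℤ} (T : ∀ i, MType (F i) E (n i) (w i))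
  (hE : Split F E) (Φ : (E →+* ℂ) → Finset (Emb F E)) (hΦ : PhiOk Φ) (τ₀ : E →+* ℂ)

/-- determinant of a principal minor -/
theorem sub_det {J : Type} [Fintype J] [DecidableEq J] {S : Type} [CommRing S] (M : Matrix J J S)
    {P Q : J → Prop} [DecidablePred P] [DecidablePred Q] (h : ∀ j, P j ↔ Q j) :
    (M.submatrix (Subtype.val : {j // P j} → J) (Subtype.val : {j // P j} → J)).det =
      (M.submatrix (Subtype.val : {j // Q j} → J) (Subtype.val : {j // Q j} → J)).det := by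
  rw [← det_submatrix_equiv_self (Equiv.subtypeEquivRight h)]
  rfl

theorem sub_det_all {J : Type} [Fintype J] [DecidableEq J] {S : Type} [CommRing S]
    (M : Matrix J J S) {P : J → Prop} [DecidablePred P] (h : ∀ j, P j) :
    (M.submatrix (Subtype.val : {j // P j} → J) (Subtype.val : {j // P j} → J)).det = M.det := by
  rw [← det_submatrix_equiv_self (Equiv.subtypeUnivEquiv h)]
  rfl

theorem sub_det_empty {J : Type} [Fintype J] [DecidableEq J] {S : Type} [CommRing S]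
    (M : Matrix J J S) {P : J → Prop} [DecidablePred P] (h : ∀ j, ¬ P j) :
    (M.submatrix (Subtype.val : {j // P j} → J) (Subtype.val : {j // P j} → J)).det = 1 := by
  haveI : IsEmpty {j // P j} := ⟨fun j => h j.1 j.2⟩
  exact det_isEmpty

section core

variable {d : ℕ} {A : Matrix κ (Fin d) E} {ε : E} (hε : ε * ε = 1)
  (hA : IsEig (ρ.Fr (conjElt hE τ₀) (sD (sT T τ₀) E)) ε A)
  {B : Matrix (Fin d) κ E} (hB : Function.Surjective B.mulVec) {a₀ : ℤ}
  (hker : ∀ v : κ → E, B.mulVec v = 0 ↔ ∀ s, isLo ρ T a₀ s → v s = 0)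
  {L : Matrix (Fin d) κ E} (hL : L * A = 1) (τ : E →+* ℂ)

theorem tw_gam_ne : ρ.tw E (gamF T Φ τ) ≠ 0 := by
  unfold Rep.tw
  rw [Finset.prod_ne_zero_iff]
  intro q _
  exact pow_ne_zero _ (gam_det T Φ τ q.1 q.2)

include hε hA hB hker hL in
/-- the period of `b γ y` -/
theorem core {K : Type} [Field K] [Algebra E K] (b y : Fam F E n K)
    (hb : ∀ s t, isLo ρ T a₀ s → ¬ isLo ρ T a₀ t → ρ.toPol.pol K b s t = 0)
    (hy : IsSym (conjElt hE τ) (sT T τ) y) :
    (B.map (algebraMap E K) * (ρ.ev K (b * Fam.map' (gamF T Φ τ) (algebraMap E K) * y) *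
      (ρ.perm (galElt hE τ τ₀)).map (algebraMap E K)) * A.map (algebraMap E K)).det =
    algebraMap E K (B * (ρ.ev E (gamF T Φ τ) * (ρ.perm (galElt hE τ τ₀) * A))).det *
      ((ρ.tw K b)⁻¹ ^ d * detP (isLo ρ T a₀) (ρ.toPol.pol K b)) *
      ((ρ.tw K y)⁻¹ ^ d * (eig ρ L A K (Rep.pull (galElt hE τ τ₀) y)).det) := by
  let al := algebraMap E K
  let g := galElt hE τ τ₀
  let G := (ρ.ev E (gamF T Φ τ)).map al
  let Y : Matrix κ (Fin d) K := G * ((ρ.perm g).map al * A.map al)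
  have hy0 := sym_pull T hE τ₀ τ hy
  have hact := eig_act (sgnOk T hE τ₀) ρ hL hε hA hy0
  have h1 : ρ.ev K (b * Fam.map' (gamF T Φ τ) al * y) =
      (ρ.tw K b)⁻¹ • (ρ.toPol.pol K b * (G * ρ.ev K y)) := by
    rw [ρ.ev_mul, ρ.ev_mul, ρ.ev_eq K b, Ring.inverse_eq_inv', Matrix.smul_mul, Matrix.smul_mul,
      Matrix.mul_assoc]
    congr 3
    exact (ρ.ev_map K (gamF T Φ τ) (tw_gam_ne ρ T Φ τ)).symm
  have h2 : ρ.ev K y * (ρ.perm g).map al = (ρ.tw K y)⁻¹ •
      ((ρ.perm g).map al * ρ.toPol.pol K (Rep.pull g y)) := by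
    rw [← ρ.perm_ev g K y, ρ.ev_eq, ρ.tw_pull, Ring.inverse_eq_inv', Matrix.mul_smul]
  have h3 : B.map al * (ρ.ev K (b * Fam.map' (gamF T Φ τ) al * y) * (ρ.perm g).map al) *
      A.map al = ((ρ.tw K b)⁻¹ * (ρ.tw K y)⁻¹) •
        (B.map al * ρ.toPol.pol K b * Y * eig ρ L A K (Rep.pull g y)) := by
    rw [h1, Matrix.smul_mul, Matrix.mul_assoc (ρ.toPol.pol K b), Matrix.mul_assoc G, h2,
      Matrix.mul_smul, Matrix.mul_smul, Matrix.mul_smul, Matrix.mul_smul, Matrix.smul_mul,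
      Matrix.smul_mul, smul_smul]
    congr 1
    simp only [Y, Matrix.mul_assoc]
    rw [hact]
  have h4 : (B.map al * ρ.toPol.pol K b * Y).det =
      detP (isLo ρ T a₀) (ρ.toPol.pol K b) * (B.map al * Y).det :=
    det_low (isLo ρ T a₀) B hB hker K _ hb Y
  have h5 : (B.map al * Y).det =
      al (B * (ρ.ev E (gamF T Φ τ) * (ρ.perm (galElt hE τ τ₀) * A))).det := by
    have h6 : B.map al * Y =
        (B * (ρ.ev E (gamF T Φ τ) * (ρ.perm (galElt hE τ τ₀) * A))).map al := by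
      rw [Matrix.map_mul, Matrix.map_mul, Matrix.map_mul]
    rw [h6]
    exact (RingHom.map_det al _).symm
  change (B.map al * (ρ.ev K (b * Fam.map' (gamF T Φ τ) al * y) * (ρ.perm g).map al) *
      A.map al).det = _
  rw [h3, det_smul, Fintype.card_fin, det_mul, h4, h5, mul_pow]
  ring

end core

section prods

variable (τ : E →+* ℂ)

include hΦ in
/-- a product over all embeddings as a product over the real ones and the pairs -/
theorem prod_pairs {K : Type} [CommMonoid K] (f : Emb F E → K) :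
    ∏ q, f q = ∏ q : Emb F E, (if IsConj τ q.2 q.2 then f q else
      if q ∈ Φ τ then f q * f (act (conjElt hE τ) q) else 1) := by
  have h1 : ∀ q : Emb F E, f q = (if IsConj τ q.2 q.2 then f q else
      if q ∈ Φ τ then f q else 1) * (if IsConj τ q.2 q.2 then 1 else
      if q ∈ Φ τ then 1 else f q) := by
    intro q
    split_ifs <;> simp
  have h2 : ∏ q : Emb F E, (if IsConj τ q.2 q.2 then 1 else if q ∈ Φ τ then 1 else f q) =
      ∏ q : Emb F E, (if IsConj τ q.2 q.2 then 1 else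
        if q ∈ Φ τ then f (act (conjElt hE τ) q) else 1) := by
    rw [← Equiv.prod_comp (actEquiv (conjElt hE τ))]
    apply Finset.prod_congr rfl
    intro q _
    change (if IsConj τ (act (conjElt hE τ) q).2 (act (conjElt hE τ) q).2 then 1 else
      if act (conjElt hE τ) q ∈ Φ τ then 1 else f (act (conjElt hE τ) q)) = _
    have hc := isConj_conjElt hE τ q.1 q.2
    by_cases hr : IsConj τ q.2 q.2
    · have h3 : act (conjElt hE τ) q = q := (act_eq_iff hE τ q).mpr hr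
      rw [if_pos hr]
      have h4 : IsConj τ (act (conjElt hE τ) q).2 (act (conjElt hE τ) q).2 := by
        rw [← act_eq_iff hE τ, h3, h3]
      rw [if_pos h4]
    · have hne : (conjElt hE τ).1 q.1 q.2 ≠ q.2 := fun h => hr ((conj_eq_iff hE τ q.1 q.2).mp h)
      have h4 : ¬ IsConj τ (act (conjElt hE τ) q).2 (act (conjElt hE τ) q).2 := by
        intro h
        exact hne (real_conj hc h)
      rw [if_neg hr, if_neg h4]
      have h5 := hΦ τ q.1 q.2 _ hc
      by_cases hm : q ∈ Φ τ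
      · rw [if_pos hm, if_neg (h5.mp hm).2]
      · have h6 : act (conjElt hE τ) q ∈ Φ τ := by
          by_contra h7
          exact hm (h5.mpr ⟨hne, h7⟩)
        rw [if_neg hm, if_pos h6]
  rw [Finset.prod_congr rfl (fun q _ => h1 q), Finset.prod_mul_distrib, h2,
    ← Finset.prod_mul_distrib]
  apply Finset.prod_congr rfl
  intro q _
  split_ifs <;> simp

/-- the factor of a symmetric family at one place -/
theorem colors_real {S : Type} [CommRing S] (m : ℤ → ℕ) (i : ι) (φ : F i →+* E)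
    (hr : IsConj τ φ φ) (h : Fam F E n S) :
    ∏ a ∈ colors (cl (conjElt hE τ) (sT T τ)) ⟨i, φ⟩,
      (blk (cl (conjElt hE τ) (sT T τ)) h ⟨i, φ⟩ a).det ^ m a =
    (sblk ((T i).sgn (τ.comp φ)) (h ⟨i, φ⟩) 1).det ^ m 1 *
      (sblk ((T i).sgn (τ.comp φ)) (h ⟨i, φ⟩) (-1)).det ^ m (-1) := by
  have hcl : ∀ (j : Fin (n i)) (a : ℤ),
      (cl (conjElt hE τ) (sT T τ) (⟨⟨i, φ⟩, j⟩ : Tot F E n) = a) ↔
        ((T i).sgn (τ.comp φ) j = a) := by
    intro j a
    rw [cl_real T hE τ i φ hr j]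
  have hb : ∀ a, (blk (cl (conjElt hE τ) (sT T τ)) h ⟨i, φ⟩ a).det =
      (sblk ((T i).sgn (τ.comp φ)) (h ⟨i, φ⟩) a).det := by
    intro a
    exact sub_det (h ⟨i, φ⟩) (fun j => hcl j a)
  have hsub : colors (cl (conjElt hE τ) (sT T τ)) (⟨i, φ⟩ : Emb F E) ⊆ {1, -1} := by
    intro a ha
    unfold colors at ha
    obtain ⟨j, -, hj⟩ := Finset.mem_image.mp ha
    have h1 := (hcl j a).mp hj
    rw [Finset.mem_insert, Finset.mem_singleton]
    rcases (T i).sgn_eq (τ.comp φ) j with h2 | h2 <;> omega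
  rw [Finset.prod_congr rfl (fun a _ => by rw [hb a])]
  rw [Finset.prod_subset hsub]
  · rw [Finset.prod_pair (by norm_num)]
  · intro a _ ha
    have h3 : (sblk ((T i).sgn (τ.comp φ)) (h ⟨i, φ⟩) a).det = 1 := by
      apply sub_det_empty (h ⟨i, φ⟩)
      intro j hj
      apply ha
      unfold colors
      exact Finset.mem_image.mpr ⟨j, Finset.mem_univ _, (hcl j a).mpr hj⟩
    rw [h3, one_pow]

theorem colors_complex {S : Type} [CommRing S] (m : ℤ → ℕ) (i : ι) (φ : F i →+* E)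
    (hr : ¬ IsConj τ φ φ) (h : Fam F E n S) :
    ∏ a ∈ colors (cl (conjElt hE τ) (sT T τ)) ⟨i, φ⟩,
      (blk (cl (conjElt hE τ) (sT T τ)) h ⟨i, φ⟩ a).det ^ m a = (h ⟨i, φ⟩).det ^ m 0 := by
  have hcl : ∀ (j : Fin (n i)), cl (conjElt hE τ) (sT T τ) (⟨⟨i, φ⟩, j⟩ : Tot F E n) = 0 :=
    fun j => cl_complex T hE τ i φ hr j
  have hsub : colors (cl (conjElt hE τ) (sT T τ)) (⟨i, φ⟩ : Emb F E) ⊆ {0} := by
    intro a ha
    unfold colors at ha
    obtain ⟨j, -, hj⟩ := Finset.mem_image.mp ha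
    rw [Finset.mem_singleton]
    exact hj.symm.trans (hcl j)
  rw [Finset.prod_subset hsub]
  · rw [Finset.prod_singleton]
    congr 1
    exact sub_det_all (h ⟨i, φ⟩) (fun j => hcl j)
  · intro a _ ha
    have h3 : (blk (cl (conjElt hE τ) (sT T τ)) h ⟨i, φ⟩ a).det = 1 := by
      apply sub_det_empty (h ⟨i, φ⟩)
      intro j hj
      apply ha
      unfold colors
      exact Finset.mem_image.mpr ⟨j, Finset.mem_univ _, hj⟩
    rw [h3, one_pow]

end prods

section sym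

variable {d : ℕ} {A : Matrix κ (Fin d) E} {L : Matrix (Fin d) κ E} {m : Emb F E → ℤ → ℕ}
  (hm : ∀ R : Finset (Emb F E), IsRepr (conjElt hE τ₀) R → ∀ (S : Type) [CommRing S]
      [Algebra E S] (h : Fam F E n S), IsSym (conjElt hE τ₀) (sT T τ₀) h → (eig ρ L A S h).det =
        ∏ q ∈ R, ∏ a ∈ colors (cl (conjElt hE τ₀) (sT T τ₀)) q,
          (blk (cl (conjElt hE τ₀) (sT T τ₀)) h q a).det ^ m q a) (τ : E →+* ℂ)

include hm hΦ in
/-- The determinant of a family symmetric at `τ`. -/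
theorem det_eig_tau {K : Type} [CommRing K] [Algebra E K] (y : Fam F E n K)
    (hy : IsSym (conjElt hE τ) (sT T τ) y) :
    (eig ρ L A K (Rep.pull (galElt hE τ τ₀) y)).det =
      ∏ q : Emb F E, (if IsConj τ q.2 q.2 then
        (sblk ((T q.1).sgn (τ.comp q.2)) (y q) 1).det ^ m (act (galElt hE τ τ₀)⁻¹ q) 1 *
        (sblk ((T q.1).sgn (τ.comp q.2)) (y q) (-1)).det ^ m (act (galElt hE τ τ₀)⁻¹ q) (-1)
        else if q ∈ Φ τ then (y q).det ^ m (act (galElt hE τ τ₀)⁻¹ q) 0 else 1) := by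
  classical
  let R : Finset (Emb F E) := Finset.univ.filter fun q =>
    IsConj τ₀ q.2 q.2 ∨ act (galElt hE τ τ₀) q ∈ Φ τ
  have hR : IsRepr (conjElt hE τ₀) R := by
    intro q
    have hcg : act (galElt hE τ τ₀) (act (conjElt hE τ₀) q) =
        act (conjElt hE τ) (act (galElt hE τ τ₀) q) := by
      rw [← act_mul, galElt_conj, act_mul]
    constructor
    · intro h
      simp only [R, Finset.mem_filter, Finset.mem_univ, true_and]
      exact Or.inl ((act_eq_iff hE τ₀ q).mp h)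
    · intro h
      have hr : ¬ IsConj τ₀ q.2 q.2 := fun h' => h ((act_eq_iff hE τ₀ q).mpr h')
      have hr' : ¬ IsConj τ₀ (act (conjElt hE τ₀) q).2 (act (conjElt hE τ₀) q).2 := by
        intro h'
        apply hr
        have h2 := real_conj (isConj_conjElt hE τ₀ q.1 q.2) h'
        exact (conj_eq_iff hE τ₀ q.1 q.2).mp h2
      simp only [R, Finset.mem_filter, Finset.mem_univ, true_and, hr, hr', false_or]
      have h3 := hΦ τ q.1 (act (galElt hE τ τ₀) q).2 _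
        (isConj_conjElt hE τ q.1 (act (galElt hE τ τ₀) q).2)
      have hne : (conjElt hE τ).1 q.1 (act (galElt hE τ τ₀) q).2 ≠
          (act (galElt hE τ τ₀) q).2 := by
        intro h4
        have h5 := (conj_eq_iff hE τ q.1 (act (galElt hE τ τ₀) q).2).mp h4
        exact hr ((isConj_gal hE τ₀ τ (i := q.1) (φ₀ := q.2) rfl).mp h5)
      rw [hcg]
      constructor
      · intro h4
        exact (h3.mp h4).2
      · intro h4
        exact h3.mpr ⟨hne, h4⟩
  rw [hm R hR K _ (sym_pull T hE τ₀ τ hy), Finset.prod_filter,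
    ← Equiv.prod_comp (actEquiv (galElt hE τ τ₀)) (fun q : Emb F E => (if IsConj τ q.2 q.2 then
        (sblk ((T q.1).sgn (τ.comp q.2)) (y q) 1).det ^ m (act (galElt hE τ τ₀)⁻¹ q) 1 *
        (sblk ((T q.1).sgn (τ.comp q.2)) (y q) (-1)).det ^ m (act (galElt hE τ τ₀)⁻¹ q) (-1)
        else if q ∈ Φ τ then (y q).det ^ m (act (galElt hE τ τ₀)⁻¹ q) 0 else 1))]
  apply Finset.prod_congr rfl
  rintro ⟨i, φ₀⟩ _
  have hφ : act (galElt hE τ τ₀)⁻¹ (actEquiv (galElt hE τ τ₀) (⟨i, φ₀⟩ : Emb F E)) = ⟨i, φ₀⟩ :=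
    act_inv_act _ _
  rw [hφ]
  have hiff := isConj_gal hE τ₀ τ (i := i) (φ₀ := φ₀) rfl
  have hsg : (T i).sgn (τ.comp ((galElt hE τ τ₀).1 i φ₀)) = (T i).sgn (τ₀.comp φ₀) := by
    rw [galElt_spec]
  by_cases hr : IsConj τ₀ φ₀ φ₀
  · rw [if_pos (Or.inl hr), colors_real T hE τ₀ (m ⟨i, φ₀⟩) i φ₀ hr]
    have h1 : IsConj τ ((galElt hE τ τ₀).1 i φ₀) ((galElt hE τ τ₀).1 i φ₀) := hiff.mpr hr
    change _ = (if IsConj τ ((galElt hE τ τ₀).1 i φ₀) ((galElt hE τ τ₀).1 i φ₀) then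
        (sblk ((T i).sgn (τ.comp ((galElt hE τ τ₀).1 i φ₀)))
          (y ⟨i, (galElt hE τ τ₀).1 i φ₀⟩) 1).det ^ m ⟨i, φ₀⟩ 1 *
        (sblk ((T i).sgn (τ.comp ((galElt hE τ τ₀).1 i φ₀)))
          (y ⟨i, (galElt hE τ τ₀).1 i φ₀⟩) (-1)).det ^ m ⟨i, φ₀⟩ (-1)
        else _)
    rw [if_pos h1, hsg]
    rfl
  · have h1 : ¬ IsConj τ ((galElt hE τ τ₀).1 i φ₀) ((galElt hE τ τ₀).1 i φ₀) := fun h =>
      hr (hiff.mp h)
    have h2 : ¬ IsConj τ (actEquiv (galElt hE τ τ₀) (⟨i, φ₀⟩ : Emb F E)).2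
      (actEquiv (galElt hE τ τ₀) (⟨i, φ₀⟩ : Emb F E)).2 := h1
    rw [if_neg h2]
    by_cases hmem : act (galElt hE τ τ₀) (⟨i, φ₀⟩ : Emb F E) ∈ Φ τ
    · have hmem' : actEquiv (galElt hE τ τ₀) (⟨i, φ₀⟩ : Emb F E) ∈ Φ τ := hmem
      rw [if_pos (Or.inr hmem), if_pos hmem', colors_complex T hE τ₀ (m ⟨i, φ₀⟩) i φ₀ hr]
      rfl
    · have hmem' : ¬ actEquiv (galElt hE τ τ₀) (⟨i, φ₀⟩ : Emb F E) ∈ Φ τ := hmem
      rw [if_neg hmem', if_neg]
      rintro (h | h)
      · exact hr h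
      · exact hmem h

end sym

end Pool.Agent.MP100fe7U
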