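import Pool.Agent.Lib.MP_100fe7_ntU.RealSpec

/-!
The vectors of the Hodge components; the determinants of `F_∞` on the graded pieces.
-/

set_option linter.unusedSectionVars false

namespace Pool.Agent.MP100fe7U

open Matrix MP100fe7L

variable {n : ℕ} {s p p' : Fin n → ℤ} {w : ℤ} {X X' : Matrix (Fin n) (Fin n) ℂ}
  {H H' : ℤ → Submodule ℂ (Fin n → ℂ)}

section one

variable (hX : IsUnit X.det) (hf : FilHodge p X H)

include hX hf in
theorem zc_spec (j : Fin n) : zc p X H j ∈ H (p j) ∧
    ∀ k, p k ≤ p j → (X *ᵥ zc p X H j) k = if k = j then 1 else 0 := by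
  have h := exists_z hX hf j
  unfold zc
  rw [dif_pos h]
  exact h.choose_spec

theorem commonZ_mul_Zm (A : Matrix (Fin n) (Fin n) ℂ) (k j : Fin n) :
    (A * Zm p X H) k j = (A *ᵥ zc p X H j) k := rfl

theorem commonZ_mul_Zr (A : Matrix (Fin n) (Fin n) ℂ) (k j : Fin n) :
    (A * Zr s p' X' H') k j = (A *ᵥ fun i => Zr s p' X' H' i j) k := rfl

include hX hf in
/-- `X * Zm` is block triangular with identity blocks. -/
theorem Zm_low (j k : Fin n) : (p j < p k → (X * Zm p X H) j k = 0) ∧
    (p j = p k → (X * Zm p X H) j k = if j = k then 1 else 0) := by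
  rw [commonZ_mul_Zm]
  exact ⟨fun h => hodge_coord hX hf (zc_spec hX hf k).1 h,
    fun h => (zc_spec hX hf k).2 j h.le⟩

include hX hf in
theorem det_Zm : (X * Zm p X H).det = 1 :=
  det_unip (fun j k => (Zm_low hX hf j k).1) (fun j k => (Zm_low hX hf j k).2)

include hX hf in
theorem commonZ_Zm_unit : IsUnit (Zm p X H).det := by
  have h := det_Zm hX hf
  rw [det_mul] at h
  exact IsUnit.of_mul_eq_one_right _ h

end one

variable (h : PairPt s p p' w X X' H H')

include h in
theorem PairPt.symm : PairPt s p' p w X' X H' H where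
  hs := h.hs
  hp := by
    intro j
    have h1 := h.hp (Fin.rev j)
    rw [Fin.rev_rev] at h1
    omega
  unit := h.unit'
  unit' := h.unit
  int := h.int'
  int' := h.int
  hF := h.hF'
  hF' := h.hF
  fil := h.fil'
  fil' := h.fil

include h in
theorem Zr_mem (j : Fin n) : (fun k => Zr s p' X' H' k j) ∈ H (p j) := by
  have h1 := (zc_spec h.unit' h.fil' (Fin.rev j)).1
  have h2 := h.hF' _ _ h1
  rw [h.hp j, sub_sub_cancel] at h2
  exact h2

include h in
theorem Zr_low (j k : Fin n) (hjk : p j < p k) : (X * Zr s p' X' H') j k = 0 := by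
  rw [commonZ_mul_Zr]
  exact hodge_coord h.unit h.fil (Zr_mem h k) hjk

include h in
theorem Zr_unit : IsUnit (Zr s p' X' H').det := by
  have h1 : Zr s p' X' H' = Matrix.diagonal (fun k => (s k : ℂ)) *
      (Zm p' X' H').submatrix id (Fin.revPerm : Equiv.Perm (Fin n)) := by
    ext k j
    rw [Matrix.diagonal_mul]
    rfl
  rw [h1, det_mul, det_diagonal, det_permute']
  refine IsUnit.mul ?_ (IsUnit.mul ?_ (commonZ_Zm_unit h.unit' h.fil'))
  · rw [isUnit_iff_ne_zero]
    apply Finset.prod_ne_zero_iff.mpr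
    intro k _
    rcases h.hs k with hk | hk
    · rw [hk]
      simp
    · rw [hk]
      simp
  · exact ((Equiv.Perm.sign (Fin.revPerm : Equiv.Perm (Fin n))).isUnit.map
      (Int.castRingHom ℂ))

include h in
/-- The determinant of `F_∞` on the graded pieces is the determinant of a block of `X * Zr`. -/
theorem hper_iff (a : ℤ) (q : ℂ) :
    HPer s p p' w X X' H' a q ↔ q = (pblk p (X * Zr s p' X' H') a).det := by
  have hp : ∀ j : {j : Fin n // p j = a}, p' (Fin.rev j.1) = w - a := by
    intro j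
    rw [h.hp, j.2]
  constructor
  · rintro ⟨z, hz, hk, rfl⟩
    congr 1
    ext i j
    have h1 : z j = zc p' X' H' (Fin.rev j.1) := by
      apply z_unique h.unit' h.fil' h.int' (j := Fin.rev j.1)
      · rw [hp]
        exact hz j
      · exact (zc_spec h.unit' h.fil' (Fin.rev j.1)).1
      · intro k hkj
        rw [(zc_spec h.unit' h.fil' (Fin.rev j.1)).2 k hkj]
        exact hk j k (by rw [← hp j]; exact hkj)
    simp only [of_apply]
    rw [h1]
    rfl
  · rintro rfl
    refine ⟨fun j => zc p' X' H' (Fin.rev j.1), ?_, ?_, rfl⟩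
    · intro j
      have h1 := (zc_spec h.unit' h.fil' (Fin.rev j.1)).1
      rwa [hp] at h1
    · intro j k hk
      exact (zc_spec h.unit' h.fil' (Fin.rev j.1)).2 k (by rw [hp]; exact hk)

include h in
theorem hper_ne (a : ℤ) : (pblk p (X * Zr s p' X' H') a).det ≠ 0 := by
  have h1 := det_blocks (Zr_low h)
  have h2 : (X * Zr s p' X' H').det ≠ 0 := by
    rw [det_mul]
    exact (h.unit.mul (Zr_unit h)).ne_zero
  by_cases ha : a ∈ Finset.univ.image p
  · intro h3
    apply h2
    rw [h1]
    exact Finset.prod_eq_zero ha h3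
  · haveI : IsEmpty {j : Fin n // p j = a} := ⟨fun j => ha (Finset.mem_image.mpr ⟨j.1,
      Finset.mem_univ _, j.2⟩)⟩
    rw [det_isEmpty]
    exact one_ne_zero

end Pool.Agent.MP100fe7U
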