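import Mathlib

/-!
Betti - de Rham data of motives `M i` over number fields `F i` with coefficients in a number field
`E`, algebraic representations of the `L`-group of `∏ i, Res_{F i/ℚ} GL(n i)`, and the Deligne
periods of the motives over `ℚ` obtained from them.
-/

namespace Pool.Agent.MP100fe7U

open Matrix

/-- Equality of embeddings is decided classically. -/
noncomputable instance instDecEqEmb (F E : Type) [Field F] [Field E] : DecidableEq (F →+* E) :=
  Classical.decEq _

section fields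

variable {ι : Type} (F : ι → Type) [∀ i, Field (F i)] (E : Type) [Field E]

/-- The embeddings of the field `F i` into `E`. -/
abbrev Hm (i : ι) : Type := F i →+* E

/-- The embeddings of the fields `F i` into `E`. -/
abbrev Emb : Type := Sigma (Hm F E)

/-- `E` contains the Galois closures of the `F i`: for every embedding `τ` of `E`, every embedding
of `F i` into `ℂ` is of the form `τ ∘ φ`. -/
def Split : Prop := ∀ (τ : E →+* ℂ) (i : ι) (σ : Hm F ℂ i), ∃ φ : Hm F E i, τ.comp φ = σ

/-- The Galois group of the compositum of the Galois closures of the `F i`, as a group of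
permutations of the embeddings `F i → E`: it is generated by the permutations `g` with
`τ ∘ g φ = τ' ∘ φ` for all `φ`, where `τ, τ' : E → ℂ` are embeddings. -/
def Gal : Subgroup (∀ i, Equiv.Perm (Hm F E i)) :=
  Subgroup.closure {g | ∃ τ τ' : E →+* ℂ, ∀ i φ, τ.comp (g i φ) = τ'.comp φ}

variable {F E}

/-- The permutation `g` with `τ ∘ g φ = τ' ∘ φ` for all `φ`. -/
noncomputable def galEquiv (hE : Split F E) (τ τ' : E →+* ℂ) (i : ι) :
    Equiv.Perm (Hm F E i) where
  toFun φ := (hE τ i (τ'.comp φ)).choose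
  invFun φ := (hE τ' i (τ.comp φ)).choose
  left_inv φ := by
    apply RingHom.ext
    intro x
    apply τ'.injective
    have h1 := (hE τ' i (τ.comp (hE τ i (τ'.comp φ)).choose)).choose_spec
    have h2 := (hE τ i (τ'.comp φ)).choose_spec
    have h3 := RingHom.congr_fun (h1.trans h2) x
    exact h3
  right_inv φ := by
    apply RingHom.ext
    intro x
    apply τ.injective
    have h1 := (hE τ i (τ'.comp (hE τ' i (τ.comp φ)).choose)).choose_spec
    have h2 := (hE τ' i (τ.comp φ)).choose_spec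
    have h3 := RingHom.congr_fun (h1.trans h2) x
    exact h3

theorem galEquiv_spec (hE : Split F E) (τ τ' : E →+* ℂ) (i : ι) (φ : Hm F E i) :
    τ.comp (galEquiv hE τ τ' i φ) = τ'.comp φ := (hE τ i (τ'.comp φ)).choose_spec

/-- The element `g` of the Galois group with `τ ∘ g φ = τ' ∘ φ` for all `φ`. -/
noncomputable def galElt (hE : Split F E) (τ τ' : E →+* ℂ) : Gal F E :=
  ⟨fun i => galEquiv hE τ τ' i,
    Subgroup.subset_closure ⟨τ, τ', fun i φ => galEquiv_spec hE τ τ' i φ⟩⟩

/-- The complex conjugation of `ℂ` as an element of the Galois group, `ℂ` seen through `τ`: the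
element `c` with `τ ∘ c φ = conj ∘ τ ∘ φ` for all `φ`. -/
noncomputable def conjElt (hE : Split F E) (τ : E →+* ℂ) : Gal F E :=
  galElt hE τ ((starRingEnd ℂ).comp τ)

/-- The image of the embedding `q` under the element `g` of the Galois group. -/
abbrev act (g : Gal F E) (q : Emb F E) : Emb F E := ⟨q.1, g.1 q.1 q.2⟩

/-- The embedding `τ ∘ φ : F i → ℂ`, if `q` is the embedding `φ` of `F i`. -/
abbrev toC (τ : E →+* ℂ) (q : Emb F E) : Emb F ℂ := ⟨q.1, τ.comp q.2⟩

end fields

/-- The embedding `φ'` is the complex conjugate of the embedding `φ`, at the embedding `τ` of `E`.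
In particular `IsConj τ φ φ` says that `τ ∘ φ` is real. -/
def IsConj {F E : Type} [Field F] [Field E] (τ : E →+* ℂ) (φ φ' : F →+* E) : Prop :=
  τ.comp φ' = (starRingEnd ℂ).comp (τ.comp φ)

noncomputable instance instDecIsConj {F E : Type} [Field F] [Field E] (τ : E →+* ℂ)
    (φ φ' : F →+* E) : Decidable (IsConj τ φ φ') := Classical.propDecidable _

/-- The type of a motive of rank `n` over `F`, coefficients in `E`, pure of weight `w`. In the bases
of the Betti realisations `M_σ`, `σ : F → ℂ`, the map `F_∞ : M_σ → M_{conj ∘ σ}` is the diagonal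
matrix with the entries `sgn σ j`, which are `1` or `-1`. In the basis of the `φ`-part `M_{DR, φ}` of
the `F ⊗ E`-module `M_DR`, `φ : F → E`, which is adapted to the Hodge filtration, the `j`-th vector
has Hodge index `p φ j`, and the bases are numbered so that `p φ' (rev j) = w - p φ j` if `φ'` is a
complex conjugate of `φ` (numbering them by increasing Hodge index will do). If `τ ∘ φ` is real, then
`F_∞` exchanges the Hodge components `a` and `w - a`, so both its eigenspaces have at least as many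
basis vectors as the part of `M_{DR, φ}` with Hodge index `< w / 2`. -/
structure MType (F E : Type) [Field F] [Field E] (n : ℕ) (w : ℤ) where
  /-- the signs of `F_∞` -/
  sgn : (F →+* ℂ) → Fin n → ℤ
  sgn_eq : ∀ σ j, sgn σ j = 1 ∨ sgn σ j = -1
  sgn_conj : ∀ σ j, sgn ((starRingEnd ℂ).comp σ) j = sgn σ j
  /-- the Hodge indices of the adapted bases of the `M_{DR, φ}` -/
  p : (F →+* E) → Fin n → ℤ
  p_conj : ∀ (τ : E →+* ℂ) (φ φ' : F →+* E), IsConj τ φ φ' → ∀ j, p φ' (Fin.rev j) = w - p φ j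
  le_card : ∀ (τ : E →+* ℂ) (φ : F →+* E), IsConj τ φ φ → ∀ δ : ℤ, δ = 1 ∨ δ = -1 →
    Fintype.card {j // 2 * p φ j < w} ≤ Fintype.card {j // sgn (τ.comp φ) j = δ}

/-- At the real embedding `τ ∘ φ`, one of the eigenspaces of `F_∞` has as many basis vectors as the
part of Hodge index `< w / 2`, that is, `F_∞` is a scalar (or `0`) on the Hodge component
`w / 2`. -/
def MType.IsScalar {F E : Type} [Field F] [Field E] {n : ℕ} {w : ℤ} (T : MType F E n w)
    (τ : E →+* ℂ) (φ : F →+* E) : Prop :=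
  ∃ δ : ℤ, (δ = 1 ∨ δ = -1) ∧
    Fintype.card {j // T.sgn (τ.comp φ) j = δ} = Fintype.card {j // 2 * T.p φ j < w}

noncomputable instance instDecIsScalar {F E : Type} [Field F] [Field E] {n : ℕ} {w : ℤ}
    (T : MType F E n w) (τ : E →+* ℂ) (φ : F →+* E) : Decidable (T.IsScalar τ φ) :=
  Classical.propDecidable _

/-- The Hodge indices of `M_{DR, φ}`. -/
def MType.indices {F E : Type} [Field F] [Field E] {n : ℕ} {w : ℤ} (T : MType F E n w)
    (φ : F →+* E) : Finset ℤ := Finset.univ.image (T.p φ)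

/-- The Hodge indices of `M_{DR, φ}` below `w / 2`. -/
def MType.lowIndices {F E : Type} [Field F] [Field E] {n : ℕ} {w : ℤ} (T : MType F E n w)
    (φ : F →+* E) : Finset ℤ := (T.indices φ).filter fun a => 2 * a < w

/-- The basis vectors of `M_{DR, φ}` with Hodge index `a`, i.e. (the index set of) an `E`-basis of
`Gr_F^a M_{DR, φ}`. -/
abbrev MType.Block {F E : Type} [Field F] [Field E] {n : ℕ} {w : ℤ} (T : MType F E n w)
    (φ : F →+* E) (a : ℤ) : Type := {j : Fin n // T.p φ j = a}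

/-- The Betti - de Rham data of a motive of type `T` over `F` with coefficients in `E`. For an
embedding `τ : E → ℂ` and `σ = τ ∘ φ`, `comp τ φ` is the matrix of the comparison isomorphism
`M_σ ⊗_{E, τ} ℂ → M_{DR, φ} ⊗_{E, τ} ℂ`, and `hodge τ φ a` is the Hodge component
`M_σ^{a, w-a} ⊆ M_σ ⊗_{E, τ} ℂ`. The map `F_∞ : M_σ → M_{conj ∘ σ}` maps `M_σ^{a, w-a}` to
`M_{conj ∘ σ}^{w-a, a}`, and the comparison isomorphism maps the sum of the `M_σ^{b, w-b}`,
`b ≥ a`, onto `F^a M_{DR, φ} ⊗ ℂ`, which is spanned by the basis vectors `j` with `p φ j ≥ a`. -/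
structure Datum {F E : Type} [Field F] [Field E] {n : ℕ} {w : ℤ} (T : MType F E n w) where
  /-- the matrices of the comparison isomorphism -/
  comp : (E →+* ℂ) → (F →+* E) → Matrix (Fin n) (Fin n) ℂ
  comp_unit : ∀ τ φ, IsUnit (comp τ φ).det
  /-- the Hodge decomposition -/
  hodge : (E →+* ℂ) → (F →+* E) → ℤ → Submodule ℂ (Fin n → ℂ)
  internal : ∀ τ φ, DirectSum.IsInternal (hodge τ φ)
  hodge_conj : ∀ τ φ φ', IsConj τ φ φ' → ∀ (a : ℤ) (x : Fin n → ℂ), x ∈ hodge τ φ a →
    (fun j => (T.sgn (τ.comp φ) j : ℂ) * x j) ∈ hodge τ φ' (w - a)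
  fil_hodge : ∀ τ φ (a : ℤ) (y : Fin n → ℂ),
    y ∈ (⨆ b, ⨆ (_ : a ≤ b), hodge τ φ b).map (comp τ φ).mulVecLin ↔ ∀ j, T.p φ j < a → y j = 0

namespace Datum

variable {F E : Type} [Field F] [Field E] {n : ℕ} {w : ℤ} {T : MType F E n w} (M : Datum T)

/-- `q` is the determinant of `F_∞ : M_{σ'}^{w-a, a} → M_σ^{a, w-a}`, `σ = τ ∘ φ`,
`σ' = conj ∘ σ = τ ∘ φ'`, in the `E`-bases of `Gr_F^{w-a} M_{DR, φ'}` and `Gr_F^a M_{DR, φ}`, where
the Hodge components are identified with the graded pieces by the comparison isomorphism: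
`z j ∈ M_{σ'}^{w-a, a}` is the vector whose class in `Gr_F^{w-a}` is that of the basis vector
`rev j`, and `q` is the determinant of the coordinates of the `F_∞ (z j)` in `Gr_F^a`. -/
def IsHodgePeriod (τ : E →+* ℂ) (φ : F →+* E) (a : ℤ) (q : ℂ) : Prop :=
  ∃ φ' : F →+* E, IsConj τ φ φ' ∧ ∃ z : T.Block φ a → Fin n → ℂ,
    (∀ j, z j ∈ M.hodge τ φ' (w - a)) ∧
    (∀ (j : T.Block φ a) (k : Fin n), T.p φ' k ≤ w - a →
      (M.comp τ φ').mulVec (z j) k = if k = Fin.rev j.1 then 1 else 0) ∧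
    q = (Matrix.of fun i j : T.Block φ a =>
      (M.comp τ φ).mulVec (fun k => (T.sgn (τ.comp φ') k : ℂ) * z j k) i.1).det

/-- `c` is the Deligne period of the motive at the real embedding `σ = τ ∘ φ`: the determinant of
`M_σ^δ ⊗ ℂ → (M_{DR, φ} / F^a M_{DR, φ}) ⊗ ℂ`, where `M_σ^δ` is the eigenspace of `F_∞` for `δ`,
spanned by the basis vectors `j` with `sgn σ j = δ`, and `F^a` is a step of the Hodge filtration with
the right dimension. -/
def IsRealPeriod (τ : E →+* ℂ) (φ : F →+* E) (δ : ℤ) (c : ℂ) : Prop :=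
  ∃ (a : ℤ) (e : {j // T.sgn (τ.comp φ) j = δ} ≃o {j // T.p φ j < a}),
    c = ((M.comp τ φ).submatrix (fun j : {j // T.sgn (τ.comp φ) j = δ} => (e j).1)
      (fun j : {j // T.sgn (τ.comp φ) j = δ} => j.1)).det

end Datum

/-- For every embedding `τ` of `E`, the set `Φ τ` contains one embedding of each pair of different
complex conjugate embeddings `φ`, `φ'` (at `τ`) of the `F i`, and no embedding which is real. -/
def IsChoice {ι : Type} {F : ι → Type} [∀ i, Field (F i)] {E : Type} [Field E]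
    (Φ : (E →+* ℂ) → Finset (Emb F E)) : Prop :=
  ∀ (τ : E →+* ℂ) (i : ι) (φ φ' : Hm F E i), IsConj τ φ φ' →
    ((⟨i, φ⟩ : Emb F E) ∈ Φ τ ↔ φ' ≠ φ ∧ (⟨i, φ'⟩ : Emb F E) ∉ Φ τ)

section rep

variable {ι : Type} (F : ι → Type) [∀ i, Field (F i)] (E : Type) [Field E]

/-- A family of square matrices `A ⟨i, φ⟩`, one for each `i : ι` and each embedding
`φ : F i → E`. -/
abbrev Fam (n : ι → ℕ) (S : Type) : Type :=
  ∀ q : Emb F E, Matrix (Fin (n q.1)) (Fin (n q.1)) S

/-- The basis vectors of all the spaces. -/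
abbrev Tot (n : ι → ℕ) : Type := Σ q : Emb F E, Fin (n q.1)

/-- The entries of such a family. -/
abbrev Ent (n : ι → ℕ) : Type := Σ q : Emb F E, Fin (n q.1) × Fin (n q.1)

variable {F E}

/-- The value at a family `A` of matrices over an `E`-algebra `S` of a matrix of polynomials over
`E` in the entries of such a family. -/
noncomputable def evalMat {n : ι → ℕ} {κ : Type}
    (mat : Matrix κ κ (MvPolynomial (Ent F E n) E))
    (S : Type) [CommRing S] [Algebra E S] (A : Fam F E n S) : Matrix κ κ S :=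
  mat.map (MvPolynomial.aeval fun t => A t.1 t.2.1 t.2.2)

variable (F E)

/-- An algebraic representation over `E` of `(∏ i, GL(n i)^{Hom(F i, E)}) ⋊ Gal F E`, written in a
basis of weight vectors of the first factor. The family `A` acts by `∏ q, det (A q) ^ (-(twist i))`
(`q = ⟨i, φ⟩`) times the value at `A` of the polynomial matrix `mat`; the family of diagonal
matrices `diag (x_t)` acts by `mat` on the basis vector `s` as `∏ t, x_t ^ (wt s t)`, and `mat` is
homogeneous of degree `deg i` in the matrices with first index `i`. The element `g` of the Galois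
group acts by the matrix `perm g`, and it maps the `φ`-factor to the `g φ`-factor. -/
structure Rep [Fintype ι] [∀ i, NumberField (F i)] [NumberField E] (n : ι → ℕ) (κ : Type)
    [Fintype κ] [DecidableEq κ] where
  /-- the polynomial matrix -/
  mat : Matrix κ κ (MvPolynomial (Ent F E n) E)
  /-- exponents of the inverse determinants -/
  twist : ι → ℕ
  /-- the weights of the basis vectors for the polynomial part -/
  wt : κ → Tot F E n → ℕ
  /-- the degrees of the polynomial part -/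
  deg : ι → ℕ
  sum_wt : ∀ s i, ∑ φ : Hm F E i, ∑ j, wt s ⟨⟨i, φ⟩, j⟩ = deg i
  map_mul : ∀ (S : Type) [CommRing S] [Algebra E S] (A B : Fam F E n S),
    evalMat mat S (A * B) = evalMat mat S A * evalMat mat S B
  map_diagonal : ∀ (S : Type) [CommRing S] [Algebra E S] (x : Tot F E n → S),
    evalMat mat S (fun q => diagonal fun j => x ⟨q, j⟩) = diagonal fun s => ∏ t, x t ^ wt s t
  /-- the action of the Galois group -/
  perm : Gal F E → Matrix κ κ E
  perm_one : perm 1 = 1
  perm_mul : ∀ g h : Gal F E, perm (g * h) = perm g * perm h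
  perm_eval : ∀ (g : Gal F E) (S : Type) [CommRing S] [Algebra E S] (A : Fam F E n S),
    (perm g).map (algebraMap E S) * evalMat mat S (fun q => A (act g q)) =
      evalMat mat S A * (perm g).map (algebraMap E S)

end rep

namespace Rep

variable {ι : Type} [Fintype ι] {F : ι → Type} [∀ i, Field (F i)] [∀ i, NumberField (F i)]
  {E : Type} [Field E] [NumberField E] {n : ι → ℕ} {κ : Type} [Fintype κ] [DecidableEq κ]
  (ρ : Rep F E n κ)

/-- The matrix by which a family of invertible matrices acts. -/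
noncomputable def ev (S : Type) [CommRing S] [Algebra E S] (A : Fam F E n S) : Matrix κ κ S :=
  Ring.inverse (∏ q, (A q).det ^ ρ.twist q.1) • evalMat ρ.mat S A

/-- The weight of the basis vector `s`. -/
def weight (s : κ) (t : Tot F E n) : ℤ := (ρ.wt s t : ℤ) - ρ.twist t.1.1

variable {w : ι → ℤ} (T : ∀ i, MType (F i) E (n i) (w i))

/-- The Hodge index of the `s`-th basis vector of the de Rham realisation of `N = ρ(M)`, `M i` of
type `T i`. -/
noncomputable def hodgeIdx (s : κ) : ℤ := ∑ t : Tot F E n, ρ.weight s t * (T t.1.1).p t.1.2 t.2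

/-- The weight of the motive `N = ρ(M)`. -/
noncomputable def motWeight (w : ι → ℤ) : ℤ :=
  ∑ i, ((ρ.deg i : ℤ) - ρ.twist i * n i * Fintype.card (Hm F E i)) * w i

/-- `N = ρ(M)` has no classes of type `(k/2, k/2)`, `k` the weight of `N`. -/
def NoMiddle : Prop := ∀ s, 2 * ρ.hodgeIdx T s ≠ ρ.motWeight w

/-- The matrix of `F_∞` on `N_B`: `M_σ`, `σ = τ₀ ∘ φ`, is the `φ`-factor, the diagonal matrices of
the signs act, and then the complex conjugation as an element of the Galois group. -/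
noncomputable def frob (hE : Split F E) (τ₀ : E →+* ℂ) : Matrix κ κ E :=
  ρ.perm (conjElt hE τ₀) *
    ρ.ev E (fun q => diagonal fun j => ((T q.1).sgn (τ₀.comp q.2) j : E))

/-- The columns of `A` are an `E`-basis of `N_B^ε`, the eigenspace of `F_∞` for `ε`. -/
def IsBettiBasis (hE : Split F E) (τ₀ : E →+* ℂ) (ε : E) {d : ℕ} (A : Matrix κ (Fin d) E) :
    Prop :=
  Function.Injective A.mulVec ∧
    ∀ v : κ → E, v ∈ Set.range A.mulVec ↔ (ρ.frob T hE τ₀).mulVec v = ε • v

/-- The basis vectors of `N_DR` with Hodge index `< a`, a basis of `N_DR / F^a N_DR`. -/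
noncomputable def lowPart (a : ℤ) : Finset κ := Finset.univ.filter fun s => ρ.hodgeIdx T s < a

/-- `F^a N_DR` is the step `F^ε N` of the Hodge filtration: `N_B^ε` has an `E`-basis with as many
elements as that of `N_DR / F^a N_DR`. -/
def IsStep (hE : Split F E) (τ₀ : E →+* ℂ) (ε : E) (a : ℤ) : Prop :=
  ∃ A : Matrix κ (Fin (ρ.lowPart T a).card) E, ρ.IsBettiBasis T hE τ₀ ε A

/-- `u` is the determinant of the element `g` of the Galois group on `N_B^ε`. -/
def IsGalDet (hE : Split F E) (τ₀ : E →+* ℂ) (ε : E) (g : Gal F E) (u : E) : Prop :=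
  ∃ (d : ℕ) (A : Matrix κ (Fin d) E) (V : Matrix (Fin d) (Fin d) E),
    ρ.IsBettiBasis T hE τ₀ ε A ∧ ρ.perm g * A = A * V ∧ u = V.det

/-- The exponents in the closed formula. For a real embedding `σ = τ₀ ∘ φ` and a basis vector `j` of
`M_σ` on which `F_∞` is `1`, the number `2 A σ` is the trace of `weight * (1 + ε F_∞)` on `N_B`,
where the weight is that at `(φ, j)` (so `A σ` is the exponent of the determinant on `GL(M_σ^+)` in
`det N_B^ε`), and `B σ` is the same for `F_∞ = -1`. The number `S (φ, a)` is the sum over the basis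
of `N_DR / F^ε N` of the weights at `(φ, j)`, where `j` has Hodge index `a`, and `k` is the sum of
these numbers for a pair of complex conjugate embeddings. If `F_∞` is not a scalar on the Hodge
component `w / 2`, then `A` and `B` agree. -/
structure IsExponents (hE : Split F E) (τ₀ : E →+* ℂ) (ε : E) (a₀ : ℤ)
    (A B : Emb F ℂ → ℤ) (k : ι → ℤ) (S : Emb F E → ℤ → ℤ) : Prop where
  real_pos : ∀ (q : Emb F E) (j : Fin (n q.1)), IsConj τ₀ q.2 q.2 →
    (T q.1).sgn (τ₀.comp q.2) j = 1 → ((2 * A (toC τ₀ q) : ℤ) : E) =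
      ∑ s, (ρ.weight s ⟨q, j⟩ : E) * (1 + ε * ρ.frob T hE τ₀ s s)
  real_neg : ∀ (q : Emb F E) (j : Fin (n q.1)), IsConj τ₀ q.2 q.2 →
    (T q.1).sgn (τ₀.comp q.2) j = -1 → ((2 * B (toC τ₀ q) : ℤ) : E) =
      ∑ s, (ρ.weight s ⟨q, j⟩ : E) * (1 + ε * ρ.frob T hE τ₀ s s)
  complex : ∀ (i : ι) (τ : E →+* ℂ) (φ φ' : Hm F E i) (j : Fin (n i)), IsConj τ φ φ' →
    φ' ≠ φ → k i = ∑ s ∈ ρ.lowPart T a₀,
      (ρ.weight s ⟨⟨i, φ⟩, j⟩ + ρ.weight s ⟨⟨i, φ'⟩, Fin.rev j⟩)
  low : ∀ (q : Emb F E) (j : Fin (n q.1)),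
    S q ((T q.1).p q.2 j) = ∑ s ∈ ρ.lowPart T a₀, ρ.weight s ⟨q, j⟩
  real_eq : ∀ (τ : E →+* ℂ) (q : Emb F E), IsConj τ q.2 q.2 → ¬ (T q.1).IsScalar τ q.2 →
    A (toC τ q) = B (toC τ q)

/-- If complex conjugation, the signs and `Φ` are the same at `τ` and at `τ'`, then `u τ / u τ'` is
the determinant on `N_B^ε` of the element `g_{τ'}⁻¹ g_τ` of the Galois group, where
`τ ∘ g_τ φ = τ₀ ∘ φ` for all `φ`. -/
def IsGalRel (hE : Split F E) (τ₀ : E →+* ℂ) (ε : E) (Φ : (E →+* ℂ) → Finset (Emb F E))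
    (u : (E →+* ℂ) → E) : Prop :=
  ∀ τ τ' : E →+* ℂ, conjElt hE τ = conjElt hE τ' →
    (∀ q : Emb F E, (T q.1).sgn (τ.comp q.2) = (T q.1).sgn (τ'.comp q.2)) →
    Φ τ = Φ τ' → ∀ v : E,
      ρ.IsGalDet T hE τ₀ ε ((galElt hE τ' τ₀)⁻¹ * galElt hE τ τ₀) v ↔ u τ = u τ' * v

variable {T} (M : ∀ i, Datum (T i))

/-- The comparison matrix of `N = ρ(M)` at `τ : E → ℂ`: `M_{σ}`, `σ = τ₀ ∘ φ₀`, is the `φ₀`-factor
of the Betti side, and the `φ`-factor of the de Rham side, `τ ∘ φ = σ`, so first the element `g` of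
the Galois group with `τ ∘ g φ₀ = τ₀ ∘ φ₀` acts, and then the family of the comparison matrices
`comp τ φ` of the `M i`. -/
noncomputable def compN (hE : Split F E) (τ₀ τ : E →+* ℂ) : Matrix κ κ ℂ :=
  letI := τ.toAlgebra
  ρ.ev ℂ (fun q => (M q.1).comp τ q.2) * (ρ.perm (galElt hE τ τ₀)).map τ

/-- `x : Hom(E, ℂ) → ℂ` is a Deligne period `c^+(N)` (for `ε = 1`) or `c^-(N)` (for `ε = -1`) in
`E ⊗ ℂ = ℂ^{Hom(E, ℂ)}`. The motive `N = ρ(M)` over `ℚ` has `N_B = E^κ`, where `M_σ`, `σ = τ₀ ∘ φ`,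
is the `φ`-factor of the family, `N_DR = E^κ`, and `F^a N_DR` is spanned by the basis vectors `s`
with `hodgeIdx s ≥ a`. The columns of `A` are an `E`-basis of `N_B^ε`, the matrix `B` is the
projection of `N_DR` onto `N_DR / F^ε N`, written in an `E`-basis of the quotient, where `F^ε N` is
the step of the Hodge filtration with `dim N_DR / F^ε N = dim N_B^ε`, and `x` is the determinant of
`N_B^ε ⊗ ℂ → (N_DR / F^ε N) ⊗ ℂ` in these `E`-bases. -/
def IsPeriod (hE : Split F E) (τ₀ : E →+* ℂ) (ε : E) (x : (E →+* ℂ) → ℂ) : Prop :=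
  ∃ (a : ℤ) (d : ℕ) (A : Matrix κ (Fin d) E) (B : Matrix (Fin d) κ E),
    ρ.IsBettiBasis T hE τ₀ ε A ∧
    Function.Surjective B.mulVec ∧
    (∀ v : κ → E, B.mulVec v = 0 ↔ ∀ s, ρ.hodgeIdx T s < a → v s = 0) ∧
    ∀ τ, x τ = (B.map τ * ρ.compN M hE τ₀ τ * A.map τ).det

/-- The factor of the closed formula for the period of `N` at `τ`, for the embedding `q = ⟨i, φ⟩`: a
monomial in the periods `c q = c^+`, `d q = c^-`, `v q a = Q_a` of `M i` at `φ`, if `τ ∘ φ` is real,
a monomial in the `v q a` and the determinant of the comparison matrix at the complex conjugate of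
`φ`, if `φ` is one of the chosen embeddings, and `1` for the complex conjugates of these. -/
noncomputable def factor [DecidableEq ι] (M : ∀ i, Datum (T i)) (hE : Split F E)
    (Φ : (E →+* ℂ) → Finset (Emb F E)) (A B : Emb F ℂ → ℤ) (k : ι → ℤ) (S : Emb F E → ℤ → ℤ)
    (τ : E →+* ℂ) (c d : Emb F E → ℂ) (v : Emb F E → ℤ → ℂ) (q : Emb F E) : ℂ :=
  if IsConj τ q.2 q.2 then
    if (T q.1).IsScalar τ q.2 then
      c q ^ A (toC τ q) * d q ^ B (toC τ q) *
        ∏ a ∈ (T q.1).lowIndices q.2, v q a ^ (S q a - A (toC τ q) - B (toC τ q))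
    else ((M q.1).comp τ q.2).det ^ A (toC τ q) *
      ∏ a ∈ (T q.1).lowIndices q.2, v q a ^ (S q a - A (toC τ q))
  else if q ∈ Φ τ then
    ((M q.1).comp τ (act (conjElt hE τ) q).2).det ^ k q.1 *
      ∏ a ∈ (T q.1).indices q.2, v q a ^ S q a
  else 1

end Rep

end Pool.Agent.MP100fe7U
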