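import Pool.Agent.Lib.MP_100fe7_ntU.Torus

/-!
The exponents do not depend on the choices.
-/

set_option linter.unusedSectionVars false

namespace Pool.Agent.MP100fe7U

open Matrix MP100fe7L
open MP100fe7T (detP detP_diagonal)

variable {ι : Type} [Fintype ι] [DecidableEq ι] {F : ι → Type} [∀ i, Field (F i)]
  [∀ i, NumberField (F i)] {E : Type} [Field E] [NumberField E] {n : ι → ℕ} {κ : Type}
  [Fintype κ] [DecidableEq κ] (ρ : Rep F E n κ) {w : ι → ℤ} (T : ∀ i, MType (F i) E (n i) (w i))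
  (hE : Split F E) (Φ : (E →+* ℂ) → Finset (Emb F E)) (hΦ : PhiOk Φ) (τ₀ : E →+* ℂ)

theorem cT_cT {c : Gal F E} (hc : c * c = 1) (t : Tot F E n) : cT c (cT c t) = t := by
  obtain ⟨q, j⟩ := t
  change (⟨act (c * c) q, j⟩ : Tot F E n) = ⟨q, j⟩
  rw [hc]
  rfl

theorem xT_cT {c : Gal F E} (hc : c * c = 1) (t : Tot F E n) : xT c (cT c t) = xT c t := by
  funext t'
  unfold xT
  rw [cT_cT hc]
  simp only [or_comm]

/-- transport of the torus elements -/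
theorem pull_xT' {g c c' : Gal F E} (hg : g * c = c' * g) (q : Emb F E) (j : Fin (n q.1)) :
    Rep.pull g (fdiag (xT c' ⟨act g q, j⟩) : Fam F E n (Polynomial E)) =
      fdiag (xT c ⟨q, j⟩) := by
  funext q'
  unfold Rep.pull fdiag
  congr 1
  funext j'
  unfold xT
  have key : ∀ q₁ q₂ : Emb F E, ∀ (j₁ : Fin (n q₁.1)) (j₂ : Fin (n q₂.1)),
      ((⟨act g q₁, j₁⟩ : Tot F E n) = ⟨act g q₂, j₂⟩) ↔
        ((⟨q₁, j₁⟩ : Tot F E n) = ⟨q₂, j₂⟩) := by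
    intro q₁ q₂ j₁ j₂
    constructor
    · intro h
      have h1 : q₁ = q₂ := act_injective _ (congrArg (fun t : Tot F E n => t.1) h)
      subst h1
      have h2 := eq_of_heq (Sigma.mk.inj_iff.mp h).2
      rw [h2]
    · intro h
      have h1 : q₁ = q₂ := congrArg (fun t : Tot F E n => t.1) h
      subst h1
      have h2 := eq_of_heq (Sigma.mk.inj_iff.mp h).2
      rw [h2]
  have h1 : (cT c' ⟨act g q, j⟩ : Tot F E n) = ⟨act g (act c q), j⟩ := by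
    change (⟨act (c' * g) q, j⟩ : Tot F E n) = ⟨act (g * c) q, j⟩
    rw [hg]
  rw [h1]
  have h2 := key q' q j' j
  have h3 := key q' (act c q) j' j
  have h4 : ((⟨act g q', j'⟩ : Tot F E n) = ⟨act g q, j⟩ ∨
      (⟨act g q', j'⟩ : Tot F E n) = ⟨act g (act c q), j⟩) ↔
      ((⟨q', j'⟩ : Tot F E n) = ⟨q, j⟩ ∨ (⟨q', j'⟩ : Tot F E n) = cT c ⟨q, j⟩) :=
    or_congr h2 h3
  exact if_congr h4 rfl rfl

section exps

variable {d : ℕ} {A : Matrix κ (Fin d) E} {ε : E} (hε : ε * ε = 1)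
  (hA : IsEig (ρ.Fr (conjElt hE τ₀) (sD (sT T τ₀) E)) ε A)
  {B : Matrix (Fin d) κ E} (hB : Function.Surjective B.mulVec) {a₀ : ℤ}
  (hker : ∀ v : κ → E, B.mulVec v = 0 ↔ ∀ s, isLo ρ T a₀ s → v s = 0)
  {L : Matrix (Fin d) κ E} (hL : L * A = 1) {m : Emb F E → ℤ → ℕ}
  (hm : ∀ t : Tot F E n, (eig ρ L A (Polynomial E) (fdiag (xT (conjElt hE τ₀) t))).det =
      Polynomial.X ^ m t.1 (cl (conjElt hE τ₀) (sT T τ₀) t)) (τ : E →+* ℂ)

theorem cl_complex (i : ι) (φ : F i →+* E) (h : ¬ IsConj τ φ φ) (j : Fin (n i)) :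
    cl (conjElt hE τ) (sT T τ) (⟨⟨i, φ⟩, j⟩ : Tot F E n) = 0 := by
  unfold cl
  rw [if_neg]
  intro h4
  exact h ((act_eq_iff hE τ ⟨i, φ⟩).mp h4)

theorem cl_real (i : ι) (φ : F i →+* E) (h : IsConj τ φ φ) (j : Fin (n i)) :
    cl (conjElt hE τ) (sT T τ) (⟨⟨i, φ⟩, j⟩ : Tot F E n) = (T i).sgn (τ.comp φ) j := by
  unfold cl
  rw [if_pos ((act_eq_iff hE τ ⟨i, φ⟩).mpr h)]
  rfl

include hm in
theorem m_conj (i : ι) {φ φ' : F i →+* E} (hc : IsConj τ₀ φ φ') (hne : φ' ≠ φ)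
    (j : Fin (n i)) : m ⟨i, φ'⟩ 0 = m ⟨i, φ⟩ 0 := by
  have hr : ¬ IsConj τ₀ φ φ := by
    intro h
    apply hne
    rw [(isConj_iff hE τ₀ i φ φ').mp hc]
    exact (conj_eq_iff hE τ₀ i φ).mpr h
  have hr' : ¬ IsConj τ₀ φ' φ' := fun h => hne (real_conj hc h)
  have h1 := hm ⟨⟨i, φ⟩, j⟩
  have h2 := hm ⟨⟨i, φ'⟩, j⟩
  have h3 : (⟨⟨i, φ'⟩, j⟩ : Tot F E n) = cT (conjElt hE τ₀) ⟨⟨i, φ⟩, j⟩ := by
    rw [(isConj_iff hE τ₀ i φ φ').mp hc]
    rfl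
  rw [cl_complex T hE τ₀ i φ hr j] at h1
  rw [cl_complex T hE τ₀ i φ' hr' j] at h2
  rw [h3, xT_cT (conjElt_sq hE τ₀), h1] at h2
  have h6 := congrArg Polynomial.natDegree h2
  rw [Polynomial.natDegree_X_pow, Polynomial.natDegree_X_pow] at h6
  have h7 : (⟨i, φ'⟩ : Emb F E) = (cT (conjElt hE τ₀) ⟨⟨i, φ⟩, j⟩ : Tot F E n).1 :=
    congrArg (fun t : Tot F E n => t.1) h3
  rw [h7]
  exact h6.symm

theorem isConj_gal {i : ι} {φ₀ φ : F i →+* E} (hg : (galElt hE τ τ₀).1 i φ₀ = φ) :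
    IsConj τ φ φ ↔ IsConj τ₀ φ₀ φ₀ := by
  unfold IsConj
  rw [← hg, galElt_spec]

include hε hA hB hker hL hm hΦ in
/-- The exponent at a complex place, in terms of the low part. -/
theorem exp_complex' (i : ι) (φ₀ φ φ' : F i →+* E) (hg : (galElt hE τ τ₀).1 i φ₀ = φ)
    (hc : IsConj τ φ φ') (hne : φ' ≠ φ) (j : Fin (n i)) :
    m ⟨i, φ₀⟩ 0 = ∑ s with isLo ρ T a₀ s,
      (ρ.wt s ⟨⟨i, φ⟩, j⟩ + ρ.wt s ⟨⟨i, φ'⟩, Fin.rev j⟩) := by
  by_cases hmem : (⟨i, φ⟩ : Emb F E) ∈ Φ τ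
  · exact exp_complex ρ T hE Φ hΦ τ₀ hε hA hB hker hL hm τ i φ₀ φ φ' hg hc hmem j
  · have hmem' : (⟨i, φ'⟩ : Emb F E) ∈ Φ τ := by
      by_contra h6
      exact hmem ((hΦ τ i φ φ' hc).mpr ⟨hne, h6⟩)
    let φ₀' := (conjElt hE τ₀).1 i φ₀
    have hg' : (galElt hE τ τ₀).1 i φ₀' = φ' := by
      have h1 : act (galElt hE τ τ₀ * conjElt hE τ₀) (⟨i, φ₀⟩ : Emb F E) =
          act (conjElt hE τ * galElt hE τ τ₀) ⟨i, φ₀⟩ := by
        rw [galElt_conj]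
      have h2 : (⟨i, (galElt hE τ τ₀).1 i φ₀'⟩ : Emb F E) =
          ⟨i, (conjElt hE τ).1 i ((galElt hE τ τ₀).1 i φ₀)⟩ := h1
      have h3 := eq_of_heq (Sigma.mk.inj_iff.mp h2).2
      rw [h3, hg]
      exact ((isConj_iff hE τ i φ φ').mp hc).symm
    have hne0 : φ₀' ≠ φ₀ := by
      intro h
      apply hne
      rw [← hg', h, hg]
    rw [← m_conj ρ T hE τ₀ hm i (isConj_conjElt hE τ₀ i φ₀) hne0 j,
      exp_complex ρ T hE Φ hΦ τ₀ hε hA hB hker hL hm τ i φ₀' φ' φ hg' (isConj_symm hc) hmem'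
        (Fin.rev j)]
    apply Finset.sum_congr rfl
    intro s _
    rw [Fin.rev_rev, add_comm]

/-- the product of two complex conjugations preserves the Hodge indices -/
theorem p_conj_conj (τ τ' : E →+* ℂ) (q : Emb F E) (j : Fin (n q.1)) :
    (T q.1).p (act (conjElt hE τ * conjElt hE τ') q).2 j = (T q.1).p q.2 j := by
  have h1 := (T q.1).p_conj τ' q.2 _ (isConj_conjElt hE τ' q.1 q.2) j
  have h2 := (T q.1).p_conj τ _ _ (isConj_conjElt hE τ q.1 ((conjElt hE τ').1 q.1 q.2))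
    (Fin.rev j)
  rw [Fin.rev_rev, h1] at h2
  change (T q.1).p ((conjElt hE τ).1 q.1 ((conjElt hE τ').1 q.1 q.2)) j = _
  rw [h2]
  ring

include hε hA hB hker hL hm hΦ in
/-- The exponent at the complex places only depends on the motive. -/
theorem m_const (i : ι) (φ₀ φ₁ : F i →+* E) (h0 : ¬ IsConj τ₀ φ₀ φ₀) (h1 : ¬ IsConj τ₀ φ₁ φ₁)
    (j : Fin (n i)) : m ⟨i, φ₀⟩ 0 = m ⟨i, φ₁⟩ 0 := by
  obtain ⟨τ, hτ⟩ := exists_gal hE τ₀ i φ₀ φ₁
  have hr : ¬ IsConj τ φ₁ φ₁ := by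
    rw [isConj_gal hE τ₀ τ hτ]
    exact h0
  have e1 := exp_complex' ρ T hE Φ hΦ τ₀ hε hA hB hker hL hm τ i φ₀ φ₁ _ hτ
    (isConj_conjElt hE τ i φ₁) (fun h => hr ((conj_eq_iff hE τ i φ₁).mp h)) j
  have hid : (galElt hE τ₀ τ₀).1 i φ₁ = φ₁ := by
    rw [galElt_self]
    rfl
  have e2 := exp_complex' ρ T hE Φ hΦ τ₀ hε hA hB hker hL hm τ₀ i φ₁ φ₁ _ hid
    (isConj_conjElt hE τ₀ i φ₁) (fun h => h1 ((conj_eq_iff hE τ₀ i φ₁).mp h)) j
  rw [e1, e2, Finset.sum_add_distrib, Finset.sum_add_distrib]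
  congr 1
  rw [filter_lo]
  have h3 := ρ.sum_low_gal T a₀ (conjElt hE τ * conjElt hE τ₀) (p_conj_conj T hE τ τ₀)
    (⟨i, (conjElt hE τ₀).1 i φ₁⟩ : Emb F E) (Fin.rev j)
  have h4 : act (conjElt hE τ * conjElt hE τ₀) (⟨i, (conjElt hE τ₀).1 i φ₁⟩ : Emb F E) =
      ⟨i, (conjElt hE τ).1 i φ₁⟩ := by
    have h5 : act (conjElt hE τ₀) (⟨i, (conjElt hE τ₀).1 i φ₁⟩ : Emb F E) = ⟨i, φ₁⟩ :=
      conj_conj_act hE τ₀ ⟨i, φ₁⟩
    rw [act_mul, h5]
  have h6 : ∀ s, ρ.wt s (⟨act (conjElt hE τ * conjElt hE τ₀)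
      (⟨i, (conjElt hE τ₀).1 i φ₁⟩ : Emb F E), Fin.rev j⟩ : Tot F E n) =
      ρ.wt s ⟨⟨i, (conjElt hE τ).1 i φ₁⟩, Fin.rev j⟩ := by
    intro s
    congr 1
    have h5 : (conjElt hE τ₀).1 i ((conjElt hE τ₀).1 i φ₁) = φ₁ :=
      eq_of_heq (Sigma.mk.inj_iff.mp (conj_conj_act hE τ₀ ⟨i, φ₁⟩)).2
    change (⟨⟨i, (conjElt hE τ).1 i ((conjElt hE τ₀).1 i ((conjElt hE τ₀).1 i φ₁))⟩,
      Fin.rev j⟩ : Tot F E n) = _
    rw [h5]
  rw [Finset.sum_congr rfl (fun s _ => h6 s)] at h3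
  exact h3

include hε hA hB hker hL hm hΦ in
/-- In the non scalar case the two exponents at a real place coincide. -/
theorem m_scalar (i : ι) (φ₀ φ : F i →+* E) (hg : (galElt hE τ τ₀).1 i φ₀ = φ)
    (hr : IsConj τ φ φ) (hns : ¬ (T i).IsScalar τ φ) : m ⟨i, φ₀⟩ 1 = m ⟨i, φ₀⟩ (-1) ∧
    ∀ j, 2 * (T i).p φ j = w i → m ⟨i, φ₀⟩ 1 = ∑ s with isLo ρ T a₀ s, ρ.wt s ⟨⟨i, φ⟩, j⟩ := by
  obtain ⟨j₁, hj₁, hs₁⟩ := exists_mid (realType T τ hr) hns 1 (Or.inl rfl)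
  obtain ⟨j₂, hj₂, hs₂⟩ := exists_mid (realType T τ hr) hns (-1) (Or.inr rfl)
  have e1 := exp_real ρ T hE Φ hΦ τ₀ hε hA hB hker hL hm τ i φ₀ φ hg hr j₁ hj₁
  have e2 := exp_real ρ T hE Φ hΦ τ₀ hε hA hB hker hL hm τ i φ₀ φ hg hr j₂ hj₂
  rw [hs₁] at e1
  rw [hs₂] at e2
  obtain ⟨a, ha1, ha2⟩ := detP_parabolic ρ.toPol (idx T) (isLo ρ T a₀)
    (fun s t hs ht => height_lt ρ T hs ht)
  have key : ∀ j j' : Fin (n i), 2 * (T i).p φ j = w i → 2 * (T i).p φ j' = w i →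
      ∑ s with isLo ρ T a₀ s, ρ.wt s ⟨⟨i, φ⟩, j⟩ =
        ∑ s with isLo ρ T a₀ s, ρ.wt s ⟨⟨i, φ⟩, j'⟩ := by
    intro j j' hj hj'
    have h1 := ha1 (⟨i, φ⟩ : Emb F E) j
    have h2 := ha1 (⟨i, φ⟩ : Emb F E) j'
    have h3 : idx T (⟨⟨i, φ⟩, j⟩ : Tot F E n) = idx T (⟨⟨i, φ⟩, j'⟩ : Tot F E n) := by
      change (T i).p φ j = (T i).p φ j'
      omega
    rw [h3] at h1
    exact h1.symm.trans h2
  refine ⟨?_, ?_⟩
  · rw [e1, e2]
    exact key j₁ j₂ hj₁ hj₂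
  · intro j hj
    rw [e1]
    exact key j₁ j hj₁ hj

end exps

section gal

variable {d : ℕ} {A : Matrix κ (Fin d) E} {ε : E} (hε : ε * ε = 1)
  (hA : IsEig (ρ.Fr (conjElt hE τ₀) (sD (sT T τ₀) E)) ε A)
  {L : Matrix (Fin d) κ E} (hL : L * A = 1) {g : Gal F E}
  (hg : g * conjElt hE τ₀ = conjElt hE τ₀ * g)
  (hgs : Rep.pull g (sD (sT T τ₀) E) = (sD (sT T τ₀) E : Fam F E n E))

include hε hA hL hg hgs in
/-- the Galois elements commuting with `F_∞` act on the eigenspace -/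
theorem perm_eig : ρ.perm g * A = A * (L * ρ.perm g * A) := by
  have h2 : ρ.perm g * ρ.Fr (conjElt hE τ₀) (sD (sT T τ₀) E) =
      ρ.Fr (conjElt hE τ₀) (sD (sT T τ₀) E) * ρ.perm g := ρ.Fr_gal hg hgs
  have h1 := eigen_stable (ρ.Fr_sq (conjElt_sq hE τ₀) (sD_inv (sgnOk T hE τ₀) E)) hε hA.2 hL E
    (ρ.perm g) (by
    have h3 : (ρ.Fr (conjElt hE τ₀) (sD (sT T τ₀) E)).map (algebraMap E E) =
        ρ.Fr (conjElt hE τ₀) (sD (sT T τ₀) E) := by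
      ext i j
      simp
    rw [h3, h2])
  have h3 : A.map (algebraMap E E) = A := by
    ext i j
    simp
  have h4 : L.map (algebraMap E E) = L := by
    ext i j
    simp
  rw [h3, h4] at h1
  exact h1

theorem inv_rel {g c : Gal F E} (h : g * c = c * g) : g⁻¹ * c = c * g⁻¹ := by
  have h1 : g⁻¹ * (g * c) * g⁻¹ = g⁻¹ * (c * g) * g⁻¹ := by rw [h]
  rw [inv_mul_cancel_left, mul_assoc, mul_assoc, mul_inv_cancel, mul_one] at h1
  exact h1.symm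

include hgs in
theorem inv_sgn : Rep.pull g⁻¹ (sD (sT T τ₀) E) = (sD (sT T τ₀) E : Fam F E n E) := by
  have h1 := congrArg (Rep.pull g⁻¹) hgs
  rw [pull_pull, mul_inv_cancel] at h1
  exact h1.symm

include hε hA hL hg hgs in
theorem perm_eig_unit : (L * ρ.perm g * A) * (L * ρ.perm g⁻¹ * A) = 1 := by
  have h1 := perm_eig ρ T hE τ₀ hε hA hL hg hgs
  have h2 := perm_eig ρ T hE τ₀ hε hA hL (inv_rel hg) (inv_sgn T τ₀ hgs)
  rw [Matrix.mul_assoc (L * ρ.perm g), ← h2, Matrix.mul_assoc L, ← Matrix.mul_assoc (ρ.perm g),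
    ρ.perm_mul_inv, Matrix.one_mul, hL]

include hε hA hL hg hgs in
/-- The determinant on the eigenspace is invariant under the Galois elements which commute with
`F_∞`. -/
theorem det_eig_gal {S : Type} [CommRing S] [Algebra E S] (h : Fam F E n S)
    (hh : IsSym (conjElt hE τ₀) (sT T τ₀) h) :
    (eig ρ L A S (Rep.pull g h)).det = (eig ρ L A S h).det := by
  have hp : (ρ.perm g).map (algebraMap E S) * A.map (algebraMap E S) =
      A.map (algebraMap E S) * (L * ρ.perm g * A).map (algebraMap E S) := by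
    rw [← Matrix.map_mul, ← Matrix.map_mul, ← perm_eig ρ T hE τ₀ hε hA hL hg hgs]
  have h1 := ρ.perm_pol g S h
  have h2 := eig_act (sgnOk T hE τ₀) ρ hL hε hA hh
  have hsym : IsSym (conjElt hE τ₀) (sT T τ₀) (Rep.pull g h) := by
    have h3 := congrArg (Rep.pull g) hh
    rw [pull_mul, pull_mul, pull_pull, ← hg, ← pull_pull] at h3
    have h4 : Rep.pull g (sD (sT T τ₀) S) = (sD (sT T τ₀) S : Fam F E n S) := by
      rw [← map_sD S]
      have h5 := congrArg (fun A : Fam F E n E => Fam.map' A (algebraMap E S)) hgs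
      exact h5
    rw [h4] at h3
    exact h3
  have h3 := eig_act (sgnOk T hE τ₀) ρ hL hε hA hsym
  have h4 : A.map (algebraMap E S) * ((L * ρ.perm g * A).map (algebraMap E S) *
      eig ρ L A S (Rep.pull g h)) = A.map (algebraMap E S) *
      (eig ρ L A S h * (L * ρ.perm g * A).map (algebraMap E S)) := by
    rw [← Matrix.mul_assoc, ← hp, Matrix.mul_assoc, ← h3, ← Matrix.mul_assoc, h1,
      Matrix.mul_assoc, hp, ← Matrix.mul_assoc, h2, Matrix.mul_assoc]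
  have h5 : L.map (algebraMap E S) * A.map (algebraMap E S) = 1 := by
    rw [← Matrix.map_mul, hL]
    exact Matrix.map_one _ (map_zero _) (map_one _)
  have h6 := congrArg (fun Y => L.map (algebraMap E S) * Y) h4
  simp only [← Matrix.mul_assoc] at h6
  rw [h5, Matrix.one_mul, Matrix.one_mul] at h6
  have h7 := congrArg Matrix.det h6
  rw [det_mul, det_mul, mul_comm] at h7
  have h8 : IsUnit ((L * ρ.perm g * A).map (algebraMap E S)).det := by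
    have h9 := perm_eig_unit ρ T hE τ₀ hε hA hL hg hgs
    have h10 : (L * ρ.perm g * A).map (algebraMap E S) *
        (L * ρ.perm g⁻¹ * A).map (algebraMap E S) = 1 := by
      rw [← Matrix.map_mul, h9]
      exact Matrix.map_one _ (map_zero _) (map_one _)
    exact Matrix.isUnit_det_of_right_inverse h10
  exact h8.mul_right_cancel h7

include hε hA hL hg hgs in
/-- The exponents are invariant under such Galois elements. -/
theorem m_gal {m : Emb F E → ℤ → ℕ}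
    (hm : ∀ t : Tot F E n, (eig ρ L A (Polynomial E) (fdiag (xT (conjElt hE τ₀) t))).det =
      Polynomial.X ^ m t.1 (cl (conjElt hE τ₀) (sT T τ₀) t)) (q : Emb F E) (j : Fin (n q.1)) :
    m (act g q) (cl (conjElt hE τ₀) (sT T τ₀) ⟨act g q, j⟩) =
      m q (cl (conjElt hE τ₀) (sT T τ₀) ⟨q, j⟩) := by
  have h1 := hm ⟨act g q, j⟩
  have h2 := hm ⟨q, j⟩
  rw [← pull_xT' hg q j, det_eig_gal ρ T hE τ₀ hε hA hL hg hgs _
    (xT_sym (sgnOk T hE τ₀) _), h1] at h2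
  have h6 := congrArg Polynomial.natDegree h2
  rw [Polynomial.natDegree_X_pow, Polynomial.natDegree_X_pow] at h6
  exact h6

end gal

end Pool.Agent.MP100fe7U
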