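import Pool.Agent.Lib.MP_100fe7_ntU.CommonZ

/-!
Factorisation at a pair of complex conjugate places.
-/

set_option linter.unusedSectionVars false

namespace Pool.Agent.MP100fe7U

open Matrix MP100fe7L

variable {n : ℕ} {s p p' : Fin n → ℤ} {w : ℤ} {X X' : Matrix (Fin n) (Fin n) ℂ}
  {H H' : ℤ → Submodule ℂ (Fin n → ℂ)}

/-- The matrix of the order reversing permutation. -/
def Rv (n : ℕ) (S : Type) [CommRing S] : Matrix (Fin n) (Fin n) S :=
  Matrix.of fun k j => if k = Fin.rev j then 1 else 0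

theorem Rv_sq (n : ℕ) (S : Type) [CommRing S] : Rv n S * Rv n S = 1 := by
  ext i j
  rw [mul_apply, one_apply]
  have h1 : ∀ k, Rv n S i k * Rv n S k j = if k = Fin.rev j then Rv n S i k else 0 := by
    intro k
    simp only [Rv, of_apply]
    by_cases h : k = Fin.rev j
    · rw [if_pos h, if_pos h, mul_one]
    · rw [if_neg h, if_neg h, mul_zero]
  rw [Finset.sum_congr rfl fun k _ => h1 k, Finset.sum_ite_eq' Finset.univ (Fin.rev j),
    if_pos (Finset.mem_univ _)]
  simp only [Rv, of_apply, Fin.rev_rev]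

theorem Rv_map (n : ℕ) {S S' : Type} [CommRing S] [CommRing S'] (f : S →+* S') :
    (Rv n S).map f = Rv n S' := by
  ext i j
  simp only [Rv, map_apply, of_apply]
  by_cases h : i = Fin.rev j
  · rw [if_pos h, if_pos h, map_one]
  · rw [if_neg h, if_neg h, map_zero]

private theorem pairLocal_mul_Rv (A : Matrix (Fin n) (Fin n) ℂ) (k j : Fin n) :
    (A * Rv n ℂ) k j = A k (Fin.rev j) := by
  rw [mul_apply]
  have h1 : ∀ i, A k i * Rv n ℂ i j = if i = Fin.rev j then A k i else 0 := by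
    intro i
    simp only [Rv, of_apply]
    by_cases h : i = Fin.rev j
    · rw [if_pos h, if_pos h, mul_one]
    · rw [if_neg h, if_neg h, mul_zero]
  rw [Finset.sum_congr rfl fun i _ => h1 i, Finset.sum_ite_eq' Finset.univ (Fin.rev j),
    if_pos (Finset.mem_univ _)]

private theorem pairLocal_Zr_eq :
    Zr s p' X' H' = diagonal (fun j => (s j : ℂ)) * Zm p' X' H' * Rv n ℂ := by
  ext k j
  rw [pairLocal_mul_Rv, diagonal_mul]
  rfl

private theorem pairLocal_D_sq (hs : ∀ j, s j = 1 ∨ s j = -1) :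
    diagonal (fun j => (s j : ℂ)) * diagonal (fun j => (s j : ℂ)) = 1 := by
  rw [diagonal_mul_diagonal, ← diagonal_one]
  congr 1
  funext j
  rcases hs j with h | h
  · rw [h]
    norm_num
  · rw [h]
    norm_num

/-- At a pair of complex conjugate places the comparison matrices are `X = b y` and
`X' = b' (R D) (D y D)`, `D` the diagonal matrix of the signs, `R` the reversing permutation. -/
theorem pair_local (h : PairPt s p p' w X X' H H') :
    ∃ b b' y : Matrix (Fin n) (Fin n) ℂ, X = b * y ∧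
      X' = b' * (Rv n ℂ * diagonal (fun j => (s j : ℂ))) *
        (diagonal (fun j => (s j : ℂ)) * y * diagonal (fun j => (s j : ℂ))) ∧
      IsUnit b.det ∧ IsUnit b'.det ∧ IsUnit y.det ∧
      (∀ j k, p j < p k → b j k = 0) ∧ (∀ j k, p' j < p' k → b' j k = 0) ∧
      (∀ a, (pblk p' b' a).det = 1) ∧
      (∀ a q, HPer s p p' w X X' H' a q ↔ q = (pblk p b a).det) ∧
      y.det = ((Rv n ℂ).det * (diagonal fun j => (s j : ℂ)).det) * X'.det := by
  have hD := pairLocal_D_sq h.hs
  have hR := Rv_sq n ℂ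
  have hZ := pairLocal_Zr_eq (s := s) (p' := p') (X' := X') (H' := H')
  have huZ := Zr_unit h
  have huZ' := commonZ_Zm_unit h.unit' h.fil'
  have hdZ' := det_Zm h.unit' h.fil'
  set D := diagonal (fun j => (s j : ℂ)) with hDdef
  set R := Rv n ℂ with hRdef
  set Z := Zr s p' X' H' with hZdef
  set Z' := Zm p' X' H' with hZ'def
  have hZy : Z * Z⁻¹ = 1 := mul_nonsing_inv _ huZ
  have hdD : D.det * D.det = 1 := by rw [← det_mul, hD, det_one]
  have hdR : R.det * R.det = 1 := by rw [← det_mul, hR, det_one]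
  have hdy : Z.det * (Z⁻¹).det = 1 := by rw [← det_mul, hZy, det_one]
  refine ⟨X * Z, X' * Z', Z⁻¹, ?_, ?_, ?_, ?_, ?_, Zr_low h,
    fun j k => (Zm_low h.unit' h.fil' j k).1, ?_, hper_iff h, ?_⟩
  · rw [Matrix.mul_assoc, hZy, Matrix.mul_one]
  · have h1 : Z' * R * Z⁻¹ * D = 1 := by
      have h2 : D * (Z' * R * Z⁻¹) = 1 := by
        rw [← Matrix.mul_assoc, ← Matrix.mul_assoc, ← hZ, hZy]
      exact mul_eq_one_comm.mp h2
    calc X' = X' * (Z' * R * Z⁻¹ * D) := by rw [h1, Matrix.mul_one]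
      _ = X' * Z' * (R * D) * (D * Z⁻¹ * D) := by
        have h3 : R * D * (D * Z⁻¹ * D) = R * Z⁻¹ * D := by
          rw [Matrix.mul_assoc R D, ← Matrix.mul_assoc D (D * Z⁻¹) D, ← Matrix.mul_assoc D D Z⁻¹,
            hD, Matrix.one_mul, Matrix.mul_assoc]
        rw [Matrix.mul_assoc (X' * Z'), h3]
        simp only [Matrix.mul_assoc]
  · rw [det_mul]
    exact h.unit.mul huZ
  · rw [det_mul]
    exact h.unit'.mul huZ'
  · exact IsUnit.of_mul_eq_one_right _ hdy
  · intro a
    have h1 : pblk p' (X' * Z') a = 1 := by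
      ext j k
      have h2 := (Zm_low h.unit' h.fil' j.1 k.1).2 (j.2.trans k.2.symm)
      change (X' * Z') j.1 k.1 = _
      rw [h2, one_apply]
      by_cases h3 : j = k
      · rw [if_pos h3, if_pos (congrArg Subtype.val h3)]
      · rw [if_neg h3, if_neg fun h4 => h3 (Subtype.ext h4)]
    rw [h1, det_one]
  · rw [det_mul] at hdZ'
    rw [hZ, det_mul, det_mul] at hdy
    have h1 : (D * Z' * R)⁻¹.det = (R.det * R.det) * (D.det * D.det) * (X'.det * Z'.det) *
        (D * Z' * R)⁻¹.det := by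
      rw [hdD, hdR, hdZ']
      ring
    rw [hZ, h1]
    have h2 : (R.det * R.det) * (D.det * D.det) * (X'.det * Z'.det) * (D * Z' * R)⁻¹.det
        = (R.det * D.det * X'.det) * (D.det * Z'.det * R.det * (D * Z' * R)⁻¹.det) := by ring
    rw [h2, hdy, mul_one]

end Pool.Agent.MP100fe7U
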