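import Pool.Agent.Lib.MP_100fe7_ntU.RealSpec

/-!
Blocks and minors of products.
-/

set_option linter.unusedSectionVars false

namespace Pool.Agent.MP100fe7U

open Matrix MP100fe7L

variable {n : ℕ} {s p : Fin n → ℤ}

/-- The determinant of a block triangular matrix. -/
theorem det_pblk {b : Matrix (Fin n) (Fin n) ℂ} (hb : ∀ j k, p j < p k → b j k = 0) :
    b.det = ∏ a ∈ Finset.univ.image p, (pblk p b a).det := det_blocks hb

private theorem realBlk_zero {y : Matrix (Fin n) (Fin n) ℂ}
    (hy : y * diagonal (fun j => (s j : ℂ)) = diagonal (fun j => (s j : ℂ)) * y) {j k : Fin n}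
    (h : s j ≠ s k) : y j k = 0 := by
  have h1 := congrFun (congrFun hy j) k
  rw [mul_diagonal, diagonal_mul] at h1
  have h2 : ((s k : ℂ) - s j) * y j k = 0 := by linear_combination h1
  rcases mul_eq_zero.1 h2 with h3 | h3
  · exfalso
    apply h
    have h4 := sub_eq_zero.1 h3
    exact_mod_cast h4.symm
  · exact h3

private theorem realBlk_sum {q : Fin n → Prop} [DecidablePred q] {F : Fin n → ℂ}
    (h : ∀ l, ¬ q l → F l = 0) : ∑ l, F l = ∑ l : {l // q l}, F l.1 := by
  have h1 : ∑ l, F l = ∑ l ∈ Finset.univ.filter q, F l := by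
    symm
    apply Finset.sum_subset (Finset.filter_subset _ _)
    intro l _ hl
    apply h
    intro hq
    exact hl (Finset.mem_filter.2 ⟨Finset.mem_univ l, hq⟩)
  rw [h1]
  exact Finset.sum_subtype _ (fun l => by simp) F

private theorem realBlk_low {b : Matrix (Fin n) (Fin n) ℂ} (hb : ∀ j k, p j < p k → b j k = 0)
    (a : ℤ) :
    (b.submatrix (fun j : {j // p j < a} => j.1) (fun j : {j // p j < a} => j.1)).det =
      ∏ c ∈ (Finset.univ.image p).filter (fun c => c < a), (pblk p b c).det := by
  have h0 := det_blocks (J := {j // p j < a}) (p := fun j => p j.1)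
    (b := b.submatrix (fun j : {j // p j < a} => j.1) (fun j : {j // p j < a} => j.1))
    (fun j k h => hb j.1 k.1 h)
  rw [h0]
  have him : Finset.univ.image (fun j : {j // p j < a} => p j.1) =
      (Finset.univ.image p).filter (fun c => c < a) := by
    ext c
    rw [Finset.mem_filter, Finset.mem_image, Finset.mem_image]
    constructor
    · rintro ⟨j, _, rfl⟩
      exact ⟨⟨j.1, Finset.mem_univ _, rfl⟩, j.2⟩
    · rintro ⟨⟨j, _, rfl⟩, hj⟩
      exact ⟨⟨j, hj⟩, Finset.mem_univ _, rfl⟩
  rw [him]
  refine Finset.prod_congr rfl fun c hc => ?_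
  have hca : c < a := (Finset.mem_filter.1 hc).2
  let f : {j : Fin n // p j = c} ≃ {j : {j // p j < a} // p j.1 = c} :=
    { toFun := fun j => ⟨⟨j.1, by rw [j.2]; exact hca⟩, j.2⟩
      invFun := fun j => ⟨j.1.1, j.2⟩
      left_inv := fun _ => rfl
      right_inv := fun _ => rfl }
  rw [← det_submatrix_equiv_self f]
  rfl

/-- The determinant of a matrix commuting with the signs. -/
theorem det_sblk (hs : ∀ j, s j = 1 ∨ s j = -1) {y : Matrix (Fin n) (Fin n) ℂ}
    (hy : y * diagonal (fun j => (s j : ℂ)) = diagonal (fun j => (s j : ℂ)) * y) :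
    y.det = (sblk s y 1).det * (sblk s y (-1)).det := by
  have h1 : y.det = ∏ a ∈ Finset.univ.image s, (sblk s y a).det :=
    det_blocks (fun j k h => realBlk_zero hy (ne_of_lt h))
  have h2 : Finset.univ.image s ⊆ {1, -1} := by
    intro a ha
    obtain ⟨j, _, rfl⟩ := Finset.mem_image.1 ha
    rcases hs j with h | h
    · rw [h]
      exact Finset.mem_insert_self _ _
    · rw [h]
      exact Finset.mem_insert_of_mem (Finset.mem_singleton_self _)
  rw [h1, Finset.prod_subset h2 (fun a _ ha => ?_), Finset.prod_pair (by norm_num)]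
  have : IsEmpty {j // s j = a} :=
    ⟨fun j => ha (Finset.mem_image.2 ⟨j.1, Finset.mem_univ _, j.2⟩)⟩
  exact det_isEmpty

/-- the period of a product `b * g * y` -/
theorem minor_factor {b g y : Matrix (Fin n) (Fin n) ℂ} (hs : ∀ j, s j = 1 ∨ s j = -1)
    (hb : ∀ j k, p j < p k → b j k = 0)
    (hy : y * diagonal (fun j => (s j : ℂ)) = diagonal (fun j => (s j : ℂ)) * y) (δ : ℤ)
    (hδ : δ = 1 ∨ δ = -1) (a : ℤ) (e : {j // s j = δ} ≃o {j // p j < a}) :
    ((b * g * y).submatrix (fun j : {j // s j = δ} => (e j).1)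
      (fun j : {j // s j = δ} => j.1)).det =
    (∏ c ∈ (Finset.univ.image p).filter (fun c => c < a), (pblk p b c).det) *
      (g.submatrix (fun j : {j // s j = δ} => (e j).1) (fun j : {j // s j = δ} => j.1)).det *
      (sblk s y δ).det := by
  have key : (b * g * y).submatrix (fun j : {j // s j = δ} => (e j).1)
      (fun j : {j // s j = δ} => j.1) =
      ((b.submatrix (fun j : {j // p j < a} => j.1) (fun j : {j // p j < a} => j.1)).submatrix
        e.toEquiv e.toEquiv) *
      (g.submatrix (fun j : {j // s j = δ} => (e j).1) (fun j : {j // s j = δ} => j.1)) *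
      sblk s y δ := by
    ext i k
    rw [submatrix_apply, mul_apply, mul_apply]
    rw [realBlk_sum (q := fun l => s l = δ) (fun l hl => by
      rw [realBlk_zero hy (fun h => hl (h.trans k.2)), mul_zero])]
    refine Finset.sum_congr rfl fun l _ => ?_
    rw [mul_apply, mul_apply]
    rw [realBlk_sum (q := fun m => p m < a) (fun m hm => by
      rw [hb _ _ (lt_of_lt_of_le (e i).2 (not_lt.1 hm)), zero_mul])]
    have h3 : ∑ m : {m // p m < a}, b (e i).1 m.1 * g m.1 l.1 =
        ∑ m : {j // s j = δ}, b (e i).1 (e m).1 * g (e m).1 l.1 :=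
      (Equiv.sum_comp e.toEquiv (fun m : {m // p m < a} => b (e i).1 m.1 * g m.1 l.1)).symm
    rw [h3]
    rfl
  rw [key, det_mul, det_mul, det_submatrix_equiv_self, realBlk_low hb]

end Pool.Agent.MP100fe7U
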