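import Pool.Agent.Lib.MP_100fe7_ntU.RealA

/-!
The minors of `Gam` in the scalar case.
-/

set_option linter.unusedSectionVars false

namespace Pool.Agent.MP100fe7U

open Matrix

variable {n : ℕ} {s p : Fin n → ℤ} {w : ℤ}

/-- the rows of `Wr` -/
private theorem rmin_wr (h : RealType s p w) (E : Type) [Field E] (u : Fin n → E) (k : Fin n) :
    (Wr s p w E *ᵥ u) k = if 2 * p k = w then (s (beta s p w k) : E) * u k else u (Fin.rev k) := by
  have h1 : (Wr s p w E *ᵥ u) k = ∑ j, Wr s p w E k j * u j := rfl
  rw [h1]
  by_cases hk : 2 * p k = w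
  · rw [if_pos hk, Finset.sum_eq_single k]
    · simp [Wr, hk]
    · intro j _ hj
      by_cases hj2 : 2 * p j = w
      · simp [Wr, hj2, Ne.symm hj]
      · have h2 : k ≠ Fin.rev j := by
          rintro rfl
          have := h.hp j
          omega
        simp [Wr, hj2, h2]
    · intro h2
      exact absurd (Finset.mem_univ k) h2
  · rw [if_neg hk, Finset.sum_eq_single (Fin.rev k)]
    · have h2 : ¬ 2 * p (Fin.rev k) = w := by
        have := h.hp k
        omega
      simp [Wr, h2]
    · intro j _ hj
      by_cases hj2 : 2 * p j = w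
      · have h2 : k ≠ j := by
          rintro rfl
          exact hk hj2
        simp [Wr, hj2, h2]
      · have h2 : k ≠ Fin.rev j := by
          rintro rfl
          exact hj (Fin.rev_rev j).symm
        simp [Wr, hj2, h2]
    · intro h2
      exact absurd (Finset.mem_univ _) h2

/-- a middle vector of sign `δ` makes the eigenspace bigger than the low part -/
private theorem rmin_card (h : RealType s p w) {δ : ℤ} (hδ : δ = 1 ∨ δ = -1) {k : Fin n}
    (hk : 2 * p k = w) (hs : s (beta s p w k) = δ) :
    Fintype.card {j // 2 * p j < w} < Fintype.card {j // s j = δ} := by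
  obtain ⟨hb1, hb2⟩ := beta_ok h
  have h0 : Fintype.card {j // s j = δ} = Fintype.card {j // s (beta s p w j) = δ} :=
    (Fintype.card_congr ((beta s p w).subtypeEquiv fun j => Iff.rfl)).symm
  rw [h0]
  rcases hδ with rfl | rfl
  · rw [← card_high h, Fintype.card_subtype, Fintype.card_subtype]
    apply Finset.card_lt_card
    rw [Finset.ssubset_iff_of_subset]
    · exact ⟨k, by simp [hs], by simp [hk]⟩
    · intro j hj
      simp only [Finset.mem_filter, Finset.mem_univ, true_and] at hj ⊢
      exact hb1 j hj
  · rw [Fintype.card_subtype, Fintype.card_subtype]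
    apply Finset.card_lt_card
    rw [Finset.ssubset_iff_of_subset]
    · exact ⟨k, by simp [hs], by simp [hk]⟩
    · intro j hj
      simp only [Finset.mem_filter, Finset.mem_univ, true_and] at hj ⊢
      exact hb2 j hj

/-- The minor of `Gam` which occurs in the period for the sign `δ`, in the scalar case: if `Scal`
holds and `e` is an order isomorphism of the columns of sign `δ` with a lower set of rows, it is not
zero. -/
theorem Gam_minor (h : RealType s p w) (hsc : Scal s p w) (E : Type) [Field E] [CharZero E]
    (δ : ℤ) (hδ : δ = 1 ∨ δ = -1) (a : ℤ) (e : {j // s j = δ} ≃o {j // p j < a}) :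
    ((Gam s p w E).submatrix (fun j : {j // s j = δ} => (e j).1)
      (fun j : {j // s j = δ} => j.1)).det ≠ 0 := by
  intro hdet
  obtain ⟨v, hv, hv0⟩ := Matrix.exists_mulVec_eq_zero_iff.mpr hdet
  have hcard : Fintype.card {j // s j = δ} = Fintype.card {j // p j < a} :=
    Fintype.card_congr e.toEquiv
  -- the extension by zero
  set v' : Fin n → E := fun l => if hl : s l = δ then v ⟨l, hl⟩ else 0 with hv'
  have hsum : ∀ g : Fin n → E, ∑ l, g l * v' l = ∑ l : {l // s l = δ}, g l.1 * v l := by
    intro g
    rw [← Finset.sum_filter_add_sum_filter_not Finset.univ (fun l => s l = δ)]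
    have h2 : ∑ l ∈ Finset.univ.filter (fun l => ¬ s l = δ), g l * v' l = 0 := by
      apply Finset.sum_eq_zero
      intro l hl
      simp only [Finset.mem_filter, Finset.mem_univ, true_and] at hl
      simp [hv', hl]
    rw [h2, add_zero, Finset.sum_subtype (Finset.univ.filter fun l => s l = δ)
      (p := fun l => s l = δ) (by simp)]
    apply Finset.sum_congr rfl
    intro l _
    simp [hv', l.2]
  set u : Fin n → E := Gam s p w E *ᵥ v' with hu
  -- the low rows are zero
  have hlow : ∀ k, p k < a → u k = 0 := by
    intro k hk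
    have h2 : u k = ∑ l, Gam s p w E k l * v' l := rfl
    rw [h2, hsum]
    have h3 := congrFun hv0 (e.symm ⟨k, hk⟩)
    have h4 : (((Gam s p w E).submatrix (fun j : {j // s j = δ} => (e j).1)
      (fun j : {j // s j = δ} => j.1)) *ᵥ v) (e.symm ⟨k, hk⟩) =
        ∑ l : {l // s l = δ}, Gam s p w E (e (e.symm ⟨k, hk⟩)).1 l.1 * v l := rfl
    rw [h4, OrderIso.apply_symm_apply] at h3
    exact h3
  -- `u` is an eigenvector
  have heig : Wr s p w E *ᵥ u = (δ : E) • u := by
    rw [hu, mulVec_mulVec, ← Gam_mul h E, ← mulVec_mulVec, ← mulVec_smul]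
    congr 1
    funext l
    rw [mulVec_diagonal]
    by_cases hl : s l = δ
    · simp [hl]
    · simp [hv', hl]
  have hrow : ∀ k, (δ : E) * u k = if 2 * p k = w then (s (beta s p w k) : E) * u k
      else u (Fin.rev k) := by
    intro k
    rw [← rmin_wr h E u k, heig]
    rfl
  have hδ0 : (δ : E) ≠ 0 := by
    rcases hδ with rfl | rfl <;> simp
  -- the low part is contained in the lower set
  have hsub : ∀ k, 2 * p k < w → p k < a := by
    by_contra hcon
    push Not at hcon
    obtain ⟨k, hk1, hk2⟩ := hcon
    have h2 : Fintype.card {j // p j < a} < Fintype.card {j // 2 * p j < w} := by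
      rw [Fintype.card_subtype, Fintype.card_subtype]
      apply Finset.card_lt_card
      rw [Finset.ssubset_iff_of_subset]
      · exact ⟨k, by simp [hk1], by simp [hk2]⟩
      · intro j hj
        simp only [Finset.mem_filter, Finset.mem_univ, true_and] at hj ⊢
        omega
    have h3 := h.hc δ hδ
    omega
  have hu0 : u = 0 := by
    funext k
    change u k = 0
    rcases lt_trichotomy (2 * p k) w with hk | hk | hk
    · exact hlow k (hsub k hk)
    · by_contra hne
      have h2 := hrow k
      rw [if_pos hk] at h2
      have h3 : (δ : E) = (s (beta s p w k) : E) := mul_right_cancel₀ hne h2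
      have h4 : δ = s (beta s p w k) := Int.cast_injective h3
      have h5 := rmin_card h hδ hk h4.symm
      have h6 : ¬ p k < a := fun h7 => hne (hlow k h7)
      have h7 : Fintype.card {j // p j < a} ≤ Fintype.card {j // 2 * p j < w} := by
        rw [Fintype.card_subtype, Fintype.card_subtype]
        apply Finset.card_le_card
        intro j hj
        simp only [Finset.mem_filter, Finset.mem_univ, true_and] at hj ⊢
        omega
      omega
    · have h2 := hrow k
      rw [if_neg (ne_of_gt hk), hlow (Fin.rev k) (hsub _ (by have := h.hp k; omega))] at h2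
      exact (mul_eq_zero.mp h2).resolve_left hδ0
  have hv'0 : v' = 0 := by
    by_contra hne
    exact Gam_det h E (Matrix.exists_mulVec_eq_zero_iff.mp ⟨v', hne, hu0⟩)
  apply hv
  funext l
  have h2 := congrFun hv'0 l.1
  simpa [hv', l.2] using h2

end Pool.Agent.MP100fe7U
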