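import Pool.Agent.Lib.MP_100fe7_ntU.RealB
import Pool.Agent.Lib.MP_100fe7_ntU.RealMinor
import Pool.Agent.Lib.MP_100fe7_ntU.RealBlk

/-!
The local formula at a real place.
-/

set_option linter.unusedSectionVars false

namespace Pool.Agent.MP100fe7U

open Matrix MP100fe7L

variable {n : ℕ} {s p : Fin n → ℤ} {w : ℤ} {X : Matrix (Fin n) (Fin n) ℂ}
  {H : ℤ → Submodule ℂ (Fin n → ℂ)}

private theorem realC_iso {A B : Type} [LinearOrder A] [Fintype A] [LinearOrder B] [Fintype B]
    (h : Fintype.card A = Fintype.card B) : Nonempty (A ≃o B) :=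
  ⟨(Fintype.orderIsoFinOfCardEq A h).symm.trans (Fintype.orderIsoFinOfCardEq B rfl)⟩

private theorem realC_add (hs : ∀ j, s j = 1 ∨ s j = -1) :
    Fintype.card {j // s j = 1} + Fintype.card {j // s j = -1} = n := by
  rw [Fintype.card_subtype, Fintype.card_subtype]
  have h1 : (Finset.univ.filter fun j => s j = -1) = Finset.univ.filter fun j => ¬ s j = 1 := by
    ext j
    simp only [Finset.mem_filter, Finset.mem_univ, true_and]
    rcases hs j with h | h <;> rw [h] <;> norm_num
  rw [h1, Finset.card_filter_add_card_filter_not, Finset.card_univ, Fintype.card_fin]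

private theorem realC_add' (hr : RealType s p w) :
    Fintype.card {j // 2 * p j < w} + Fintype.card {j // p j < w / 2 + 1} = n := by
  rw [← card_high hr, Fintype.card_subtype, Fintype.card_subtype]
  have h1 : (Finset.univ.filter fun j => p j < w / 2 + 1) =
      Finset.univ.filter fun j => ¬ w < 2 * p j := by
    ext j
    simp only [Finset.mem_filter, Finset.mem_univ, true_and]
    omega
  rw [h1, Finset.card_filter_add_card_filter_not, Finset.card_univ, Fintype.card_fin]

private theorem realC_low : Fintype.card {j // p j < (w + 1) / 2} =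
    Fintype.card {j // 2 * p j < w} :=
  Fintype.card_congr (Equiv.subtypeEquivRight fun j => by omega)

private theorem realC_beta (δ : ℤ) : Fintype.card {j // s (beta s p w j) = δ} =
    Fintype.card {j // s j = δ} :=
  Fintype.card_congr ((beta s p w).subtypeEquiv fun _ => Iff.rfl)

private theorem realC_cases (hr : RealType s p w) (hsc : Scal s p w) :
    (Nonempty ({j // s j = 1} ≃o {j // p j < (w + 1) / 2}) ∧
      Nonempty ({j // s j = -1} ≃o {j // p j < w / 2 + 1}) ∧
      ∀ j, 2 * p j = w → s (beta s p w j) = -1) ∨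
    (Nonempty ({j // s j = -1} ≃o {j // p j < (w + 1) / 2}) ∧
      Nonempty ({j // s j = 1} ≃o {j // p j < w / 2 + 1}) ∧
      ∀ j, 2 * p j = w → s (beta s p w j) = 1) := by
  obtain ⟨δ, hδ, hc⟩ := hsc
  have a1 := realC_add hr.hs
  have a2 := realC_add' hr
  have hb := beta_ok hr
  rcases hδ with rfl | rfl
  · refine Or.inl ⟨realC_iso (by rw [realC_low, hc]), realC_iso (by omega), fun j hj => ?_⟩
    rcases hr.hs (beta s p w j) with h | h
    · exfalso
      have h1 : Fintype.card {j // w < 2 * p j} < Fintype.card {j // s (beta s p w j) = 1} := by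
        rw [Fintype.card_subtype, Fintype.card_subtype]
        refine Finset.card_lt_card ((Finset.ssubset_iff_of_subset ?_).2 ⟨j, ?_, ?_⟩)
        · intro k hk
          simp only [Finset.mem_filter, Finset.mem_univ, true_and] at hk ⊢
          exact hb.1 k hk
        · simp only [Finset.mem_filter, Finset.mem_univ, true_and]
          exact h
        · simp only [Finset.mem_filter, Finset.mem_univ, true_and]
          omega
      rw [card_high hr, realC_beta, hc] at h1
      exact lt_irrefl _ h1
    · exact h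
  · refine Or.inr ⟨realC_iso (by rw [realC_low, hc]), realC_iso (by omega), fun j hj => ?_⟩
    rcases hr.hs (beta s p w j) with h | h
    · exact h
    · exfalso
      have h1 : Fintype.card {j // 2 * p j < w} < Fintype.card {j // s (beta s p w j) = -1} := by
        rw [Fintype.card_subtype, Fintype.card_subtype]
        refine Finset.card_lt_card ((Finset.ssubset_iff_of_subset ?_).2 ⟨j, ?_, ?_⟩)
        · intro k hk
          simp only [Finset.mem_filter, Finset.mem_univ, true_and] at hk ⊢
          exact hb.2 k hk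
        · simp only [Finset.mem_filter, Finset.mem_univ, true_and]
          exact h
        · simp only [Finset.mem_filter, Finset.mem_univ, true_and]
          omega
      rw [realC_beta, hc] at h1
      exact lt_irrefl _ h1

/-- Existence of the lower set of rows. -/
theorem exists_step (hr : RealType s p w) (hsc : Scal s p w) (δ : ℤ) (hδ : δ = 1 ∨ δ = -1) :
    ∃ a : ℤ, Nonempty ({j // s j = δ} ≃o {j // p j < a}) := by
  rcases realC_cases hr hsc with ⟨h1, h2, _⟩ | ⟨h1, h2, _⟩
  · rcases hδ with rfl | rfl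
    · exact ⟨_, h1⟩
    · exact ⟨_, h2⟩
  · rcases hδ with rfl | rfl
    · exact ⟨_, h2⟩
    · exact ⟨_, h1⟩

private theorem realC_set {a a' : ℤ} (h : Fintype.card {j // p j < a} =
    Fintype.card {j // p j < a'}) (haa : a ≤ a') (j : Fin n) : p j < a ↔ p j < a' := by
  constructor
  · intro hj
    exact lt_of_lt_of_le hj haa
  · intro hj
    by_contra hn
    have h1 : Fintype.card {j // p j < a} < Fintype.card {j // p j < a'} := by
      rw [Fintype.card_subtype, Fintype.card_subtype]
      refine Finset.card_lt_card ((Finset.ssubset_iff_of_subset ?_).2 ⟨j, ?_, ?_⟩)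
      · intro k hk
        simp only [Finset.mem_filter, Finset.mem_univ, true_and] at hk ⊢
        exact lt_of_lt_of_le hk haa
      · simp only [Finset.mem_filter, Finset.mem_univ, true_and]
        exact hj
      · simp only [Finset.mem_filter, Finset.mem_univ, true_and]
        exact hn
    omega

/-- Uniqueness of the period. -/
theorem rper_unique (δ : ℤ) {c c' : ℂ} (h : RPer s p X δ c) (h' : RPer s p X δ c') : c = c' := by
  obtain ⟨a, e, rfl⟩ := h
  obtain ⟨a', e', rfl⟩ := h'
  have hc : Fintype.card {j // p j < a} = Fintype.card {j // p j < a'} := by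
    rw [← Fintype.card_congr e.toEquiv, ← Fintype.card_congr e'.toEquiv]
  have hset : ∀ j, p j < a ↔ p j < a' := by
    rcases le_total a a' with h | h
    · exact fun j => realC_set hc h j
    · exact fun j => (realC_set hc.symm h j).symm
  let t : {j // p j < a} ≃o {j // p j < a'} :=
    { toEquiv := Equiv.subtypeEquivRight hset
      map_rel_iff' := fun {x y} => Iff.rfl }
  have h1 : e.trans t = e' := Subsingleton.elim _ _
  have h2 : ∀ j, (e' j).1 = (e j).1 := by
    intro j
    rw [← h1]
    rfl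
  congr 2
  funext j
  exact (h2 j).symm

/-- the minors of the comparison matrix -/
private theorem realC_minor (hr : RealType s p w) {E : Type} [Field E] [CharZero E] (f : E →+* ℂ)
    {b y : Matrix (Fin n) (Fin n) ℂ} (hX : X = b * (Gam s p w E).map f * y)
    (hb : ∀ j k, p j < p k → b j k = 0)
    (hy : y * diagonal (fun j => (s j : ℂ)) = diagonal (fun j => (s j : ℂ)) * y) (δ : ℤ)
    (hδ : δ = 1 ∨ δ = -1) (a : ℤ) (e : {j // s j = δ} ≃o {j // p j < a}) :
    (X.submatrix (fun j : {j // s j = δ} => (e j).1) (fun j : {j // s j = δ} => j.1)).det =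
    (∏ c ∈ (Finset.univ.image p).filter (fun c => c < a), (pblk p b c).det) *
      f ((Gam s p w E).submatrix (fun j : {j // s j = δ} => (e j).1)
        (fun j : {j // s j = δ} => j.1)).det * (sblk s y δ).det := by
  rw [hX, minor_factor hr.hs hb hy δ hδ a e, RingHom.map_det]
  rfl

private theorem realC_ne (hr : RealType s p w) {b y : Matrix (Fin n) (Fin n) ℂ}
    (hbu : IsUnit b.det) (hyu : IsUnit y.det) (hb : ∀ j k, p j < p k → b j k = 0)
    (hy : y * diagonal (fun j => (s j : ℂ)) = diagonal (fun j => (s j : ℂ)) * y) :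
    (∀ a ∈ Finset.univ.image p, (pblk p b a).det ≠ 0) ∧ (sblk s y 1).det ≠ 0 ∧
      (sblk s y (-1)).det ≠ 0 := by
  have h1 := hbu.ne_zero
  rw [det_pblk hb] at h1
  have h2 := hyu.ne_zero
  rw [det_sblk hr.hs hy] at h2
  exact ⟨fun a ha => Finset.prod_ne_zero_iff.1 h1 a ha, left_ne_zero_of_mul h2,
    right_ne_zero_of_mul h2⟩

theorem exists_rper (hr : RealType s p w) (h : PairPt s p p w X X H H) (hsc : Scal s p w)
    (δ : ℤ) (hδ : δ = 1 ∨ δ = -1) : ∃ c : ℂ, c ≠ 0 ∧ ∀ c', RPer s p X δ c' ↔ c' = c := by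
  obtain ⟨b, y, hX, hbu, hyu, hy, hb, _, _⟩ := exists_factor hr h ℂ (RingHom.id ℂ)
  obtain ⟨a, ⟨e⟩⟩ := exists_step hr hsc δ hδ
  obtain ⟨n1, n2, n3⟩ := realC_ne hr hbu hyu hb hy
  refine ⟨(X.submatrix (fun j : {j // s j = δ} => (e j).1)
      (fun j : {j // s j = δ} => j.1)).det, ?_, fun c' => ⟨fun hc => ?_, fun hc => ⟨a, e, hc⟩⟩⟩
  · rw [realC_minor hr (RingHom.id ℂ) hX hb hy δ hδ a e]
    refine mul_ne_zero (mul_ne_zero ?_ ?_) ?_
    · refine Finset.prod_ne_zero_iff.2 fun c hc => n1 c (Finset.mem_filter.1 hc).1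
    · exact Gam_minor hr hsc ℂ δ hδ a e
    · rcases hδ with rfl | rfl
      · exact n2
      · exact n3
  · exact rper_unique δ hc ⟨a, e, rfl⟩

/-- the product over the Hodge indices -/
private theorem realC_prod (b : Matrix (Fin n) (Fin n) ℂ) (S : ℤ → ℤ) (q : ℤ → ℂ) (C : ℤ)
    (hhi : ∀ a, w < 2 * a → (pblk p b a).det = 1)
    (hlo : ∀ a ∈ Finset.univ.image p, 2 * a < w → q a = (pblk p b a).det)
    (hS : ∀ j, 2 * p j = w → S (p j) = C) :
    ∏ a ∈ Finset.univ.image p, (pblk p b a).det ^ S a =
      (∏ a ∈ (Finset.univ.image p).filter (fun a => 2 * a < w), q a ^ S a) *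
        (∏ a ∈ (Finset.univ.image p).filter (fun a => 2 * a = w), (pblk p b a).det) ^ C := by
  rw [← Finset.prod_filter_mul_prod_filter_not (Finset.univ.image p) (fun a => 2 * a < w)]
  congr 1
  · refine Finset.prod_congr rfl fun a ha => ?_
    rw [hlo a (Finset.mem_filter.1 ha).1 (Finset.mem_filter.1 ha).2]
  · rw [← Finset.prod_filter_mul_prod_filter_not
      ((Finset.univ.image p).filter (fun a => ¬ 2 * a < w)) (fun a => 2 * a = w),
      Finset.filter_filter, Finset.filter_filter]
    have e1 : (Finset.univ.image p).filter (fun a => ¬ 2 * a < w ∧ 2 * a = w) =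
        (Finset.univ.image p).filter (fun a => 2 * a = w) := by
      refine Finset.filter_congr fun a _ => ?_
      omega
    have e2 : ∏ a ∈ (Finset.univ.image p).filter (fun a => ¬ 2 * a < w ∧ ¬ 2 * a = w),
        (pblk p b a).det ^ S a = 1 := by
      refine Finset.prod_eq_one fun a ha => ?_
      have h1 := (Finset.mem_filter.1 ha).2
      rw [hhi a (by omega), _root_.one_zpow]
    rw [e1, e2, mul_one, ← Finset.prod_zpow]
    refine Finset.prod_congr rfl fun a ha => ?_
    obtain ⟨h1, h2⟩ := Finset.mem_filter.1 ha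
    obtain ⟨j, _, rfl⟩ := Finset.mem_image.1 h1
    rw [hS j h2]

private theorem realC_low_prod (b : Matrix (Fin n) (Fin n) ℂ) (q : ℤ → ℂ)
    (hlo : ∀ a ∈ Finset.univ.image p, 2 * a < w → q a = (pblk p b a).det) :
    ∏ c ∈ (Finset.univ.image p).filter (fun c => c < (w + 1) / 2), (pblk p b c).det =
      ∏ a ∈ (Finset.univ.image p).filter (fun a => 2 * a < w), q a := by
  have e1 : (Finset.univ.image p).filter (fun c => c < (w + 1) / 2) =
      (Finset.univ.image p).filter (fun a => 2 * a < w) := by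
    refine Finset.filter_congr fun a _ => ?_
    omega
  rw [e1]
  refine Finset.prod_congr rfl fun a ha => ?_
  rw [hlo a (Finset.mem_filter.1 ha).1 (Finset.mem_filter.1 ha).2]

private theorem realC_mid_prod (b : Matrix (Fin n) (Fin n) ℂ) (q : ℤ → ℂ)
    (hlo : ∀ a ∈ Finset.univ.image p, 2 * a < w → q a = (pblk p b a).det) :
    ∏ c ∈ (Finset.univ.image p).filter (fun c => c < w / 2 + 1), (pblk p b c).det =
      (∏ a ∈ (Finset.univ.image p).filter (fun a => 2 * a < w), q a) *
        ∏ a ∈ (Finset.univ.image p).filter (fun a => 2 * a = w), (pblk p b a).det := by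
  rw [← Finset.prod_filter_mul_prod_filter_not
    ((Finset.univ.image p).filter (fun c => c < w / 2 + 1)) (fun a => 2 * a < w),
    Finset.filter_filter, Finset.filter_filter]
  have e1 : (Finset.univ.image p).filter (fun a => a < w / 2 + 1 ∧ 2 * a < w) =
      (Finset.univ.image p).filter (fun a => 2 * a < w) := by
    refine Finset.filter_congr fun a _ => ?_
    omega
  have e2 : (Finset.univ.image p).filter (fun a => a < w / 2 + 1 ∧ ¬ 2 * a < w) =
      (Finset.univ.image p).filter (fun a => 2 * a = w) := by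
    refine Finset.filter_congr fun a _ => ?_
    omega
  rw [e1, e2]
  congr 1
  refine Finset.prod_congr rfl fun a ha => ?_
  rw [hlo a (Finset.mem_filter.1 ha).1 (Finset.mem_filter.1 ha).2]

private theorem realC_sub (P : Finset ℤ) (q : ℤ → ℂ) (hq : ∀ a ∈ P, q a ≠ 0) (S : ℤ → ℤ)
    (A : ℤ) : ∏ a ∈ P, q a ^ (S a - A) = (∏ a ∈ P, q a ^ S a) * ((∏ a ∈ P, q a) ^ A)⁻¹ := by
  rw [← Finset.prod_zpow, ← Finset.prod_inv_distrib, ← Finset.prod_mul_distrib]
  refine Finset.prod_congr rfl fun a ha => ?_
  rw [zpow_sub₀ (hq a ha), div_eq_mul_inv]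

/-- The local formula. -/
theorem real_local (hr : RealType s p w) (E : Type) [Field E] [CharZero E] :
    ∃ kap : ℤ → ℤ → E, (∀ A B, kap A B ≠ 0) ∧
    ∀ (f : E →+* ℂ) (X : Matrix (Fin n) (Fin n) ℂ) (H : ℤ → Submodule ℂ (Fin n → ℂ)),
      PairPt s p p w X X H H → ∃ b y : Matrix (Fin n) (Fin n) ℂ,
        X = b * (Gam s p w E).map f * y ∧ IsUnit b.det ∧ IsUnit y.det ∧
        y * diagonal (fun j => (s j : ℂ)) = diagonal (fun j => (s j : ℂ)) * y ∧
        (∀ j k, p j < p k → b j k = 0) ∧
        ∀ (A B : ℤ) (S : ℤ → ℤ),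
          (∀ j, 2 * p j = w → s (beta s p w j) = 1 → S (p j) = A) →
          (∀ j, 2 * p j = w → s (beta s p w j) = -1 → S (p j) = B) →
          ∀ (c d : ℂ) (q : ℤ → ℂ),
            (Scal s p w → RPer s p X 1 c ∧ RPer s p X (-1) d) →
            (∀ a ∈ Finset.univ.image p, HPer s p p w X X H a (q a)) →
            (∏ a ∈ Finset.univ.image p, (pblk p b a).det ^ S a) *
              (sblk s y 1).det ^ A * (sblk s y (-1)).det ^ B =
            f (kap A B) * (open Classical in if Scal s p w then
                c ^ A * d ^ B *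
                  ∏ a ∈ (Finset.univ.image p).filter (fun a => 2 * a < w), q a ^ (S a - A - B)
              else X.det ^ A *
                ∏ a ∈ (Finset.univ.image p).filter (fun a => 2 * a < w), q a ^ (S a - A)) := by
  by_cases hsc : Scal s p w
  · rcases realC_cases hr hsc with ⟨⟨e0⟩, ⟨e1⟩, hmid⟩ | ⟨⟨e1⟩, ⟨e0⟩, hmid⟩
    all_goals
      have hg0 := Gam_minor hr hsc E 1 (Or.inl rfl) _ e0
      have hg1 := Gam_minor hr hsc E (-1) (Or.inr rfl) _ e1
      set g0 := ((Gam s p w E).submatrix (fun j : {j // s j = 1} => (e0 j).1)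
        (fun j : {j // s j = 1} => j.1)).det with hg0d
      set g1 := ((Gam s p w E).submatrix (fun j : {j // s j = -1} => (e1 j).1)
        (fun j : {j // s j = -1} => j.1)).det with hg1d
      refine ⟨fun A B => (g0 ^ A)⁻¹ * (g1 ^ B)⁻¹, fun A B => mul_ne_zero
        (inv_ne_zero (zpow_ne_zero _ hg0)) (inv_ne_zero (zpow_ne_zero _ hg1)), ?_⟩
      intro f X H h
      obtain ⟨b, y, hX, hbu, hyu, hy, hb, hhi, hlo⟩ := exists_factor hr h E f
      refine ⟨b, y, hX, hbu, hyu, hy, hb, ?_⟩
      intro A B S hA hB c d q hcd hq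
      obtain ⟨hc, hd⟩ := hcd hsc
      obtain ⟨n1, n2, n3⟩ := realC_ne hr hbu hyu hb hy
      have hlo' : ∀ a ∈ Finset.univ.image p, 2 * a < w → q a = (pblk p b a).det :=
        fun a ha hlt => (hlo a hlt _).1 (hq a ha)
      have c1 := rper_unique 1 hc ⟨_, e0, rfl⟩
      have d1 := rper_unique (-1) hd ⟨_, e1, rfl⟩
      rw [realC_minor hr f hX hb hy 1 (Or.inl rfl) _ e0, ← hg0d] at c1
      rw [realC_minor hr f hX hb hy (-1) (Or.inr rfl) _ e1, ← hg1d] at d1
      rw [if_pos hsc]
      have hql : ∀ a ∈ (Finset.univ.image p).filter (fun a => 2 * a < w), q a ≠ 0 := by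
        intro a ha
        rw [hlo' a (Finset.mem_filter.1 ha).1 (Finset.mem_filter.1 ha).2]
        exact n1 a (Finset.mem_filter.1 ha).1
      have hu : ∏ a ∈ (Finset.univ.image p).filter (fun a => 2 * a < w), q a ≠ 0 :=
        Finset.prod_ne_zero_iff.2 hql
      have hμ : ∏ a ∈ (Finset.univ.image p).filter (fun a => 2 * a = w), (pblk p b a).det ≠ 0 :=
        Finset.prod_ne_zero_iff.2 fun a ha => n1 a (Finset.mem_filter.1 ha).1
      have hf0 : f g0 ≠ 0 := (map_ne_zero f).2 hg0
      have hf1 : f g1 ≠ 0 := (map_ne_zero f).2 hg1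
      have hS2 : ∏ a ∈ (Finset.univ.image p).filter (fun a => 2 * a < w), q a ^ (S a - A - B) =
          (∏ a ∈ (Finset.univ.image p).filter (fun a => 2 * a < w), q a ^ S a) *
          ((∏ a ∈ (Finset.univ.image p).filter (fun a => 2 * a < w), q a) ^ A)⁻¹ *
          ((∏ a ∈ (Finset.univ.image p).filter (fun a => 2 * a < w), q a) ^ B)⁻¹ := by
        rw [← realC_sub _ q hql S A, ← realC_sub _ q hql (fun a => S a - A) B]
      rw [hS2, map_mul, map_inv₀, map_inv₀, map_zpow₀, map_zpow₀]
    · rw [realC_prod b S q B hhi hlo' (fun j hj => hB j hj (hmid j hj)), c1, d1,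
        realC_low_prod b q hlo', realC_mid_prod b q hlo']
      have := zpow_ne_zero A hu
      have := zpow_ne_zero B hu
      have := zpow_ne_zero A hf0
      have := zpow_ne_zero B hf1
      simp only [mul_zpow]
      field_simp
    · rw [realC_prod b S q A hhi hlo' (fun j hj => hA j hj (hmid j hj)), c1, d1,
        realC_low_prod b q hlo', realC_mid_prod b q hlo']
      have := zpow_ne_zero A hu
      have := zpow_ne_zero B hu
      have := zpow_ne_zero A hf0
      have := zpow_ne_zero B hf1
      simp only [mul_zpow]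
      field_simp
  · have hg := Gam_det hr E
    refine ⟨fun A _ => ((Gam s p w E).det ^ A)⁻¹, fun A _ => inv_ne_zero (zpow_ne_zero _ hg), ?_⟩
    intro f X H h
    obtain ⟨b, y, hX, hbu, hyu, hy, hb, hhi, hlo⟩ := exists_factor hr h E f
    refine ⟨b, y, hX, hbu, hyu, hy, hb, ?_⟩
    intro A B S hA hB c d q _ hq
    obtain ⟨n1, n2, n3⟩ := realC_ne hr hbu hyu hb hy
    have hlo' : ∀ a ∈ Finset.univ.image p, 2 * a < w → q a = (pblk p b a).det :=
      fun a ha hlt => (hlo a hlt _).1 (hq a ha)
    rw [if_neg hsc]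
    have hql : ∀ a ∈ (Finset.univ.image p).filter (fun a => 2 * a < w), q a ≠ 0 := by
      intro a ha
      rw [hlo' a (Finset.mem_filter.1 ha).1 (Finset.mem_filter.1 ha).2]
      exact n1 a (Finset.mem_filter.1 ha).1
    have hu : ∏ a ∈ (Finset.univ.image p).filter (fun a => 2 * a < w), q a ≠ 0 :=
      Finset.prod_ne_zero_iff.2 hql
    have hfg : f (Gam s p w E).det ≠ 0 := (map_ne_zero f).2 hg
    obtain ⟨j1, hj1, hb1⟩ := exists_mid hr hsc 1 (Or.inl rfl)
    obtain ⟨j2, hj2, hb2⟩ := exists_mid hr hsc (-1) (Or.inr rfl)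
    have hAB : B = A := by
      rw [← hA j1 hj1 hb1, ← hB j2 hj2 hb2]
      congr 1
      omega
    subst hAB
    have hS1 : ∀ j, 2 * p j = w → S (p j) = B := by
      intro j hj
      rw [← hA j1 hj1 hb1]
      congr 1
      omega
    have hdet : X.det = (∏ a ∈ Finset.univ.image p, (pblk p b a).det ^ (1 : ℤ)) *
        f (Gam s p w E).det * ((sblk s y 1).det * (sblk s y (-1)).det) := by
      rw [hX, det_mul, det_mul, det_sblk hr.hs hy, det_pblk hb, RingHom.map_det]
      simp only [zpow_one]
      rfl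
    rw [realC_prod b (fun _ => 1) q 1 hhi hlo' (fun j hj => rfl)] at hdet
    simp only [zpow_one] at hdet
    rw [realC_prod b S q B hhi hlo' hS1, hdet, realC_sub _ q hql S B, map_inv₀, map_zpow₀]
    have := zpow_ne_zero B hu
    have := zpow_ne_zero B hfg
    simp only [mul_zpow]
    field_simp

end Pool.Agent.MP100fe7U
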