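import Pool.Agent.Lib.MP_100fe7_ntU.SymSpec

/-!
The exponent at a real place.
-/

set_option linter.unusedSectionVars false

namespace Pool.Agent.MP100fe7U

open Matrix MP100fe7L

variable {ι : Type} [Fintype ι] [DecidableEq ι] {F : ι → Type} [∀ i, Field (F i)]
  [∀ i, NumberField (F i)] {E : Type} [Field E] [NumberField E] {n : ι → ℕ} {κ : Type}
  [Fintype κ] [DecidableEq κ] {c : Gal F E} {s : Tot F E n → ℤ} (hs : SgnOk c s)
  (ρ : Rep F E n κ) {d : ℕ} {A : Matrix κ (Fin d) E} {L : Matrix (Fin d) κ E}
  (hL : L * A = 1) {ε : E} (hε : ε * ε = 1) (hA : IsEig (ρ.Fr c (sD s E)) ε A)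

/-- the torus element `1 + eps` at the place `t₀` -/
noncomputable def trace_x (t₀ : Tot F E n) : Tot F E n → DualNumber E :=
  fun t => if t = t₀ then 1 + DualNumber.eps else 1

/-- the diagonal matrix of the weights at `t` -/
noncomputable def trace_D (t : Tot F E n) : Matrix κ κ E := diagonal fun k => (ρ.wt k t : E)

theorem trace_pow (E : Type) [Field E] (k : ℕ) : (1 + DualNumber.eps : DualNumber E) ^ k =
    1 + (k : DualNumber E) * DualNumber.eps := by
  induction k with
  | zero => simp
  | succ k ih =>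
    have h : (DualNumber.eps : DualNumber E) * DualNumber.eps = 0 := DualNumber.eps_mul_eps
    rw [pow_succ, ih]
    push_cast
    linear_combination (k : DualNumber E) * h

theorem trace_fix {t : Tot F E n} (ht : act c t.1 = t.1) : cT c t = t := by
  obtain ⟨q, j⟩ := t
  obtain ⟨i, φ⟩ := q
  simp only [act] at ht
  have h1 : c.1 i φ = φ := eq_of_heq (Sigma.mk.inj_iff.mp ht).2
  unfold cT act
  simp only
  rw [h1]

theorem trace_xT {t : Tot F E n} (ht : act c t.1 = t.1) (t' : Tot F E n) :
    xT c t t' = if t' = t then Polynomial.X else 1 := by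
  unfold xT
  rw [trace_fix ht]
  simp

/-- the value of the representation at the torus element -/
theorem trace_pol (t : Tot F E n) : ρ.toPol.pol (DualNumber E) (fdiag (trace_x t)) =
    1 + (DualNumber.eps : DualNumber E) • (trace_D ρ t).map (algebraMap E (DualNumber E)) := by
  rw [ρ.toPol.pol_diag]
  have h1 : ∀ k : κ, ∏ q : Tot F E n, trace_x t q ^ ρ.toPol.wt k q =
      1 + (ρ.wt k t : DualNumber E) * DualNumber.eps := by
    intro k
    rw [Finset.prod_eq_single t]
    · unfold trace_x
      rw [if_pos rfl]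
      exact trace_pow E _
    · intro q _ hq
      unfold trace_x
      rw [if_neg hq, one_pow]
    · simp
  ext1 k l
  rw [Matrix.add_apply, Matrix.smul_apply, Matrix.map_apply]
  unfold trace_D
  by_cases hkl : k = l
  · subst hkl
    rw [diagonal_apply_eq, diagonal_apply_eq, Matrix.one_apply_eq, h1 k, map_natCast, smul_eq_mul,
      mul_comm]
  · rw [diagonal_apply_ne _ hkl, diagonal_apply_ne _ hkl, Matrix.one_apply_ne hkl, map_zero,
      smul_zero, add_zero]

theorem trace_sym (hs : SgnOk c s) {t : Tot F E n} (ht : act c t.1 = t.1) :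
    IsSym c s (fdiag (trace_x t) : Fam F E n (DualNumber E)) := by
  unfold IsSym
  have h1 : Rep.pull c (fdiag (trace_x t) : Fam F E n (DualNumber E)) = fdiag (trace_x t) := by
    funext q
    unfold Rep.pull fdiag
    congr 1
    funext j
    unfold trace_x
    have h2 : (⟨act c q, j⟩ : Tot F E n) = t ↔ (⟨q, j⟩ : Tot F E n) = t := by
      constructor
      · intro h
        have h3 := congrArg (cT c) h
        rw [trace_fix ht] at h3
        rw [← h3]
        have h4 : act c (act c q) = q := by rw [← act_mul, hs.sq, act_one]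
        have h5 : (c.1 q.1) ((c.1 q.1) q.2) = q.2 := eq_of_heq (Sigma.mk.inj_iff.mp h4).2
        unfold cT act
        simp only
        rw [h5]
      · intro h
        have h3 := congrArg (cT c) h
        rw [trace_fix ht] at h3
        exact h3
    by_cases h : (⟨q, j⟩ : Tot F E n) = t
    · rw [if_pos h, if_pos (h2.mpr h)]
    · rw [if_neg h, if_neg (fun h' => h (h2.mp h'))]
  rw [h1]
  unfold sD
  rw [fdiag_mul, fdiag_mul]
  congr 1
  funext q
  exact mul_comm _ _

/-- the map `X ↦ 1 + eps` -/
noncomputable def trace_f (E : Type) [Field E] : Polynomial E →ₐ[E] DualNumber E :=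
  Polynomial.aeval (1 + DualNumber.eps)

theorem trace_map (t : Tot F E n) (ht : act c t.1 = t.1) :
    Fam.map' (fdiag (xT c t) : Fam F E n (Polynomial E)) (trace_f E) = fdiag (trace_x t) := by
  funext q
  unfold Fam.map' fdiag
  rw [diagonal_map (map_zero _)]
  congr 1
  funext j
  change trace_f E (xT c t ⟨q, j⟩) = trace_x t ⟨q, j⟩
  rw [trace_xT ht]
  unfold trace_x trace_f
  by_cases h : (⟨q, j⟩ : Tot F E n) = t
  · rw [if_pos h, if_pos h, Polynomial.aeval_X]
  · rw [if_neg h, if_neg h, map_one]

theorem trace_eig (hL : L * A = 1) (t : Tot F E n) :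
    eig ρ L A (DualNumber E) (fdiag (trace_x t)) =
      1 + (DualNumber.eps : DualNumber E) •
        (L * trace_D ρ t * A).map (algebraMap E (DualNumber E)) := by
  unfold eig
  rw [trace_pol, Matrix.mul_add, Matrix.add_mul, Matrix.mul_one, ← Matrix.map_mul, hL,
    Matrix.mul_smul, Matrix.smul_mul, ← Matrix.map_mul, ← Matrix.map_mul]
  congr 1
  exact Matrix.map_one _ (map_zero _) (map_one _)

/-- the exponent is the trace of the weights on the eigenspace -/
theorem trace_exp (hL : L * A = 1) (t : Tot F E n) (ht : act c t.1 = t.1) (m : ℕ)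
    (hm : (eig ρ L A (Polynomial E) (fdiag (xT c t))).det = Polynomial.X ^ m) :
    (m : E) = (L * trace_D ρ t * A).trace := by
  have h1 := congrArg (trace_f E) hm
  rw [AlgHom.map_det, AlgHom.mapMatrix_apply, eig_map, trace_map t ht, trace_eig ρ hL t,
    Matrix.det_one_add_smul, map_pow] at h1
  have h2 : trace_f E Polynomial.X = 1 + DualNumber.eps := Polynomial.aeval_X _
  have h3 : (DualNumber.eps : DualNumber E) ^ 2 = 0 := by
    rw [pow_two]
    exact DualNumber.eps_mul_eps
  rw [h2, trace_pow, h3, mul_zero, add_zero] at h1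
  have h4 := add_left_cancel h1
  have h5 : ((L * trace_D ρ t * A).map (algebraMap E (DualNumber E))).trace =
      algebraMap E (DualNumber E) (L * trace_D ρ t * A).trace := by
    unfold Matrix.trace
    rw [map_sum]
    rfl
  rw [h5, ← map_natCast (algebraMap E (DualNumber E)) m] at h4
  have h6 := congrArg TrivSqZeroExt.snd h4
  rw [← Algebra.smul_def, ← Algebra.smul_def, TrivSqZeroExt.snd_smul, TrivSqZeroExt.snd_smul,
    DualNumber.snd_eps, smul_eq_mul, smul_eq_mul, mul_one, mul_one] at h6
  exact h6.symm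

/-- the weights at a real place commute with `F_∞` -/
theorem trace_comm (hs : SgnOk c s) (t : Tot F E n) (ht : act c t.1 = t.1) :
    trace_D ρ t * ρ.Fr c (sD s E) = ρ.Fr c (sD s E) * trace_D ρ t := by
  have h1 : ρ.toPol.pol (DualNumber E) (fdiag (trace_x t)) *
      (ρ.Fr c (sD s E)).map (algebraMap E (DualNumber E)) =
      (ρ.Fr c (sD s E)).map (algebraMap E (DualNumber E)) *
        ρ.toPol.pol (DualNumber E) (fdiag (trace_x t)) := by
    apply ρ.Fr_comm (sD_inv hs E)
    rw [map_sD]
    exact trace_sym hs ht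
  rw [trace_pol, Matrix.add_mul, Matrix.mul_add, Matrix.one_mul, Matrix.mul_one, Matrix.smul_mul,
    Matrix.mul_smul, ← Matrix.map_mul, ← Matrix.map_mul] at h1
  have h2 := add_left_cancel h1
  ext1 i j
  have h3 := congrFun (congrFun h2 i) j
  rw [Matrix.smul_apply, Matrix.smul_apply, Matrix.map_apply, Matrix.map_apply, smul_eq_mul,
    smul_eq_mul, mul_comm, ← Algebra.smul_def, mul_comm, ← Algebra.smul_def] at h3
  have h4 := congrArg TrivSqZeroExt.snd h3
  rw [TrivSqZeroExt.snd_smul, TrivSqZeroExt.snd_smul, DualNumber.snd_eps, smul_eq_mul, smul_eq_mul,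
    mul_one, mul_one] at h4
  exact h4

include hs hL hε hA in
/-- The exponent at a real place, as a trace. -/
theorem trace_formula (t : Tot F E n) (ht : act c t.1 = t.1) (m : ℕ)
    (hm : (eig ρ L A (Polynomial E) (fdiag (xT c t))).det = Polynomial.X ^ m) :
    (2 * m : E) = ∑ k, (ρ.wt k t : E) * (1 + ε * ρ.Fr c (sD s E) k k) := by
  have hC := ρ.Fr_sq hs.sq (sD_inv hs E)
  have hD := trace_comm ρ hs t ht
  rw [trace_exp ρ hL t ht m hm]
  have h1 := eigen_proj hC hε hA.2 hL
  have h2 : ρ.Fr c (sD s E) * A = ε • A := eigen_mul hA.2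
  set C := ρ.Fr c (sD s E) with hCdef
  set D := trace_D ρ t with hDdef
  have h3 : (1 + ε • C) * A = (2 : E) • A := by
    rw [Matrix.add_mul, Matrix.one_mul, Matrix.smul_mul, h2, smul_smul, hε, one_smul, two_smul]
  have h4 : D * (1 + ε • C) = (1 + ε • C) * D := by
    rw [Matrix.mul_add, Matrix.add_mul, Matrix.one_mul, Matrix.mul_one, Matrix.mul_smul,
      Matrix.smul_mul, hD]
  have h5 : (D * (1 + ε • C)).trace = 2 * (L * D * A).trace := by
    calc (D * (1 + ε • C)).trace = (D * (A * L * (1 + ε • C))).trace := by rw [h1]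
      _ = ((D * (A * L)) * (1 + ε • C)).trace := by rw [Matrix.mul_assoc D]
      _ = ((1 + ε • C) * (D * (A * L))).trace := by rw [Matrix.trace_mul_comm]
      _ = (D * ((1 + ε • C) * A * L)).trace := by
        rw [← Matrix.mul_assoc, ← h4]
        simp only [Matrix.mul_assoc]
      _ = 2 * (D * (A * L)).trace := by
        rw [h3, Matrix.smul_mul, Matrix.mul_smul, Matrix.trace_smul, smul_eq_mul]
      _ = 2 * (L * D * A).trace := by
        rw [← Matrix.mul_assoc, Matrix.trace_mul_comm, Matrix.mul_assoc]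
  rw [← h5]
  unfold Matrix.trace
  apply Finset.sum_congr rfl
  intro k _
  rw [hDdef, trace_D, Matrix.diag_apply, Matrix.diagonal_mul, Matrix.add_apply,
    Matrix.one_apply_eq, Matrix.smul_apply, smul_eq_mul]

end Pool.Agent.MP100fe7U
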