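import Pool.Agent.Lib.MP_100fe7_ntU.Util

/-!
The involution `Fr c W` for a monomial family `W` which exchanges the Hodge indices `a` and `w - a`.
-/

set_option linter.unusedSectionVars false

namespace Pool.Agent.MP100fe7U

open Matrix MP100fe7L

variable {ι : Type} [Fintype ι] [DecidableEq ι] {F : ι → Type} [∀ i, Field (F i)]
  [∀ i, NumberField (F i)] {E : Type} [Field E] [NumberField E] {n : ι → ℕ} {κ : Type}
  [Fintype κ] [DecidableEq κ] (ρ : Rep F E n κ) {w : ι → ℤ}
  (T : ∀ i, MType (F i) E (n i) (w i)) {c : Gal F E} {W : Fam F E n E}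

/-- `W q`, a map from the space at `q` to the space at `act c q`, is monomial and exchanges the
Hodge indices `a` and `w - a`. -/
def IsMono (c : Gal F E) (W : Fam F E n E) : Prop :=
  ∃ π : ∀ q : Emb F E, Equiv.Perm (Fin (n q.1)), (∀ q k j, k ≠ π q j → W q k j = 0) ∧
    ∀ q j, (T q.1).p (act c q).2 (π q j) = w q.1 - (T q.1).p q.2 j

/-- weights along a monomial family -/
theorem wt_mono {W : Fam F E n E} (π : ∀ q : Emb F E, Equiv.Perm (Fin (n q.1)))
    (hπ : ∀ q k j, k ≠ π q j → W q k j = 0) (s t : κ) (h : ρ.toPol.pol E W s t ≠ 0)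
    (q : Emb F E) (j : Fin (n q.1)) : ρ.wt s ⟨q, π q j⟩ = ρ.wt t ⟨q, j⟩ := by
  let P := Polynomial E
  let t₀ : Tot F E n := ⟨q, π q j⟩
  let x : Tot F E n → P := Function.update (1 : Tot F E n → P) t₀ Polynomial.X
  let y : Tot F E n → P := fun r => x ⟨r.1, π r.1 r.2⟩
  let W' : Fam F E n P := MP100fe7L.Fam.map' W (algebraMap E P)
  have h1 : (MP100fe7L.fdiag x : Fam F E n P) * W' = W' * MP100fe7L.fdiag y := by
    funext r
    refine Matrix.ext fun k l => ?_
    rw [Pi.mul_apply, Pi.mul_apply]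
    change (diagonal (fun j => x ⟨r, j⟩) * W' r) k l = (W' r * diagonal (fun j => y ⟨r, j⟩)) k l
    rw [diagonal_mul, mul_diagonal]
    by_cases hk : k = π r l
    · subst hk
      exact mul_comm _ _
    · have h2 : W' r k l = 0 := by
        change algebraMap E P (W r k l) = 0
        rw [hπ r k l hk, map_zero]
      rw [h2, mul_zero, zero_mul]
  have h2 := congrArg (ρ.toPol.pol P) h1
  rw [ρ.toPol.pol_mul, ρ.toPol.pol_mul, ρ.toPol.pol_diag, ρ.toPol.pol_diag] at h2
  have hW : (ρ.toPol.pol E W).map (algebraMap E P) = ρ.toPol.pol P W' :=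
    ρ.toPol.pol_map (Algebra.ofId E P) W
  rw [← hW] at h2
  have h3 := congrFun (congrFun h2 s) t
  rw [mul_diagonal, diagonal_mul, Matrix.map_apply] at h3
  have h4 : ∏ r : Tot F E n, x r ^ ρ.toPol.wt s r = Polynomial.X ^ ρ.wt s t₀ := by
    rw [Finset.prod_eq_single t₀]
    · simp only [x, Function.update_self]
      rfl
    · intro r _ hr
      simp only [x]
      rw [Function.update_of_ne hr]
      simp
    · simp
  have h5 : ∏ r : Tot F E n, y r ^ ρ.toPol.wt t r = Polynomial.X ^ ρ.wt t ⟨q, j⟩ := by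
    rw [Finset.prod_eq_single (⟨q, j⟩ : Tot F E n)]
    · have h6 : y ⟨q, j⟩ = x t₀ := rfl
      rw [h6]
      simp only [x]
      rw [Function.update_self]
      rfl
    · rintro ⟨q', j'⟩ _ hr
      have h6 : y ⟨q', j'⟩ = x ⟨q', π q' j'⟩ := rfl
      rw [h6]
      simp only [x]
      rw [Function.update_of_ne]
      · simp
      · intro h'
        apply hr
        have h7 : q' = q := congrArg (fun t : Tot F E n => t.1) h'
        subst h7
        have h8 : (⟨q', π q' j'⟩ : Tot F E n) = ⟨q', π q' j⟩ := h'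
        have h9 := eq_of_heq (Sigma.mk.inj_iff.mp h8).2
        rw [(π q').injective h9]
    · simp
  rw [h4, h5] at h3
  have h6 : (Polynomial.C (ρ.toPol.pol E W s t) : P) ≠ 0 := Polynomial.C_ne_zero.mpr h
  have h7 : (algebraMap E P) (ρ.toPol.pol E W s t) = Polynomial.C (ρ.toPol.pol E W s t) := rfl
  rw [h7, mul_comm] at h3
  have h8 := mul_left_cancel₀ h6 h3
  have h9 := congrArg Polynomial.natDegree h8
  simpa using h9

theorem hodgeIdx_add (hm : IsMono T c W) (s t : κ) (h : ρ.Fr c W s t ≠ 0) :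
    ρ.hodgeIdx T s + ρ.hodgeIdx T t = ρ.motWeight w := by
  obtain ⟨π, hπ, hp⟩ := hm
  have h0 : ∃ r, ρ.perm c s r ≠ 0 ∧ ρ.toPol.pol E W r t ≠ 0 := by
    by_contra hcon
    push Not at hcon
    apply h
    unfold Rep.Fr
    rw [Matrix.mul_apply]
    apply Finset.sum_eq_zero
    intro r _
    by_cases hr : ρ.perm c s r = 0
    · rw [hr, zero_mul]
    · rw [ρ.ev_eq, Matrix.smul_apply, hcon r hr, smul_zero, mul_zero]
  obtain ⟨r, hr1, hr2⟩ := h0
  have hw : ∀ (q : Emb F E) (j : Fin (n q.1)),
      ρ.weight s ⟨act c q, π q j⟩ = ρ.weight t ⟨q, j⟩ := by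
    intro q j
    unfold Rep.weight
    have h1 := ρ.wt_perm c s r hr1 q (π q j)
    have h2 := wt_mono ρ π hπ r t hr2 q j
    rw [h1, h2]
  unfold Rep.hodgeIdx Rep.motWeight
  rw [Rep.sum_tot (fun u : Tot F E n => ρ.weight s u * (T u.1.1).p u.1.2 u.2),
    Rep.sum_tot (fun u : Tot F E n => ρ.weight t u * (T u.1.1).p u.1.2 u.2)]
  rw [← Equiv.sum_comp (actEquiv c), ← Finset.sum_add_distrib]
  have h1 : ∀ q : Emb F E, (∑ j, ρ.weight s ⟨act c q, j⟩ * (T q.1).p (act c q).2 j) +
      ∑ j, ρ.weight t ⟨q, j⟩ * (T q.1).p q.2 j = (∑ j, ρ.weight t ⟨q, j⟩) * w q.1 := by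
    intro q
    rw [← Equiv.sum_comp (π q) (fun j => ρ.weight s ⟨act c q, j⟩ * (T q.1).p (act c q).2 j),
      ← Finset.sum_add_distrib, Finset.sum_mul]
    apply Finset.sum_congr rfl
    intro j _
    rw [hw, hp]
    ring
  refine (Finset.sum_congr rfl (fun q _ => h1 q)).trans ?_
  rw [Fintype.sum_sigma]
  apply Finset.sum_congr rfl
  intro i _
  change ∑ φ : F i →+* E, (∑ j, ρ.weight t ⟨⟨i, φ⟩, j⟩) * w i = _
  rw [← Finset.sum_mul]
  congr 1
  have h2 := ρ.sum_wt t i
  rw [← h2]
  unfold Rep.weight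
  push_cast
  simp only [Finset.sum_sub_distrib, Finset.sum_const, Finset.card_univ, Fintype.card_fin,
    nsmul_eq_mul]
  ring

/-- an eigenvector of the involution supported on the high part vanishes -/
private theorem wfrob_zero (hm : IsMono T c W) {ε : E} (hε : ε * ε = 1) {a : ℤ}
    (ha : ρ.motWeight w < 2 * a) {y : κ → E} (hy : (ρ.Fr c W).mulVec y = ε • y)
    (h0 : ∀ s, isLo ρ T a s → y s = 0) : y = 0 := by
  funext s
  by_cases hs : isLo ρ T a s
  · exact h0 s hs
  · have h1 := congrFun hy s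
    have h2 : (ρ.Fr c W).mulVec y s = 0 := by
      simp only [mulVec, dotProduct]
      apply Finset.sum_eq_zero
      intro t _
      by_cases hst : ρ.Fr c W s t = 0
      · rw [hst, zero_mul]
      · have h3 := hodgeIdx_add ρ T hm s t hst
        have h4 : isLo ρ T a t := by
          unfold isLo at hs ⊢
          omega
        rw [h0 t h4, mul_zero]
    rw [h2, Pi.smul_apply, smul_eq_mul] at h1
    have h4 : ε * (ε * y s) = 0 := by rw [← h1, mul_zero]
    rwa [← mul_assoc, hε, one_mul] at h4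

theorem det_BA_ne (hc : c * c = 1) (hW : Rep.pull c W * W = 1) (hm : IsMono T c W) {d : ℕ}
    {A : Matrix κ (Fin d) E} {B : Matrix (Fin d) κ E} {ε : E} (hε : ε * ε = 1)
    (hA : IsEig (ρ.Fr c W) ε A) (hB : Function.Surjective B.mulVec) {a : ℤ}
    (hker : ∀ v : κ → E, B.mulVec v = 0 ↔ ∀ s, isLo ρ T a s → v s = 0) :
    (B * A).det ≠ 0 := by
  by_cases ha : ρ.motWeight w < 2 * a
  · intro h
    obtain ⟨v, hv, hv0⟩ := Matrix.exists_mulVec_eq_zero_iff.mpr h
    apply hv
    rw [← mulVec_mulVec] at hv0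
    have h1 := wfrob_zero ρ T hm hε ha ((hA.2 _).mp ⟨v, rfl⟩) ((hker _).mp hv0)
    apply hA.1
    rw [h1, mulVec_zero]
  · push Not at ha
    have hsurj : Function.Surjective (B * A).mulVec := by
      intro y
      obtain ⟨v, hv⟩ := hB y
      let v' : κ → E := fun s => if isLo ρ T a s then v s else 0
      have h1 : B.mulVec v' = y := by
        rw [← hv, ← sub_eq_zero, ← mulVec_sub, hker]
        intro s hs
        simp only [v', Pi.sub_apply, if_pos hs, sub_self]
      have h2 : B.mulVec ((ρ.Fr c W).mulVec v') = 0 := by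
        rw [hker]
        intro s hs
        simp only [mulVec, dotProduct]
        apply Finset.sum_eq_zero
        intro t _
        by_cases hst : ρ.Fr c W s t = 0
        · rw [hst, zero_mul]
        · have h3 := hodgeIdx_add ρ T hm s t hst
          have h4 : ¬ isLo ρ T a t := by
            unfold isLo at hs ⊢
            omega
          simp only [v', if_neg h4, mul_zero]
      have h3 : v' + ε • (ρ.Fr c W).mulVec v' ∈ Set.range A.mulVec := by
        rw [hA.2, mulVec_add, mulVec_smul, mulVec_mulVec, ρ.Fr_sq hc hW, one_mulVec, smul_add,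
          smul_smul, hε, one_smul, add_comm]
      obtain ⟨x, hx⟩ := h3
      refine ⟨x, ?_⟩
      rw [← mulVec_mulVec, hx, mulVec_add, mulVec_smul, h1, h2, smul_zero, add_zero]
    have h4 := Matrix.mulVec_surjective_iff_isUnit.mp hsurj
    exact ((Matrix.isUnit_iff_isUnit_det _).mp h4).ne_zero

/-- If there are no middle classes, the middle step of the filtration is `F^+ N = F^- N`. -/
theorem exists_eig (hc : c * c = 1) (hW : Rep.pull c W * W = 1) (hm : IsMono T c W)
    (hmid : ρ.NoMiddle T) {ε : E} (hε : ε * ε = 1) :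
    ∃ A : Matrix κ (Fin (ρ.lowPart T ((ρ.motWeight w + 1) / 2)).card) E,
      IsEig (ρ.Fr c W) ε A := by
  classical
  set a₀ := (ρ.motWeight w + 1) / 2 with ha₀
  have hlo : ∀ {s t : κ}, ρ.Fr c W s t ≠ 0 → (isLo ρ T a₀ s ↔ ¬ isLo ρ T a₀ t) := by
    intro s t h
    have h1 := hodgeIdx_add ρ T hm s t h
    have h2 := hmid s
    have h3 := hmid t
    unfold isLo
    omega
  let ψ : Fin (ρ.lowPart T a₀).card ≃ {s // s ∈ ρ.lowPart T a₀} :=
    (ρ.lowPart T a₀).equivFin.symm
  have hψ : ∀ i, isLo ρ T a₀ (ψ i).1 := fun i => (mem_lowPart ρ T a₀ _).mp (ψ i).2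
  let C := ρ.Fr c W
  let A : Matrix κ (Fin (ρ.lowPart T a₀).card) E :=
    (1 + ε • C).submatrix id (fun i => (ψ i).1)
  let B : Matrix (Fin (ρ.lowPart T a₀).card) κ E :=
    (1 : Matrix κ κ E).submatrix (fun i => (ψ i).1) id
  have hB : ∀ (v : κ → E) i, B.mulVec v i = v (ψ i).1 := by
    intro v i
    change ∑ s, (1 : Matrix κ κ E) (ψ i).1 s * v s = v (ψ i).1
    rw [Finset.sum_eq_single (ψ i).1]
    · rw [Matrix.one_apply_eq, one_mul]
    · intro s _ hs
      rw [Matrix.one_apply_ne (Ne.symm hs), zero_mul]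
    · simp
  have hBA : B * A = 1 := by
    ext i j
    rw [Matrix.mul_apply]
    change ∑ s, (1 : Matrix κ κ E) (ψ i).1 s * (1 + ε • C) s (ψ j).1 = _
    rw [Finset.sum_eq_single (ψ i).1]
    · rw [Matrix.one_apply_eq, one_mul, Matrix.add_apply, Matrix.smul_apply]
      have h1 : C (ψ i).1 (ψ j).1 = 0 := by
        by_contra h
        exact ((hlo h).mp (hψ i)) (hψ j)
      rw [h1, smul_zero, add_zero, Matrix.one_apply, Matrix.one_apply]
      by_cases hij : i = j
      · subst hij
        simp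
      · rw [if_neg hij, if_neg]
        intro h
        exact hij (ψ.injective (Subtype.ext h))
    · intro s _ hs
      rw [Matrix.one_apply_ne (Ne.symm hs), zero_mul]
    · simp
  have hC : C * C = 1 := ρ.Fr_sq hc hW
  have hCA : C * A = ε • A := by
    have h2 : C * (1 + ε • C) = ε • (1 + ε • C) := by
      rw [Matrix.mul_add, Matrix.mul_one, Matrix.mul_smul, hC, smul_add, smul_smul, hε, one_smul,
        add_comm]
    ext s i
    have h3 := congrFun (congrFun h2 s) (ψ i).1
    exact h3
  refine ⟨A, ?_, ?_⟩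
  · intro x y hxy
    have h1 : B.mulVec (A.mulVec x) = B.mulVec (A.mulVec y) := by rw [hxy]
    rwa [mulVec_mulVec, mulVec_mulVec, hBA, one_mulVec, one_mulVec] at h1
  · intro v
    constructor
    · rintro ⟨x, rfl⟩
      change C.mulVec (A.mulVec x) = ε • A.mulVec x
      rw [mulVec_mulVec, hCA, smul_mulVec]
    · intro hv
      refine ⟨B.mulVec v, ?_⟩
      rw [← sub_eq_zero]
      -- the difference is an eigenvector supported on the high part
      have h5 : (ρ.Fr c W).mulVec (A.mulVec (B.mulVec v) - v) =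
          ε • (A.mulVec (B.mulVec v) - v) := by
        change C.mulVec (A.mulVec (B.mulVec v) - v) = _
        rw [mulVec_sub]
        have hv' : C.mulVec v = ε • v := hv
        rw [hv', mulVec_mulVec, hCA, smul_mulVec, smul_sub]
      have h6 : ∀ s, isLo ρ T a₀ s → (A.mulVec (B.mulVec v) - v) s = 0 := by
        intro s hs
        have h7 : B.mulVec (A.mulVec (B.mulVec v) - v) = 0 := by
          rw [mulVec_sub, mulVec_mulVec, hBA, one_mulVec, sub_self]
        have h8 := congrFun h7 (ψ.symm ⟨s, (mem_lowPart ρ T a₀ s).mpr hs⟩)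
        rw [hB, Equiv.apply_symm_apply] at h8
        exact h8
      funext s
      by_cases hs : isLo ρ T a₀ s
      · exact h6 s hs
      · have h1 := congrFun h5 s
        have h2 : (ρ.Fr c W).mulVec (A.mulVec (B.mulVec v) - v) s = 0 := by
          generalize hy : A.mulVec (B.mulVec v) - v = y at h6
          simp only [mulVec, dotProduct]
          apply Finset.sum_eq_zero
          intro t _
          by_cases hst : ρ.Fr c W s t = 0
          · rw [hst, zero_mul]
          · have h3 := hlo hst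
            rw [h6 t (by tauto), mul_zero]
        rw [h2, Pi.smul_apply, smul_eq_mul] at h1
        have h4 : ε * (ε * (A.mulVec (B.mulVec v) - v) s) = 0 := by rw [← h1, mul_zero]
        rwa [← mul_assoc, hε, one_mul] at h4

end Pool.Agent.MP100fe7U
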