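import Pool.Agent.Lib.MP_100fe7_ntU.SymChar
import Pool.Agent.Lib.MP_100fe7_ntU.Trace
import Pool.Agent.Lib.MP_100fe7_ntU.WFrob
import Pool.Agent.Lib.MP_100fe7_ntU.RealC
import Pool.Agent.Lib.MP_100fe7_ntU.PairLocal

/-!
The families `gamF`, `wF` attached to an embedding `τ` of the coefficients.
-/

set_option linter.unusedSectionVars false

namespace Pool.Agent.MP100fe7U

open Matrix MP100fe7L

variable {ι : Type} [Fintype ι] [DecidableEq ι] {F : ι → Type} [∀ i, Field (F i)]
  [∀ i, NumberField (F i)] {E : Type} [Field E] [NumberField E] {n : ι → ℕ} {κ : Type}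
  [Fintype κ] [DecidableEq κ] {w : ι → ℤ} (T : ∀ i, MType (F i) E (n i) (w i))
  (hE : Split F E) (Φ : (E →+* ℂ) → Finset (Emb F E)) (τ : E →+* ℂ)

/-- the signs at `τ` -/
def sT (t : Tot F E n) : ℤ := (T t.1.1).sgn (τ.comp t.1.2) t.2

theorem sD_sT : (sD (sT T τ) E : Fam F E n E) = sgnFam T τ := rfl

theorem sgnOk : SgnOk (conjElt hE τ) (sT T τ) where
  sq := conjElt_sq hE τ
  one t := (T t.1.1).sgn_eq _ _
  inv q j := sgn_act T hE τ q j

/-- `Φ τ` contains one of each pair of complex conjugate embeddings at `τ`, and no real one. -/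
def PhiOk : Prop := ∀ (τ : E →+* ℂ) (i : ι) (φ φ' : F i →+* E), IsConj τ φ φ' →
  ((⟨i, φ⟩ : Emb F E) ∈ Φ τ ↔ φ' ≠ φ ∧ (⟨i, φ'⟩ : Emb F E) ∉ Φ τ)

theorem conj_eq_iff (i : ι) (φ : F i →+* E) :
    (conjElt hE τ).1 i φ = φ ↔ IsConj τ φ φ := by
  rw [isConj_iff hE τ i]
  exact eq_comm

theorem act_eq_iff (q : Emb F E) : act (conjElt hE τ) q = q ↔ IsConj τ q.2 q.2 := by
  obtain ⟨i, φ⟩ := q
  rw [← conj_eq_iff hE τ i φ]
  constructor
  · intro h
    exact eq_of_heq (Sigma.mk.inj_iff.mp h).2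
  · intro h
    change (⟨i, (conjElt hE τ).1 i φ⟩ : Emb F E) = ⟨i, φ⟩
    rw [h]

theorem real_conj {K : Type} [Field K] {τ : E →+* ℂ} {φ φ' : K →+* E} (h : IsConj τ φ φ')
    (h' : IsConj τ φ' φ') : φ' = φ := by
  apply comp_injective τ
  exact h'.trans (isConj_symm h).symm

/-- the type of a real place -/
theorem realType {i : ι} {φ : F i →+* E} (h : IsConj τ φ φ) :
    RealType ((T i).sgn (τ.comp φ)) ((T i).p φ) (w i) where
  hs j := (T i).sgn_eq _ j
  hp j := (T i).p_conj τ φ φ h j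
  hc δ hδ := (T i).le_card τ φ h δ hδ

/-- the data at a pair of conjugate places -/
theorem pairPt (M : ∀ i, Datum (T i)) {i : ι} {φ φ' : F i →+* E} (h : IsConj τ φ φ') :
    PairPt ((T i).sgn (τ.comp φ)) ((T i).p φ) ((T i).p φ') (w i) ((M i).comp τ φ)
      ((M i).comp τ φ') ((M i).hodge τ φ) ((M i).hodge τ φ') where
  hs j := (T i).sgn_eq _ j
  hp j := (T i).p_conj τ φ φ' h j
  unit := (M i).comp_unit τ φ
  unit' := (M i).comp_unit τ φ'
  int := (M i).internal τ φ
  int' := (M i).internal τ φ'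
  hF a x hx := (M i).hodge_conj τ φ φ' h a x hx
  hF' a x hx := by
    have h1 := (M i).hodge_conj τ φ' φ (isConj_symm h) a x hx
    have h2 : (T i).sgn (τ.comp φ') = (T i).sgn (τ.comp φ) := by
      funext j
      unfold IsConj at h
      rw [h, (T i).sgn_conj]
    rw [h2] at h1
    exact h1
  fil := (M i).fil_hodge τ φ
  fil' := (M i).fil_hodge τ φ'

theorem sgn_conj_eq {i : ι} {φ φ' : F i →+* E} (h : IsConj τ φ φ') :
    (T i).sgn (τ.comp φ') = (T i).sgn (τ.comp φ) := by
  funext j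
  unfold IsConj at h
  rw [h, (T i).sgn_conj]

/-- the diagonal matrix of the signs -/
noncomputable def dg (i : ι) (φ : F i →+* E) : Matrix (Fin (n i)) (Fin (n i)) E :=
  diagonal fun j => ((T i).sgn (τ.comp φ) j : E)

theorem dg_sq (i : ι) (φ : F i →+* E) : dg T τ i φ * dg T τ i φ = 1 :=
  congrFun (sgnFam_sq T τ) (⟨i, φ⟩ : Emb F E)

/-- the matrix `γ` -/
noncomputable def gam (i : ι) (φ : F i →+* E) : Matrix (Fin (n i)) (Fin (n i)) E :=
  if IsConj τ φ φ then Gam ((T i).sgn (τ.comp φ)) ((T i).p φ) (w i) E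
  else if (⟨i, φ⟩ : Emb F E) ∈ Φ τ then 1 else Rv (n i) E * dg T τ i φ

/-- the matrix of `F_∞` in the adapted basis -/
noncomputable def wm (i : ι) (φ : F i →+* E) : Matrix (Fin (n i)) (Fin (n i)) E :=
  if IsConj τ φ φ then Wr ((T i).sgn (τ.comp φ)) ((T i).p φ) (w i) E else Rv (n i) E

/-- the family `γ` -/
noncomputable def gamF : Fam F E n E := fun q => gam T Φ τ q.1 q.2

/-- the family `W` -/
noncomputable def wF : Fam F E n E := fun q => wm T τ q.1 q.2

theorem gam_rel (hΦ : PhiOk Φ) {i : ι} {φ φ' : F i →+* E} (h : IsConj τ φ φ') :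
    gam T Φ τ i φ' * dg T τ i φ = wm T τ i φ * gam T Φ τ i φ := by
  by_cases hr : IsConj τ φ φ
  · have h1 : φ' = φ := by
      apply comp_injective τ
      unfold IsConj at h hr
      rw [h, ← hr]
    subst h1
    unfold gam wm
    rw [if_pos hr, if_pos hr]
    exact Gam_mul (realType T τ hr) E
  · have hr' : ¬ IsConj τ φ' φ' := by
      intro h2
      apply hr
      have h3 := real_conj h h2
      rwa [h3] at h2
    have hne : φ' ≠ φ := by
      rintro rfl
      exact hr h
    have h4 := hΦ τ i φ φ' h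
    have h5 : dg T τ i φ' = dg T τ i φ := by
      unfold dg
      rw [sgn_conj_eq T τ h]
    unfold gam wm
    rw [if_neg hr, if_neg hr', if_neg hr]
    by_cases hm : (⟨i, φ⟩ : Emb F E) ∈ Φ τ
    · rw [if_pos hm, if_neg (h4.mp hm).2, h5, Matrix.mul_assoc, dg_sq, Matrix.mul_one]
    · have hm' : (⟨i, φ'⟩ : Emb F E) ∈ Φ τ := by
        by_contra h6
        exact hm (h4.mpr ⟨hne, h6⟩)
      rw [if_neg hm, if_pos hm', Matrix.one_mul, ← Matrix.mul_assoc, Rv_sq, Matrix.one_mul]

theorem gamF_rel (hΦ : PhiOk Φ) : Rep.pull (conjElt hE τ) (gamF T Φ τ) * sD (sT T τ) E =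
    wF T τ * gamF T Φ τ := by
  funext q
  exact gam_rel T Φ τ hΦ (isConj_conjElt hE τ q.1 q.2)

theorem wm_inv {i : ι} {φ φ' : F i →+* E} (h : IsConj τ φ φ') :
    wm T τ i φ' * wm T τ i φ = 1 := by
  by_cases hr : IsConj τ φ φ
  · have h1 : φ' = φ := by
      apply comp_injective τ
      unfold IsConj at h hr
      rw [h, ← hr]
    subst h1
    unfold wm
    rw [if_pos hr]
    exact Wr_sq (realType T τ hr) E
  · have hr' : ¬ IsConj τ φ' φ' := by
      intro h2
      apply hr
      have h3 := real_conj h h2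
      rwa [h3] at h2
    unfold wm
    rw [if_neg hr, if_neg hr', Rv_sq]

theorem wF_inv : Rep.pull (conjElt hE τ) (wF T τ) * wF T τ = 1 := by
  funext q
  exact wm_inv T τ (isConj_conjElt hE τ q.1 q.2)

theorem gam_det (i : ι) (φ : F i →+* E) : (gam T Φ τ i φ).det ≠ 0 := by
  unfold gam
  split_ifs with h1 h2
  · exact Gam_det (realType T τ h1) E
  · rw [det_one]
    exact one_ne_zero
  · rw [det_mul]
    have h3 := congrArg Matrix.det (Rv_sq (n i) E)
    have h4 := congrArg Matrix.det (dg_sq T τ i φ)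
    rw [det_mul, det_one] at h3 h4
    exact mul_ne_zero (left_ne_zero_of_mul_eq_one h3) (left_ne_zero_of_mul_eq_one h4)

/-- the inverse family -/
noncomputable def gamI : Fam F E n E := fun q => (gam T Φ τ q.1 q.2)⁻¹

theorem gamI_mul : gamI T Φ τ * gamF T Φ τ = 1 := by
  funext q
  exact nonsing_inv_mul _ (isUnit_iff_ne_zero.mpr (gam_det T Φ τ q.1 q.2))

/-- the permutation of the indices given by `W` -/
noncomputable def piFun (q : Emb F E) (j : Fin (n q.1)) : Fin (n q.1) :=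
  if IsConj τ q.2 q.2 ∧ 2 * (T q.1).p q.2 j = w q.1 then j else Fin.rev j

theorem piFun_invol (q : Emb F E) : Function.Involutive (piFun T τ q) := by
  intro j
  unfold piFun
  by_cases h : IsConj τ q.2 q.2 ∧ 2 * (T q.1).p q.2 j = w q.1
  · simp only [if_pos h]
  · simp only [if_neg h]
    rw [if_neg, Fin.rev_rev]
    rintro ⟨hr, h2⟩
    rw [(T q.1).p_conj τ q.2 q.2 hr j] at h2
    exact h ⟨hr, by omega⟩

/-- the permutation of the indices given by `W` -/
noncomputable def piF (q : Emb F E) : Equiv.Perm (Fin (n q.1)) :=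
  (piFun_invol T τ q).toPerm

theorem piF_apply (q : Emb F E) (j : Fin (n q.1)) : piF T τ q j = piFun T τ q j := rfl

theorem wF_mono : IsMono T (conjElt hE τ) (wF T τ) := by
  refine ⟨piF T τ, ?_, ?_⟩
  · intro q k j hk
    rw [piF_apply] at hk
    unfold piFun at hk
    change wm T τ q.1 q.2 k j = 0
    unfold wm
    by_cases hr : IsConj τ q.2 q.2
    · rw [if_pos hr]
      unfold Wr
      rw [of_apply]
      by_cases hj : 2 * (T q.1).p q.2 j = w q.1
      · rw [if_pos hj]
        rw [if_pos ⟨hr, hj⟩] at hk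
        rw [if_neg hk]
      · rw [if_neg hj]
        rw [if_neg (fun h => hj h.2)] at hk
        rw [if_neg hk]
    · rw [if_neg hr]
      rw [if_neg (fun h => hr h.1)] at hk
      unfold Rv
      rw [of_apply, if_neg hk]
  · intro q j
    rw [piF_apply]
    unfold piFun
    have h1 := (T q.1).p_conj τ q.2 _ (isConj_conjElt hE τ q.1 q.2) j
    split_ifs with h
    · have h2 : (conjElt hE τ).1 q.1 q.2 = q.2 := (conj_eq_iff hE τ q.1 q.2).mpr h.1
      change (T q.1).p ((conjElt hE τ).1 q.1 q.2) j = w q.1 - (T q.1).p q.2 j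
      rw [h2]
      omega
    · exact h1

end Pool.Agent.MP100fe7U
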