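import Pool.Agent.Lib.MP_100fe7_ntU.UFac

/-!
The closed formula for the Deligne periods of all L-group constructions: the theorem.
-/

set_option linter.unusedSectionVars false

namespace Pool.Agent.MP100fe7U

open Matrix MP100fe7L
open MP100fe7T (detP detP_diagonal)

section

variable {ι : Type} [Fintype ι] [DecidableEq ι] {F : ι → Type} [∀ i, Field (F i)]
  [∀ i, NumberField (F i)] {E : Type} [Field E] [NumberField E] {n : ι → ℕ} {κ : Type}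
  [Fintype κ] [DecidableEq κ] (ρ : Rep F E n κ) {w : ι → ℤ} (T : ∀ i, MType (F i) E (n i) (w i))
  (hE : Split F E) (Φ : (E →+* ℂ) → Finset (Emb F E)) (hΦ : PhiOk Φ) (τ₀ : E →+* ℂ)
  {d : ℕ} {A : Matrix κ (Fin d) E} {ε : E} (hε : ε * ε = 1)
  (hA : IsEig (ρ.Fr (conjElt hE τ₀) (sD (sT T τ₀) E)) ε A)
  {B : Matrix (Fin d) κ E} (hB : Function.Surjective B.mulVec) {a₀ : ℤ}
  (hker : ∀ v : κ → E, B.mulVec v = 0 ↔ ∀ s, isLo ρ T a₀ s → v s = 0)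
  {L : Matrix (Fin d) κ E} (hL : L * A = 1) {m : Emb F E → ℤ → ℕ}
  (hm : ∀ t : Tot F E n, (eig ρ L A (Polynomial E) (fdiag (xT (conjElt hE τ₀) t))).det =
      Polynomial.X ^ m t.1 (cl (conjElt hE τ₀) (sT T τ₀) t))

include hE in
/-- the last conjugate embedding is real at `τ₀` if it is real at `τ` -/
theorem inv_spec (τ : E →+* ℂ) (i : ι) (φ : F i →+* E) :
    (galElt hE τ τ₀).1 i (act (galElt hE τ τ₀)⁻¹ (⟨i, φ⟩ : Emb F E)).2 = φ :=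
  eq_of_heq (Sigma.mk.inj_iff.mp (act_act_inv (galElt hE τ τ₀) (⟨i, φ⟩ : Emb F E))).2

include hε hA hL hm in
/-- The exponents at the real places. -/
theorem eR_trace (δ : ℤ) (i : ι) (φ : F i →+* E) (j : Fin (n i))
    (hr : IsConj τ₀ φ φ) (hj : (T i).sgn (τ₀.comp φ) j = δ) :
    ((2 * eR ρ T hE τ₀ d m δ ⟨i, τ₀.comp φ⟩ : ℤ) : E) =
      ∑ s, (ρ.weight s ⟨⟨i, φ⟩, j⟩ : E) * (1 + ε * ρ.frob T hE τ₀ s s) := by
  classical
  have h1 : eR ρ T hE τ₀ d m δ ⟨i, τ₀.comp φ⟩ = (m ⟨i, φ⟩ δ : ℤ) - ρ.twist i * d := by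
    unfold eR
    have h2 : ∃ j', (T i).sgn (τ₀.comp φ) j' = δ := ⟨j, hj⟩
    rw [if_pos h2]
    have h3 : e0 hE τ₀ (⟨i, τ₀.comp φ⟩ : Σ i, (F i →+* ℂ)) = (⟨i, φ⟩ : Emb F E) :=
      e0_plc hE τ₀ (⟨i, φ⟩ : Emb F E)
    rw [h3]
  have h4 := hm (⟨⟨i, φ⟩, j⟩ : Tot F E n)
  rw [cl_real T hE τ₀ i φ hr j, hj] at h4
  have h5 := trace_formula (sgnOk T hE τ₀) ρ hL hε hA (⟨⟨i, φ⟩, j⟩ : Tot F E n)
    ((act_eq_iff hE τ₀ (⟨i, φ⟩ : Emb F E)).mpr hr) _ h4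
  have h6 := trace_projE (ρ.Fr_sq (conjElt_sq hE τ₀) (sD_inv (sgnOk T hE τ₀) E)) hε hA hL
  have h7 : ∀ s, (ρ.weight s (⟨⟨i, φ⟩, j⟩ : Tot F E n) : E) *
      (1 + ε * ρ.frob T hE τ₀ s s) =
      (ρ.wt s (⟨⟨i, φ⟩, j⟩ : Tot F E n) : E) *
        (1 + ε * ρ.Fr (conjElt hE τ₀) (sD (sT T τ₀) E) s s) -
      ρ.twist i * (1 + ε * ρ.Fr (conjElt hE τ₀) (sD (sT T τ₀) E) s s) := by
    intro s
    unfold Rep.weight
    have h8 : ρ.frob T hE τ₀ = ρ.Fr (conjElt hE τ₀) (sD (sT T τ₀) E) := rfl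
    rw [h8]
    push_cast
    ring
  rw [Finset.sum_congr rfl (fun s _ => h7 s), Finset.sum_sub_distrib, ← Finset.mul_sum, h6, ← h5,
    h1]
  push_cast
  ring

include hε hA hB hker hL hm hΦ in
/-- The exponent at the complex places. -/
theorem eK_sum (hd : d = (ρ.lowPart T a₀).card) (i : ι) (τ : E →+* ℂ) (φ φ' : F i →+* E)
    (j : Fin (n i)) (hc : IsConj τ φ φ') (hne : φ' ≠ φ) :
    eK ρ τ₀ d m i = ∑ s ∈ ρ.lowPart T a₀,
      (ρ.weight s ⟨⟨i, φ⟩, j⟩ + ρ.weight s ⟨⟨i, φ'⟩, Fin.rev j⟩) := by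
  have hg := inv_spec hE τ₀ τ i φ
  have hr : ¬ IsConj τ φ φ := by
    intro h
    apply hne
    rw [(isConj_iff hE τ i φ φ').mp hc]
    exact (conj_eq_iff hE τ i φ).mpr h
  have hr0 : ¬ IsConj τ₀ (act (galElt hE τ τ₀)⁻¹ (⟨i, φ⟩ : Emb F E)).2
      (act (galElt hE τ τ₀)⁻¹ (⟨i, φ⟩ : Emb F E)).2 :=
    fun h => hr ((isConj_gal hE τ₀ τ hg).mpr h)
  rw [eK_eq ρ T hE Φ hΦ τ₀ hε hA hB hker hL hm i _ hr0 j,
    exp_complex' ρ T hE Φ hΦ τ₀ hε hA hB hker hL hm τ i _ φ φ' hg hc hne j,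
    Finset.sum_add_distrib, Finset.sum_add_distrib, sum_weight_low, sum_weight_low, hd]
  push_cast
  ring

include hε hA hB hker hL hm hΦ in
/-- The two exponents in the non scalar case. -/
theorem eR_scalar (i : ι) (τ : E →+* ℂ) (φ : F i →+* E) (hr : IsConj τ φ φ)
    (hns : ¬ (T i).IsScalar τ φ) : eR ρ T hE τ₀ d m 1 ⟨i, τ.comp φ⟩ =
      eR ρ T hE τ₀ d m (-1) ⟨i, τ.comp φ⟩ := by
  classical
  have hg := inv_spec hE τ₀ τ i φ
  have h1 := (m_scalar ρ T hE Φ hΦ τ₀ hε hA hB hker hL hm τ i _ φ hg hr hns).1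
  obtain ⟨j₁, hj₁, hs₁⟩ := exists_mid (realType T τ hr) hns 1 (Or.inl rfl)
  obtain ⟨j₂, hj₂, hs₂⟩ := exists_mid (realType T τ hr) hns (-1) (Or.inr rfl)
  have h3 : e0 hE τ₀ (⟨i, τ.comp φ⟩ : Σ i, (F i →+* ℂ)) =
      act (galElt hE τ τ₀)⁻¹ (⟨i, φ⟩ : Emb F E) := (act_inv_eq hE τ₀ τ ⟨i, φ⟩).symm
  have e1 : ∃ j', (T i).sgn (τ.comp φ) j' = 1 := ⟨_, hs₁⟩
  have e2 : ∃ j', (T i).sgn (τ.comp φ) j' = -1 := ⟨_, hs₂⟩
  unfold eR
  rw [if_pos e1, if_pos e2, h3]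
  congr 2

end

/-- **Theorem U.** -/
theorem u_periods {ι : Type} [Fintype ι] [DecidableEq ι] (F : ι → Type) [∀ i, Field (F i)]
    [∀ i, NumberField (F i)] (E : Type) [Field E] [NumberField E] (hE : Split F E)
    (τ₀ : E →+* ℂ) (n : ι → ℕ) (w : ι → ℤ) (T : ∀ i, MType (F i) E (n i) (w i)) (κ : Type)
    [Fintype κ] [DecidableEq κ] (ρ : Rep F E n κ) (Φ : (E →+* ℂ) → Finset (Emb F E))
    (hΦ : ∀ (τ : E →+* ℂ) (i : ι) (φ φ' : F i →+* E), IsConj τ φ φ' →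
      ((⟨i, φ⟩ : Emb F E) ∈ Φ τ ↔ φ' ≠ φ ∧ (⟨i, φ'⟩ : Emb F E) ∉ Φ τ)) :
    (∀ (M : ∀ i, Datum (T i)) (i : ι) (τ : E →+* ℂ) (φ : F i →+* E) (a : ℤ),
      ∃ v : ℂ, v ≠ 0 ∧ ∀ v', (M i).IsHodgePeriod τ φ a v' ↔ v' = v) ∧
    (∀ (M : ∀ i, Datum (T i)) (i : ι) (τ : E →+* ℂ) (φ : F i →+* E) (δ : ℤ), IsConj τ φ φ →
      (T i).IsScalar τ φ → δ = 1 ∨ δ = -1 →
        ∃ c : ℂ, c ≠ 0 ∧ ∀ c', (M i).IsRealPeriod τ φ δ c' ↔ c' = c) ∧
    (ρ.NoMiddle T → ∀ ε : E, ε = 1 ∨ ε = -1 →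
      ρ.IsStep T hE τ₀ ε ((ρ.motWeight w + 1) / 2)) ∧
    ∀ (ε : E) (a₀ : ℤ), ε = 1 ∨ ε = -1 → ρ.IsStep T hE τ₀ ε a₀ →
      ∃ (A B : (Σ i, (F i →+* ℂ)) → ℤ) (k : ι → ℤ) (S : Emb F E → ℤ → ℤ) (u : (E →+* ℂ) → E),
        (∀ (i : ι) (φ : F i →+* E) (j : Fin (n i)), IsConj τ₀ φ φ →
          (T i).sgn (τ₀.comp φ) j = 1 → ((2 * A ⟨i, τ₀.comp φ⟩ : ℤ) : E) =
            ∑ s, (ρ.weight s ⟨⟨i, φ⟩, j⟩ : E) * (1 + ε * ρ.frob T hE τ₀ s s)) ∧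
        (∀ (i : ι) (φ : F i →+* E) (j : Fin (n i)), IsConj τ₀ φ φ →
          (T i).sgn (τ₀.comp φ) j = -1 → ((2 * B ⟨i, τ₀.comp φ⟩ : ℤ) : E) =
            ∑ s, (ρ.weight s ⟨⟨i, φ⟩, j⟩ : E) * (1 + ε * ρ.frob T hE τ₀ s s)) ∧
        (∀ (i : ι) (τ : E →+* ℂ) (φ φ' : F i →+* E) (j : Fin (n i)), IsConj τ φ φ' →
          φ' ≠ φ → k i = ∑ s ∈ ρ.lowPart T a₀,
            (ρ.weight s ⟨⟨i, φ⟩, j⟩ + ρ.weight s ⟨⟨i, φ'⟩, Fin.rev j⟩)) ∧
        (∀ (q : Emb F E) (j : Fin (n q.1)),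
          S q ((T q.1).p q.2 j) = ∑ s ∈ ρ.lowPart T a₀, ρ.weight s ⟨q, j⟩) ∧
        (∀ (i : ι) (τ : E →+* ℂ) (φ : F i →+* E), IsConj τ φ φ → ¬ (T i).IsScalar τ φ →
          A ⟨i, τ.comp φ⟩ = B ⟨i, τ.comp φ⟩) ∧
        (∀ τ, u τ ≠ 0) ∧
        (∀ τ τ' : E →+* ℂ, conjElt hE τ = conjElt hE τ' →
          (∀ (i : ι) (φ : F i →+* E), (T i).sgn (τ.comp φ) = (T i).sgn (τ'.comp φ)) →
          Φ τ = Φ τ' → ∀ v : E, ρ.IsGalDet T hE τ₀ ε ((galElt hE τ' τ₀)⁻¹ * galElt hE τ τ₀) v ↔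
            u τ = u τ' * v) ∧
        ∀ M : ∀ i, Datum (T i), (∃ x, ρ.IsPeriod M hE τ₀ ε x) ∧
          ∀ x, ρ.IsPeriod M hE τ₀ ε x → (∀ τ, x τ ≠ 0) ∧ ∃ e : E, e ≠ 0 ∧
            ∀ (τ : E →+* ℂ) (c d : Emb F E → ℂ) (v : Emb F E → ℤ → ℂ),
              (∀ q : Emb F E, IsConj τ q.2 q.2 → (T q.1).IsScalar τ q.2 →
                (M q.1).IsRealPeriod τ q.2 1 (c q) ∧ (M q.1).IsRealPeriod τ q.2 (-1) (d q)) →
              (∀ q : Emb F E, ∀ a ∈ (T q.1).indices q.2,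
                (M q.1).IsHodgePeriod τ q.2 a (v q a)) →
              x τ = τ e * τ (u τ) * ∏ q : Emb F E,
                if IsConj τ q.2 q.2 then
                  if (T q.1).IsScalar τ q.2 then
                    c q ^ A ⟨q.1, τ.comp q.2⟩ * d q ^ B ⟨q.1, τ.comp q.2⟩ *
                      ∏ a ∈ (T q.1).lowIndices q.2, v q a ^
                        (S q a - A ⟨q.1, τ.comp q.2⟩ - B ⟨q.1, τ.comp q.2⟩)
                  else ((M q.1).comp τ q.2).det ^ A ⟨q.1, τ.comp q.2⟩ *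
                    ∏ a ∈ (T q.1).lowIndices q.2, v q a ^ (S q a - A ⟨q.1, τ.comp q.2⟩)
                else if q ∈ Φ τ then
                  ((M q.1).comp τ ((conjElt hE τ).1 q.1 q.2)).det ^ k q.1 *
                    ∏ a ∈ (T q.1).indices q.2, v q a ^ S q a
                else 1 := by
  refine ⟨?_, ?_, ?_, ?_⟩
  · intro M i τ φ a
    have hc := isConj_conjElt hE τ i φ
    refine ⟨_, hper_ne (pairPt T τ M hc) a, ?_⟩
    intro v'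
    rw [hodge_iff M hE τ hc]
    exact hper_iff (pairPt T τ M hc) a v'
  · intro M i τ φ δ hr hsc hδ
    exact exists_rper (realType T τ hr) (pairPt T τ M hr) hsc δ hδ
  · intro hmid ε hε'
    apply isStep_of_noMiddle' ρ T hE Φ τ₀ hΦ hmid
    rcases hε' with rfl | rfl
    · exact one_mul 1
    · ring
  intro ε a₀ hε' hst
  have hε : ε * ε = 1 := by
    rcases hε' with rfl | rfl
    · exact one_mul 1
    · ring
  obtain ⟨A₀, hA₀⟩ := hst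
  have hA : IsEig (ρ.Fr (conjElt hE τ₀) (sD (sT T τ₀) E)) ε A₀ := hA₀
  obtain ⟨B₀, hB₀, hker₀⟩ := exists_B ρ T a₀
  obtain ⟨L₀, hL₀⟩ := exists_left A₀ hA.1
  obtain ⟨m, hm, hm'⟩ := sym_formula (sgnOk T hE τ₀) ρ hL₀ hε hA
  obtain ⟨ae, hae1, hae⟩ := detP_parabolic ρ.toPol (idx T) (isLo ρ T a₀)
    (fun s t hs ht => height_lt ρ T hs ht)
  have hS : ∀ (q : Emb F E) (j : Fin (n q.1)), eS ρ (ρ.lowPart T a₀).card ae q
      ((T q.1).p q.2 j) = ∑ s ∈ ρ.lowPart T a₀, ρ.weight s ⟨q, j⟩ := by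
    intro q j
    rw [sum_weight_low]
    unfold eS
    have h1 : ae q ((T q.1).p q.2 j) = ∑ s with isLo ρ T a₀ s, ρ.wt s ⟨q, j⟩ := hae1 q j
    rw [h1]
  refine ⟨eR ρ T hE τ₀ (ρ.lowPart T a₀).card m 1, eR ρ T hE τ₀ (ρ.lowPart T a₀).card m (-1),
    eK ρ τ₀ (ρ.lowPart T a₀).card m, eS ρ (ρ.lowPart T a₀).card ae,
    uF ρ T hE Φ τ₀ A₀ B₀ m, ?_, ?_, ?_, hS, ?_, ?_, ?_, ?_⟩
  · intro i φ j hr hj
    exact eR_trace ρ T hE τ₀ hε hA hL₀ hm 1 i φ j hr hj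
  · intro i φ j hr hj
    exact eR_trace ρ T hE τ₀ hε hA hL₀ hm (-1) i φ j hr hj
  · intro i τ φ φ' j hc hne
    exact eK_sum ρ T hE Φ hΦ τ₀ hε hA hB₀ hker₀ hL₀ hm rfl i τ φ φ' j hc hne
  · intro i τ φ hr hns
    exact eR_scalar ρ T hE Φ hΦ τ₀ hε hA hB₀ hker₀ hL₀ hm i τ φ hr hns
  · exact uF_ne ρ T hE Φ hΦ τ₀ hε hA hB₀ hker₀
  · intro τ τ' hc hs hP v
    exact uF_gal ρ T hE Φ hΦ τ₀ hε hA hB₀ hker₀ hL₀ hm hc hs hP v
  intro M
  refine ⟨⟨_, a₀, _, A₀, B₀, hA₀, hB₀, hker₀, fun τ => rfl⟩, ?_⟩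
  intro x hx
  obtain ⟨a₁, d, A, B, hAb, hB, hker₁, hx⟩ := hx
  have hd : d = (ρ.lowPart T a₀).card := dim_unique hAb.1 hA.1 (fun v => by
    rw [hAb.2, hA.2]
    rfl)
  subst hd
  obtain ⟨L, hL⟩ := exists_left A hAb.1
  have hker : ∀ v : κ → E, B.mulVec v = 0 ↔ B₀.mulVec v = 0 := by
    intro v
    rw [hker₁ v, hker₀ v]
    have h2 := low_unique ρ T hB hker₁ rfl
    constructor
    · intro h s hs
      exact h s ((h2 s).mpr hs)
    · intro h s hs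
      exact h s ((h2 s).mp hs)
  obtain ⟨R₀, hR₀⟩ := exists_right B₀ hB₀
  obtain ⟨R, hR⟩ := exists_right B hB
  have hBr : B * R₀ * B₀ = B := proj_rel (fun v hv => (hker v).mpr hv) hR₀
  have hAr : A₀ * (L₀ * A) = A := eig_rel (fun v hv => by
    rw [hA.2]
    exact (hAb.2 v).mp hv) hL₀
  have hGne : (B * R₀).det ≠ 0 := by
    have h1 : (B * R₀) * (B₀ * R) = 1 := by
      rw [← Matrix.mul_assoc, hBr, hR]
    have h2 := congrArg Matrix.det h1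
    rw [det_mul, det_one] at h2
    exact left_ne_zero_of_mul_eq_one h2
  have hHne : (L₀ * A).det ≠ 0 := by
    have h1 : (L * A₀) * (L₀ * A) = 1 := by
      rw [Matrix.mul_assoc, hAr, hL]
    have h2 := congrArg Matrix.det h1
    rw [det_mul, det_one] at h2
    exact right_ne_zero_of_mul_eq_one h2
  have hval : ∀ τ, x τ = τ ((B * R₀).det * (L₀ * A).det) *
      (B₀.map τ * ρ.compN M hE τ₀ τ * A₀.map τ).det := by
    intro τ
    have h1 : B.map τ * ρ.compN M hE τ₀ τ * A.map τ = (B * R₀).map τ *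
        (B₀.map τ * ρ.compN M hE τ₀ τ * A₀.map τ) * (L₀ * A).map τ := by
      have e1 : (B * R₀ * B₀).map τ = (B * R₀).map τ * B₀.map τ := Matrix.map_mul
      have e2 : (A₀ * (L₀ * A)).map τ = A₀.map τ * (L₀ * A).map τ := Matrix.map_mul
      rw [hBr] at e1
      rw [hAr] at e2
      rw [e1, e2]
      simp only [Matrix.mul_assoc]
    rw [hx τ, h1, det_mul, det_mul, map_mul, RingHom.map_det, RingHom.map_det]
    simp only [RingHom.mapMatrix_apply]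
    ring
  have hvf := fun τ => value_formula ρ T hE Φ hΦ τ₀ hε hA hB₀ hker₀ hL₀ hm hm' hae τ M
  refine ⟨?_, (B * R₀).det * (L₀ * A).det, mul_ne_zero hGne hHne, ?_⟩
  · intro τ
    obtain ⟨b, y, hb, hy, hlow, hcm, -, -, hv⟩ := hvf τ
    rw [hval τ, hv]
    apply mul_ne_zero
    · exact (map_ne_zero τ).mpr (mul_ne_zero hGne hHne)
    apply mul_ne_zero
    · exact (map_ne_zero τ).mpr (det_ev_ne ρ T hE Φ hΦ τ₀ hε hA τ hB₀ hker₀)
    rw [Finset.prod_ne_zero_iff]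
    intro q _
    have h1 : ∀ a ∈ (T q.1).indices q.2, (pblk ((T q.1).p q.2) (b q) a).det ≠ 0 := by
      have h2 := hb q
      rw [det_pblk (hlow q), Finset.prod_ne_zero_iff] at h2
      exact h2
    have h3 : ∏ a ∈ (T q.1).indices q.2, (pblk ((T q.1).p q.2) (b q) a).det ^
        eS ρ (ρ.lowPart T a₀).card ae q a ≠ 0 := by
      rw [Finset.prod_ne_zero_iff]
      intro a ha
      exact zpow_ne_zero _ (h1 a ha)
    by_cases hr : IsConj τ q.2 q.2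
    · rw [if_pos hr]
      have h4 := hy q
      rw [det_sblk (s := (T q.1).sgn (τ.comp q.2)) (fun j => (T q.1).sgn_eq _ j)
        (hcm q hr)] at h4
      exact mul_ne_zero (mul_ne_zero h3 (zpow_ne_zero _ (left_ne_zero_of_mul h4)))
        (zpow_ne_zero _ (right_ne_zero_of_mul h4))
    · rw [if_neg hr]
      by_cases hq : q ∈ Φ τ
      · rw [if_pos hq]
        exact mul_ne_zero h3 (zpow_ne_zero _ (hy q))
      · rw [if_neg hq]
        exact one_ne_zero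
  · intro τ c dd v hcd hvv
    obtain ⟨b, y, hb, hy, hlow, hcm, hreal, hpair, hv⟩ := hvf τ
    rw [hval τ, hv]
    unfold uF
    rw [map_mul τ (B₀ * (ρ.ev E (gamF T Φ τ) * (ρ.perm (galElt hE τ τ₀) * A₀))).det,
      map_prod τ]
    have key : ∀ q : Emb F E, (if IsConj τ q.2 q.2 then
        (∏ a ∈ (T q.1).indices q.2, (pblk ((T q.1).p q.2) (b q) a).det ^
          eS ρ (ρ.lowPart T a₀).card ae q a) *
        (sblk ((T q.1).sgn (τ.comp q.2)) (y q) 1).det ^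
          eR ρ T hE τ₀ (ρ.lowPart T a₀).card m 1 (plc τ q) *
        (sblk ((T q.1).sgn (τ.comp q.2)) (y q) (-1)).det ^
          eR ρ T hE τ₀ (ρ.lowPart T a₀).card m (-1) (plc τ q)
        else if q ∈ Φ τ then
          (∏ a ∈ (T q.1).indices q.2, (pblk ((T q.1).p q.2) (b q) a).det ^
            eS ρ (ρ.lowPart T a₀).card ae q a) *
            (y q).det ^ eK ρ τ₀ (ρ.lowPart T a₀).card m q.1 else 1) =
        τ (kq ρ T hE Φ τ₀ (ρ.lowPart T a₀).card m τ q) * (if IsConj τ q.2 q.2 then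
          if (T q.1).IsScalar τ q.2 then
            c q ^ eR ρ T hE τ₀ (ρ.lowPart T a₀).card m 1 ⟨q.1, τ.comp q.2⟩ *
              dd q ^ eR ρ T hE τ₀ (ρ.lowPart T a₀).card m (-1) ⟨q.1, τ.comp q.2⟩ *
              ∏ a ∈ (T q.1).lowIndices q.2, v q a ^
                (eS ρ (ρ.lowPart T a₀).card ae q a -
                  eR ρ T hE τ₀ (ρ.lowPart T a₀).card m 1 ⟨q.1, τ.comp q.2⟩ -
                  eR ρ T hE τ₀ (ρ.lowPart T a₀).card m (-1) ⟨q.1, τ.comp q.2⟩)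
          else ((M q.1).comp τ q.2).det ^
              eR ρ T hE τ₀ (ρ.lowPart T a₀).card m 1 ⟨q.1, τ.comp q.2⟩ *
            ∏ a ∈ (T q.1).lowIndices q.2, v q a ^ (eS ρ (ρ.lowPart T a₀).card ae q a -
              eR ρ T hE τ₀ (ρ.lowPart T a₀).card m 1 ⟨q.1, τ.comp q.2⟩)
          else if q ∈ Φ τ then
            ((M q.1).comp τ ((conjElt hE τ).1 q.1 q.2)).det ^
              eK ρ τ₀ (ρ.lowPart T a₀).card m q.1 *
              ∏ a ∈ (T q.1).indices q.2, v q a ^ eS ρ (ρ.lowPart T a₀).card ae q a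
          else 1) := by
      intro q
      unfold kq
      by_cases hr : IsConj τ q.2 q.2
      · rw [if_pos hr, if_pos hr, if_pos hr]
        exact hreal q hr _ _ _
          (fun j hj hb' => mid_cond ρ T hE Φ hΦ τ₀ hε hA hB₀ hker₀ hL₀ hm hae1 τ q hr 1 j hj hb')
          (fun j hj hb' => mid_cond ρ T hE Φ hΦ τ₀ hε hA hB₀ hker₀ hL₀ hm hae1 τ q hr (-1) j hj
            hb') (c q) (dd q) (v q) (hcd q hr) (hvv q)
      · rw [if_neg hr, if_neg hr, if_neg hr]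
        by_cases hq : q ∈ Φ τ
        · rw [if_pos hq, if_pos hq, if_pos hq]
          obtain ⟨h1, h2, -⟩ := hpair q hq
          rw [h2, mul_zpow, map_zpow₀]
          have h3 : ∏ a ∈ (T q.1).indices q.2, (pblk ((T q.1).p q.2) (b q) a).det ^
              eS ρ (ρ.lowPart T a₀).card ae q a = ∏ a ∈ (T q.1).indices q.2,
                v q a ^ eS ρ (ρ.lowPart T a₀).card ae q a := by
            apply Finset.prod_congr rfl
            intro a ha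
            rw [(h1 a (v q a)).mp (hvv q a ha)]
          rw [h3]
          ring
        · rw [if_neg hq, if_neg hq, if_neg hq, map_one, mul_one]
    rw [Finset.prod_congr rfl (fun q _ => key q), Finset.prod_mul_distrib]
    ring

end Pool.Agent.MP100fe7U
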