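import Pool.Agent.Lib.MP_100fe7_ntU.Gal

/-!
The involutions `perm c * ρ(X)` of the L-group.
-/

set_option linter.unusedSectionVars false

namespace Pool.Agent.MP100fe7U

open Matrix MP100fe7L

variable {ι : Type} [Fintype ι] [DecidableEq ι] {F : ι → Type} [∀ i, Field (F i)]
  [∀ i, NumberField (F i)] {E : Type} [Field E] [NumberField E] {n : ι → ℕ} {κ : Type}
  [Fintype κ] [DecidableEq κ]

namespace Rep

variable (ρ : Rep F E n κ)

/-- the determinant factor -/
noncomputable def tw (S : Type) [CommRing S] (A : Fam F E n S) : S :=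
  ∏ q, (A q).det ^ ρ.twist q.1

theorem tw_mul (S : Type) [CommRing S] (A B : Fam F E n S) :
    ρ.tw S (A * B) = ρ.tw S A * ρ.tw S B := by
  unfold tw
  rw [← Finset.prod_mul_distrib]
  apply Finset.prod_congr rfl
  intro q _
  rw [Pi.mul_apply, det_mul, mul_pow]

theorem tw_one (S : Type) [CommRing S] : ρ.tw S (1 : Fam F E n S) = 1 := by
  unfold tw
  apply Finset.prod_eq_one
  intro q _
  rw [Pi.one_apply, det_one, one_pow]

theorem tw_pull (g : Gal F E) (S : Type) [CommRing S] (A : Fam F E n S) :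
    ρ.tw S (pull g A) = ρ.tw S A := by
  unfold tw pull
  exact Equiv.prod_comp (actEquiv g) (fun q => (A q).det ^ ρ.twist q.1)

theorem ev_eq (S : Type) [CommRing S] [Algebra E S] (A : Fam F E n S) :
    ρ.ev S A = Ring.inverse (ρ.tw S A) • ρ.toPol.pol S A := rfl

theorem ev_mul (S : Type) [CommRing S] [Algebra E S] (A B : Fam F E n S) :
    ρ.ev S (A * B) = ρ.ev S A * ρ.ev S B := by
  rw [ev_eq, ev_eq, ev_eq, ρ.tw_mul, ρ.toPol.pol_mul, Ring.mul_inverse_rev, Matrix.smul_mul,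
    Matrix.mul_smul, smul_smul, mul_comm]

theorem ev_one (S : Type) [CommRing S] [Algebra E S] : ρ.ev S (1 : Fam F E n S) = 1 := by
  rw [ev_eq, ρ.tw_one, ρ.toPol.pol_one, Ring.inverse_one, one_smul]

theorem perm_ev (g : Gal F E) (S : Type) [CommRing S] [Algebra E S] (A : Fam F E n S) :
    (ρ.perm g).map (algebraMap E S) * ρ.ev S (pull g A) =
      ρ.ev S A * (ρ.perm g).map (algebraMap E S) := by
  rw [ev_eq, ev_eq, ρ.tw_pull, Matrix.mul_smul, ρ.perm_pol, Matrix.smul_mul]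

theorem perm_evE (g : Gal F E) (A : Fam F E n E) :
    ρ.perm g * ρ.ev E (pull g A) = ρ.ev E A * ρ.perm g := by
  have h := ρ.perm_ev g E A
  have h2 : (ρ.perm g).map (algebraMap E E) = ρ.perm g := by
    ext i j
    simp
  rwa [h2] at h

theorem tw_map {S : Type} [CommRing S] [Algebra E S] (A : Fam F E n E) :
    ρ.tw S (Fam.map' A (algebraMap E S)) = algebraMap E S (ρ.tw E A) := by
  unfold tw
  rw [map_prod]
  apply Finset.prod_congr rfl
  intro q _
  rw [map_pow, RingHom.map_det]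
  rfl

theorem ev_map (S : Type) [CommRing S] [Algebra E S] (A : Fam F E n E)
    (hA : ρ.tw E A ≠ 0) :
    (ρ.ev E A).map (algebraMap E S) = ρ.ev S (Fam.map' A (algebraMap E S)) := by
  have h1 : (ρ.toPol.pol E A).map (algebraMap E S) = ρ.toPol.pol S
      (Fam.map' A (algebraMap E S)) := ρ.toPol.pol_map (Algebra.ofId E S) A
  rw [ev_eq, ev_eq, ← h1, ρ.tw_map]
  have h2 : Ring.inverse (algebraMap E S (ρ.tw E A)) =
      algebraMap E S (Ring.inverse (ρ.tw E A)) := by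
    rw [Ring.inverse_eq_inv']
    have h3 : algebraMap E S (ρ.tw E A) * algebraMap E S (ρ.tw E A)⁻¹ = 1 := by
      rw [← _root_.map_mul, mul_inv_cancel₀ hA, map_one]
    have h4 : IsUnit (algebraMap E S (ρ.tw E A)) := IsUnit.of_mul_eq_one _ h3
    apply h4.mul_left_cancel
    rw [h3, Ring.mul_inverse_cancel _ h4]
  rw [h2]
  ext i j
  simp

/-- the involution -/
noncomputable def Fr (c : Gal F E) (X : Fam F E n E) : Matrix κ κ E := ρ.perm c * ρ.ev E X

variable {c : Gal F E} {X : Fam F E n E}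

theorem Fr_sq (hc : c * c = 1) (hX : pull c X * X = 1) :
    ρ.Fr c X * ρ.Fr c X = 1 := by
  unfold Fr
  have h1 := hX
  rw [← Matrix.mul_assoc, Matrix.mul_assoc _ (ρ.ev E X) (ρ.perm c), ← ρ.perm_evE c X,
    ← Matrix.mul_assoc, ← ρ.perm_mul, hc, ρ.perm_one, Matrix.one_mul, ← ρ.ev_mul, h1, ρ.ev_one]

theorem Fr_conj {Y γ : Fam F E n E} (h : pull c γ * X = Y * γ) :
    ρ.ev E γ * ρ.Fr c X = ρ.Fr c Y * ρ.ev E γ := by
  unfold Fr
  have h1 := h
  rw [← Matrix.mul_assoc, ← ρ.perm_evE c γ, Matrix.mul_assoc, ← ρ.ev_mul, h1, ρ.ev_mul,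
    Matrix.mul_assoc]

theorem Fr_gal {g c' : Gal F E} {X' : Fam F E n E} (hg : g * c = c' * g)
    (hX : pull g X' = X) : ρ.perm g * ρ.Fr c X = ρ.Fr c' X' * ρ.perm g := by
  unfold Fr
  rw [← Matrix.mul_assoc, ← ρ.perm_mul, hg, ρ.perm_mul, Matrix.mul_assoc, ← hX,
    ρ.perm_evE, Matrix.mul_assoc]

theorem tw_ne (hX : pull c X * X = 1) : ρ.tw E X ≠ 0 := by
  unfold tw
  rw [Finset.prod_ne_zero_iff]
  intro q _
  apply pow_ne_zero
  have h1 := congrArg Matrix.det (congrFun hX q)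
  rw [Pi.mul_apply, det_mul, Pi.one_apply, det_one] at h1
  exact right_ne_zero_of_mul_eq_one h1

theorem Fr_comm (hX : pull c X * X = 1) {S : Type} [CommRing S] [Algebra E S]
    {h : Fam F E n S} (hh : pull c h * Fam.map' X (algebraMap E S) =
      Fam.map' X (algebraMap E S) * h) :
    ρ.toPol.pol S h * (ρ.Fr c X).map (algebraMap E S) =
      (ρ.Fr c X).map (algebraMap E S) * ρ.toPol.pol S h := by
  have h1 := hh
  unfold Fr
  rw [Matrix.map_mul, ρ.ev_map S X (ρ.tw_ne hX), ev_eq, ← Matrix.mul_assoc, ← ρ.perm_pol,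
    Matrix.mul_smul, Matrix.mul_smul, Matrix.smul_mul, Matrix.mul_assoc, ← ρ.toPol.pol_mul, h1,
    ρ.toPol.pol_mul, Matrix.mul_assoc]

end Rep

/-- the signs of `F_∞` at `τ` -/
noncomputable def sgnFam {w : ι → ℤ} (T : ∀ i, MType (F i) E (n i) (w i)) (τ : E →+* ℂ) :
    Fam F E n E :=
  fun q => diagonal fun j => ((T q.1).sgn (τ.comp q.2) j : E)

section sgn

variable {w : ι → ℤ} (T : ∀ i, MType (F i) E (n i) (w i)) (hE : Split F E) (τ : E →+* ℂ)

theorem sgn_mul_self {K : Type} [Field K] {n : ℕ} {w : ℤ} (T : MType K E n w) (σ : K →+* ℂ)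
    (j : Fin n) : T.sgn σ j * T.sgn σ j = 1 := by
  rcases T.sgn_eq σ j with h | h <;> rw [h] <;> norm_num

theorem sgn_act (q : Emb F E) (j : Fin (n q.1)) :
    (T q.1).sgn (τ.comp (act (conjElt hE τ) q).2) j = (T q.1).sgn (τ.comp q.2) j := by
  have h := isConj_conjElt hE τ q.1 q.2
  unfold IsConj at h
  change (T q.1).sgn (τ.comp ((conjElt hE τ).1 q.1 q.2)) j = _
  rw [h, (T q.1).sgn_conj]

theorem sgnFam_sq : sgnFam T τ * sgnFam T τ = 1 := by
  funext q
  rw [Pi.mul_apply, Pi.one_apply]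
  unfold sgnFam
  rw [diagonal_mul_diagonal, ← diagonal_one]
  congr 1
  funext j
  have h := congrArg (Int.cast : ℤ → E) (sgn_mul_self (T q.1) (τ.comp q.2) j)
  push_cast at h
  exact h

theorem sgnFam_act : Rep.pull (conjElt hE τ) (sgnFam T τ) = sgnFam T τ := by
  funext q
  unfold Rep.pull sgnFam
  congr 1
  funext j
  exact congrArg (Int.cast : ℤ → E) (sgn_act T hE τ q j)

theorem sgnFam_inv : Rep.pull (conjElt hE τ) (sgnFam T τ) * sgnFam T τ = 1 := by
  rw [sgnFam_act, sgnFam_sq]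

theorem sgnFam_pull (τ' : E →+* ℂ) :
    Rep.pull (galElt hE τ τ') (sgnFam T τ) = sgnFam T τ' := by
  funext q
  unfold Rep.pull sgnFam
  congr 1
  funext j
  change ((T q.1).sgn (τ.comp ((galElt hE τ τ').1 q.1 q.2)) j : E) = _
  rw [galElt_spec]

theorem frob_eq (ρ : Rep F E n κ) : ρ.frob T hE τ = ρ.Fr (conjElt hE τ) (sgnFam T τ) := rfl

end sgn

end Pool.Agent.MP100fe7U
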