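import Pool.Agent.Lib.MP_100fe7_ntU.Defs
import Pool.Agent.Lib.MP_100fe7_nt.LPer

/-!
The Galois group, complex conjugation, and the weights of a representation of the `L`-group.
-/

set_option linter.unusedSectionVars false

namespace Pool.Agent.MP100fe7U

open Matrix

section gal

variable {ι : Type} {F : ι → Type} [∀ i, Field (F i)] {E : Type} [Field E]

theorem act_mul (g g' : Gal F E) (q : Emb F E) : act (g * g') q = act g (act g' q) := rfl

theorem act_one (q : Emb F E) : act (1 : Gal F E) q = q := rfl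

theorem act_inv_act (g : Gal F E) (q : Emb F E) : act g⁻¹ (act g q) = q := by
  rw [← act_mul, inv_mul_cancel, act_one]

theorem act_act_inv (g : Gal F E) (q : Emb F E) : act g (act g⁻¹ q) = q := by
  rw [← act_mul, mul_inv_cancel, act_one]

theorem act_injective (g : Gal F E) : Function.Injective (act g : Emb F E → Emb F E) := by
  intro q q' h
  rw [← act_inv_act g q, h, act_inv_act]

/-- the permutation of the embeddings -/
def actEquiv (g : Gal F E) : Equiv.Perm (Emb F E) where
  toFun := act g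
  invFun := act g⁻¹
  left_inv := act_inv_act g
  right_inv := act_act_inv g

theorem gal_ext {g g' : Gal F E} (h : ∀ q : Emb F E, act g q = act g' q) : g = g' := by
  apply Subtype.ext
  funext i
  apply Equiv.ext
  intro φ
  have h1 := h ⟨i, φ⟩
  exact eq_of_heq (Sigma.mk.inj_iff.mp h1).2

theorem comp_injective {K : Type} [Field K] (τ : E →+* ℂ) {φ φ' : K →+* E}
    (h : τ.comp φ = τ.comp φ') : φ = φ' := by
  apply RingHom.ext
  intro x
  apply τ.injective
  exact RingHom.congr_fun h x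

theorem galElt_spec (hE : Split F E) (τ τ' : E →+* ℂ) (i : ι) (φ : F i →+* E) :
    τ.comp ((galElt hE τ τ').1 i φ) = τ'.comp φ := galEquiv_spec hE τ τ' i φ

theorem conj_conj {K : Type} [Field K] (σ : K →+* ℂ) :
    (starRingEnd ℂ).comp ((starRingEnd ℂ).comp σ) = σ := by
  apply RingHom.ext
  intro x
  simp

theorem isConj_conjElt (hE : Split F E) (τ : E →+* ℂ) (i : ι) (φ : F i →+* E) :
    IsConj τ φ ((conjElt hE τ).1 i φ) := by
  unfold IsConj conjElt
  rw [galElt_spec]
  rfl

theorem isConj_iff (hE : Split F E) (τ : E →+* ℂ) (i : ι) (φ φ' : F i →+* E) :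
    IsConj τ φ φ' ↔ φ' = (conjElt hE τ).1 i φ := by
  constructor
  · intro h
    apply comp_injective τ
    rw [h, isConj_conjElt hE τ i φ]
  · rintro rfl
    exact isConj_conjElt hE τ i φ

theorem isConj_symm {K : Type} [Field K] {τ : E →+* ℂ} {φ φ' : K →+* E} (h : IsConj τ φ φ') :
    IsConj τ φ' φ := by
  unfold IsConj at h ⊢
  rw [h, conj_conj]

theorem conjElt_sq (hE : Split F E) (τ : E →+* ℂ) : conjElt hE τ * conjElt hE τ = 1 := by
  apply gal_ext
  rintro ⟨i, φ⟩
  change (⟨i, (conjElt hE τ).1 i ((conjElt hE τ).1 i φ)⟩ : Emb F E) = ⟨i, φ⟩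
  congr 1
  symm
  rw [← isConj_iff hE τ i]
  exact isConj_symm (isConj_conjElt hE τ i φ)

theorem conj_conj_act (hE : Split F E) (τ : E →+* ℂ) (q : Emb F E) :
    act (conjElt hE τ) (act (conjElt hE τ) q) = q := by
  rw [← act_mul, conjElt_sq, act_one]

/-- Transport of structure: `g c_{τ'} = c_τ g` for the element `g` from `τ'` to `τ`. -/
theorem galElt_conj (hE : Split F E) (τ τ' : E →+* ℂ) :
    galElt hE τ τ' * conjElt hE τ' = conjElt hE τ * galElt hE τ τ' := by
  apply gal_ext
  rintro ⟨i, φ⟩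
  change (⟨i, (galElt hE τ τ').1 i ((conjElt hE τ').1 i φ)⟩ : Emb F E) =
    ⟨i, (conjElt hE τ).1 i ((galElt hE τ τ').1 i φ)⟩
  congr 1
  rw [← isConj_iff hE τ i]
  unfold IsConj
  rw [galElt_spec, galElt_spec, isConj_conjElt hE τ' i φ]

theorem galElt_self (hE : Split F E) (τ : E →+* ℂ) : galElt hE τ τ = 1 := by
  apply gal_ext
  rintro ⟨i, φ⟩
  change (⟨i, (galElt hE τ τ).1 i φ⟩ : Emb F E) = ⟨i, φ⟩
  congr 1
  apply comp_injective τ
  rw [galElt_spec]

/-- The Galois group is transitive on the embeddings of `F i`, already through the elements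
`galElt hE τ τ'` with fixed `τ'`. -/
theorem exists_gal [∀ i, NumberField (F i)] [NumberField E] (hE : Split F E) (τ' : E →+* ℂ)
    (i : ι) (φ φ' : F i →+* E) : ∃ τ : E →+* ℂ, (galElt hE τ τ').1 i φ = φ' := by
  letI := φ'.toAlgebra
  letI : Algebra (F i) ℂ := (τ'.comp φ).toAlgebra
  haveI : Algebra.IsAlgebraic (F i) E := by
    haveI : IsScalarTower ℚ (F i) E := IsScalarTower.of_algebraMap_eq' (by
      apply Subsingleton.elim)
    exact Algebra.IsAlgebraic.tower_top (K := ℚ) (F i)
  let τ : E →ₐ[F i] ℂ := IsAlgClosed.lift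
  have h1 : τ.toRingHom.comp φ' = τ'.comp φ := by
    apply RingHom.ext
    intro x
    exact τ.commutes x
  refine ⟨τ.toRingHom, ?_⟩
  apply comp_injective τ.toRingHom
  rw [galElt_spec, h1]

end gal

namespace Rep

variable {ι : Type} [Fintype ι] [DecidableEq ι] {F : ι → Type} [∀ i, Field (F i)]
  [∀ i, NumberField (F i)] {E : Type} [Field E] [NumberField E] {n : ι → ℕ} {κ : Type}
  [Fintype κ] [DecidableEq κ] (ρ : Rep F E n κ)

/-- the polynomial part -/
noncomputable def toPol : MP100fe7L.PolRep E (fun q : Emb F E => Fin (n q.1)) κ where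
  mat := ρ.mat
  wt := ρ.wt
  tdeg := ∑ i, ρ.deg i
  sum_wt s := by
    rw [Fintype.sum_sigma, Fintype.sum_sigma]
    apply Finset.sum_congr rfl
    intro i _
    exact ρ.sum_wt s i
  map_mul := ρ.map_mul
  map_diagonal := ρ.map_diagonal

/-- a family transported by a Galois element -/
def pull {S : Type} (g : Gal F E) (A : Fam F E n S) : Fam F E n S := fun q => A (act g q)

theorem perm_pol (g : Gal F E) (S : Type) [CommRing S] [Algebra E S] (A : Fam F E n S) :
    (ρ.perm g).map (algebraMap E S) * ρ.toPol.pol S (pull g A) =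
      ρ.toPol.pol S A * (ρ.perm g).map (algebraMap E S) := ρ.perm_eval g S A

theorem perm_mul_inv (g : Gal F E) : ρ.perm g * ρ.perm g⁻¹ = 1 := by
  rw [← ρ.perm_mul, mul_inv_cancel, ρ.perm_one]

theorem perm_inv_mul (g : Gal F E) : ρ.perm g⁻¹ * ρ.perm g = 1 := by
  rw [← ρ.perm_mul, inv_mul_cancel, ρ.perm_one]

/-- The matrix of a Galois element relates the weight spaces. -/
theorem wt_perm (g : Gal F E) (s t : κ) (h : ρ.perm g s t ≠ 0) (q : Emb F E)
    (j : Fin (n q.1)) : ρ.wt s ⟨act g q, j⟩ = ρ.wt t ⟨q, j⟩ := by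
  let P := Polynomial E
  let t₀ : Tot F E n := ⟨act g q, j⟩
  let x : Tot F E n → P := Function.update (1 : Tot F E n → P) t₀ Polynomial.X
  have h1 := ρ.perm_pol g P (MP100fe7L.fdiag x)
  have h2 : (pull g (MP100fe7L.fdiag x : Fam F E n P) : Fam F E n P) =
      MP100fe7L.fdiag (fun t : Tot F E n => x ⟨act g t.1, t.2⟩) := rfl
  rw [h2, ρ.toPol.pol_diag, ρ.toPol.pol_diag] at h1
  have h3 := congrFun (congrFun h1 s) t
  rw [mul_diagonal, diagonal_mul, Matrix.map_apply] at h3
  have h4 : ∏ q : Tot F E n, x q ^ ρ.toPol.wt s q = Polynomial.X ^ ρ.wt s t₀ := by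
    rw [Finset.prod_eq_single t₀]
    · simp only [x, Function.update_self]
      rfl
    · intro q _ hq
      simp only [x]
      rw [Function.update_of_ne hq]
      simp
    · simp
  have h5 : ∏ q : Tot F E n, x ⟨act g q.1, q.2⟩ ^ ρ.toPol.wt t q =
      Polynomial.X ^ ρ.wt t ⟨q, j⟩ := by
    rw [Finset.prod_eq_single (⟨q, j⟩ : Tot F E n)]
    · have : (⟨act g q, j⟩ : Tot F E n) = t₀ := rfl
      simp only [x]
      rw [this, Function.update_self]
      rfl
    · rintro ⟨q', j'⟩ _ hq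
      simp only [x]
      rw [Function.update_of_ne]
      · simp
      · intro h'
        apply hq
        have h6 : act g q' = act g q := congrArg (fun t : Tot F E n => t.1) h'
        have h7 := act_injective g h6
        subst h7
        have h8 : (⟨act g q', j'⟩ : Tot F E n) = ⟨act g q', j⟩ := h'
        have h9 := eq_of_heq (Sigma.mk.inj_iff.mp h8).2
        rw [h9]
    · simp
  rw [h4, h5] at h3
  have h6 : (Polynomial.C (ρ.perm g s t) : P) ≠ 0 := Polynomial.C_ne_zero.mpr h
  have h7 : (algebraMap E P) (ρ.perm g s t) = Polynomial.C (ρ.perm g s t) := rfl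
  rw [h7, mul_comm] at h3
  have h8 := mul_right_cancel₀ h6 h3
  have h9 := congrArg Polynomial.natDegree h8
  simpa using h9.symm

theorem sum_tot (f : Tot F E n → ℤ) : ∑ t, f t = ∑ q : Emb F E, ∑ j, f ⟨q, j⟩ :=
  Fintype.sum_sigma f

theorem exists_perm (g : Gal F E) : ∃ r : Equiv.Perm κ, ∀ t, ρ.perm g (r t) t ≠ 0 := by
  have h1 : (ρ.perm g).det ≠ 0 := by
    have h2 := congrArg Matrix.det (ρ.perm_mul_inv g)
    rw [det_mul, det_one] at h2
    exact left_ne_zero_of_mul_eq_one h2
  rw [det_apply] at h1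
  obtain ⟨r, -, hr⟩ := Finset.exists_ne_zero_of_sum_ne_zero h1
  refine ⟨r, ?_⟩
  intro t ht
  apply hr
  have h3 : ∏ i, ρ.perm g (r i) i = 0 := Finset.prod_eq_zero (Finset.mem_univ t) ht
  rw [h3, smul_zero]

/-- a Galois element which preserves the Hodge indices preserves the low part: the sums of the
weights over the low part are invariant. -/
theorem sum_low_gal {w : ι → ℤ} (T : ∀ i, MType (F i) E (n i) (w i)) (a₀ : ℤ) (g : Gal F E)
    (hg : ∀ (q : Emb F E) (j : Fin (n q.1)), (T q.1).p (act g q).2 j = (T q.1).p q.2 j)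
    (q : Emb F E) (j : Fin (n q.1)) :
    ∑ s ∈ ρ.lowPart T a₀, ρ.wt s ⟨act g q, j⟩ = ∑ s ∈ ρ.lowPart T a₀, ρ.wt s ⟨q, j⟩ := by
  obtain ⟨r, hr⟩ := ρ.exists_perm g
  have h1 : ∀ (t : κ) (q : Emb F E) (j : Fin (n q.1)),
      ρ.wt (r t) ⟨act g q, j⟩ = ρ.wt t ⟨q, j⟩ := fun t q j => ρ.wt_perm g _ _ (hr t) q j
  have h2 : ∀ t, ρ.hodgeIdx T (r t) = ρ.hodgeIdx T t := by
    intro t
    unfold hodgeIdx
    rw [sum_tot, sum_tot]
    rw [← Equiv.sum_comp (actEquiv g)]
    apply Finset.sum_congr rfl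
    intro q _
    apply Finset.sum_congr rfl
    intro j _
    change ρ.weight (r t) ⟨act g q, j⟩ * (T q.1).p (act g q).2 j =
      ρ.weight t ⟨q, j⟩ * (T q.1).p q.2 j
    rw [hg q j]
    congr 1
    unfold weight
    rw [h1 t q j]
  have h3 : ∀ t, r t ∈ ρ.lowPart T a₀ ↔ t ∈ ρ.lowPart T a₀ := by
    intro t
    unfold lowPart
    rw [Finset.mem_filter, Finset.mem_filter, h2 t]
    simp
  symm
  apply Finset.sum_bij (fun t _ => r t)
  · intro t ht
    exact (h3 t).mpr ht
  · intro t _ t' _ h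
    exact r.injective h
  · intro s hs
    refine ⟨r.symm s, ?_, Equiv.apply_symm_apply r s⟩
    rw [← h3, Equiv.apply_symm_apply]
    exact hs
  · intro t _
    exact (h1 t q j).symm

end Rep

end Pool.Agent.MP100fe7U
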