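import Pool.Agent.Lib.MP_100fe7_nt.LPer

/-!
Natural multiplicative functions on block diagonal families are products of powers of the
determinants of the blocks.
-/

set_option linter.unusedSectionVars false

namespace Pool.Agent.MP100fe7U

open Matrix MP100fe7L

/-- A natural function on families, multiplicative on the block diagonal families. -/
structure LeviFun (E : Type) [Field E] {Q : Type} [Fintype Q] [DecidableEq Q] {J : Q → Type}
    [∀ q, Fintype (J q)] [∀ q, DecidableEq (J q)] (cl : MP100fe7L.Tot J → ℤ) where
  /-- the function -/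
  D : ∀ (S : Type) [CommRing S] [Algebra E S], MP100fe7L.Fam J S → S
  nat : ∀ (S S' : Type) [CommRing S] [Algebra E S] [CommRing S'] [Algebra E S'] (f : S →ₐ[E] S')
    (A : MP100fe7L.Fam J S), IsLevi cl A → D S' (A.map' f) = f (D S A)
  mul : ∀ (S : Type) [CommRing S] [Algebra E S] (A B : MP100fe7L.Fam J S), IsLevi cl A →
    IsLevi cl B → D S (A * B) = D S A * D S B
  one : ∀ (S : Type) [CommRing S] [Algebra E S], D S 1 = 1

/-- the action of one block -/
private def levifun_fam {E : Type} [Field E] {Q : Type} [Fintype Q] [DecidableEq Q]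
    {J : Q → Type} [∀ q, Fintype (J q)] [∀ q, DecidableEq (J q)] {cl : MP100fe7L.Tot J → ℤ}
    (D : LeviFun E cl) (i : Q) (c : ℤ) :
    MP100fe7.MulFam E {j : J i // cl ⟨i, j⟩ = c} where
  D := fun S _ _ A => D.D S (single cl i c A)
  nat := by
    intro S S' _ _ _ _ φ A
    rw [← D.nat S S' φ _ (single_levi cl i c A), single_map]
  mul := by
    intro S _ _ A B
    rw [single_mul, D.mul S _ _ (single_levi cl i c A) (single_levi cl i c B)]
  one := by
    intro S _ _
    rw [single_one, D.one]

private theorem levifun_exp {E : Type} [Field E] [CharZero E] {Q : Type} [Fintype Q]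
    [DecidableEq Q] {J : Q → Type} [∀ q, Fintype (J q)] [∀ q, DecidableEq (J q)]
    {cl : MP100fe7L.Tot J → ℤ} (D : LeviFun E cl) (i : Q) (c : ℤ) :
    ∃ e : ℕ, ∀ (S : Type) [CommRing S] [Algebra E S]
      (A : Matrix {j : J i // cl ⟨i, j⟩ = c} {j : J i // cl ⟨i, j⟩ = c} S),
        D.D S (single cl i c A) = A.det ^ e :=
  (levifun_fam D i c).eq_det_pow

/-- Such a function is a product of powers of the determinants of the blocks. -/
theorem LeviFun.eq_prod {E : Type} [Field E] [CharZero E] {Q : Type} [Fintype Q] [DecidableEq Q]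
    {J : Q → Type} [∀ q, Fintype (J q)] [∀ q, DecidableEq (J q)] {cl : MP100fe7L.Tot J → ℤ}
    (D : LeviFun E cl) : ∃ e : Q → ℤ → ℕ, ∀ (S : Type) [CommRing S] [Algebra E S]
      (l : MP100fe7L.Fam J S), IsLevi cl l →
        D.D S l = ∏ i, ∏ c ∈ colors cl i, (blk cl l i c).det ^ e i c := by
  choose e he using levifun_exp D
  refine ⟨e, ?_⟩
  intro S _ _ l hl
  have key : ∀ T : Finset (Σ _ : Q, ℤ), D.D S (partL cl l T) =
      ∏ t ∈ T, (blk cl l t.1 t.2).det ^ e t.1 t.2 := by
    intro T
    induction T using Finset.induction_on with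
    | empty =>
      rw [Finset.prod_empty]
      have h0 : partL cl l ∅ = 1 := by
        funext i
        ext j j'
        simp [partL, Matrix.one_apply]
      rw [h0, D.one]
    | insert t T ht ih =>
      obtain ⟨i, c⟩ := t
      rw [partL_insert cl l hl T i c ht,
        D.mul S _ _ (partL_levi cl l hl T) (single_levi cl i c _), ih, he,
        Finset.prod_insert ht, mul_comm]
  have h1 := key (Finset.univ.sigma fun i => colors cl i)
  have h2 : partL cl l (Finset.univ.sigma fun i => colors cl i) = l := by
    funext i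
    ext j j'
    simp only [partL, of_apply]
    rw [if_pos]
    simp [colors]
  rw [h2, Finset.prod_sigma] at h1
  exact h1

end Pool.Agent.MP100fe7U
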