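import Pool.Agent.Lib.MP_100fe7_ntU.Asm

/-!
The factorisation of the comparison matrices of the motives at one embedding `τ`.
-/

set_option linter.unusedSectionVars false

namespace Pool.Agent.MP100fe7U

open Matrix MP100fe7L
open MP100fe7T (detP detP_diagonal)

section kap

open Classical in
/-- the constants at a real place -/
noncomputable def kapT {n : ℕ} (s p : Fin n → ℤ) (w : ℤ) (E : Type) [Field E] [CharZero E]
    (A B : ℤ) : E :=
  if h : RealType s p w then (real_local h E).choose A B else 1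

theorem kapT_ne {n : ℕ} (s p : Fin n → ℤ) (w : ℤ) (E : Type) [Field E] [CharZero E]
    (A B : ℤ) : kapT s p w E A B ≠ 0 := by
  unfold kapT
  by_cases h : RealType s p w
  · rw [dif_pos h]
    exact (real_local h E).choose_spec.1 A B
  · rw [dif_neg h]
    exact one_ne_zero

end kap

variable {ι : Type} [Fintype ι] [DecidableEq ι] {F : ι → Type} [∀ i, Field (F i)]
  [∀ i, NumberField (F i)] {E : Type} [Field E] [NumberField E] {n : ι → ℕ}
  {w : ι → ℤ} {T : ∀ i, MType (F i) E (n i) (w i)} (M : ∀ i, Datum (T i))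
  (hE : Split F E) (Φ : (E →+* ℂ) → Finset (Emb F E)) (hΦ : PhiOk Φ) (τ : E →+* ℂ)

include hE in
theorem hodge_iff {i : ι} {φ φ' : F i →+* E} (h : IsConj τ φ φ') (a : ℤ) (q : ℂ) :
    (M i).IsHodgePeriod τ φ a q ↔ HPer ((T i).sgn (τ.comp φ)) ((T i).p φ) ((T i).p φ') (w i)
      ((M i).comp τ φ) ((M i).comp τ φ') ((M i).hodge τ φ') a q := by
  have hs := sgn_conj_eq T τ h
  constructor
  · rintro ⟨φ'', h'', z, hz1, hz2, hz3⟩
    have h1 : φ'' = φ' := by
      rw [(isConj_iff hE τ i φ φ'').mp h'', (isConj_iff hE τ i φ φ').mp h]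
    subst h1
    rw [hs] at hz3
    exact ⟨z, hz1, hz2, hz3⟩
  · rintro ⟨z, hz1, hz2, hz3⟩
    refine ⟨φ', h, z, hz1, hz2, ?_⟩
    rw [hs]
    exact hz3

/-- The formula at a real place. -/
def RealForm (q : Emb F E) (b y : Matrix (Fin (n q.1)) (Fin (n q.1)) ℂ) : Prop :=
  ∀ (A B : ℤ) (S : ℤ → ℤ),
    (∀ j, 2 * (T q.1).p q.2 j = w q.1 → (T q.1).sgn (τ.comp q.2)
      (beta ((T q.1).sgn (τ.comp q.2)) ((T q.1).p q.2) (w q.1) j) = 1 →
        S ((T q.1).p q.2 j) = A) →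
    (∀ j, 2 * (T q.1).p q.2 j = w q.1 → (T q.1).sgn (τ.comp q.2)
      (beta ((T q.1).sgn (τ.comp q.2)) ((T q.1).p q.2) (w q.1) j) = -1 →
        S ((T q.1).p q.2 j) = B) →
    ∀ (c d : ℂ) (v : ℤ → ℂ),
      ((T q.1).IsScalar τ q.2 → (M q.1).IsRealPeriod τ q.2 1 c ∧
        (M q.1).IsRealPeriod τ q.2 (-1) d) →
      (∀ a ∈ (T q.1).indices q.2, (M q.1).IsHodgePeriod τ q.2 a (v a)) →
      (∏ a ∈ (T q.1).indices q.2, (pblk ((T q.1).p q.2) b a).det ^ S a) *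
        (sblk ((T q.1).sgn (τ.comp q.2)) y 1).det ^ A *
        (sblk ((T q.1).sgn (τ.comp q.2)) y (-1)).det ^ B =
      τ (kapT ((T q.1).sgn (τ.comp q.2)) ((T q.1).p q.2) (w q.1) E A B) *
        (if (T q.1).IsScalar τ q.2 then
          c ^ A * d ^ B * ∏ a ∈ (T q.1).lowIndices q.2, v a ^ (S a - A - B)
        else ((M q.1).comp τ q.2).det ^ A *
          ∏ a ∈ (T q.1).lowIndices q.2, v a ^ (S a - A))

/-- The properties of the factors at an embedding in `Φ τ`. -/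
def PairForm (q : Emb F E) (b y b' : Matrix (Fin (n q.1)) (Fin (n q.1)) ℂ) : Prop :=
  (∀ a v, (M q.1).IsHodgePeriod τ q.2 a v ↔ v = (pblk ((T q.1).p q.2) b a).det) ∧
  y.det = τ ((Rv (n q.1) E).det * (dg T τ q.1 q.2).det) *
    ((M q.1).comp τ ((conjElt hE τ).1 q.1 q.2)).det ∧
  ∀ a, (pblk ((T q.1).p ((conjElt hE τ).1 q.1 q.2)) b' a).det = 1

/-- the diagonal matrix of signs, complex entries -/
noncomputable def dgC (T : ∀ i, MType (F i) E (n i) (w i)) (τ : E →+* ℂ) (i : ι)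
    (φ : F i →+* E) : Matrix (Fin (n i)) (Fin (n i)) ℂ :=
  diagonal fun j => ((T i).sgn (τ.comp φ) j : ℂ)

theorem dg_map (i : ι) (φ : F i →+* E) : (dg T τ i φ).map τ = dgC T τ i φ := by
  unfold dg dgC
  rw [diagonal_map (map_zero _)]
  congr 1
  funext j
  exact map_intCast τ _

theorem dgC_sq (i : ι) (φ : F i →+* E) : dgC T τ i φ * dgC T τ i φ = 1 := by
  rw [← dg_map, ← Matrix.map_mul, dg_sq]
  exact Matrix.map_one _ (map_zero _) (map_one _)

include hE in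
theorem real_loc {i : ι} {φ : F i →+* E} (hr : IsConj τ φ φ) :
    ∃ b y : Matrix (Fin (n i)) (Fin (n i)) ℂ,
      (M i).comp τ φ = b * (Gam ((T i).sgn (τ.comp φ)) ((T i).p φ) (w i) E).map τ * y ∧
      IsUnit b.det ∧ IsUnit y.det ∧ y * dgC T τ i φ = dgC T τ i φ * y ∧
      (∀ j k, (T i).p φ j < (T i).p φ k → b j k = 0) ∧ RealForm M τ ⟨i, φ⟩ b y := by
  have h := realType T τ hr
  obtain ⟨b, y, h1, h2, h3, h4, h5, h6⟩ := (real_local h E).choose_spec.2 τ ((M i).comp τ φ)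
    ((M i).hodge τ φ) (pairPt T τ M hr)
  refine ⟨b, y, h1, h2, h3, h4, h5, ?_⟩
  intro A B S hA hB c d v hc hv
  have h7 := h6 A B S hA hB c d v hc (fun a ha => (hodge_iff M hE τ hr a (v a)).mp (hv a ha))
  have h8 : kapT ((T i).sgn (τ.comp φ)) ((T i).p φ) (w i) E A B =
      (real_local h E).choose A B := by
    unfold kapT
    rw [dif_pos h]
  change _ = τ (kapT ((T i).sgn (τ.comp φ)) ((T i).p φ) (w i) E A B) * _
  rw [h8]
  exact h7

include hΦ in
/-- The comparison matrices at `τ` are `b γ y`. -/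
theorem exists_locfam : ∃ b y : Fam F E n ℂ,
    (∀ q, (M q.1).comp τ q.2 = b q * (gam T Φ τ q.1 q.2).map τ * y q) ∧
    (∀ q, (b q).det ≠ 0) ∧ (∀ q, (y q).det ≠ 0) ∧
    (∀ (i : ι) (φ φ' : F i →+* E), IsConj τ φ φ' →
      y ⟨i, φ'⟩ * dgC T τ i φ = dgC T τ i φ * y ⟨i, φ⟩) ∧
    (∀ (q : Emb F E) j k, (T q.1).p q.2 j < (T q.1).p q.2 k → b q j k = 0) ∧
    (∀ q : Emb F E, IsConj τ q.2 q.2 → RealForm M τ q (b q) (y q)) ∧
    (∀ q ∈ Φ τ, PairForm M hE τ q (b q) (y q) (b (act (conjElt hE τ) q))) := by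
  classical
  have hp : ∀ q : Emb F E, ∃ b b' y : Matrix (Fin (n q.1)) (Fin (n q.1)) ℂ,
      (M q.1).comp τ q.2 = b * y ∧
      (M q.1).comp τ ((conjElt hE τ).1 q.1 q.2) = b' * (Rv (n q.1) ℂ * dgC T τ q.1 q.2) *
        (dgC T τ q.1 q.2 * y * dgC T τ q.1 q.2) ∧
      IsUnit b.det ∧ IsUnit b'.det ∧ IsUnit y.det ∧
      (∀ j k, (T q.1).p q.2 j < (T q.1).p q.2 k → b j k = 0) ∧
      (∀ j k, (T q.1).p ((conjElt hE τ).1 q.1 q.2) j < (T q.1).p ((conjElt hE τ).1 q.1 q.2) k →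
        b' j k = 0) ∧ PairForm M hE τ q b y b' := by
    intro q
    have hc := isConj_conjElt hE τ q.1 q.2
    obtain ⟨b, b', y, h1, h2, h3, h4, h5, h6, h7, h8, h9, h10⟩ :=
      pair_local (pairPt T τ M hc)
    refine ⟨b, b', y, h1, h2, h3, h4, h5, h6, h7, ?_, ?_, h8⟩
    · intro a v
      rw [hodge_iff M hE τ hc]
      exact h9 a v
    · rw [h10, map_mul, RingHom.map_det, RingHom.map_det]
      have h11 : τ.mapMatrix (Rv (n q.1) E) = Rv (n q.1) ℂ := Rv_map (n q.1) τ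
      have h12 : τ.mapMatrix (dg T τ q.1 q.2) = dgC T τ q.1 q.2 := dg_map τ q.1 q.2
      rw [h11, h12]
      rfl
  choose pb pb' py hp using hp
  have hr : ∀ q : Emb F E, ∃ b y : Matrix (Fin (n q.1)) (Fin (n q.1)) ℂ, IsConj τ q.2 q.2 →
      (M q.1).comp τ q.2 = b *
        (Gam ((T q.1).sgn (τ.comp q.2)) ((T q.1).p q.2) (w q.1) E).map τ * y ∧
      IsUnit b.det ∧ IsUnit y.det ∧ y * dgC T τ q.1 q.2 = dgC T τ q.1 q.2 * y ∧
      (∀ j k, (T q.1).p q.2 j < (T q.1).p q.2 k → b j k = 0) ∧ RealForm M τ q b y := by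
    intro q
    by_cases h : IsConj τ q.2 q.2
    · obtain ⟨b, y, h1⟩ := real_loc M hE τ h
      exact ⟨b, y, fun _ => h1⟩
    · exact ⟨1, 1, fun h' => absurd h' h⟩
  choose rb ry hr using hr
  let C : Emb F E → Emb F E := act (conjElt hE τ)
  have hCC : ∀ q, C (C q) = q := conj_conj_act hE τ
  -- the conjugate of an embedding outside of `Φ τ`
  have hmem : ∀ q : Emb F E, ¬ IsConj τ q.2 q.2 → q ∉ Φ τ → C q ∈ Φ τ := by
    intro q h1 h2
    by_contra h3
    apply h2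
    apply (hΦ τ q.1 q.2 _ (isConj_conjElt hE τ q.1 q.2)).mpr
    exact ⟨fun h4 => h1 ((conj_eq_iff hE τ q.1 q.2).mp h4), h3⟩
  have hnr : ∀ q : Emb F E, q ∈ Φ τ → ¬ IsConj τ q.2 q.2 := by
    intro q h1 h2
    have h3 := (hΦ τ q.1 q.2 _ (isConj_conjElt hE τ q.1 q.2)).mp h1
    exact h3.1 ((conj_eq_iff hE τ q.1 q.2).mpr h2)
  have hnm : ∀ q : Emb F E, q ∈ Φ τ → C q ∉ Φ τ := by
    intro q h1
    exact ((hΦ τ q.1 q.2 _ (isConj_conjElt hE τ q.1 q.2)).mp h1).2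
  have hnr' : ∀ q : Emb F E, ¬ IsConj τ q.2 q.2 → ¬ IsConj τ (C q).2 (C q).2 := by
    intro q h1 h2
    apply h1
    have h3 := real_conj (isConj_conjElt hE τ q.1 q.2) h2
    exact (conj_eq_iff hE τ q.1 q.2).mp h3
  let b : Fam F E n ℂ := fun q => if IsConj τ q.2 q.2 then rb q else if q ∈ Φ τ then pb q
    else pb' (C q)
  let y : Fam F E n ℂ := fun q => if IsConj τ q.2 q.2 then ry q else if q ∈ Φ τ then py q
    else dgC T τ q.1 q.2 * py (C q) * dgC T τ q.1 q.2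
  have hb1 : ∀ q : Emb F E, IsConj τ q.2 q.2 → b q = rb q := fun q h => if_pos h
  have hb2 : ∀ q : Emb F E, q ∈ Φ τ → b q = pb q := fun q h => by
    simp only [b]
    rw [if_neg (hnr q h), if_pos h]
  have hb3 : ∀ q : Emb F E, ¬ IsConj τ q.2 q.2 → q ∉ Φ τ → b q = pb' (C q) := fun q h h' => by
    simp only [b]
    rw [if_neg h, if_neg h']
  have hy1 : ∀ q : Emb F E, IsConj τ q.2 q.2 → y q = ry q := fun q h => if_pos h
  have hy2 : ∀ q : Emb F E, q ∈ Φ τ → y q = py q := fun q h => by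
    simp only [y]
    rw [if_neg (hnr q h), if_pos h]
  have hy3 : ∀ q : Emb F E, ¬ IsConj τ q.2 q.2 → q ∉ Φ τ →
      y q = dgC T τ q.1 q.2 * py (C q) * dgC T τ q.1 q.2 := fun q h h' => by
    simp only [y]
    rw [if_neg h, if_neg h']
  have hdg : ∀ q : Emb F E, dgC T τ q.1 (C q).2 = dgC T τ q.1 q.2 := by
    intro q
    unfold dgC
    rw [sgn_conj_eq T τ (isConj_conjElt hE τ q.1 q.2)]
  have hback : ∀ q : Emb F E, (conjElt hE τ).1 q.1 (C q).2 = q.2 := by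
    intro q
    have h1 : (⟨q.1, (conjElt hE τ).1 q.1 (C q).2⟩ : Emb F E) = ⟨q.1, q.2⟩ := hCC q
    exact eq_of_heq (Sigma.mk.inj_iff.mp h1).2
  refine ⟨b, y, ?_, ?_, ?_, ?_, ?_, ?_, ?_⟩
  · intro q
    by_cases h : IsConj τ q.2 q.2
    · rw [hb1 q h, hy1 q h]
      unfold gam
      rw [if_pos h]
      exact (hr q h).1
    · by_cases h' : q ∈ Φ τ
      · rw [hb2 q h', hy2 q h']
        unfold gam
        rw [if_neg h, if_pos h', Matrix.map_one _ (map_zero _) (map_one _), Matrix.mul_one]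
        exact (hp q).1
      · rw [hb3 q h h', hy3 q h h']
        unfold gam
        rw [if_neg h, if_neg h', Matrix.map_mul, dg_map]
        have h1 := (hp (C q)).2.1
        have h2 : (Rv (n q.1) E).map τ = Rv (n q.1) ℂ := Rv_map (n q.1) τ
        rw [h2]
        have h3 : (M q.1).comp τ ((conjElt hE τ).1 q.1 (C q).2) =
          pb' (C q) * (Rv (n q.1) ℂ * dgC T τ q.1 (C q).2) *
            (dgC T τ q.1 (C q).2 * py (C q) * dgC T τ q.1 (C q).2) := h1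
        rw [hback q, hdg q] at h3
        exact h3
  · intro q
    by_cases h : IsConj τ q.2 q.2
    · rw [hb1 q h]
      exact (hr q h).2.1.ne_zero
    · by_cases h' : q ∈ Φ τ
      · rw [hb2 q h']
        exact (hp q).2.2.1.ne_zero
      · rw [hb3 q h h']
        exact (hp (C q)).2.2.2.1.ne_zero
  · intro q
    by_cases h : IsConj τ q.2 q.2
    · rw [hy1 q h]
      exact (hr q h).2.2.1.ne_zero
    · by_cases h' : q ∈ Φ τ
      · rw [hy2 q h']
        exact (hp q).2.2.2.2.1.ne_zero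
      · rw [hy3 q h h']
        have h1 : ((dgC T τ q.1 q.2) * (dgC T τ q.1 q.2)).det = 1 := by
          rw [dgC_sq, det_one]
        rw [det_mul] at h1
        have h2 := left_ne_zero_of_mul_eq_one h1
        rw [det_mul, det_mul]
        exact mul_ne_zero (mul_ne_zero h2 (hp (C q)).2.2.2.2.1.ne_zero) h2
  · intro i φ φ' hc
    have hφ' := (isConj_iff hE τ i φ φ').mp hc
    by_cases h : IsConj τ φ φ
    · have h1 : φ' = φ := by
        rw [hφ']
        exact (conj_eq_iff hE τ i φ).mpr h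
      subst h1
      rw [hy1 ⟨i, φ'⟩ h]
      exact (hr ⟨i, φ'⟩ h).2.2.2.1
    · have hq : C (⟨i, φ⟩ : Emb F E) = ⟨i, φ'⟩ := by
        rw [hφ']
      have hq' : C (⟨i, φ'⟩ : Emb F E) = ⟨i, φ⟩ := by
        rw [← hq, hCC]
      have h2 : ¬ IsConj τ φ' φ' := by
        have h3 := hnr' ⟨i, φ⟩ h
        rw [hq] at h3
        exact h3
      have hd : dgC T τ i φ' = dgC T τ i φ := by
        unfold dgC
        rw [sgn_conj_eq T τ hc]
      by_cases h' : (⟨i, φ⟩ : Emb F E) ∈ Φ τ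
      · have h4 : (⟨i, φ'⟩ : Emb F E) ∉ Φ τ := by
          rw [← hq]
          exact hnm _ h'
        rw [hy2 ⟨i, φ⟩ h', hy3 ⟨i, φ'⟩ h2 h4]
        change dgC T τ i φ' * py (C ⟨i, φ'⟩) * dgC T τ i φ' * dgC T τ i φ = _
        rw [hd, Matrix.mul_assoc, dgC_sq, Matrix.mul_one]
        congr 1
        rw [show py (C (⟨i, φ'⟩ : Emb F E)) = py ⟨i, (C (⟨i, φ'⟩ : Emb F E)).2⟩ from rfl]
        have h5 : (C (⟨i, φ'⟩ : Emb F E)).2 = φ := eq_of_heq (Sigma.mk.inj_iff.mp hq').2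
        rw [h5]
      · have h4 : (⟨i, φ'⟩ : Emb F E) ∈ Φ τ := by
          rw [← hq]
          exact hmem _ h h'
        rw [hy3 ⟨i, φ⟩ h h', hy2 ⟨i, φ'⟩ h4]
        change _ = dgC T τ i φ * (dgC T τ i φ * py (C ⟨i, φ⟩) * dgC T τ i φ)
        rw [← Matrix.mul_assoc, ← Matrix.mul_assoc, dgC_sq, Matrix.one_mul]
        congr 1
        rw [show py (C (⟨i, φ⟩ : Emb F E)) = py ⟨i, (C (⟨i, φ⟩ : Emb F E)).2⟩ from rfl]
        have h5 : (C (⟨i, φ⟩ : Emb F E)).2 = φ' := eq_of_heq (Sigma.mk.inj_iff.mp hq).2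
        rw [h5]
  · intro q j k hjk
    by_cases h : IsConj τ q.2 q.2
    · rw [hb1 q h]
      exact (hr q h).2.2.2.2.1 j k hjk
    · by_cases h' : q ∈ Φ τ
      · rw [hb2 q h']
        exact (hp q).2.2.2.2.2.1 j k hjk
      · rw [hb3 q h h']
        apply (hp (C q)).2.2.2.2.2.2.1 j k
        change (T q.1).p ((conjElt hE τ).1 q.1 (C q).2) j <
          (T q.1).p ((conjElt hE τ).1 q.1 (C q).2) k
        rw [hback q]
        exact hjk
  · intro q h
    rw [hb1 q h, hy1 q h]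
    exact (hr q h).2.2.2.2.2
  · intro q h
    rw [hb2 q h, hy2 q h]
    have h1 : b (act (conjElt hE τ) q) = pb' (C (C q)) :=
      hb3 (C q) (hnr' q (hnr q h)) (hnm q h)
    have h2 : (⟨q.1, (C (C q)).2⟩ : Emb F E) = q := hCC q
    have h3 : b (act (conjElt hE τ) q) = pb' q := by
      rw [h1]
      have h4 : (C (C q)).2 = q.2 := hback q
      change pb' ⟨q.1, (C (C q)).2⟩ = pb' ⟨q.1, q.2⟩
      rw [h4]
    have h5 := (hp q).2.2.2.2.2.2.2
    rw [← h3] at h5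
    exact h5

end Pool.Agent.MP100fe7U
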