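import Pool.Agent.Lib.MP_100fe7_ntU.RealSpec

/-!
The matrices `Gam` and `Wr` at a real place.
-/

set_option linter.unusedSectionVars false

namespace Pool.Agent.MP100fe7U

open Matrix

variable {n : ℕ} {s p : Fin n → ℤ} {w : ℤ}

private theorem realA_rev (h : RealType s p w) (j : Fin n) :
    p (Fin.rev j) = w - p j := h.hp j

private theorem realA_mid_rev (h : RealType s p w) (j : Fin n) :
    2 * p (Fin.rev j) = w ↔ 2 * p j = w := by
  rw [h.hp j]
  constructor <;> intro h' <;> omega

private theorem realA_high (h : RealType s p w) :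
    Fintype.card {j // w < 2 * p j} = Fintype.card {j // 2 * p j < w} := by
  refine Fintype.card_congr (Equiv.subtypeEquiv Fin.revPerm (fun j => ?_))
  rw [Fin.revPerm_apply, h.hp j]
  constructor <;> intro h' <;> omega

private theorem realA_ex (h : RealType s p w) :
    ∃ β : Equiv.Perm (Fin n), BetaOk s p w β := by
  classical
  have h1 : Fintype.card {j // w < 2 * p j} ≤ Fintype.card {j // s j = 1} := by
    rw [realA_high h]
    exact h.hc 1 (Or.inl rfl)
  have h2 : Fintype.card {j // 2 * p j < w} ≤ Fintype.card {j // s j = -1} :=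
    h.hc (-1) (Or.inr rfl)
  obtain ⟨f⟩ := Function.Embedding.nonempty_of_card_le h1
  obtain ⟨g⟩ := Function.Embedding.nonempty_of_card_le h2
  let φ : Fin n → Fin n := fun j =>
    if hh : w < 2 * p j then (f ⟨j, hh⟩).1
    else if hl : 2 * p j < w then (g ⟨j, hl⟩).1 else j
  have hφh : ∀ j (hh : w < 2 * p j), φ j = (f ⟨j, hh⟩).1 := by
    intro j hh
    simp only [φ, dif_pos hh]
  have hφl : ∀ j (hl : 2 * p j < w), φ j = (g ⟨j, hl⟩).1 := by
    intro j hl
    have hh : ¬ w < 2 * p j := by omega
    simp only [φ, dif_neg hh, dif_pos hl]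
  have hsh : ∀ j, w < 2 * p j → s (φ j) = 1 := by
    intro j hh
    rw [hφh j hh]
    exact (f ⟨j, hh⟩).2
  have hsl : ∀ j, 2 * p j < w → s (φ j) = -1 := by
    intro j hl
    rw [hφl j hl]
    exact (g ⟨j, hl⟩).2
  let t : Finset (Fin n) := Finset.univ.filter (fun j => 2 * p j ≠ w)
  have hinj : Set.InjOn φ (t : Set (Fin n)) := by
    intro a ha b hb hab
    have ha' : 2 * p a ≠ w := by simpa [t] using ha
    have hb' : 2 * p b ≠ w := by simpa [t] using hb
    rcases lt_or_gt_of_ne ha' with ha1 | ha1
    · rcases lt_or_gt_of_ne hb' with hb1 | hb1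
      · rw [hφl a ha1, hφl b hb1] at hab
        have := g.injective (Subtype.ext hab)
        exact congrArg Subtype.val this
      · have e1 := hsl a ha1
        have e2 := hsh b hb1
        rw [hab, e2] at e1
        norm_num at e1
    · rcases lt_or_gt_of_ne hb' with hb1 | hb1
      · have e1 := hsh a ha1
        have e2 := hsl b hb1
        rw [hab, e2] at e1
        norm_num at e1
      · rw [hφh a ha1, hφh b hb1] at hab
        have := f.injective (Subtype.ext hab)
        exact congrArg Subtype.val this
  obtain ⟨G, hG⟩ := Finset.exists_equiv_extend_of_card_eq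
    (α := Fin n) (β := Fin n) (t := Finset.univ) (by simp) (s := t) (f := φ)
    (Finset.subset_univ _) hinj
  let β : Equiv.Perm (Fin n) := G.trans (Equiv.subtypeUnivEquiv (fun x => Finset.mem_univ x))
  have hβ : ∀ j, 2 * p j ≠ w → β j = φ j := by
    intro j hj
    exact hG j (by simpa [t] using hj)
  refine ⟨β, ?_, ?_⟩
  · intro j hj
    rw [hβ j (by omega)]
    exact hsh j hj
  · intro j hj
    rw [hβ j (by omega)]
    exact hsl j hj

theorem beta_ok (h : RealType s p w) : BetaOk s p w (beta s p w) := by
  have hex := realA_ex h
  unfold beta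
  rw [dif_pos hex]
  exact hex.choose_spec

theorem card_high (h : RealType s p w) :
    Fintype.card {j // w < 2 * p j} = Fintype.card {j // 2 * p j < w} := realA_high h

private theorem realA_sq (h : RealType s p w) (E : Type) [Field E] (j : Fin n) :
    (s j : E) * (s j : E) = 1 := by
  rcases h.hs j with e | e <;> rw [e] <;> norm_num

theorem Wr_sq (h : RealType s p w) (E : Type) [Field E] [CharZero E] :
    Wr s p w E * Wr s p w E = 1 := by
  ext i k
  rw [Matrix.mul_apply, Matrix.one_apply]
  by_cases hk : 2 * p k = w
  · have e1 : ∀ j, Wr s p w E j k = if j = k then (s (beta s p w k) : E) else 0 := by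
      intro j
      simp only [Wr, Matrix.of_apply, if_pos hk]
    have e2 : ∀ j, Wr s p w E i j * Wr s p w E j k
        = if j = k then Wr s p w E i k * (s (beta s p w k) : E) else 0 := by
      intro j
      rw [e1 j]
      split_ifs with hj
      · rw [hj]
      · rw [mul_zero]
    rw [Finset.sum_congr rfl (fun j _ => e2 j), Finset.sum_ite_eq' Finset.univ k]
    rw [if_pos (Finset.mem_univ k), e1 i]
    split_ifs with hi
    · exact realA_sq h E _
    · rw [zero_mul]
  · have hk' : ¬ 2 * p (Fin.rev k) = w := by
      rw [realA_mid_rev h]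
      exact hk
    have e1 : ∀ j, Wr s p w E j k = if j = Fin.rev k then 1 else 0 := by
      intro j
      simp only [Wr, Matrix.of_apply, if_neg hk]
    have e2 : ∀ j, Wr s p w E i j * Wr s p w E j k
        = if j = Fin.rev k then Wr s p w E i (Fin.rev k) else 0 := by
      intro j
      rw [e1 j]
      split_ifs with hj
      · rw [hj, mul_one]
      · rw [mul_zero]
    rw [Finset.sum_congr rfl (fun j _ => e2 j), Finset.sum_ite_eq' Finset.univ (Fin.rev k)]
    rw [if_pos (Finset.mem_univ _)]
    simp only [Wr, Matrix.of_apply, if_neg hk', Fin.rev_rev]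

/-- the matrix `Gam` before the permutation of the columns -/
private noncomputable def realA_G (s p : Fin n → ℤ) (w : ℤ) (E : Type) [Field E] :
    Matrix (Fin n) (Fin n) E :=
  Matrix.of fun k j => (if 2 * p j = w then 0 else if k = Fin.rev j then 1 else 0) +
    (if k = j then (if 2 * p j = w then 1 else (s (beta s p w j) : E)) else 0)

private theorem realA_Gam (E : Type) [Field E] :
    Gam s p w E = (realA_G s p w E).submatrix id (beta s p w).symm := by
  ext k l
  rfl

private theorem realA_Gmid (E : Type) [Field E] {j : Fin n} (hj : 2 * p j = w) (k : Fin n) :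
    realA_G s p w E k j = if k = j then 1 else 0 := by
  simp only [realA_G, Matrix.of_apply, if_pos hj, zero_add]

private theorem realA_Gne (E : Type) [Field E] {j : Fin n} (hj : ¬ 2 * p j = w) (k : Fin n) :
    realA_G s p w E k j =
      (if k = Fin.rev j then 1 else 0) + (if k = j then (s (beta s p w j) : E) else 0) := by
  simp only [realA_G, Matrix.of_apply, if_neg hj]

/-- multiplication of a matrix by a column of `realA_G` -/
private theorem realA_mulG (E : Type) [Field E] (M : Matrix (Fin n) (Fin n) E) (i j : Fin n) :
    (M * realA_G s p w E) i j =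
      if 2 * p j = w then M i j else M i (Fin.rev j) + M i j * (s (beta s p w j) : E) := by
  rw [Matrix.mul_apply]
  split_ifs with hj
  · have e : ∀ k, M i k * realA_G s p w E k j = if k = j then M i j else 0 := by
      intro k
      rw [realA_Gmid E hj]
      split_ifs with hk
      · rw [hk, mul_one]
      · rw [mul_zero]
    rw [Finset.sum_congr rfl (fun k _ => e k), Finset.sum_ite_eq' Finset.univ j]
    rw [if_pos (Finset.mem_univ j)]
  · have e : ∀ k, M i k * realA_G s p w E k j
        = (if k = Fin.rev j then M i (Fin.rev j) else 0)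
          + (if k = j then M i j * (s (beta s p w j) : E) else 0) := by
      intro k
      rw [realA_Gne E hj, mul_add]
      congr 1
      · split_ifs with hk
        · rw [hk, mul_one]
        · rw [mul_zero]
      · split_ifs with hk
        · rw [hk]
        · rw [mul_zero]
    rw [Finset.sum_congr rfl (fun k _ => e k), Finset.sum_add_distrib,
      Finset.sum_ite_eq' Finset.univ (Fin.rev j), Finset.sum_ite_eq' Finset.univ j]
    rw [if_pos (Finset.mem_univ _), if_pos (Finset.mem_univ _)]

private theorem realA_anti (h : RealType s p w) {j : Fin n} (hj : ¬ 2 * p j = w) :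
    s (beta s p w (Fin.rev j)) = - s (beta s p w j) := by
  have hb := beta_ok h
  rcases lt_or_gt_of_ne hj with h1 | h1
  · rw [hb.2 j h1, hb.1 (Fin.rev j) (by rw [h.hp j]; omega)]
    norm_num
  · rw [hb.1 j h1, hb.2 (Fin.rev j) (by rw [h.hp j]; omega)]

private theorem realA_GG (h : RealType s p w) (E : Type) [Field E] [CharZero E] :
    realA_G s p w E * realA_G s p w E = diagonal (fun j => if 2 * p j = w then (1 : E) else 2) := by
  ext i j
  rw [realA_mulG, Matrix.diagonal_apply]
  by_cases hj : 2 * p j = w
  · rw [if_pos hj, realA_Gmid E hj]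
    split_ifs with hi hi2
    · rfl
    · exact absurd (by rw [hi]; exact hj) hi2
    · rfl
  · have hj' : ¬ 2 * p (Fin.rev j) = w := by
      rw [realA_mid_rev h]
      exact hj
    rw [if_neg hj, realA_Gne E hj, realA_Gne E hj', Fin.rev_rev, realA_anti h hj]
    have hsq := realA_sq h E (beta s p w j)
    by_cases h1 : i = j
    · subst h1
      by_cases h2 : i = Fin.rev i
      · exfalso
        apply hj
        have h3 := h.hp i
        rw [← h2] at h3
        omega
      · simp only [if_neg h2, if_neg hj, if_true]
        linear_combination hsq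
    · by_cases h2 : i = Fin.rev j
      · simp only [if_neg h1, if_pos h2]
        push_cast
        ring
      · simp only [if_neg h1, if_neg h2]
        ring

theorem Gam_det (h : RealType s p w) (E : Type) [Field E] [CharZero E] :
    (Gam s p w E).det ≠ 0 := by
  have h1 : (realA_G s p w E).det * (realA_G s p w E).det ≠ 0 := by
    rw [← Matrix.det_mul, realA_GG h E, Matrix.det_diagonal]
    rw [Finset.prod_ne_zero_iff]
    intro j _
    split_ifs
    · exact one_ne_zero
    · exact two_ne_zero
  have h2 : (realA_G s p w E).det ≠ 0 := left_ne_zero_of_mul h1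
  rw [realA_Gam, Matrix.det_permute']
  refine mul_ne_zero ?_ h2
  rcases Int.units_eq_one_or (Equiv.Perm.sign (beta s p w).symm) with e | e <;> rw [e] <;> norm_num

theorem Gam_mul (h : RealType s p w) (E : Type) [Field E] [CharZero E] :
    Gam s p w E * diagonal (fun j => (s j : E)) = Wr s p w E * Gam s p w E := by
  have key : realA_G s p w E * diagonal (fun j => (s (beta s p w j) : E))
      = Wr s p w E * realA_G s p w E := by
    ext i j
    rw [realA_mulG, Matrix.mul_diagonal]
    by_cases hj : 2 * p j = w
    · rw [if_pos hj, realA_Gmid E hj]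
      simp only [Wr, Matrix.of_apply, if_pos hj]
      split_ifs with hi
      · rw [one_mul]
      · rw [zero_mul]
    · have hj' : ¬ 2 * p (Fin.rev j) = w := by
        rw [realA_mid_rev h]
        exact hj
      rw [if_neg hj, realA_Gne E hj]
      simp only [Wr, Matrix.of_apply, if_neg hj, if_neg hj', Fin.rev_rev]
      have hsq := realA_sq h E (beta s p w j)
      split_ifs <;> first | linear_combination hsq | ring
  ext k l
  have e := congrFun (congrFun key k) ((beta s p w).symm l)
  rw [Matrix.mul_diagonal, Equiv.apply_symm_apply, Matrix.mul_apply] at e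
  rw [Matrix.mul_diagonal, Matrix.mul_apply, realA_Gam]
  exact e

/-- In the non scalar case there are middle vectors of both signs. -/
theorem exists_mid (h : RealType s p w) (hns : ¬ Scal s p w) (δ : ℤ) (hδ : δ = 1 ∨ δ = -1) :
    ∃ j, 2 * p j = w ∧ s (beta s p w j) = δ := by
  by_contra hno
  have hno' : ∀ j, s (beta s p w j) = δ → ¬ 2 * p j = w := fun j h1 h2 => hno ⟨j, h2, h1⟩
  have hb := beta_ok h
  apply hns
  refine ⟨δ, hδ, ?_⟩
  have c1 : Fintype.card {j // s j = δ} = Fintype.card {j // s (beta s p w j) = δ} :=
    (Fintype.card_congr (Equiv.subtypeEquiv (beta s p w) (fun j => Iff.rfl))).symm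
  rw [c1]
  rcases hδ with hd | hd
  · rw [← realA_high h]
    refine Fintype.card_congr (Equiv.subtypeEquivRight (fun j => ?_))
    constructor
    · intro h1
      have h2 := hno' j h1
      by_contra h3
      have h4 : 2 * p j < w := by omega
      have h5 := hb.2 j h4
      rw [h1, hd] at h5
      norm_num at h5
    · intro h1
      rw [hb.1 j h1, hd]
  · refine Fintype.card_congr (Equiv.subtypeEquivRight (fun j => ?_))
    constructor
    · intro h1
      have h2 := hno' j h1
      by_contra h3
      have h4 : w < 2 * p j := by omega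
      have h5 := hb.1 j h4
      rw [h1, hd] at h5
      norm_num at h5
    · intro h1
      rw [hb.2 j h1, hd]

/-- a middle torus element -/
theorem Gam_mid (h : RealType s p w) (E : Type) [Field E] [CharZero E] (S : Type) [CommRing S]
    [Algebra E S] (x : S) (j : Fin n) (hj : 2 * p j = w) :
    diagonal (Function.update (1 : Fin n → S) j x) * (Gam s p w E).map (algebraMap E S) =
      (Gam s p w E).map (algebraMap E S) *
        diagonal (Function.update (1 : Fin n → S) (beta s p w j) x) := by
  ext k l
  rw [Matrix.diagonal_mul, Matrix.mul_diagonal, Matrix.map_apply]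
  obtain ⟨j0, rfl⟩ : ∃ j0, l = beta s p w j0 := ⟨(beta s p w).symm l, by simp⟩
  have hG : Gam s p w E k (beta s p w j0) = realA_G s p w E k j0 := by
    rw [realA_Gam, Matrix.submatrix_apply, Equiv.symm_apply_apply]
    rfl
  rw [hG]
  by_cases h0 : 2 * p j0 = w
  · rw [realA_Gmid E h0]
    by_cases hk : k = j0
    · subst hk
      rw [if_pos rfl, map_one, mul_one, one_mul]
      by_cases hkj : k = j
      · subst hkj
        rw [Function.update_self, Function.update_self]
      · rw [Function.update_of_ne hkj, Function.update_of_ne (fun e => hkj ((beta s p w).injective e))]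
        rfl
    · rw [if_neg hk, map_zero, mul_zero, zero_mul]
  · have hj0 : j0 ≠ j := by
      intro e
      exact h0 (by rw [e]; exact hj)
    rw [Function.update_of_ne (fun e => hj0 ((beta s p w).injective e))]
    rw [Pi.one_apply, mul_one]
    by_cases hk : k = j
    · subst hk
      have h1 : k ≠ Fin.rev j0 := by
        intro e
        apply h0
        rw [← realA_mid_rev h, ← e]
        exact hj
      have h2 : k ≠ j0 := fun e => hj0 e.symm
      rw [realA_Gne E h0, if_neg h1, if_neg h2, add_zero, map_zero, mul_zero]
    · rw [Function.update_of_ne hk, Pi.one_apply, one_mul]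

end Pool.Agent.MP100fe7U
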