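import Pool.Agent.Lib.MP_100fe7_ntU.RealMid

/-!
The factorisation at a real place.
-/

set_option linter.unusedSectionVars false

namespace Pool.Agent.MP100fe7U

open Matrix MP100fe7L

variable {n : ℕ} {s p : Fin n → ℤ} {w : ℤ} {X : Matrix (Fin n) (Fin n) ℂ}
  {H : ℤ → Submodule ℂ (Fin n → ℂ)}

/-- the matrix of adapted vectors: high, low, middle columns -/
private noncomputable def rbZ (s p : Fin n → ℤ) (w : ℤ) (X : Matrix (Fin n) (Fin n) ℂ)
    (H : ℤ → Submodule ℂ (Fin n → ℂ)) (z : Fin n → Fin n → ℂ) : Matrix (Fin n) (Fin n) ℂ :=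
  Matrix.of fun k j => if 2 * p j = w then z j k else if w < 2 * p j then zc p X H j k
    else (s k : ℂ) * zc p X H (Fin.rev j) k

private theorem rbZ_mid {z : Fin n → Fin n → ℂ} {j : Fin n} (hj : 2 * p j = w) (k : Fin n) :
    rbZ s p w X H z k j = z j k := by
  simp [rbZ, hj]

private theorem rbZ_high {z : Fin n → Fin n → ℂ} {j : Fin n} (hj : w < 2 * p j) (k : Fin n) :
    rbZ s p w X H z k j = zc p X H j k := by
  have h1 : ¬ 2 * p j = w := by omega
  simp [rbZ, h1, hj]

private theorem rbZ_low {z : Fin n → Fin n → ℂ} {j : Fin n} (hj : 2 * p j < w) (k : Fin n) :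
    rbZ s p w X H z k j = (s k : ℂ) * zc p X H (Fin.rev j) k := by
  have h1 : ¬ 2 * p j = w := by omega
  have h2 : ¬ w < 2 * p j := by omega
  simp [rbZ, h1, h2]

private theorem rbZ_mem (h : PairPt s p p w X X H H) {z : Fin n → Fin n → ℂ}
    (hz : ∀ j, 2 * p j = w → z j ∈ H (p j)) (j : Fin n) :
    (fun k => rbZ s p w X H z k j) ∈ H (p j) := by
  rcases lt_trichotomy (2 * p j) w with hj | hj | hj
  · have h1 : (fun k => rbZ s p w X H z k j) = fun k => Zr s p X H k j := by
      funext k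
      rw [rbZ_low hj]
      rfl
    rw [h1]
    exact Zr_mem h j
  · have h1 : (fun k => rbZ s p w X H z k j) = z j := by
      funext k
      rw [rbZ_mid hj]
    rw [h1]
    exact hz j hj
  · have h1 : (fun k => rbZ s p w X H z k j) = zc p X H j := by
      funext k
      rw [rbZ_high hj]
    rw [h1]
    exact (zc_spec h.unit h.fil j).1

private theorem rb_ss (h : PairPt s p p w X X H H) (k : Fin n) : (s k : ℂ) * (s k : ℂ) = 1 := by
  rcases h.hs k with hk | hk
  · rw [hk]
    norm_num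
  · rw [hk]
    norm_num

private theorem rbZ_comm (hr : RealType s p w) (h : PairPt s p p w X X H H)
    {z : Fin n → Fin n → ℂ}
    (hz : ∀ j, 2 * p j = w → ∀ k, (s k : ℂ) * z j k = (s (beta s p w j) : ℂ) * z j k) :
    diagonal (fun j => (s j : ℂ)) * rbZ s p w X H z = rbZ s p w X H z * Wr s p w ℂ := by
  ext k j
  rw [diagonal_mul, mul_apply]
  by_cases hj : 2 * p j = w
  · rw [Finset.sum_eq_single j]
    · have h1 : Wr s p w ℂ j j = (s (beta s p w j) : ℂ) := by
        simp [Wr, hj]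
      rw [h1, rbZ_mid hj, hz j hj k]
      ring
    · intro l _ hl
      have h1 : Wr s p w ℂ l j = 0 := by
        simp [Wr, hj, hl]
      rw [h1, mul_zero]
    · intro h1
      exact absurd (Finset.mem_univ j) h1
  · rw [Finset.sum_eq_single (Fin.rev j)]
    · have h1 : Wr s p w ℂ (Fin.rev j) j = 1 := by
        simp [Wr, hj]
      rw [h1, mul_one]
      rcases lt_or_gt_of_ne hj with hj2 | hj2
      · have h2 : w < 2 * p (Fin.rev j) := by
          have := hr.hp j
          omega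
        rw [rbZ_low hj2, rbZ_high h2, ← mul_assoc, rb_ss h k, one_mul]
      · have h2 : 2 * p (Fin.rev j) < w := by
          have := hr.hp j
          omega
        rw [rbZ_high hj2, rbZ_low h2, Fin.rev_rev]
    · intro l _ hl
      have h1 : Wr s p w ℂ l j = 0 := by
        simp [Wr, hj, hl]
      rw [h1, mul_zero]
    · intro h1
      exact absurd (Finset.mem_univ _) h1

private theorem rb_mulZ (A Z : Matrix (Fin n) (Fin n) ℂ) (j k : Fin n) :
    (A * Z) j k = (A *ᵥ fun l => Z l k) j := rfl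

private theorem rbZ_tri (h : PairPt s p p w X X H H) {z : Fin n → Fin n → ℂ}
    (hz : ∀ j, 2 * p j = w → z j ∈ H (p j)) (j k : Fin n) (hjk : p j < p k) :
    (X * rbZ s p w X H z) j k = 0 := by
  rw [rb_mulZ]
  exact hodge_coord h.unit h.fil (rbZ_mem h hz k) hjk

private theorem rbZ_blk_high (h : PairPt s p p w X X H H) {z : Fin n → Fin n → ℂ} {a : ℤ}
    (ha : w < 2 * a) : (pblk p (X * rbZ s p w X H z) a).det = 1 := by
  have h1 : pblk p (X * rbZ s p w X H z) a = 1 := by
    ext j k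
    have h2 : pblk p (X * rbZ s p w X H z) a j k = (X *ᵥ zc p X H k.1) j.1 := by
      have h3 : pblk p (X * rbZ s p w X H z) a j k =
          (X *ᵥ fun l => rbZ s p w X H z l k.1) j.1 := rfl
      rw [h3]
      congr 2
      funext l
      rw [rbZ_high (by rw [k.2]; exact ha)]
    rw [h2, (zc_spec h.unit h.fil k.1).2 j.1 (by rw [j.2, k.2]), Matrix.one_apply]
    simp only [Subtype.ext_iff]
  rw [h1, det_one]

private theorem rbZ_blk_low {z : Fin n → Fin n → ℂ} {a : ℤ}
    (ha : 2 * a < w) : pblk p (X * rbZ s p w X H z) a = pblk p (X * Zr s p X H) a := by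
  ext j k
  have h3 : pblk p (X * rbZ s p w X H z) a j k =
      (X *ᵥ fun l => rbZ s p w X H z l k.1) j.1 := rfl
  have h4 : pblk p (X * Zr s p X H) a j k = (X *ᵥ fun l => Zr s p X H l k.1) j.1 := rfl
  rw [h3, h4]
  congr 2
  funext l
  rw [rbZ_low (by rw [k.2]; exact ha)]
  rfl

private theorem rbZ_blk_mid (h : PairPt s p p w X X H H) {z : Fin n → Fin n → ℂ}
    (hz : ∀ j, 2 * p j = w → z j ∈ H (p j))
    (hind : ∀ v : Fin n → ℂ, (∀ j, 2 * p j ≠ w → v j = 0) →
      (fun k => ∑ j, v j * z j k) = 0 → v = 0) {a : ℤ}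
    (ha : 2 * a = w) : (pblk p (X * rbZ s p w X H z) a).det ≠ 0 := by
  intro hdet
  obtain ⟨v, hv, hv0⟩ := Matrix.exists_mulVec_eq_zero_iff.mpr hdet
  apply hv
  -- extension by zero
  set v' : Fin n → ℂ := fun l => if hl : p l = a then v ⟨l, hl⟩ else 0 with hv'
  have hv'1 : ∀ l, ¬ p l = a → v' l = 0 := by
    intro l hl
    simp [hv', hl]
  have hsum : ∀ g : Fin n → ℂ, ∑ l, g l * v' l = ∑ l : {l // p l = a}, g l.1 * v l := by
    intro g
    rw [← Finset.sum_filter_add_sum_filter_not Finset.univ (fun l => p l = a)]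
    have h2 : ∑ l ∈ Finset.univ.filter (fun l => ¬ p l = a), g l * v' l = 0 := by
      apply Finset.sum_eq_zero
      intro l hl
      simp only [Finset.mem_filter, Finset.mem_univ, true_and] at hl
      rw [hv'1 l hl, mul_zero]
    rw [h2, add_zero, Finset.sum_subtype (Finset.univ.filter fun l => p l = a)
      (p := fun l => p l = a) (by simp)]
    apply Finset.sum_congr rfl
    intro l _
    simp [hv', l.2]
  set x : Fin n → ℂ := rbZ s p w X H z *ᵥ v' with hx
  have hxz : x = fun k => ∑ j, v' j * z j k := by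
    funext k
    have h1 : x k = ∑ j, rbZ s p w X H z k j * v' j := rfl
    rw [h1]
    refine Finset.sum_congr rfl fun j _ => ?_
    by_cases hj : p j = a
    · rw [rbZ_mid (by rw [hj]; exact ha), mul_comm]
    · rw [hv'1 j hj, mul_zero, zero_mul]
  have hxmem : x ∈ H a := by
    have h1 : x = ∑ j, v' j • z j := by
      rw [hxz]
      funext k
      rw [Finset.sum_apply]
      rfl
    rw [h1]
    refine Submodule.sum_mem _ fun j _ => ?_
    by_cases hj : p j = a
    · have h2 := hz j (by rw [hj]; exact ha)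
      rw [hj] at h2
      exact Submodule.smul_mem _ _ h2
    · rw [hv'1 j hj, zero_smul]
      exact Submodule.zero_mem _
  have hXx : ∀ k, p k ≤ a → (X *ᵥ x) k = 0 := by
    intro k hk
    rcases lt_or_eq_of_le hk with h1 | h1
    · exact hodge_coord h.unit h.fil hxmem h1
    · rw [hx, mulVec_mulVec]
      have h2 : ((X * rbZ s p w X H z) *ᵥ v') k =
          ∑ l, (X * rbZ s p w X H z) k l * v' l := rfl
      rw [h2, hsum]
      exact congrFun hv0 ⟨k, h1⟩
  by_cases hne : ∃ j, p j = a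
  · obtain ⟨j, hj⟩ := hne
    have h1 : x = 0 := by
      refine z_unique h.unit h.fil h.int (j := j) (by rw [hj]; exact hxmem)
        (Submodule.zero_mem _) ?_
      intro k hk
      rw [hXx k (by rw [← hj]; exact hk), mulVec_zero]
      rfl
    have h2 : v' = 0 := by
      refine hind v' (fun l hl => hv'1 l (fun h3 => hl (by rw [h3]; exact ha))) ?_
      rw [← hxz, h1]
    funext l
    have h3 := congrFun h2 l.1
    simpa [hv', l.2] using h3
  · funext l
    exact absurd ⟨l.1, l.2⟩ hne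

private theorem rbZ_det (h : PairPt s p p w X X H H) {z : Fin n → Fin n → ℂ}
    (hz : ∀ j, 2 * p j = w → z j ∈ H (p j))
    (hind : ∀ v : Fin n → ℂ, (∀ j, 2 * p j ≠ w → v j = 0) →
      (fun k => ∑ j, v j * z j k) = 0 → v = 0) :
    (X * rbZ s p w X H z).det ≠ 0 := by
  rw [det_blocks (rbZ_tri h hz)]
  refine Finset.prod_ne_zero_iff.mpr fun a _ => ?_
  rcases lt_trichotomy (2 * a) w with ha | ha | ha
  · have h1 := rbZ_blk_low (s := s) (p := p) (w := w) (X := X) (H := H) (z := z) ha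
    have h2 := hper_ne h a
    rw [← h1] at h2
    exact h2
  · exact rbZ_blk_mid h hz hind ha
  · have h1 := rbZ_blk_high h (z := z) ha
    intro h2
    have h3 : (pblk p (X * rbZ s p w X H z) a).det = 0 := h2
    rw [h1] at h3
    exact one_ne_zero h3

/-- The comparison matrix at a real place is `b * Gam * y`, `y` commuting with `F_∞`. -/
theorem exists_factor (hr : RealType s p w) (h : PairPt s p p w X X H H) (E : Type) [Field E]
    [CharZero E] (f : E →+* ℂ) :
    ∃ b y : Matrix (Fin n) (Fin n) ℂ, X = b * (Gam s p w E).map f * y ∧ IsUnit b.det ∧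
      IsUnit y.det ∧ y * diagonal (fun j => (s j : ℂ)) = diagonal (fun j => (s j : ℂ)) * y ∧
      (∀ j k, p j < p k → b j k = 0) ∧
      (∀ a, w < 2 * a → (pblk p b a).det = 1) ∧
      (∀ a, 2 * a < w → ∀ q, HPer s p p w X X H a q ↔ q = (pblk p b a).det) := by
  obtain ⟨z, hz1, hind⟩ := exists_middle hr h
  have hz : ∀ j, 2 * p j = w → z j ∈ H (p j) := fun j hj => (hz1 j hj).1
  have hzs : ∀ j, 2 * p j = w → ∀ k, (s k : ℂ) * z j k = (s (beta s p w j) : ℂ) * z j k :=
    fun j hj => (hz1 j hj).2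
  set Z := rbZ s p w X H z with hZ
  set Γ : Matrix (Fin n) (Fin n) ℂ := (Gam s p w E).map f with hΓ
  set W : Matrix (Fin n) (Fin n) ℂ := Wr s p w ℂ with hW
  set D : Matrix (Fin n) (Fin n) ℂ := diagonal (fun j => (s j : ℂ)) with hD
  have hdet : (X * Z).det ≠ 0 := rbZ_det h hz hind
  have hZu : IsUnit Z.det := by
    rw [isUnit_iff_ne_zero]
    intro h1
    apply hdet
    rw [det_mul, h1, mul_zero]
  have hΓu : IsUnit Γ.det := by
    rw [isUnit_iff_ne_zero]
    have h1 : Γ.det = f (Gam s p w E).det := by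
      rw [hΓ, ← RingHom.mapMatrix_apply, ← RingHom.map_det]
    rw [h1]
    intro h2
    exact Gam_det hr E ((map_eq_zero f).1 h2)
  have hDZ : D * Z = Z * W := rbZ_comm hr h hzs
  have hΓD : Γ * D = W * Γ := by
    have h1 := congrArg (fun A : Matrix (Fin n) (Fin n) E => A.map f) (Gam_mul hr E)
    simp only [Matrix.map_mul] at h1
    have h2 : (diagonal (fun j => (s j : E))).map f = D := by
      rw [hD, diagonal_map (map_zero f)]
      congr 1
      funext j
      exact map_intCast f (s j)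
    have h3 : (Wr s p w E).map f = W := by
      ext k j
      rw [hW, Matrix.map_apply]
      simp only [Wr, Matrix.of_apply]
      split_ifs <;> simp
    rw [h2, h3] at h1
    exact h1
  have hΓΓ : Γ * Γ⁻¹ = 1 := mul_nonsing_inv _ hΓu
  have hΓΓ' : Γ⁻¹ * Γ = 1 := nonsing_inv_mul _ hΓu
  have hZZ : Z * Z⁻¹ = 1 := mul_nonsing_inv _ hZu
  have hZZ' : Z⁻¹ * Z = 1 := nonsing_inv_mul _ hZu
  have e1 : Z⁻¹ * D = W * Z⁻¹ := by
    calc Z⁻¹ * D = Z⁻¹ * (D * (Z * Z⁻¹)) := by rw [hZZ, Matrix.mul_one]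
      _ = Z⁻¹ * ((D * Z) * Z⁻¹) := by rw [Matrix.mul_assoc]
      _ = (Z⁻¹ * Z) * (W * Z⁻¹) := by rw [hDZ]; simp only [Matrix.mul_assoc]
      _ = W * Z⁻¹ := by rw [hZZ', Matrix.one_mul]
  have e2 : Γ⁻¹ * W = D * Γ⁻¹ := by
    calc Γ⁻¹ * W = Γ⁻¹ * (W * (Γ * Γ⁻¹)) := by rw [hΓΓ, Matrix.mul_one]
      _ = Γ⁻¹ * ((W * Γ) * Γ⁻¹) := by rw [Matrix.mul_assoc]
      _ = (Γ⁻¹ * Γ) * (D * Γ⁻¹) := by rw [← hΓD]; simp only [Matrix.mul_assoc]
      _ = D * Γ⁻¹ := by rw [hΓΓ', Matrix.one_mul]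
  refine ⟨X * Z, Γ⁻¹ * Z⁻¹, ?_, isUnit_iff_ne_zero.2 hdet, ?_, ?_, rbZ_tri h hz, ?_, ?_⟩
  · calc X = X * (Z * Z⁻¹) := by rw [hZZ, Matrix.mul_one]
      _ = X * Z * ((Γ * Γ⁻¹) * Z⁻¹) := by rw [hΓΓ, Matrix.one_mul, Matrix.mul_assoc]
      _ = X * Z * Γ * (Γ⁻¹ * Z⁻¹) := by simp only [Matrix.mul_assoc]
  · rw [det_mul, isUnit_iff_ne_zero]
    refine mul_ne_zero ?_ ?_
    · intro h1
      have h2 := congrArg det hΓΓ
      rw [det_mul, h1, mul_zero, det_one] at h2
      exact zero_ne_one h2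
    · intro h1
      have h2 := congrArg det hZZ
      rw [det_mul, h1, mul_zero, det_one] at h2
      exact zero_ne_one h2
  · calc Γ⁻¹ * Z⁻¹ * D = Γ⁻¹ * (Z⁻¹ * D) := by rw [Matrix.mul_assoc]
      _ = (Γ⁻¹ * W) * Z⁻¹ := by rw [e1, Matrix.mul_assoc]
      _ = D * (Γ⁻¹ * Z⁻¹) := by rw [e2, Matrix.mul_assoc]
  · intro a ha
    exact rbZ_blk_high h ha
  · intro a ha q
    rw [hZ, rbZ_blk_low ha]
    exact hper_iff h a q

end Pool.Agent.MP100fe7U
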