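import Pool.Agent.Lib.MP_100fe7_ntU.RealA
import Pool.Agent.Lib.MP_100fe7_ntU.CommonZ

/-!
Eigenvectors of `F_∞` in the middle Hodge component.
-/

set_option linter.unusedSectionVars false

namespace Pool.Agent.MP100fe7U

open Matrix MP100fe7L

variable {n : ℕ} {s p : Fin n → ℤ} {w : ℤ} {X : Matrix (Fin n) (Fin n) ℂ}
  {H : ℤ → Submodule ℂ (Fin n → ℂ)}

/-- the map `F_∞` -/
private noncomputable def realMid_F (s : Fin n → ℤ) : (Fin n → ℂ) →ₗ[ℂ] (Fin n → ℂ) where
  toFun x k := (s k : ℂ) * x k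
  map_add' x y := by
    funext k
    exact mul_add _ _ _
  map_smul' c x := by
    funext k
    simp only [Pi.smul_apply, smul_eq_mul, RingHom.id_apply]
    ring

/-- an eigenvector of `F_∞` in `F^a`, `2 * a = w`, lies in the Hodge component `a` -/
private theorem realMid_mem (h : PairPt s p p w X X H H) {a : ℤ} (ha : 2 * a = w) {δ : ℂ}
    (hδ : δ * δ = 1) {x : Fin n → ℂ} (hx : ∀ k, (s k : ℂ) * x k = δ * x k)
    (h0 : ∀ j, p j < a → (X *ᵥ x) j = 0) : x ∈ H a := by
  have h1 : x ∈ (⨆ b, ⨆ (_ : a ≤ b), H b) := (mem_up h.unit h.fil a x).2 h0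
  have h2 : (⨆ b, ⨆ (_ : a ≤ b), H b) ≤
      (⨆ b, ⨆ (_ : b ≤ a), H b).comap (realMid_F s) := by
    apply iSup₂_le
    intro b hb y hy
    rw [Submodule.mem_comap]
    exact Submodule.mem_iSup_of_mem (w - b) (Submodule.mem_iSup_of_mem (by omega) (h.hF b y hy))
  have h5 : x ∈ (⨆ b, ⨆ (_ : b ≤ a), H b) := by
    have h3 := h2 h1
    rw [Submodule.mem_comap] at h3
    have h4 : realMid_F s x = δ • x := funext hx
    rw [h4] at h3
    have h6 := Submodule.smul_mem _ δ h3
    rwa [smul_smul, hδ, one_smul] at h6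
  obtain ⟨z, hz, x', hx', hsum⟩ := Submodule.mem_sup.mp (up_le_sup _ h1)
  have h7 : x' ∈ (⨆ b, ⨆ (_ : b ≤ a), H b) := by
    have h8 : x' = x - z := by
      rw [← hsum, add_sub_cancel_left]
    rw [h8]
    exact Submodule.sub_mem _ h5 (Submodule.mem_iSup_of_mem a
      (Submodule.mem_iSup_of_mem le_rfl hz))
  have hdis : Disjoint (⨆ b ∈ {b : ℤ | a + 1 ≤ b}, H b) (⨆ b ∈ {b : ℤ | b ≤ a}, H b) := by
    refine h.int.submodule_iSupIndep.disjoint_biSup_biSup ?_
    rw [Set.disjoint_left]
    intro b hb hb'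
    simp only [Set.mem_setOf_eq] at hb hb'
    omega
  have h9 : x' = 0 := Submodule.disjoint_def.mp hdis x' hx' h7
  rw [← hsum, h9, add_zero]
  exact hz

/-- eigenvectors of `F_∞` in the step of the filtration -/
private theorem realMid_fam (δ : ℤ) (κ : Type) [Fintype κ]
    (hc : Fintype.card κ + Fintype.card {j // 2 * p j < w} ≤ Fintype.card {j // s j = δ}) :
    ∃ u : κ → Fin n → ℂ, LinearIndependent ℂ u ∧
      ∀ i, (∀ k, (s k : ℂ) * u i k = (δ : ℂ) * u i k) ∧
        ∀ j, 2 * p j < w → (X *ᵥ u i) j = 0 := by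
  classical
  let ext : ({j // s j = δ} → ℂ) →ₗ[ℂ] (Fin n → ℂ) :=
    { toFun := fun c k => if hk : s k = δ then c ⟨k, hk⟩ else 0
      map_add' := by
        intro c c'
        funext k
        by_cases hk : s k = δ
        · simp [hk]
        · simp [hk]
      map_smul' := by
        intro c c'
        funext k
        by_cases hk : s k = δ
        · simp [hk]
        · simp [hk] }
  have hext : ∀ c k, ext c k = if hk : s k = δ then c ⟨k, hk⟩ else 0 := fun c k => rfl
  have hinj : Function.Injective ext := by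
    intro c c' hcc
    funext j
    have h1 := congrFun hcc j.1
    rw [hext, hext, dif_pos j.2, dif_pos j.2] at h1
    exact h1
  let Ψ : ({j // s j = δ} → ℂ) →ₗ[ℂ] ({j // 2 * p j < w} → ℂ) :=
    (LinearMap.funLeft ℂ ℂ (Subtype.val : {j // 2 * p j < w} → Fin n)) ∘ₗ X.mulVecLin ∘ₗ ext
  have hΨ : ∀ c j, Ψ c j = (X *ᵥ ext c) j.1 := fun c j => rfl
  have h1 := LinearMap.finrank_range_add_finrank_ker Ψ
  have h2 := Submodule.finrank_le (LinearMap.range Ψ)
  rw [Module.finrank_fintype_fun_eq_card] at h1 h2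
  have h3 : Fintype.card κ ≤ Module.finrank ℂ (LinearMap.ker Ψ) := by omega
  obtain ⟨f, hf⟩ := exists_linearIndependent_of_le_finrank h3
  refine ⟨fun i => ext (f (Fintype.equivFin κ i)).1, ?_, ?_⟩
  · have h4 : LinearIndependent ℂ (fun i => f (Fintype.equivFin κ i)) :=
      hf.comp _ (Fintype.equivFin κ).injective
    have h5 : LinearMap.ker (ext ∘ₗ (LinearMap.ker Ψ).subtype) = ⊥ := by
      rw [LinearMap.ker_eq_bot]
      intro a b hab
      exact Subtype.ext (hinj hab)
    exact h4.map' (ext ∘ₗ (LinearMap.ker Ψ).subtype) h5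
  · intro i
    refine ⟨?_, ?_⟩
    · intro k
      by_cases hk : s k = δ
      · rw [hk]
      · show (s k : ℂ) * ext _ k = (δ : ℂ) * ext _ k
        rw [hext, dif_neg hk, mul_zero, mul_zero]
    · intro j hj
      have h6 := (f (Fintype.equivFin κ i)).2
      rw [LinearMap.mem_ker] at h6
      have h7 := congrFun h6 ⟨j, hj⟩
      rw [hΨ] at h7
      exact h7

private theorem realMid_card (hr : RealType s p w) (δ : ℤ) (hδ : δ = 1 ∨ δ = -1) :
    Fintype.card {j // 2 * p j = w ∧ s (beta s p w j) = δ} + Fintype.card {j // 2 * p j < w} ≤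
      Fintype.card {j // s j = δ} := by
  classical
  have hb := beta_ok hr
  have h1 : Fintype.card {j // s j = δ} = Fintype.card {j // s (beta s p w j) = δ} :=
    (Fintype.card_congr ((beta s p w).subtypeEquiv fun _ => Iff.rfl)).symm
  rw [h1]
  rcases hδ with rfl | rfl
  · rw [← card_high hr, Fintype.card_subtype, Fintype.card_subtype, Fintype.card_subtype,
      ← Finset.card_union_of_disjoint]
    · apply Finset.card_le_card
      intro j hj
      simp only [Finset.mem_union, Finset.mem_filter, Finset.mem_univ, true_and] at hj ⊢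
      rcases hj with hj | hj
      · exact hj.2
      · exact hb.1 j hj
    · rw [Finset.disjoint_left]
      intro j hj hj'
      simp only [Finset.mem_filter, Finset.mem_univ, true_and] at hj hj'
      omega
  · rw [Fintype.card_subtype, Fintype.card_subtype, Fintype.card_subtype,
      ← Finset.card_union_of_disjoint]
    · apply Finset.card_le_card
      intro j hj
      simp only [Finset.mem_union, Finset.mem_filter, Finset.mem_univ, true_and] at hj ⊢
      rcases hj with hj | hj
      · exact hj.2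
      · exact hb.2 j hj
    · rw [Finset.disjoint_left]
      intro j hj hj'
      simp only [Finset.mem_filter, Finset.mem_univ, true_and] at hj hj'
      omega

private theorem realMid_ind (hs : ∀ j, s j = 1 ∨ s j = -1) {δ : ℤ} (hδ : δ = 1 ∨ δ = -1)
    {u : {j // 2 * p j = w ∧ s (beta s p w j) = δ} → Fin n → ℂ} (hu : LinearIndependent ℂ u)
    {z : Fin n → Fin n → ℂ} (hzu : ∀ j hj, z j = u ⟨j, hj⟩)
    (hzs : ∀ j, 2 * p j = w → ∀ k, (s k : ℂ) * z j k = (s (beta s p w j) : ℂ) * z j k)
    {v : Fin n → ℂ} (hv : ∀ j, 2 * p j ≠ w → v j = 0) (hsum : ∀ k, ∑ j, v j * z j k = 0) (j : Fin n)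
    (hj : 2 * p j = w ∧ s (beta s p w j) = δ) : v j = 0 := by
  classical
  have hδ2 : (δ : ℂ) * δ = 1 := by
    rcases hδ with rfl | rfl
    · norm_num
    · norm_num
  have key : ∀ k, ∑ i : {j // 2 * p j = w ∧ s (beta s p w j) = δ}, v i.1 * u i k = 0 := by
    intro k
    have h1 : ∑ i : {j // 2 * p j = w ∧ s (beta s p w j) = δ}, v i.1 * u i k =
        ∑ l ∈ Finset.univ.filter (fun l => 2 * p l = w ∧ s (beta s p w l) = δ), v l * z l k := by
      rw [Finset.sum_subtype (Finset.univ.filter (fun l => 2 * p l = w ∧ s (beta s p w l) = δ))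
        (p := fun l => 2 * p l = w ∧ s (beta s p w l) = δ) (fun l => by simp)]
      refine Finset.sum_congr rfl fun i _ => ?_
      rw [hzu i.1 i.2]
    have h2 : ∀ l, v l * z l k + (δ : ℂ) * (s k : ℂ) * (v l * z l k) =
        if 2 * p l = w ∧ s (beta s p w l) = δ then 2 * (v l * z l k) else 0 := by
      intro l
      by_cases hl : 2 * p l = w
      · have h3 := hzs l hl k
        have h4 : (δ : ℂ) * (s k : ℂ) * (v l * z l k) =
            (δ : ℂ) * (s (beta s p w l) : ℂ) * (v l * z l k) := by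
          linear_combination (δ : ℂ) * v l * h3
        rw [h4]
        by_cases hl2 : s (beta s p w l) = δ
        · rw [if_pos ⟨hl, hl2⟩, hl2, hδ2]
          ring
        · rw [if_neg (fun hh => hl2 hh.2)]
          have h5 : (δ : ℂ) * (s (beta s p w l) : ℂ) = -1 := by
            rcases hδ with rfl | rfl
            · rcases hs (beta s p w l) with h6 | h6
              · exact absurd h6 hl2
              · rw [h6]
                norm_num
            · rcases hs (beta s p w l) with h6 | h6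
              · rw [h6]
                norm_num
              · exact absurd h6 hl2
          rw [h5]
          ring
      · rw [if_neg (fun hh => hl hh.1), hv l hl]
        ring
    have h6 : (2 : ℂ) * ∑ l ∈ Finset.univ.filter (fun l => 2 * p l = w ∧ s (beta s p w l) = δ),
        v l * z l k = 0 := by
      rw [Finset.mul_sum, Finset.sum_filter, ← Finset.sum_congr rfl (fun l _ => h2 l),
        Finset.sum_add_distrib, ← Finset.mul_sum, hsum k]
      ring
    rw [h1]
    exact (mul_eq_zero.1 h6).resolve_left two_ne_zero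
  have h7 := Fintype.linearIndependent_iff.1 hu (fun i => v i.1) (by
    funext k
    rw [Finset.sum_apply]
    exact key k)
  exact h7 ⟨j, hj⟩

/-- In the middle Hodge component there is a basis of eigenvectors of `F_∞` with the eigenvalues
`s (beta j)`. -/
theorem exists_middle (hr : RealType s p w) (h : PairPt s p p w X X H H) :
    ∃ z : Fin n → Fin n → ℂ, (∀ j, 2 * p j = w → z j ∈ H (p j) ∧
      ∀ k, (s k : ℂ) * z j k = (s (beta s p w j) : ℂ) * z j k) ∧
      ∀ v : Fin n → ℂ, (∀ j, 2 * p j ≠ w → v j = 0) → (fun k => ∑ j, v j * z j k) = 0 → v = 0 := by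
  classical
  obtain ⟨u, hu, hu2⟩ := realMid_fam (X := X) 1 {j // 2 * p j = w ∧ s (beta s p w j) = 1}
    (realMid_card hr 1 (Or.inl rfl))
  obtain ⟨u', hu', hu2'⟩ := realMid_fam (X := X) (-1)
    {j // 2 * p j = w ∧ s (beta s p w j) = -1} (realMid_card hr (-1) (Or.inr rfl))
  let z : Fin n → Fin n → ℂ := fun j =>
    if h1 : 2 * p j = w ∧ s (beta s p w j) = 1 then u ⟨j, h1⟩
    else if h2 : 2 * p j = w ∧ s (beta s p w j) = -1 then u' ⟨j, h2⟩ else 0
  have hz1 : ∀ j (hj : 2 * p j = w ∧ s (beta s p w j) = 1), z j = u ⟨j, hj⟩ := by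
    intro j hj
    simp only [z, dif_pos hj]
  have hz2 : ∀ j (hj : 2 * p j = w ∧ s (beta s p w j) = -1), z j = u' ⟨j, hj⟩ := by
    intro j hj
    have h1 : ¬ (2 * p j = w ∧ s (beta s p w j) = 1) := by
      intro h2
      have h3 := hj.2
      have h4 := h2.2
      omega
    simp only [z, dif_neg h1, dif_pos hj]
  have hmain : ∀ j, 2 * p j = w → z j ∈ H (p j) ∧
      ∀ k, (s k : ℂ) * z j k = (s (beta s p w j) : ℂ) * z j k := by
    intro j hj
    rcases hr.hs (beta s p w j) with hb | hb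
    · have e : (s (beta s p w j) : ℂ) = ((1 : ℤ) : ℂ) := by rw [hb]
      rw [hz1 j ⟨hj, hb⟩, e]
      refine ⟨?_, (hu2 ⟨j, ⟨hj, hb⟩⟩).1⟩
      refine realMid_mem h hj (δ := ((1 : ℤ) : ℂ)) (by norm_num) (hu2 ⟨j, ⟨hj, hb⟩⟩).1 ?_
      intro i hi
      exact (hu2 ⟨j, ⟨hj, hb⟩⟩).2 i (by omega)
    · have e : (s (beta s p w j) : ℂ) = ((-1 : ℤ) : ℂ) := by rw [hb]
      rw [hz2 j ⟨hj, hb⟩, e]
      refine ⟨?_, (hu2' ⟨j, ⟨hj, hb⟩⟩).1⟩
      refine realMid_mem h hj (δ := ((-1 : ℤ) : ℂ)) (by norm_num) (hu2' ⟨j, ⟨hj, hb⟩⟩).1 ?_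
      intro i hi
      exact (hu2' ⟨j, ⟨hj, hb⟩⟩).2 i (by omega)
  refine ⟨z, hmain, ?_⟩
  intro v hv hsum
  funext j
  by_cases hj : 2 * p j = w
  · rcases hr.hs (beta s p w j) with hb | hb
    · exact realMid_ind hr.hs (Or.inl rfl) hu hz1 (fun j hj => (hmain j hj).2) hv
        (fun k => congrFun hsum k) j ⟨hj, hb⟩
    · exact realMid_ind hr.hs (Or.inr rfl) hu' hz2 (fun j hj => (hmain j hj).2) hv
        (fun k => congrFun hsum k) j ⟨hj, hb⟩
  · exact hv j hj

end Pool.Agent.MP100fe7U
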