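import Pool.Agent.Lib.MP_100fe7_nt.LFil

/-!
One motive at one place: definitions.
-/

set_option linter.unusedSectionVars false

namespace Pool.Agent.MP100fe7U

open Matrix

section defs

variable {n : ℕ} (s p p' : Fin n → ℤ) (w : ℤ)

/-- The determinant of `F_∞ : H'^{w-a} → H^a` on graded pieces. -/
def HPer (X X' : Matrix (Fin n) (Fin n) ℂ) (H' : ℤ → Submodule ℂ (Fin n → ℂ)) (a : ℤ) (q : ℂ) :
    Prop :=
  ∃ z : {j : Fin n // p j = a} → Fin n → ℂ,
    (∀ j, z j ∈ H' (w - a)) ∧
    (∀ (j : {j : Fin n // p j = a}) (k : Fin n), p' k ≤ w - a →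
      (X'.mulVec (z j)) k = if k = Fin.rev j.1 then 1 else 0) ∧
    q = (Matrix.of fun i j : {j : Fin n // p j = a} =>
      X.mulVec (fun k => (s k : ℂ) * z j k) i.1).det

/-- The conditions on the comparison matrices `X`, `X'` and the Hodge decompositions `H`, `H'` at
complex conjugate places (the same place if it is real). -/
structure PairPt (X X' : Matrix (Fin n) (Fin n) ℂ) (H H' : ℤ → Submodule ℂ (Fin n → ℂ)) :
    Prop where
  hs : ∀ j, s j = 1 ∨ s j = -1
  hp : ∀ j, p' (Fin.rev j) = w - p j
  unit : IsUnit X.det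
  unit' : IsUnit X'.det
  int : DirectSum.IsInternal H
  int' : DirectSum.IsInternal H'
  hF : ∀ (a : ℤ) (x : Fin n → ℂ), x ∈ H a → (fun j => (s j : ℂ) * x j) ∈ H' (w - a)
  hF' : ∀ (a : ℤ) (x : Fin n → ℂ), x ∈ H' a → (fun j => (s j : ℂ) * x j) ∈ H (w - a)
  fil : MP100fe7L.FilHodge p X H
  fil' : MP100fe7L.FilHodge p' X' H'

open Classical in
/-- the vector of the Hodge component which corresponds to the basis vector `j` -/
noncomputable def zc (p : Fin n → ℤ) (X : Matrix (Fin n) (Fin n) ℂ)
    (H : ℤ → Submodule ℂ (Fin n → ℂ)) (j : Fin n) : Fin n → ℂ :=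
  if h : ∃ z ∈ H (p j), ∀ k, p k ≤ p j → (X *ᵥ z) k = if k = j then 1 else 0 then h.choose else 0

/-- the matrix of these vectors -/
noncomputable def Zm (p : Fin n → ℤ) (X : Matrix (Fin n) (Fin n) ℂ)
    (H : ℤ → Submodule ℂ (Fin n → ℂ)) : Matrix (Fin n) (Fin n) ℂ :=
  Matrix.of fun k j => zc p X H j k

/-- the matrix of the images under `F_∞` of the vectors of the conjugate place, in the opposite
order -/
noncomputable def Zr (s p' : Fin n → ℤ) (X' : Matrix (Fin n) (Fin n) ℂ)
    (H' : ℤ → Submodule ℂ (Fin n → ℂ)) : Matrix (Fin n) (Fin n) ℂ :=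
  Matrix.of fun k j => (s k : ℂ) * zc p' X' H' (Fin.rev j) k

/-- The condition on the permutation `beta`. -/
def BetaOk (β : Equiv.Perm (Fin n)) : Prop :=
  (∀ j, w < 2 * p j → s (β j) = 1) ∧ ∀ j, 2 * p j < w → s (β j) = -1

open Classical in
/-- A permutation such that the high vectors go to the eigenspace `1` and the low ones to the
eigenspace `-1`. -/
noncomputable def beta : Equiv.Perm (Fin n) :=
  if h : ∃ β : Equiv.Perm (Fin n), BetaOk s p w β then h.choose else 1

/-- The matrix of `F_∞` in the adapted basis. -/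
noncomputable def Wr (E : Type) [Field E] : Matrix (Fin n) (Fin n) E :=
  Matrix.of fun k j => if 2 * p j = w then (if k = j then (s (beta s p w j) : E) else 0)
    else if k = Fin.rev j then 1 else 0

/-- The matrix `γ`: the columns `β j` are `e (rev j) + e j` (`j` high), `e (rev j) - e j` (`j` low),
`e j` (`j` in the middle). -/
noncomputable def Gam (E : Type) [Field E] : Matrix (Fin n) (Fin n) E :=
  Matrix.of fun k l => (fun j : Fin n => (if 2 * p j = w then 0 else if k = Fin.rev j then 1 else 0) +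
    (if k = j then (if 2 * p j = w then 1 else (s (beta s p w j) : E)) else 0))
    ((beta s p w).symm l)

/-- One eigenspace has the dimension of the low part. -/
def Scal : Prop :=
  ∃ δ : ℤ, (δ = 1 ∨ δ = -1) ∧
    Fintype.card {j // s j = δ} = Fintype.card {j // 2 * p j < w}

/-- The conditions on the discrete data at a real place. -/
structure RealType : Prop where
  hs : ∀ j, s j = 1 ∨ s j = -1
  hp : ∀ j, p (Fin.rev j) = w - p j
  hc : ∀ δ : ℤ, δ = 1 ∨ δ = -1 →
    Fintype.card {j // 2 * p j < w} ≤ Fintype.card {j // s j = δ}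

/-- the Deligne period for the sign `δ` at a real place -/
def RPer (X : Matrix (Fin n) (Fin n) ℂ) (δ : ℤ) (c : ℂ) : Prop :=
  ∃ (a : ℤ) (e : {j // s j = δ} ≃o {j // p j < a}),
    c = (X.submatrix (fun j : {j // s j = δ} => (e j).1)
      (fun j : {j // s j = δ} => j.1)).det

/-- the diagonal block of Hodge index `a` -/
def pblk {S : Type} (b : Matrix (Fin n) (Fin n) S) (a : ℤ) :
    Matrix {j // p j = a} {j // p j = a} S :=
  b.submatrix (fun j => j.1) (fun j => j.1)

/-- the diagonal block of sign `δ` -/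
def sblk {S : Type} (y : Matrix (Fin n) (Fin n) S) (δ : ℤ) :
    Matrix {j // s j = δ} {j // s j = δ} S :=
  y.submatrix (fun j => j.1) (fun j => j.1)

end defs

end Pool.Agent.MP100fe7U
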