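import Pool.Agent.Lib.MP_100fe7_ntU.SymSpec

/-!
The determinant of a symmetric family on the eigenspaces of `F_∞`.
-/

set_option linter.unusedSectionVars false

namespace Pool.Agent.MP100fe7U

open Matrix MP100fe7L

variable {ι : Type} [Fintype ι] [DecidableEq ι] {F : ι → Type} [∀ i, Field (F i)]
  [∀ i, NumberField (F i)] {E : Type} [Field E] [NumberField E] {n : ι → ℕ} {κ : Type}
  [Fintype κ] [DecidableEq κ] {c : Gal F E} {s : Tot F E n → ℤ} (hs : SgnOk c s)
  (ρ : Rep F E n κ) {d : ℕ} {A : Matrix κ (Fin d) E} {L : Matrix (Fin d) κ E}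
  (hL : L * A = 1) {ε : E} (hε : ε * ε = 1) (hA : IsEig (ρ.Fr c (sD s E)) ε A)

private theorem symChar_entry {S : Type} [CommRing S] {h : Fam F E n S} (hh : IsSym c s h)
    (q : Emb F E) (j j' : Fin (n q.1)) :
    h (act c q) j j' * (s ⟨q, j'⟩ : S) = (s ⟨q, j⟩ : S) * h q j j' := by
  have h1 := congrFun (congrFun (congrFun hh q) j) j'
  change ((h (act c q) : Matrix (Fin (n q.1)) (Fin (n q.1)) S) *
    diagonal fun j => (s ⟨q, j⟩ : S)) j j' = ((diagonal fun j => (s ⟨q, j⟩ : S)) * h q) j j' at h1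
  rw [mul_diagonal, diagonal_mul] at h1
  exact h1

include hs in
private theorem symChar_cc (i : ι) (φ : F i →+* E) : c.1 i (c.1 i φ) = φ := by
  have h1 : (c * c).1 i φ = (1 : Gal F E).1 i φ := by rw [hs.sq]
  exact h1

include hs in
/-- symmetric families are block diagonal at the real places -/
theorem sym_levi {S : Type} [CommRing S] [Algebra E S] {h : Fam F E n S} (hh : IsSym c s h) :
    IsLevi (cl c s) h := by
  rintro ⟨i, φ⟩ j j' hne
  by_cases hq : act c (⟨i, φ⟩ : Emb F E) = ⟨i, φ⟩
  · have h1 := symChar_entry hh ⟨i, φ⟩ j j'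
    have hφ : c.1 i φ = φ := eq_of_heq (Sigma.mk.inj_iff.mp hq).2
    have h2 : h (act c (⟨i, φ⟩ : Emb F E)) = h ⟨i, φ⟩ := by
      change h ⟨i, c.1 i φ⟩ = h ⟨i, φ⟩
      rw [hφ]
    rw [h2] at h1
    have hne' : s ⟨⟨i, φ⟩, j⟩ ≠ s ⟨⟨i, φ⟩, j'⟩ := by
      intro he
      apply hne
      unfold cl
      rw [if_pos hq, if_pos hq, he]
    have h5 : (2 : S) * h ⟨i, φ⟩ j j' = 0 := by
      rcases hs.one ⟨⟨i, φ⟩, j⟩ with ha | ha <;> rcases hs.one ⟨⟨i, φ⟩, j'⟩ with hb | hb
      · exact absurd (ha.trans hb.symm) hne'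
      · rw [ha, hb] at h1
        push_cast at h1
        linear_combination (-1 : S) * h1
      · rw [ha, hb] at h1
        push_cast at h1
        linear_combination h1
      · exact absurd (ha.trans hb.symm) hne'
    exact ((MP100fe7L.isUnit_two (E := E) S).mul_right_eq_zero).mp h5
  · exfalso
    apply hne
    unfold cl
    rw [if_neg hq, if_neg hq]

include hs in
private theorem symChar_cT (t : Tot F E n) : cT c (cT c t) = t := by
  obtain ⟨⟨i, φ⟩, j⟩ := t
  exact congrArg (fun ψ => (⟨⟨i, ψ⟩, j⟩ : Tot F E n)) (symChar_cc hs i φ)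

include hs in
theorem xT_sym (t₀ : Tot F E n) : IsSym c s (fdiag (xT c t₀) : Fam F E n (Polynomial E)) := by
  have hx : ∀ t : Tot F E n, xT c t₀ (cT c t) = xT c t₀ t := by
    intro t
    unfold xT
    have h1 : cT c t = t₀ ↔ t = cT c t₀ := by
      constructor
      · rintro rfl
        exact (symChar_cT hs t).symm
      · rintro rfl
        exact symChar_cT hs t₀
    have h2 : cT c t = cT c t₀ ↔ t = t₀ := by
      constructor
      · intro h
        rw [← symChar_cT hs t, h, symChar_cT hs t₀]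
      · rintro rfl
        rfl
    have h3 : (cT c t = t₀ ∨ cT c t = cT c t₀) ↔ (t = t₀ ∨ t = cT c t₀) := by
      rw [h1, h2, or_comm]
    by_cases h4 : t = t₀ ∨ t = cT c t₀
    · rw [if_pos h4, if_pos (h3.mpr h4)]
    · rw [if_neg h4, if_neg (fun h => h4 (h3.mp h))]
  unfold IsSym
  funext q
  change (diagonal fun j => xT c t₀ (cT c ⟨q, j⟩)) * (diagonal fun j => (s ⟨q, j⟩ : Polynomial E)) =
    (diagonal fun j => (s ⟨q, j⟩ : Polynomial E)) * diagonal fun j => xT c t₀ ⟨q, j⟩
  rw [diagonal_mul_diagonal, diagonal_mul_diagonal]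
  congr 1
  funext j
  rw [hx, mul_comm]

/-- the family which agrees with `Y` on `R` and is symmetric if `Y` is block diagonal -/
private noncomputable def symChar_th (c : Gal F E) (s : Tot F E n → ℤ) (R : Finset (Emb F E))
    {S : Type} [CommRing S] (Y : Fam F E n S) : Fam F E n S :=
  fun q => if q ∈ R then Y q else
    (sD s S : Fam F E n S) q * (Y (act c q) : Matrix (Fin (n q.1)) (Fin (n q.1)) S) *
      (sD s S : Fam F E n S) q

section th

variable (R : Finset (Emb F E)) {S : Type} [CommRing S]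

include hs in
private theorem symChar_D (q : Emb F E) :
    (sD s S : Fam F E n S) q * (sD s S : Fam F E n S) q = 1 := congrFun (sD_sq hs S) q

include hs in
private theorem symChar_th_mul (Y Z : Fam F E n S) :
    symChar_th c s R (Y * Z) = symChar_th c s R Y * symChar_th c s R Z := by
  funext q
  have hD := symChar_D hs (S := S) q
  rw [Pi.mul_apply]
  unfold symChar_th
  by_cases hq : q ∈ R
  · rw [if_pos hq, if_pos hq, if_pos hq]
    rfl
  · rw [if_neg hq, if_neg hq, if_neg hq]
    set D := (sD s S : Fam F E n S) q with hDD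
    change D * ((Y (act c q) : Matrix (Fin (n q.1)) (Fin (n q.1)) S) *
      (Z (act c q) : Matrix (Fin (n q.1)) (Fin (n q.1)) S)) * D = _
    have h1 : D * (Y (act c q) : Matrix (Fin (n q.1)) (Fin (n q.1)) S) * D *
        (D * (Z (act c q) : Matrix (Fin (n q.1)) (Fin (n q.1)) S) * D) =
        D * (Y (act c q) : Matrix (Fin (n q.1)) (Fin (n q.1)) S) * (D * D) *
          ((Z (act c q) : Matrix (Fin (n q.1)) (Fin (n q.1)) S) * D) := by
      simp only [Matrix.mul_assoc]
    rw [h1, hD, Matrix.mul_one]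
    simp only [Matrix.mul_assoc]

include hs in
private theorem symChar_th_one : symChar_th c s R (1 : Fam F E n S) = 1 := by
  funext q
  unfold symChar_th
  by_cases hq : q ∈ R
  · rw [if_pos hq]
  · rw [if_neg hq]
    change (sD s S : Fam F E n S) q * (1 : Matrix (Fin (n q.1)) (Fin (n q.1)) S) *
      (sD s S : Fam F E n S) q = 1
    rw [Matrix.mul_one, symChar_D hs]

private theorem symChar_th_map [Algebra E S] {S' : Type} [CommRing S'] [Algebra E S']
    (f : S →ₐ[E] S') (Y : Fam F E n S) :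
    symChar_th c s R (Fam.map' Y f) = Fam.map' (symChar_th c s R Y) f := by
  funext q
  have hD : ((sD s S : Fam F E n S) q).map f = (sD s S' : Fam F E n S') q := by
    unfold sD fdiag
    rw [diagonal_map (map_zero f)]
    congr 1
    funext j
    exact map_intCast f _
  change symChar_th c s R (Fam.map' Y f) q = (symChar_th c s R Y q).map f
  unfold symChar_th
  by_cases hq : q ∈ R
  · rw [if_pos hq, if_pos hq]
    rfl
  · rw [if_neg hq, if_neg hq, Matrix.map_mul, Matrix.map_mul, hD]
    rfl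

include hs in
private theorem symChar_th_sym {Y : Fam F E n S} (hR : IsRepr c R)
    (hY : IsLevi (cl c s) Y) : IsSym c s (symChar_th c s R Y) := by
  unfold IsSym
  funext q
  obtain ⟨i, φ⟩ := q
  have hcc := symChar_cc hs i φ
  have hY2 : Y (act c (act c (⟨i, φ⟩ : Emb F E))) = Y ⟨i, φ⟩ := by
    change Y ⟨i, c.1 i (c.1 i φ)⟩ = Y ⟨i, φ⟩
    rw [hcc]
  have hD' : (sD s S : Fam F E n S) (act c (⟨i, φ⟩ : Emb F E)) =
      (sD s S : Fam F E n S) ⟨i, φ⟩ := congrFun (pull_sD hs S) ⟨i, φ⟩
  have hDD := symChar_D hs (S := S) (⟨i, φ⟩ : Emb F E)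
  change symChar_th c s R Y (act c (⟨i, φ⟩ : Emb F E)) * (sD s S : Fam F E n S) ⟨i, φ⟩ =
    (sD s S : Fam F E n S) ⟨i, φ⟩ * symChar_th c s R Y ⟨i, φ⟩
  by_cases hq : act c (⟨i, φ⟩ : Emb F E) = ⟨i, φ⟩
  · have hφ : c.1 i φ = φ := eq_of_heq (Sigma.mk.inj_iff.mp hq).2
    have hmem : (⟨i, φ⟩ : Emb F E) ∈ R := (hR _).1 hq
    have h1 : symChar_th c s R Y (act c (⟨i, φ⟩ : Emb F E)) = symChar_th c s R Y ⟨i, φ⟩ := by
      change symChar_th c s R Y ⟨i, c.1 i φ⟩ = symChar_th c s R Y ⟨i, φ⟩
      rw [hφ]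
    have h2 : symChar_th c s R Y ⟨i, φ⟩ = Y ⟨i, φ⟩ := by
      unfold symChar_th
      rw [if_pos hmem]
    rw [h1, h2]
    ext j j'
    change (Y ⟨i, φ⟩ * diagonal fun j => (s ⟨⟨i, φ⟩, j⟩ : S)) j j' =
      ((diagonal fun j => (s ⟨⟨i, φ⟩, j⟩ : S)) * Y ⟨i, φ⟩) j j'
    rw [mul_diagonal, diagonal_mul]
    by_cases hj : s ⟨⟨i, φ⟩, j⟩ = s ⟨⟨i, φ⟩, j'⟩
    · rw [hj, mul_comm]
    · have h3 : Y ⟨i, φ⟩ j j' = 0 := by
        apply hY
        unfold cl
        rw [if_pos hq, if_pos hq]
        exact hj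
      rw [h3, zero_mul, mul_zero]
  · by_cases hmem : (⟨i, φ⟩ : Emb F E) ∈ R
    · have hn : act c (⟨i, φ⟩ : Emb F E) ∉ R := ((hR _).2 hq).mp hmem
      have h1 : symChar_th c s R Y (act c (⟨i, φ⟩ : Emb F E)) =
          (sD s S : Fam F E n S) ⟨i, φ⟩ * Y ⟨i, φ⟩ * (sD s S : Fam F E n S) ⟨i, φ⟩ := by
        unfold symChar_th
        rw [if_neg hn, hD']
        exact congrArg (fun Z : Matrix (Fin (n i)) (Fin (n i)) S =>
          (sD s S : Fam F E n S) ⟨i, φ⟩ * Z * (sD s S : Fam F E n S) ⟨i, φ⟩) hY2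
      have h2 : symChar_th c s R Y ⟨i, φ⟩ = Y ⟨i, φ⟩ := by
        unfold symChar_th
        rw [if_pos hmem]
      rw [h2]
      refine (congrArg (fun Z : Matrix (Fin (n i)) (Fin (n i)) S =>
        Z * (sD s S : Fam F E n S) ⟨i, φ⟩) h1).trans ?_
      change (sD s S : Fam F E n S) ⟨i, φ⟩ * Y ⟨i, φ⟩ * (sD s S : Fam F E n S) ⟨i, φ⟩ *
        (sD s S : Fam F E n S) ⟨i, φ⟩ = (sD s S : Fam F E n S) ⟨i, φ⟩ * Y ⟨i, φ⟩
      rw [Matrix.mul_assoc, hDD, Matrix.mul_one]
    · have hn : act c (⟨i, φ⟩ : Emb F E) ∈ R := by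
        by_contra h
        exact hmem (((hR _).2 hq).mpr h)
      have h1 : symChar_th c s R Y (act c (⟨i, φ⟩ : Emb F E)) =
          Y (act c (⟨i, φ⟩ : Emb F E)) := by
        unfold symChar_th
        rw [if_pos hn]
      have h2 : symChar_th c s R Y ⟨i, φ⟩ = (sD s S : Fam F E n S) ⟨i, φ⟩ *
          (Y (act c (⟨i, φ⟩ : Emb F E)) : Matrix (Fin (n i)) (Fin (n i)) S) *
            (sD s S : Fam F E n S) ⟨i, φ⟩ := by
        unfold symChar_th
        rw [if_neg hmem]
      rw [h1, h2]
      have h3 : (sD s S : Fam F E n S) ⟨i, φ⟩ * ((sD s S : Fam F E n S) ⟨i, φ⟩ *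
          (Y (act c (⟨i, φ⟩ : Emb F E)) : Matrix (Fin (n i)) (Fin (n i)) S) *
            (sD s S : Fam F E n S) ⟨i, φ⟩) = ((sD s S : Fam F E n S) ⟨i, φ⟩ *
          (sD s S : Fam F E n S) ⟨i, φ⟩) *
          ((Y (act c (⟨i, φ⟩ : Emb F E)) : Matrix (Fin (n i)) (Fin (n i)) S) *
            (sD s S : Fam F E n S) ⟨i, φ⟩) := by
        simp only [Matrix.mul_assoc]
      rw [h3, hDD, Matrix.one_mul]

include hs in
private theorem symChar_th_self {h : Fam F E n S} (hh : IsSym c s h) :
    symChar_th c s R h = h := by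
  funext q
  unfold symChar_th
  by_cases hq : q ∈ R
  · rw [if_pos hq]
  · rw [if_neg hq]
    have h1 : (h (act c q) : Matrix (Fin (n q.1)) (Fin (n q.1)) S) * (sD s S : Fam F E n S) q =
        (sD s S : Fam F E n S) q * h q := congrFun hh q
    rw [Matrix.mul_assoc, h1, ← Matrix.mul_assoc, symChar_D hs, Matrix.one_mul]

end th

/-- the function of block diagonal families -/
private noncomputable def symChar_fun (R : Finset (Emb F E)) (hR : IsRepr c R) :
    LeviFun E (J := fun q : Emb F E => Fin (n q.1)) (cl c s) where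
  D := fun S _ _ Y => (eig ρ L A S (symChar_th c s R Y)).det
  nat := by
    intro S S' _ _ _ _ f Y _
    rw [symChar_th_map, ← eig_map, AlgHom.map_det]
    rfl
  mul := by
    intro S _ _ Y Z _ hZ
    rw [symChar_th_mul hs, eig_mul hs ρ hL hε hA _ _ (symChar_th_sym hs R hR hZ), det_mul]
  one := by
    intro S _ _
    rw [symChar_th_one hs, eig_one ρ hL, det_one]

/-- one entry of the torus -/
private noncomputable def symChar_dl (t₁ : Tot F E n) : Tot F E n → Polynomial E :=
  fun t => if t = t₁ then Polynomial.X else 1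

private theorem symChar_diag_levi {S : Type} [CommRing S] (x : Tot F E n → S) :
    IsLevi (cl c s) (fdiag x : Fam F E n S) := by
  intro q j j' hne
  unfold fdiag
  apply diagonal_apply_ne
  rintro rfl
  exact hne rfl

private theorem symChar_prod (e : Emb F E → ℤ → ℕ) (t₁ : Tot F E n) :
    ∏ q, ∏ a ∈ colors (cl c s) q, (blk (cl c s)
      (fdiag (symChar_dl t₁) : Fam F E n (Polynomial E)) q a).det ^ e q a =
      Polynomial.X ^ e t₁.1 (cl c s t₁) := by
  have hblk : ∀ (q : Emb F E) (a : ℤ), (blk (cl c s)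
      (fdiag (symChar_dl t₁) : Fam F E n (Polynomial E)) q a).det =
      ∏ j : {j : Fin (n q.1) // cl c s ⟨q, j⟩ = a}, symChar_dl t₁ ⟨q, j.1⟩ := by
    intro q a
    unfold blk fdiag
    rw [submatrix_diagonal _ _ Subtype.val_injective, det_diagonal]
    rfl
  rw [Finset.prod_eq_single t₁.1]
  · rw [Finset.prod_eq_single (cl c s t₁)]
    · rw [hblk, Finset.prod_eq_single
        (⟨t₁.2, rfl⟩ : {j : Fin (n t₁.1.1) // cl c s ⟨t₁.1, j⟩ = cl c s t₁})]
      · unfold symChar_dl
        rw [if_pos rfl]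
      · intro j _ hj
        unfold symChar_dl
        rw [if_neg]
        intro h
        apply hj
        apply Subtype.ext
        obtain ⟨q, j₁⟩ := t₁
        exact eq_of_heq (Sigma.mk.inj_iff.mp h).2
      · intro h
        exact absurd (Finset.mem_univ _) h
    · intro a _ ha
      rw [hblk, Finset.prod_eq_one, one_pow]
      intro j _
      unfold symChar_dl
      rw [if_neg]
      intro h
      apply ha
      rw [← j.2, h]
    · intro h
      exfalso
      apply h
      unfold colors
      exact Finset.mem_image.mpr ⟨t₁.2, Finset.mem_univ _, rfl⟩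
  · intro q _ hq
    apply Finset.prod_eq_one
    intro a _
    rw [hblk, Finset.prod_eq_one, one_pow]
    intro j _
    unfold symChar_dl
    rw [if_neg]
    intro h
    apply hq
    rw [← h]
  · intro h
    exact absurd (Finset.mem_univ _) h

private theorem symChar_dl_one {t₁ : Tot F E n} {q : Emb F E} (hq : q ≠ t₁.1) :
    (fdiag (symChar_dl t₁) : Fam F E n (Polynomial E)) q = 1 := by
  unfold fdiag
  rw [← diagonal_one]
  congr 1
  funext j
  unfold symChar_dl
  rw [if_neg]
  intro h
  apply hq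
  rw [← h]

include hs hL hε hA in
private theorem symChar_key (R : Finset (Emb F E)) (hR : IsRepr c R) : ∃ e : Emb F E → ℤ → ℕ,
    (∀ t : Tot F E n, t.1 ∈ R → (eig ρ L A (Polynomial E) (fdiag (xT c t))).det =
      Polynomial.X ^ e t.1 (cl c s t)) ∧
    ∀ (S : Type) [CommRing S] [Algebra E S] (h : Fam F E n S), IsSym c s h →
      (eig ρ L A S h).det =
        ∏ q ∈ R, ∏ a ∈ colors (cl c s) q, (blk (cl c s) h q a).det ^ e q a := by
  obtain ⟨e, he⟩ := (symChar_fun hs ρ hL hε hA R hR).eq_prod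
  have hdl : ∀ t₁ : Tot F E n, (eig ρ L A (Polynomial E)
      (symChar_th c s R (fdiag (symChar_dl t₁)))).det = Polynomial.X ^ e t₁.1 (cl c s t₁) := by
    intro t₁
    have h1 := he (Polynomial E) (fdiag (symChar_dl t₁)) (symChar_diag_levi _)
    rw [symChar_prod] at h1
    exact h1
  have hmemR : ∀ q : Emb F E, q ∉ R → act c q ∈ R := by
    intro q hq
    by_cases h : act c q = q
    · exact absurd ((hR q).1 h) hq
    · by_contra h2
      exact hq (((hR q).2 h).mpr h2)
  have h0 : ∀ t₁ : Tot F E n, t₁.1 ∉ R → e t₁.1 (cl c s t₁) = 0 := by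
    intro t₁ ht
    have h1 := hdl t₁
    have h2 : symChar_th c s R (fdiag (symChar_dl t₁) : Fam F E n (Polynomial E)) = 1 := by
      funext q
      unfold symChar_th
      by_cases hq : q ∈ R
      · rw [if_pos hq]
        apply symChar_dl_one
        rintro rfl
        exact ht hq
      · rw [if_neg hq]
        have h3 : (fdiag (symChar_dl t₁) : Fam F E n (Polynomial E)) (act c q) = 1 := by
          apply symChar_dl_one
          intro h
          apply ht
          rw [← h]
          exact hmemR q hq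
        refine (congrArg (fun Z : Matrix (Fin (n q.1)) (Fin (n q.1)) (Polynomial E) =>
          (sD s (Polynomial E) : Fam F E n (Polynomial E)) q * Z *
            (sD s (Polynomial E) : Fam F E n (Polynomial E)) q) h3).trans ?_
        change (sD s (Polynomial E) : Fam F E n (Polynomial E)) q *
          (1 : Matrix (Fin (n q.1)) (Fin (n q.1)) (Polynomial E)) *
            (sD s (Polynomial E) : Fam F E n (Polynomial E)) q = 1
        rw [Matrix.mul_one, symChar_D hs]
    rw [h2, eig_one ρ hL, det_one] at h1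
    have h3 := congrArg Polynomial.natDegree h1
    rw [Polynomial.natDegree_one, Polynomial.natDegree_X_pow] at h3
    exact h3.symm
  refine ⟨e, ?_, ?_⟩
  · intro t ht
    have hself := symChar_th_self hs R (xT_sym hs t)
    rw [← hself]
    by_cases hq : act c t.1 = t.1
    · have h1 : cT c t = t := by
        obtain ⟨⟨i, φ⟩, j⟩ := t
        have hφ : c.1 i φ = φ := eq_of_heq (Sigma.mk.inj_iff.mp hq).2
        exact congrArg (fun ψ => (⟨⟨i, ψ⟩, j⟩ : Tot F E n)) hφ
      have h2 : xT c t = symChar_dl t := by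
        funext t'
        unfold xT symChar_dl
        rw [h1]
        by_cases ht' : t' = t
        · rw [if_pos (Or.inl ht'), if_pos ht']
        · rw [if_neg (fun h => h.elim ht' ht'), if_neg ht']
      rw [h2]
      exact hdl t
    · have hne : t ≠ cT c t := by
        intro h
        apply hq
        exact (congrArg (fun u : Tot F E n => u.1) h).symm
      have h2 : (fdiag (xT c t) : Fam F E n (Polynomial E)) =
          fdiag (symChar_dl t) * fdiag (symChar_dl (cT c t)) := by
        rw [fdiag_mul]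
        congr 1
        funext t'
        unfold xT symChar_dl
        by_cases ha : t' = t
        · subst ha
          rw [if_pos (Or.inl rfl), if_pos rfl, if_neg hne, mul_one]
        · by_cases hb : t' = cT c t
          · rw [if_pos (Or.inr hb), if_neg ha, if_pos hb, one_mul]
          · rw [if_neg (not_or.mpr ⟨ha, hb⟩), if_neg ha, if_neg hb, one_mul]
      rw [h2, symChar_th_mul hs, eig_mul hs ρ hL hε hA _ _
        (symChar_th_sym hs R hR (symChar_diag_levi _)), det_mul, hdl, hdl,
        h0 (cT c t) (((hR t.1).2 hq).mp ht), pow_zero, mul_one]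
  · intro S _ _ h hh
    have h1 := he S h (sym_levi hs hh)
    have h2 : (symChar_fun hs ρ hL hε hA R hR).D S h = (eig ρ L A S h).det := by
      change (eig ρ L A S (symChar_th c s R h)).det = _
      rw [symChar_th_self hs R hh]
    rw [← h2, h1]
    symm
    apply Finset.prod_subset (Finset.subset_univ R)
    intro q _ hq
    apply Finset.prod_eq_one
    intro a ha
    unfold colors at ha
    obtain ⟨j, -, rfl⟩ := Finset.mem_image.mp ha
    rw [h0 ⟨q, j⟩ hq, pow_zero]

include hs in
private theorem symChar_repr (q₀ : Emb F E) : ∃ R : Finset (Emb F E), IsRepr c R ∧ q₀ ∈ R := by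
  classical
  have hinv : ∀ q : Emb F E, act c (act c q) = q := by
    intro q
    rw [← act_mul, hs.sq, act_one]
  let ν : Emb F E ≃ Fin (Fintype.card (Emb F E)) := Fintype.equivFin _
  let P : Emb F E → Prop := fun q => act c q = q ∨ q = q₀ ∨
    (q ≠ act c q₀ ∧ ν q < ν (act c q))
  have hP : ∀ q, q ∈ Finset.univ.filter P ↔ P q := by
    intro q
    rw [Finset.mem_filter]
    exact ⟨fun h => h.2, fun h => ⟨Finset.mem_univ q, h⟩⟩
  refine ⟨Finset.univ.filter P, ?_, (hP q₀).mpr (Or.inr (Or.inl rfl))⟩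
  intro q
  refine ⟨fun h => (hP q).mpr (Or.inl h), ?_⟩
  intro hne
  rw [hP, hP]
  constructor
  · rintro (h | h | ⟨h, hlt⟩)
    · exact absurd h hne
    · subst h
      rintro (h' | h' | ⟨h', -⟩)
      · rw [hinv] at h'
        exact hne h'.symm
      · exact hne h'
      · exact h' rfl
    · rintro (h' | h' | ⟨-, hlt'⟩)
      · rw [hinv] at h'
        exact hne h'.symm
      · apply h
        rw [← h', hinv]
      · rw [hinv] at hlt'
        exact absurd hlt (lt_asymm hlt')
  · intro h
    by_cases h1 : q = q₀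
    · exact Or.inr (Or.inl h1)
    · right
      right
      have h2 : q ≠ act c q₀ := by
        rintro rfl
        apply h
        rw [hinv]
        exact Or.inr (Or.inl rfl)
      refine ⟨h2, ?_⟩
      by_contra h3
      apply h
      right
      right
      constructor
      · intro h4
        exact h1 (act_injective c h4)
      · rw [hinv]
        have h5 : ν (act c q) ≠ ν q := fun h6 => hne (ν.injective h6)
        exact lt_of_le_of_ne (not_lt.mp h3) h5

include hs hL hε hA in
/-- The determinant of a symmetric family on the eigenspace, for any choice of representatives of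
the pairs of complex conjugate places. -/
theorem sym_formula : ∃ m : Emb F E → ℤ → ℕ,
    (∀ t : Tot F E n, (eig ρ L A (Polynomial E) (fdiag (xT c t))).det =
      Polynomial.X ^ m t.1 (cl c s t)) ∧
    ∀ R : Finset (Emb F E), IsRepr c R → ∀ (S : Type) [CommRing S] [Algebra E S]
      (h : Fam F E n S), IsSym c s h → (eig ρ L A S h).det =
        ∏ q ∈ R, ∏ a ∈ colors (cl c s) q, (blk (cl c s) h q a).det ^ m q a := by
  classical
  let g : Tot F E n → ℕ := fun t =>
    (eig ρ L A (Polynomial E) (fdiag (xT c t))).det.natDegree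
  let m : Emb F E → ℤ → ℕ := fun q a =>
    if h : ∃ j, cl c s ⟨q, j⟩ = a then g ⟨q, h.choose⟩ else 0
  have hm : ∀ (R : Finset (Emb F E)) (e : Emb F E → ℤ → ℕ), (∀ t : Tot F E n, t.1 ∈ R →
      (eig ρ L A (Polynomial E) (fdiag (xT c t))).det = Polynomial.X ^ e t.1 (cl c s t)) →
      ∀ t : Tot F E n, t.1 ∈ R → m t.1 (cl c s t) = e t.1 (cl c s t) := by
    intro R e he t ht
    have hex : ∃ j, cl c s ⟨t.1, j⟩ = cl c s t := ⟨t.2, rfl⟩
    have h1 : m t.1 (cl c s t) = g ⟨t.1, hex.choose⟩ := dif_pos hex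
    have h2 := he ⟨t.1, hex.choose⟩ ht
    rw [hex.choose_spec] at h2
    rw [h1]
    change (eig ρ L A (Polynomial E) (fdiag (xT c ⟨t.1, hex.choose⟩))).det.natDegree = _
    rw [h2, Polynomial.natDegree_X_pow]
  refine ⟨m, ?_, ?_⟩
  · intro t
    obtain ⟨R, hR, htR⟩ := symChar_repr hs t.1
    obtain ⟨e, he1, -⟩ := symChar_key hs ρ hL hε hA R hR
    rw [hm R e he1 t htR]
    exact he1 t htR
  · intro R hR S _ _ h hh
    obtain ⟨e, he1, he2⟩ := symChar_key hs ρ hL hε hA R hR
    rw [he2 S h hh]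
    apply Finset.prod_congr rfl
    intro q hq
    apply Finset.prod_congr rfl
    intro a ha
    unfold colors at ha
    obtain ⟨j, -, rfl⟩ := Finset.mem_image.mp ha
    rw [hm R e he1 ⟨q, j⟩ hq]

end Pool.Agent.MP100fe7U
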