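import Pool.Agent.Lib.MP_100fe7_ntU.Util
import Pool.Agent.Lib.MP_100fe7_ntU.LeviFun

/-!
The families which commute with the involution `F_∞`: definitions.
-/

set_option linter.unusedSectionVars false

namespace Pool.Agent.MP100fe7U

open Matrix MP100fe7L

variable {ι : Type} [Fintype ι] [DecidableEq ι] {F : ι → Type} [∀ i, Field (F i)]
  [∀ i, NumberField (F i)] {E : Type} [Field E] [NumberField E] {n : ι → ℕ} {κ : Type}
  [Fintype κ] [DecidableEq κ]

/-- the family of the diagonal matrices of signs -/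
def sD (s : Tot F E n → ℤ) (S : Type) [CommRing S] : Fam F E n S :=
  fdiag (fun t : Tot F E n => (s t : S))

/-- The signs are `1` or `-1` and invariant under `c`, which is an involution. -/
structure SgnOk (c : Gal F E) (s : Tot F E n → ℤ) : Prop where
  sq : c * c = 1
  one : ∀ t, s t = 1 ∨ s t = -1
  inv : ∀ (q : Emb F E) (j : Fin (n q.1)), s ⟨act c q, j⟩ = s ⟨q, j⟩

/-- the families commuting with `F_∞` -/
def IsSym (c : Gal F E) (s : Tot F E n → ℤ) {S : Type} [CommRing S] (h : Fam F E n S) : Prop :=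
  Rep.pull c h * sD s S = sD s S * h

/-- the colouring: the signs at the real places -/
noncomputable def cl (c : Gal F E) (s : Tot F E n → ℤ) (t : Tot F E n) : ℤ :=
  if act c t.1 = t.1 then s t else 0

/-- the conjugate index -/
def cT (c : Gal F E) (t : Tot F E n) : Tot F E n := ⟨act c t.1, t.2⟩

/-- a symmetric torus element -/
noncomputable def xT (c : Gal F E) (t₀ : Tot F E n) : Tot F E n → Polynomial E :=
  fun t => if t = t₀ ∨ t = cT c t₀ then Polynomial.X else 1

/-- `R` contains the real places and one place of each complex pair. -/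
def IsRepr (c : Gal F E) (R : Finset (Emb F E)) : Prop :=
  ∀ q, (act c q = q → q ∈ R) ∧ (act c q ≠ q → (q ∈ R ↔ act c q ∉ R))

/-- the action on the eigenspace -/
noncomputable def eig (ρ : Rep F E n κ) {d : ℕ} (L : Matrix (Fin d) κ E) (A : Matrix κ (Fin d) E)
    (S : Type) [CommRing S] [Algebra E S] (h : Fam F E n S) : Matrix (Fin d) (Fin d) S :=
  L.map (algebraMap E S) * ρ.toPol.pol S h * A.map (algebraMap E S)

section

variable {c : Gal F E} {s : Tot F E n → ℤ} (hs : SgnOk c s)

include hs in
theorem sD_sq (S : Type) [CommRing S] : sD s S * sD s S = (1 : Fam F E n S) := by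
  unfold sD
  rw [fdiag_mul]
  funext q
  unfold fdiag
  rw [Pi.one_apply, ← diagonal_one]
  congr 1
  funext j
  change (s ⟨q, j⟩ : S) * (s ⟨q, j⟩ : S) = 1
  rcases hs.one ⟨q, j⟩ with h | h <;> rw [h] <;> simp

include hs in
theorem pull_sD (S : Type) [CommRing S] : Rep.pull c (sD s S) = (sD s S : Fam F E n S) := by
  funext q
  unfold Rep.pull sD fdiag
  congr 1
  funext j
  exact congrArg (Int.cast : ℤ → S) (hs.inv q j)

include hs in
theorem sD_inv (S : Type) [CommRing S] : Rep.pull c (sD s S) * sD s S = (1 : Fam F E n S) := by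
  rw [pull_sD hs, sD_sq hs]

theorem map_sD (S : Type) [CommRing S] [Algebra E S] :
    Fam.map' (sD s E : Fam F E n E) (algebraMap E S) = sD s S := by
  funext q
  unfold Fam.map' sD fdiag
  rw [diagonal_map (map_zero _)]
  congr 1
  funext j
  exact map_intCast (algebraMap E S) _

theorem pull_mul {S : Type} [CommRing S] (g : Gal F E) (A B : Fam F E n S) :
    Rep.pull g (A * B) = Rep.pull g A * Rep.pull g B := rfl

theorem sym_one {S : Type} [CommRing S] : IsSym c s (1 : Fam F E n S) := by
  unfold IsSym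
  have h : Rep.pull c (1 : Fam F E n S) = 1 := rfl
  rw [h, one_mul, mul_one]

theorem sym_mul {S : Type} [CommRing S] {h h' : Fam F E n S} (hh : IsSym c s h)
    (hh' : IsSym c s h') : IsSym c s (h * h') := by
  unfold IsSym at hh hh' ⊢
  rw [pull_mul, mul_assoc, hh', ← mul_assoc, hh, mul_assoc]

variable (ρ : Rep F E n κ) {d : ℕ} {A : Matrix κ (Fin d) E} {L : Matrix (Fin d) κ E}
  (hL : L * A = 1) {ε : E} (hε : ε * ε = 1) (hA : IsEig (ρ.Fr c (sD s E)) ε A)

include hs hL hε hA in
theorem eig_act {S : Type} [CommRing S] [Algebra E S] {h : Fam F E n S} (hh : IsSym c s h) :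
    ρ.toPol.pol S h * A.map (algebraMap E S) = A.map (algebraMap E S) * eig ρ L A S h := by
  apply eigen_stable (ρ.Fr_sq hs.sq (sD_inv hs E)) hε hA.2 hL S _
  apply ρ.Fr_comm (sD_inv hs E)
  rw [map_sD]
  exact hh

include hL in
theorem eig_one (S : Type) [CommRing S] [Algebra E S] : eig ρ L A S 1 = 1 := by
  unfold eig
  rw [ρ.toPol.pol_one, Matrix.mul_one, ← Matrix.map_mul, hL]
  exact Matrix.map_one _ (map_zero _) (map_one _)

include hs hL hε hA in
theorem eig_mul {S : Type} [CommRing S] [Algebra E S] (h h' : Fam F E n S)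
    (hh' : IsSym c s h') : eig ρ L A S (h * h') = eig ρ L A S h * eig ρ L A S h' := by
  have h1 := eig_act hs ρ hL hε hA hh'
  conv_lhs => unfold eig
  rw [ρ.toPol.pol_mul, ← Matrix.mul_assoc, Matrix.mul_assoc _ (ρ.toPol.pol S h'), h1,
    ← Matrix.mul_assoc]
  rfl

theorem eig_map {S : Type} [CommRing S] [Algebra E S] {S' : Type} [CommRing S'] [Algebra E S']
    (f : S →ₐ[E] S') (h : Fam F E n S) :
    (eig ρ L A S h).map f = eig ρ L A S' (Fam.map' h f) := by
  have hm : ∀ (a b : Type) (Y : Matrix a b E), (Y.map (algebraMap E S)).map f =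
      Y.map (algebraMap E S') := by
    intro a b Y
    ext i j
    simp
  unfold eig
  rw [Matrix.map_mul, Matrix.map_mul, hm, hm, ρ.toPol.pol_map]

end

end Pool.Agent.MP100fe7U
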