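import Pool.Agent.Lib.MP_100fe7_ntU.FamT

/-!
Relations between the exponents of the two sides.
-/

set_option linter.unusedSectionVars false

namespace Pool.Agent.MP100fe7U

open Matrix MP100fe7L
open MP100fe7T (detP detP_diagonal)

variable {ι : Type} [Fintype ι] [DecidableEq ι] {F : ι → Type} [∀ i, Field (F i)]
  [∀ i, NumberField (F i)] {E : Type} [Field E] [NumberField E] {n : ι → ℕ} {κ : Type}
  [Fintype κ] [DecidableEq κ] (ρ : Rep F E n κ) {w : ι → ℤ} (T : ∀ i, MType (F i) E (n i) (w i))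
  (hE : Split F E) (Φ : (E →+* ℂ) → Finset (Emb F E)) (hΦ : PhiOk Φ) (τ₀ : E →+* ℂ)

theorem pull_pull {S : Type} (g h : Gal F E) (A : Fam F E n S) :
    Rep.pull g (Rep.pull h A) = Rep.pull (h * g) A := rfl

/-- a family symmetric at `τ` gives one symmetric at `τ₀` -/
theorem sym_pull (τ : E →+* ℂ) {S : Type} [CommRing S] {h : Fam F E n S}
    (hh : IsSym (conjElt hE τ) (sT T τ) h) :
    IsSym (conjElt hE τ₀) (sT T τ₀) (Rep.pull (galElt hE τ τ₀) h) := by
  have h1 := congrArg (Rep.pull (galElt hE τ τ₀)) hh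
  rw [pull_mul, pull_mul, pull_pull, ← galElt_conj, ← pull_pull] at h1
  have h2 : Rep.pull (galElt hE τ τ₀) (sD (sT T τ) S) = (sD (sT T τ₀) S : Fam F E n S) := by
    funext q
    unfold Rep.pull sD fdiag
    congr 1
    funext j
    change (((T q.1).sgn (τ.comp ((galElt hE τ τ₀).1 q.1 q.2)) j : ℤ) : S) =
      ((T q.1).sgn (τ₀.comp q.2) j : ℤ)
    rw [galElt_spec]
  rw [h2] at h1
  exact h1

section basis

variable {d : ℕ} {A : Matrix κ (Fin d) E} {ε : E} (hε : ε * ε = 1)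
  (hA : IsEig (ρ.Fr (conjElt hE τ₀) (sD (sT T τ₀) E)) ε A) (τ : E →+* ℂ)

include hA in
theorem eig_perm : IsEig (ρ.Fr (conjElt hE τ) (sD (sT T τ) E)) ε
    (ρ.perm (galElt hE τ τ₀) * A) := by
  apply hA.transport _ (ρ.perm (galElt hE τ τ₀)⁻¹) (ρ.perm_inv_mul _)
  apply ρ.Fr_gal (galElt_conj hE τ τ₀)
  exact sgnFam_pull T hE τ τ₀

include hA hΦ in
theorem eig_gam : IsEig (ρ.Fr (conjElt hE τ) (wF T τ)) ε
    (ρ.ev E (gamF T Φ τ) * (ρ.perm (galElt hE τ τ₀) * A)) := by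
  apply (eig_perm ρ T hE τ₀ hA τ).transport _ (ρ.ev E (gamI T Φ τ))
  · rw [← ρ.ev_mul, gamI_mul, ρ.ev_one]
  · exact ρ.Fr_conj (gamF_rel T hE Φ τ hΦ)

variable {B : Matrix (Fin d) κ E} (hB : Function.Surjective B.mulVec) {a₀ : ℤ}
  (hker : ∀ v : κ → E, B.mulVec v = 0 ↔ ∀ s, isLo ρ T a₀ s → v s = 0)

include hΦ hε hA hB hker in
theorem det_ev_ne : (B * (ρ.ev E (gamF T Φ τ) * (ρ.perm (galElt hE τ τ₀) * A))).det ≠ 0 :=
  det_BA_ne ρ T (conjElt_sq hE τ) (wF_inv T hE τ) (wF_mono T hE τ) hε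
    (eig_gam ρ T hE Φ hΦ τ₀ hA τ) hB hker

include hΦ hε hA hB hker in
theorem det_pol_ne : (B * (ρ.toPol.pol E (gamF T Φ τ) * (ρ.perm (galElt hE τ τ₀) * A))).det ≠ 0 := by
  intro h
  apply det_ev_ne ρ T hE Φ hΦ τ₀ hε hA τ hB hker
  rw [Rep.ev_eq, Matrix.smul_mul, Matrix.mul_smul, det_smul, h, mul_zero]

variable {L : Matrix (Fin d) κ E} (hL : L * A = 1)

include hΦ hε hA hB hker hL in
/-- A torus element `x` and a symmetric family `z` with `x γ = γ z`. -/
theorem torus_rel (x : Tot F E n → Polynomial E) (z : Fam F E n (Polynomial E))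
    (hz : IsSym (conjElt hE τ) (sT T τ) z)
    (hxz : fdiag x * Fam.map' (gamF T Φ τ) (algebraMap E (Polynomial E)) =
      Fam.map' (gamF T Φ τ) (algebraMap E (Polynomial E)) * z) :
    ∏ s with isLo ρ T a₀ s, ∏ t, x t ^ ρ.wt s t =
      (eig ρ L A (Polynomial E) (Rep.pull (galElt hE τ τ₀) z)).det := by
  let al := algebraMap E (Polynomial E)
  let g := galElt hE τ τ₀
  let G : Fam F E n (Polynomial E) := Fam.map' (gamF T Φ τ) al
  have hxz' : fdiag x * G = G * z := hxz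
  have hz0 := sym_pull T hE τ₀ τ hz
  have hact := eig_act (sgnOk T hE τ₀) ρ hL hε hA hz0
  let Y : Matrix κ (Fin d) (Polynomial E) :=
    ρ.toPol.pol _ G * ((ρ.perm g).map al * A.map al)
  have h1 : (B.map al * ρ.toPol.pol _ (fdiag x) * Y).det =
      detP (isLo ρ T a₀) (ρ.toPol.pol _ (fdiag x)) * (B.map al * Y).det := by
    apply det_low (isLo ρ T a₀) B hB hker
    intro s t hs ht
    rw [ρ.toPol.pol_diag, diagonal_apply_ne]
    rintro rfl
    exact ht hs
  have h2 : B.map al * ρ.toPol.pol _ (fdiag x) * Y =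
      B.map al * Y * eig ρ L A (Polynomial E) (Rep.pull g z) := by
    have h3 : ρ.toPol.pol _ (fdiag x) * Y = Y * eig ρ L A (Polynomial E) (Rep.pull g z) := by
      simp only [Y]
      rw [← Matrix.mul_assoc, ← ρ.toPol.pol_mul]
      rw [hxz', ρ.toPol.pol_mul, Matrix.mul_assoc, ← Matrix.mul_assoc (ρ.toPol.pol _ z)]
      rw [← ρ.perm_pol g, Matrix.mul_assoc, Matrix.mul_assoc]
      rw [hact]
      simp only [Matrix.mul_assoc]
      rfl
    rw [Matrix.mul_assoc, h3]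
    exact (Matrix.mul_assoc _ _ _).symm
  have h4 : (B.map al * Y).det ≠ 0 := by
    have h5 : B.map al * Y =
        (B * (ρ.toPol.pol E (gamF T Φ τ) * (ρ.perm (galElt hE τ τ₀) * A))).map al := by
      have h6 : (ρ.toPol.pol E (gamF T Φ τ)).map al = ρ.toPol.pol _ G :=
        ρ.toPol.pol_map (Algebra.ofId E (Polynomial E)) (gamF T Φ τ)
      rw [Matrix.map_mul, Matrix.map_mul, Matrix.map_mul, h6]
    rw [h5]
    have h7 := RingHom.map_det al
      (B * (ρ.toPol.pol E (gamF T Φ τ) * (ρ.perm (galElt hE τ τ₀) * A)))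
    have h8 : ((B * (ρ.toPol.pol E (gamF T Φ τ) * (ρ.perm (galElt hE τ τ₀) * A))).map al).det =
        al (B * (ρ.toPol.pol E (gamF T Φ τ) * (ρ.perm (galElt hE τ τ₀) * A))).det := h7.symm
    rw [h8]
    exact Polynomial.C_ne_zero.mpr (det_pol_ne ρ T hE Φ hΦ τ₀ hε hA τ hB hker)
  rw [h2, det_mul, mul_comm] at h1
  have h9 := mul_right_cancel₀ h4 h1
  rw [ρ.toPol.pol_diag, detP_diagonal] at h9
  exact h9.symm

end basis

/-- diagonal matrices and a matrix with few entries -/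
theorem diag_rel {m : ℕ} {S : Type} [CommRing S] (x y : Fin m → S) (G : Matrix (Fin m) (Fin m) S)
    (h : ∀ k l, G k l ≠ 0 → x k = y l) : diagonal x * G = G * diagonal y := by
  ext k l
  rw [diagonal_mul, mul_diagonal]
  by_cases hG : G k l = 0
  · rw [hG, mul_zero, zero_mul]
  · rw [h k l hG, mul_comm]

/-- transport of the torus elements -/
theorem pull_xT (τ : E →+* ℂ) (q : Emb F E) (j : Fin (n q.1)) :
    Rep.pull (galElt hE τ τ₀) (fdiag (xT (conjElt hE τ) ⟨act (galElt hE τ τ₀) q, j⟩) :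
      Fam F E n (Polynomial E)) = fdiag (xT (conjElt hE τ₀) ⟨q, j⟩) := by
  funext q'
  unfold Rep.pull fdiag
  congr 1
  funext j'
  unfold xT
  have key : ∀ q₁ q₂ : Emb F E, ∀ (j₁ : Fin (n q₁.1)) (j₂ : Fin (n q₂.1)),
      ((⟨act (galElt hE τ τ₀) q₁, j₁⟩ : Tot F E n) = ⟨act (galElt hE τ τ₀) q₂, j₂⟩) ↔
        ((⟨q₁, j₁⟩ : Tot F E n) = ⟨q₂, j₂⟩) := by
    intro q₁ q₂ j₁ j₂
    constructor
    · intro h
      have h1 : q₁ = q₂ := act_injective _ (congrArg (fun t : Tot F E n => t.1) h)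
      subst h1
      have h2 := eq_of_heq (Sigma.mk.inj_iff.mp h).2
      rw [h2]
    · intro h
      have h1 : q₁ = q₂ := congrArg (fun t : Tot F E n => t.1) h
      subst h1
      have h2 := eq_of_heq (Sigma.mk.inj_iff.mp h).2
      rw [h2]
  have h1 : (cT (conjElt hE τ) ⟨act (galElt hE τ τ₀) q, j⟩ : Tot F E n) =
      ⟨act (galElt hE τ τ₀) (act (conjElt hE τ₀) q), j⟩ := by
    change (⟨act (conjElt hE τ * galElt hE τ τ₀) q, j⟩ : Tot F E n) =
      ⟨act (galElt hE τ τ₀ * conjElt hE τ₀) q, j⟩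
    rw [galElt_conj]
  rw [h1]
  have h2 := key q' q j' j
  have h3 := key q' (act (conjElt hE τ₀) q) j' j
  have h4 : ((⟨act (galElt hE τ τ₀) q', j'⟩ : Tot F E n) = ⟨act (galElt hE τ τ₀) q, j⟩ ∨
      (⟨act (galElt hE τ τ₀) q', j'⟩ : Tot F E n) =
        ⟨act (galElt hE τ τ₀) (act (conjElt hE τ₀) q), j⟩) ↔
      ((⟨q', j'⟩ : Tot F E n) = ⟨q, j⟩ ∨ (⟨q', j'⟩ : Tot F E n) = cT (conjElt hE τ₀) ⟨q, j⟩) :=
    or_congr h2 h3
  exact if_congr h4 rfl rfl


section exps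

variable {d : ℕ} {A : Matrix κ (Fin d) E} {ε : E} (hε : ε * ε = 1)
  (hA : IsEig (ρ.Fr (conjElt hE τ₀) (sD (sT T τ₀) E)) ε A)
  {B : Matrix (Fin d) κ E} (hB : Function.Surjective B.mulVec) {a₀ : ℤ}
  (hker : ∀ v : κ → E, B.mulVec v = 0 ↔ ∀ s, isLo ρ T a₀ s → v s = 0)
  {L : Matrix (Fin d) κ E} (hL : L * A = 1) {m : Emb F E → ℤ → ℕ}
  (hm : ∀ t : Tot F E n, (eig ρ L A (Polynomial E) (fdiag (xT (conjElt hE τ₀) t))).det =
      Polynomial.X ^ m t.1 (cl (conjElt hE τ₀) (sT T τ₀) t)) (τ : E →+* ℂ)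

/-- a product with two factors -/
theorem prod_two (t₁ t₂ : Tot F E n) (h : t₁ ≠ t₂) (e : Tot F E n → ℕ) :
    ∏ t, (if t = t₁ ∨ t = t₂ then (Polynomial.X : Polynomial E) else 1) ^ e t =
      Polynomial.X ^ (e t₁ + e t₂) := by
  have h1 : ∏ t ∈ ({t₁, t₂} : Finset (Tot F E n)),
      (if t = t₁ ∨ t = t₂ then (Polynomial.X : Polynomial E) else 1) ^ e t =
      Polynomial.X ^ (e t₁ + e t₂) := by
    rw [Finset.prod_pair h, pow_add]
    simp
  rw [← h1]
  symm
  apply Finset.prod_subset (Finset.subset_univ _)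
  intro t _ ht
  rw [Finset.mem_insert, Finset.mem_singleton] at ht
  rw [if_neg ht, one_pow]

theorem prod_one' (t₁ : Tot F E n) (e : Tot F E n → ℕ) :
    ∏ t, (if t = t₁ then (Polynomial.X : Polynomial E) else 1) ^ e t =
      Polynomial.X ^ e t₁ := by
  rw [Finset.prod_eq_single t₁]
  · rw [if_pos rfl]
  · intro t _ ht
    rw [if_neg ht, one_pow]
  · simp

/-- membership of the two kinds of indices -/
theorem tot_eq_iff (q : Emb F E) (j j' : Fin (n q.1)) :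
    ((⟨q, j⟩ : Tot F E n) = ⟨q, j'⟩) ↔ j = j' := by
  constructor
  · intro h
    exact eq_of_heq (Sigma.mk.inj_iff.mp h).2
  · rintro rfl
    rfl

include hε hA hB hker hL hm hΦ in
/-- The exponent at a complex place, in terms of the low part. -/
theorem exp_complex (i : ι) (φ₀ φ φ' : F i →+* E) (hg : (galElt hE τ τ₀).1 i φ₀ = φ)
    (hc : IsConj τ φ φ') (hmem : (⟨i, φ⟩ : Emb F E) ∈ Φ τ) (j : Fin (n i)) :
    m ⟨i, φ₀⟩ 0 = ∑ s with isLo ρ T a₀ s,
      (ρ.wt s ⟨⟨i, φ⟩, j⟩ + ρ.wt s ⟨⟨i, φ'⟩, Fin.rev j⟩) := by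
  classical
  have hne : φ' ≠ φ := ((hΦ τ i φ φ' hc).mp hmem).1
  have hnm : (⟨i, φ'⟩ : Emb F E) ∉ Φ τ := ((hΦ τ i φ φ' hc).mp hmem).2
  have hnr : ¬ IsConj τ φ φ := by
    intro h
    apply hne
    rw [(isConj_iff hE τ i φ φ').mp hc]
    exact (conj_eq_iff hE τ i φ).mpr h
  have hnr' : ¬ IsConj τ φ' φ' := by
    intro h
    exact hne (real_conj hc h)
  have hact : act (conjElt hE τ) (⟨i, φ⟩ : Emb F E) = ⟨i, φ'⟩ := by
    rw [(isConj_iff hE τ i φ φ').mp hc]
  let t₁ : Tot F E n := ⟨⟨i, φ⟩, j⟩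
  let t₂ : Tot F E n := ⟨⟨i, φ'⟩, Fin.rev j⟩
  have ht : t₁ ≠ t₂ := by
    intro h
    have h1 : (⟨i, φ⟩ : Emb F E) = ⟨i, φ'⟩ := congrArg (fun t : Tot F E n => t.1) h
    exact hne (eq_of_heq (Sigma.mk.inj_iff.mp h1).2).symm
  let x : Tot F E n → Polynomial E := fun t => if t = t₁ ∨ t = t₂ then Polynomial.X else 1
  have h1 := torus_rel ρ T hE Φ hΦ τ₀ hε hA τ hB hker hL x (fdiag (xT (conjElt hE τ) t₁))
    (xT_sym (sgnOk T hE τ) t₁) (by
      funext q
      obtain ⟨i', ψ⟩ := q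
      rw [Pi.mul_apply, Pi.mul_apply]
      change diagonal (fun j' => x ⟨⟨i', ψ⟩, j'⟩) * (gam T Φ τ i' ψ).map _ =
        (gam T Φ τ i' ψ).map _ * diagonal (fun j' => xT (conjElt hE τ) t₁ ⟨⟨i', ψ⟩, j'⟩)
      have hcT : cT (conjElt hE τ) t₁ = ⟨⟨i, φ'⟩, j⟩ := by
        change (⟨act (conjElt hE τ) (⟨i, φ⟩ : Emb F E), j⟩ : Tot F E n) = _
        rw [(isConj_iff hE τ i φ φ').mp hc]
      by_cases h1 : (⟨i', ψ⟩ : Emb F E) = ⟨i, φ⟩
      · obtain ⟨rfl, h1'⟩ := Sigma.mk.inj_iff.mp h1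
        have h1'' := eq_of_heq h1'
        subst h1''
        have h2 : gam T Φ τ i' ψ = 1 := by
          unfold gam
          rw [if_neg hnr, if_pos hmem]
        rw [h2]
        rw [Matrix.map_one _ (map_zero _) (map_one _), Matrix.mul_one, Matrix.one_mul]
        congr 1
        funext j'
        have hne' : ∀ k : Fin (n i'), (⟨⟨i', ψ⟩, j'⟩ : Tot F E n) ≠ ⟨⟨i', φ'⟩, k⟩ := by
          intro k h
          have h3 : (⟨i', ψ⟩ : Emb F E) = ⟨i', φ'⟩ := congrArg (fun t : Tot F E n => t.1) h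
          exact hne (eq_of_heq (Sigma.mk.inj_iff.mp h3).2).symm
        simp only [x, xT, hcT, t₂]
        simp only [hne', or_false]
      · by_cases h2 : (⟨i', ψ⟩ : Emb F E) = ⟨i, φ'⟩
        · obtain ⟨rfl, h2'⟩ := Sigma.mk.inj_iff.mp h2
          have h2'' := eq_of_heq h2'
          subst h2''
          apply diag_rel
          intro k l hkl
          have h3 : k = Fin.rev l := by
            by_contra h4
            apply hkl
            have h5 : gam T Φ τ i' ψ k l = 0 := by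
              unfold gam
              rw [if_neg hnr', if_neg hnm]
              unfold dg
              rw [mul_diagonal]
              unfold Rv
              rw [of_apply, if_neg h4, zero_mul]
            rw [Matrix.map_apply, h5, map_zero]
          subst h3
          have hne' : ∀ k l : Fin (n i'), (⟨⟨i', ψ⟩, l⟩ : Tot F E n) ≠ ⟨⟨i', φ⟩, k⟩ := by
            intro k l h
            exact h1 (congrArg (fun t : Tot F E n => t.1) h)
          simp only [x, xT, hcT, t₁, t₂]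
          simp only [hne', false_or]
          simp only [tot_eq_iff, Fin.rev_inj]
        · have hne1 : ∀ (l : Fin (n i')) (k : Fin (n i)),
              (⟨⟨i', ψ⟩, l⟩ : Tot F E n) ≠ ⟨⟨i, φ⟩, k⟩ := fun l k h =>
            h1 (congrArg (fun t : Tot F E n => t.1) h)
          have hne2 : ∀ (l : Fin (n i')) (k : Fin (n i)),
              (⟨⟨i', ψ⟩, l⟩ : Tot F E n) ≠ ⟨⟨i, φ'⟩, k⟩ := fun l k h =>
            h2 (congrArg (fun t : Tot F E n => t.1) h)
          apply diag_rel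
          intro k l _
          simp only [x, xT, hcT, t₁, t₂]
          simp only [hne1, hne2, or_false])
  have h2 : (fdiag (xT (conjElt hE τ) t₁) : Fam F E n (Polynomial E)) =
      fdiag (xT (conjElt hE τ) ⟨act (galElt hE τ τ₀) (⟨i, φ₀⟩ : Emb F E), j⟩) := by
    subst hg
    rfl
  rw [h2, pull_xT hE τ₀ τ ⟨i, φ₀⟩ j, hm] at h1
  have h3 : cl (conjElt hE τ₀) (sT T τ₀) (⟨⟨i, φ₀⟩, j⟩ : Tot F E n) = 0 := by
    unfold cl
    rw [if_neg]
    intro h4
    apply hnr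
    have h5 := (act_eq_iff hE τ₀ ⟨i, φ₀⟩).mp h4
    subst hg
    unfold IsConj at h5 ⊢
    rw [galElt_spec]
    exact h5
  rw [h3] at h1
  have h4 : ∀ s, ∏ t, x t ^ ρ.wt s t = Polynomial.X ^ (ρ.wt s t₁ + ρ.wt s t₂) :=
    fun s => prod_two t₁ t₂ ht _
  rw [Finset.prod_congr rfl (fun s _ => h4 s), Finset.prod_pow_eq_pow_sum] at h1
  have h6 := congrArg Polynomial.natDegree h1
  rw [Polynomial.natDegree_X_pow, Polynomial.natDegree_X_pow] at h6
  exact h6.symm

include hε hA hB hker hL hm hΦ in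
/-- The exponent at a real place with a middle vector. -/
theorem exp_real (i : ι) (φ₀ φ : F i →+* E) (hg : (galElt hE τ τ₀).1 i φ₀ = φ)
    (hr : IsConj τ φ φ) (j : Fin (n i)) (hj : 2 * (T i).p φ j = w i) :
    m ⟨i, φ₀⟩ ((T i).sgn (τ.comp φ) (beta ((T i).sgn (τ.comp φ)) ((T i).p φ) (w i) j)) =
      ∑ s with isLo ρ T a₀ s, ρ.wt s ⟨⟨i, φ⟩, j⟩ := by
  classical
  let k₀ := beta ((T i).sgn (τ.comp φ)) ((T i).p φ) (w i) j
  let t₁ : Tot F E n := ⟨⟨i, φ⟩, j⟩
  let t₂ : Tot F E n := ⟨⟨i, φ⟩, k₀⟩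
  let x : Tot F E n → Polynomial E := fun t => if t = t₁ then Polynomial.X else 1
  have hcT : cT (conjElt hE τ) t₂ = t₂ := by
    change (⟨⟨i, (conjElt hE τ).1 i φ⟩, k₀⟩ : Tot F E n) = ⟨⟨i, φ⟩, k₀⟩
    rw [(conj_eq_iff hE τ i φ).mpr hr]
  have h1 := torus_rel ρ T hE Φ hΦ τ₀ hε hA τ hB hker hL x (fdiag (xT (conjElt hE τ) t₂))
    (xT_sym (sgnOk T hE τ) t₂) (by
      funext q
      obtain ⟨i', ψ⟩ := q
      rw [Pi.mul_apply, Pi.mul_apply]
      change diagonal (fun j' => x ⟨⟨i', ψ⟩, j'⟩) * (gam T Φ τ i' ψ).map _ =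
        (gam T Φ τ i' ψ).map _ * diagonal (fun j' => xT (conjElt hE τ) t₂ ⟨⟨i', ψ⟩, j'⟩)
      by_cases h1 : (⟨i', ψ⟩ : Emb F E) = ⟨i, φ⟩
      · obtain ⟨rfl, h1'⟩ := Sigma.mk.inj_iff.mp h1
        have h1'' := eq_of_heq h1'
        subst h1''
        have h2 : gam T Φ τ i' ψ =
            Gam ((T i').sgn (τ.comp ψ)) ((T i').p ψ) (w i') E := by
          unfold gam
          rw [if_pos hr]
        have h3 := Gam_mid (realType T τ hr) E (Polynomial E) Polynomial.X j hj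
        have h4 : (fun j' => x ⟨⟨i', ψ⟩, j'⟩) =
            Function.update (1 : Fin (n i') → Polynomial E) j Polynomial.X := by
          funext j'
          simp only [x, t₁]
          rw [Function.update_apply]
          simp only [tot_eq_iff]
          rfl
        have h5 : (fun j' => xT (conjElt hE τ) t₂ ⟨⟨i', ψ⟩, j'⟩) =
            Function.update (1 : Fin (n i') → Polynomial E) k₀ Polynomial.X := by
          funext j'
          unfold xT
          rw [hcT, Function.update_apply]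
          simp only [t₂, tot_eq_iff, or_self]
          rfl
        rw [h2, h4, h5]
        exact h3
      · apply diag_rel
        intro k l _
        have hne1 : ∀ (l : Fin (n i')) (k : Fin (n i)),
            (⟨⟨i', ψ⟩, l⟩ : Tot F E n) ≠ ⟨⟨i, φ⟩, k⟩ := fun l k h =>
          h1 (congrArg (fun t : Tot F E n => t.1) h)
        unfold xT
        rw [hcT]
        simp only [x, t₁, t₂]
        simp only [hne1, or_false])
  have h2 : (fdiag (xT (conjElt hE τ) t₂) : Fam F E n (Polynomial E)) =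
      fdiag (xT (conjElt hE τ) ⟨act (galElt hE τ τ₀) (⟨i, φ₀⟩ : Emb F E), k₀⟩) := by
    simp only [t₂]
    congr 2
    subst hg
    rfl
  rw [h2, pull_xT hE τ₀ τ ⟨i, φ₀⟩ k₀, hm] at h1
  have h3 : cl (conjElt hE τ₀) (sT T τ₀) (⟨⟨i, φ₀⟩, k₀⟩ : Tot F E n) =
      (T i).sgn (τ.comp φ) k₀ := by
    have h0 : τ.comp φ = τ₀.comp φ₀ := by
      rw [← hg, galElt_spec]
    unfold cl
    rw [if_pos]
    · unfold sT
      rw [h0]
    · rw [act_eq_iff]
      unfold IsConj at hr ⊢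
      rw [← h0]
      exact hr
  rw [h3] at h1
  have h4 : ∀ s, ∏ t, x t ^ ρ.wt s t = Polynomial.X ^ ρ.wt s t₁ :=
    fun s => prod_one' t₁ _
  rw [Finset.prod_congr rfl (fun s _ => h4 s), Finset.prod_pow_eq_pow_sum] at h1
  have h6 := congrArg Polynomial.natDegree h1
  rw [Polynomial.natDegree_X_pow, Polynomial.natDegree_X_pow] at h6
  exact h6.symm

end exps

end Pool.Agent.MP100fe7U
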