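import Pool.Agent.Lib.MP_100fe7_ntU.Value

/-!
The closed formula for the Deligne periods: final form.
-/

set_option linter.unusedSectionVars false

namespace Pool.Agent.MP100fe7U

open Matrix MP100fe7L
open MP100fe7T (detP detP_diagonal)

section linalg

variable {E : Type} [Field E] [CharZero E] {κ : Type} [Fintype κ] [DecidableEq κ] {d : ℕ}

/-- right inverse -/
theorem exists_right (B : Matrix (Fin d) κ E) (hB : Function.Surjective B.mulVec) :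
    ∃ R : Matrix κ (Fin d) E, B * R = 1 := by
  obtain ⟨g, hg⟩ := LinearMap.exists_rightInverse_of_surjective B.mulVecLin
    (LinearMap.range_eq_top.mpr hB)
  refine ⟨LinearMap.toMatrix' g, ?_⟩
  have h1 : LinearMap.toMatrix' (B.mulVecLin ∘ₗ g) = 1 := by
    rw [hg, LinearMap.toMatrix'_id]
  rw [LinearMap.toMatrix'_comp] at h1
  have h2 : LinearMap.toMatrix' B.mulVecLin = B := by
    rw [← Matrix.toLin'_apply', LinearMap.toMatrix'_toLin']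
  rwa [h2] at h1

/-- two projections with the same kernel -/
theorem proj_rel {B B₀ : Matrix (Fin d) κ E} (hk : ∀ v : κ → E, B₀.mulVec v = 0 → B.mulVec v = 0)
    {R : Matrix κ (Fin d) E} (hR : B₀ * R = 1) : B * R * B₀ = B := by
  ext i s
  have h1 : B₀.mulVec (R.mulVec (B₀.mulVec (Pi.single s 1)) - Pi.single s 1) = 0 := by
    rw [mulVec_sub, mulVec_mulVec, hR, one_mulVec, sub_self]
  have h2 := hk _ h1
  rw [mulVec_sub, sub_eq_zero] at h2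
  have h3 : (B * R * B₀).mulVec (Pi.single s 1) = B.mulVec (Pi.single s 1) := by
    rw [← mulVec_mulVec, ← mulVec_mulVec, h2]
  have h4 := congrFun h3 i
  simpa using h4

/-- the trace of the projection to an eigenspace -/
theorem trace_projE {C : Matrix κ κ E} (hC : C * C = 1) {ε : E} (hε : ε * ε = 1)
    {A : Matrix κ (Fin d) E} (hA : IsEig C ε A) {L : Matrix (Fin d) κ E} (hL : L * A = 1) :
    ∑ k, (1 + ε * C k k) = 2 * d := by
  have h1 := eigen_proj hC hε hA.2 hL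
  have h2 := eigen_mul hA.2
  have h3 : (1 + ε • C) * A = (2 : E) • A := by
    rw [Matrix.add_mul, Matrix.one_mul, Matrix.smul_mul, h2, smul_smul, hε, one_smul, two_smul]
  have h4 : Matrix.trace ((1 : Matrix κ κ E) + ε • C) = 2 * (d : E) := by
    rw [← h1, Matrix.mul_assoc, Matrix.trace_mul_comm, Matrix.mul_assoc, h3, Matrix.mul_smul, hL,
      Matrix.trace_smul, Matrix.trace_one, Fintype.card_fin, smul_eq_mul]
  rw [← h4]
  unfold Matrix.trace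
  apply Finset.sum_congr rfl
  intro k _
  simp [Matrix.diag]

end linalg

variable {ι : Type} [Fintype ι] [DecidableEq ι] {F : ι → Type} [∀ i, Field (F i)]
  [∀ i, NumberField (F i)] {E : Type} [Field E] [NumberField E] {n : ι → ℕ} {κ : Type}
  [Fintype κ] [DecidableEq κ] (ρ : Rep F E n κ) {w : ι → ℤ} (T : ∀ i, MType (F i) E (n i) (w i))
  (hE : Split F E) (Φ : (E →+* ℂ) → Finset (Emb F E)) (hΦ : PhiOk Φ) (τ₀ : E →+* ℂ)

theorem isStep_of_noMiddle' (hΦ : PhiOk Φ) (hmid : ρ.NoMiddle T) {ε : E} (hε : ε * ε = 1) :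
    ρ.IsStep T hE τ₀ ε ((ρ.motWeight w + 1) / 2) := by
  obtain ⟨A', hA'⟩ := exists_eig ρ T (conjElt_sq hE τ₀) (wF_inv T hE τ₀) (wF_mono T hE τ₀) hmid hε
  refine ⟨ρ.ev E (gamI T Φ τ₀) * A', ?_⟩
  have h2 : gamF T Φ τ₀ * gamI T Φ τ₀ = 1 := by
    funext q
    exact mul_nonsing_inv _ (isUnit_iff_ne_zero.mpr (gam_det T Φ τ₀ q.1 q.2))
  have h1 : IsEig (ρ.Fr (conjElt hE τ₀) (sD (sT T τ₀) E)) ε (ρ.ev E (gamI T Φ τ₀) * A') := by
    apply hA'.transport _ (ρ.ev E (gamF T Φ τ₀))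
    · rw [← ρ.ev_mul, h2, ρ.ev_one]
    · apply ρ.Fr_conj
      have h3 := gamF_rel T hE Φ τ₀ hΦ
      have h4 : Rep.pull (conjElt hE τ₀) (gamI T Φ τ₀) *
          Rep.pull (conjElt hE τ₀) (gamF T Φ τ₀) = 1 := by
        rw [← pull_mul, gamI_mul]
        rfl
      have h5 : Rep.pull (conjElt hE τ₀) (gamI T Φ τ₀) * (Rep.pull (conjElt hE τ₀) (gamF T Φ τ₀) *
          sD (sT T τ₀) E) * gamI T Φ τ₀ = Rep.pull (conjElt hE τ₀) (gamI T Φ τ₀) *
          (wF T τ₀ * gamF T Φ τ₀) * gamI T Φ τ₀ := by rw [h3]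
      rw [← mul_assoc, h4, one_mul, mul_assoc, mul_assoc, h2, mul_one] at h5
      exact h5.symm
  exact h1

section gal

variable {ε : E} {τ τ' : E →+* ℂ} (hc : conjElt hE τ = conjElt hE τ')
  (hs : ∀ (i : ι) (φ : F i →+* E), (T i).sgn (τ.comp φ) = (T i).sgn (τ'.comp φ))

include hc in
theorem gal_comm : ((galElt hE τ' τ₀)⁻¹ * galElt hE τ τ₀) * conjElt hE τ₀ =
    conjElt hE τ₀ * ((galElt hE τ' τ₀)⁻¹ * galElt hE τ τ₀) := by
  have h1 := galElt_conj hE τ τ₀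
  have h2 := galElt_conj hE τ' τ₀
  have h3 : conjElt hE τ₀ = (galElt hE τ' τ₀)⁻¹ * conjElt hE τ' * galElt hE τ' τ₀ := by
    rw [mul_assoc, ← h2, inv_mul_cancel_left]
  rw [mul_assoc, h1, hc]
  conv_rhs => rw [h3]
  group

include hs in
theorem gal_sgn : Rep.pull ((galElt hE τ' τ₀)⁻¹ * galElt hE τ τ₀) (sD (sT T τ₀) E) =
    (sD (sT T τ₀) E : Fam F E n E) := by
  have h1 : (sD (sT T τ₀) E : Fam F E n E) = Rep.pull (galElt hE τ' τ₀) (sD (sT T τ') E) :=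
    (sgnFam_pull T hE τ' τ₀).symm
  have h2 : (sD (sT T τ') E : Fam F E n E) = sD (sT T τ) E := by
    funext q
    unfold sD fdiag
    congr 1
    funext j
    change (((T q.1).sgn (τ'.comp q.2) j : ℤ) : E) = ((T q.1).sgn (τ.comp q.2) j : ℤ)
    rw [hs q.1 q.2]
  rw [← pull_pull, h1, pull_pull (galElt hE τ' τ₀)⁻¹, mul_inv_cancel, ← h1]
  have h3 : Rep.pull (1 : Gal F E) (sD (sT T τ') E) = (sD (sT T τ') E : Fam F E n E) := rfl
  rw [h3, h2]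
  exact sgnFam_pull T hE τ τ₀

include hc in
theorem gal_isConj (i : ι) (φ : F i →+* E) : IsConj τ φ φ ↔ IsConj τ' φ φ := by
  rw [← conj_eq_iff hE τ i φ, ← conj_eq_iff hE τ' i φ, hc]

include hc hs in
theorem gal_gam (hP : Φ τ = Φ τ') : gamF T Φ τ = gamF T Φ τ' := by
  funext q
  unfold gamF gam dg
  rw [hs q.1 q.2, hP]
  have h := gal_isConj hE hc q.1 q.2
  by_cases hr : IsConj τ q.2 q.2
  · rw [if_pos hr, if_pos (h.mp hr)]
  · rw [if_neg hr, if_neg (fun h' => hr (h.mpr h'))]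

end gal

/-- the constants of the local formulas -/
noncomputable def kq (d : ℕ) (m : Emb F E → ℤ → ℕ) (τ : E →+* ℂ) (q : Emb F E) : E :=
  if IsConj τ q.2 q.2 then
    kapT ((T q.1).sgn (τ.comp q.2)) ((T q.1).p q.2) (w q.1) E
      (eR ρ T hE τ₀ d m 1 (plc τ q)) (eR ρ T hE τ₀ d m (-1) (plc τ q))
  else if q ∈ Φ τ then ((Rv (n q.1) E).det * (dg T τ q.1 q.2).det) ^ eK ρ τ₀ d m q.1 else 1

theorem kq_ne (d : ℕ) (m : Emb F E → ℤ → ℕ) (τ : E →+* ℂ) (q : Emb F E) :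
    kq ρ T hE Φ τ₀ d m τ q ≠ 0 := by
  unfold kq
  by_cases h : IsConj τ q.2 q.2
  · rw [if_pos h]
    exact kapT_ne _ _ _ _ _ _
  · rw [if_neg h]
    by_cases h' : q ∈ Φ τ
    · rw [if_pos h']
      apply zpow_ne_zero
      have h3 := congrArg Matrix.det (Rv_sq (n q.1) E)
      have h4 := congrArg Matrix.det (dg_sq T τ q.1 q.2)
      rw [det_mul, det_one] at h3 h4
      exact mul_ne_zero (left_ne_zero_of_mul_eq_one h3) (left_ne_zero_of_mul_eq_one h4)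
    · rw [if_neg h']
      exact one_ne_zero

section main

variable {d : ℕ} {A : Matrix κ (Fin d) E} {ε : E} (hε : ε * ε = 1)
  (hA : IsEig (ρ.Fr (conjElt hE τ₀) (sD (sT T τ₀) E)) ε A)
  {B : Matrix (Fin d) κ E} (hB : Function.Surjective B.mulVec) {a₀ : ℤ}
  (hker : ∀ v : κ → E, B.mulVec v = 0 ↔ ∀ s, isLo ρ T a₀ s → v s = 0)
  {L : Matrix (Fin d) κ E} (hL : L * A = 1) {m : Emb F E → ℤ → ℕ}
  (hm : ∀ t : Tot F E n, (eig ρ L A (Polynomial E) (fdiag (xT (conjElt hE τ₀) t))).det =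
      Polynomial.X ^ m t.1 (cl (conjElt hE τ₀) (sT T τ₀) t))
  (hm' : ∀ R : Finset (Emb F E), IsRepr (conjElt hE τ₀) R → ∀ (S : Type) [CommRing S]
      [Algebra E S] (h : Fam F E n S), IsSym (conjElt hE τ₀) (sT T τ₀) h → (eig ρ L A S h).det =
        ∏ q ∈ R, ∏ a ∈ colors (cl (conjElt hE τ₀) (sT T τ₀)) q,
          (blk (cl (conjElt hE τ₀) (sT T τ₀)) h q a).det ^ m q a)
  {ae : Emb F E → ℤ → ℕ}
  (hae1 : ∀ q j, ae q (idx T ⟨q, j⟩) = ∑ s with isLo ρ T a₀ s, ρ.wt s ⟨q, j⟩)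
  (hae : ∀ (R : Type) [CommRing R] [Algebra E R] (b : Fam F E n R),
      (∀ q j j', idx T ⟨q, j⟩ < idx T ⟨q, j'⟩ → b q j j' = 0) →
      (∀ s t, isLo ρ T a₀ s → ¬ isLo ρ T a₀ t → ρ.toPol.pol R b s t = 0) ∧
      detP (isLo ρ T a₀) (ρ.toPol.pol R b) =
        ∏ q, ∏ c ∈ colors (idx T) q, (blk (idx T) b q c).det ^ ae q c)

/-- the algebraic factor -/
noncomputable def uF (A : Matrix κ (Fin d) E) (B : Matrix (Fin d) κ E) (m : Emb F E → ℤ → ℕ)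
    (τ : E →+* ℂ) : E :=
  (B * (ρ.ev E (gamF T Φ τ) * (ρ.perm (galElt hE τ τ₀) * A))).det *
    ∏ q, kq ρ T hE Φ τ₀ d m τ q

include hε hA hB hker hΦ in
theorem uF_ne (τ : E →+* ℂ) : uF ρ T hE Φ τ₀ A B m τ ≠ 0 := by
  unfold uF
  apply mul_ne_zero (det_ev_ne ρ T hE Φ hΦ τ₀ hε hA τ hB hker)
  rw [Finset.prod_ne_zero_iff]
  intro q _
  exact kq_ne ρ T hE Φ τ₀ d m τ q

include hε hA hL hm in
/-- The exponents at the real places do not change under a Galois element commuting with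
`F_∞`. -/
theorem eR_gal {τ τ' : E →+* ℂ} (hc : conjElt hE τ = conjElt hE τ')
    (hs : ∀ (i : ι) (φ : F i →+* E), (T i).sgn (τ.comp φ) = (T i).sgn (τ'.comp φ)) (δ : ℤ)
    (q : Emb F E) (hr : IsConj τ q.2 q.2) :
    eR ρ T hE τ₀ d m δ (plc τ q) = eR ρ T hE τ₀ d m δ (plc τ' q) := by
  classical
  have hr' : IsConj τ' q.2 q.2 := (gal_isConj hE hc q.1 q.2).mp hr
  unfold eR
  have h0 : (T (plc τ q).1).sgn (plc τ q).2 = (T (plc τ' q).1).sgn (plc τ' q).2 := hs q.1 q.2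
  by_cases hj : ∃ j, (T (plc τ q).1).sgn (plc τ q).2 j = δ
  · have hj' : ∃ j, (T (plc τ' q).1).sgn (plc τ' q).2 j = δ := by
      obtain ⟨j, hj⟩ := hj
      exact ⟨j, by rw [← hj]; exact (congrFun h0 j).symm⟩
    rw [if_pos hj, if_pos hj', ← act_inv_eq hE τ₀ τ q, ← act_inv_eq hE τ₀ τ' q]
    obtain ⟨j, hj⟩ := hj
    let g := (galElt hE τ' τ₀)⁻¹ * galElt hE τ τ₀
    have h1 := m_gal ρ T hE τ₀ hε hA hL (gal_comm hE τ₀ hc) (gal_sgn T hE τ₀ hs) hm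
      (act (galElt hE τ τ₀)⁻¹ q) j
    have h2 : act ((galElt hE τ' τ₀)⁻¹ * galElt hE τ τ₀) (act (galElt hE τ τ₀)⁻¹ q) =
        act (galElt hE τ' τ₀)⁻¹ q := by
      rw [act_mul, act_act_inv]
    have key : ∀ (τ : E →+* ℂ), IsConj τ q.2 q.2 → (T q.1).sgn (τ.comp q.2) j = δ →
        cl (conjElt hE τ₀) (sT T τ₀) (⟨act (galElt hE τ τ₀)⁻¹ q, j⟩ : Tot F E n) = δ := by
      intro τ hr hj
      have h5 : (galElt hE τ τ₀).1 q.1 (act (galElt hE τ τ₀)⁻¹ q).2 = q.2 :=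
        eq_of_heq (Sigma.mk.inj_iff.mp (act_act_inv (galElt hE τ τ₀) q)).2
      have h6 : IsConj τ₀ (act (galElt hE τ τ₀)⁻¹ q).2 (act (galElt hE τ τ₀)⁻¹ q).2 :=
        (isConj_gal hE τ₀ τ h5).mp hr
      have h7 := cl_real T hE τ₀ q.1 (act (galElt hE τ τ₀)⁻¹ q).2 h6 j
      have h8 : τ₀.comp (act (galElt hE τ τ₀)⁻¹ q).2 = τ.comp q.2 := by
        rw [← galElt_spec hE τ τ₀, h5]
      rw [h8] at h7
      exact h7.trans hj
    have h3 := key τ hr hj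
    have h4 := key τ' hr' (by rw [← hs q.1 q.2]; exact hj)
    have h9 : (⟨act ((galElt hE τ' τ₀)⁻¹ * galElt hE τ τ₀) (act (galElt hE τ τ₀)⁻¹ q), j⟩ :
        Tot F E n) = ⟨act (galElt hE τ' τ₀)⁻¹ q, j⟩ := by
      have h10 : ((galElt hE τ' τ₀)⁻¹ * galElt hE τ τ₀).1 q.1 (act (galElt hE τ τ₀)⁻¹ q).2 =
          (act (galElt hE τ' τ₀)⁻¹ q).2 := eq_of_heq (Sigma.mk.inj_iff.mp h2).2
      change (⟨⟨q.1, ((galElt hE τ' τ₀)⁻¹ * galElt hE τ τ₀).1 q.1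
        (act (galElt hE τ τ₀)⁻¹ q).2⟩, j⟩ : Tot F E n) = _
      rw [h10]
    rw [h3] at h1
    have h11 : cl (conjElt hE τ₀) (sT T τ₀) (⟨act ((galElt hE τ' τ₀)⁻¹ * galElt hE τ τ₀)
        (act (galElt hE τ τ₀)⁻¹ q), j⟩ : Tot F E n) = δ := by
      rw [h9]
      exact h4
    have h12 : m (act ((galElt hE τ' τ₀)⁻¹ * galElt hE τ τ₀) (act (galElt hE τ τ₀)⁻¹ q)) δ =
        m (act (galElt hE τ τ₀)⁻¹ q) δ := by
      have h13 := h1
      rw [h11] at h13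
      exact h13
    rw [h2] at h12
    rw [h12]
    rfl
  · have hj' : ¬ ∃ j, (T (plc τ' q).1).sgn (plc τ' q).2 j = δ := by
      rintro ⟨j, hj'⟩
      exact hj ⟨j, by rw [← hj']; exact congrFun h0 j⟩
    rw [if_neg hj, if_neg hj']

include hε hA hL hm hB hker hΦ in
/-- The algebraic factor under the Galois group. -/
theorem uF_gal {τ τ' : E →+* ℂ} (hc : conjElt hE τ = conjElt hE τ')
    (hs : ∀ (i : ι) (φ : F i →+* E), (T i).sgn (τ.comp φ) = (T i).sgn (τ'.comp φ))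
    (hP : Φ τ = Φ τ') (v : E) :
    ρ.IsGalDet T hE τ₀ ε ((galElt hE τ' τ₀)⁻¹ * galElt hE τ τ₀) v ↔
      uF ρ T hE Φ τ₀ A B m τ = uF ρ T hE Φ τ₀ A B m τ' * v := by
  set g := (galElt hE τ' τ₀)⁻¹ * galElt hE τ τ₀ with hg
  have hgc := gal_comm hE τ₀ hc
  have hgs := gal_sgn T hE τ₀ hs
  have hV := perm_eig ρ T hE τ₀ hε hA hL hgc hgs
  rw [← hg] at hV
  have h1 : uF ρ T hE Φ τ₀ A B m τ = uF ρ T hE Φ τ₀ A B m τ' * (L * ρ.perm g * A).det := by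
    unfold uF
    have h2 : ρ.perm (galElt hE τ τ₀) = ρ.perm (galElt hE τ' τ₀) * ρ.perm g := by
      rw [← ρ.perm_mul, hg, mul_inv_cancel_left]
    have h3 : B * (ρ.ev E (gamF T Φ τ) * (ρ.perm (galElt hE τ τ₀) * A)) =
        B * (ρ.ev E (gamF T Φ τ') * (ρ.perm (galElt hE τ' τ₀) * A)) * (L * ρ.perm g * A) := by
      rw [gal_gam T hE Φ hc hs hP, h2, Matrix.mul_assoc (ρ.perm (galElt hE τ' τ₀)), hV]
      simp only [Matrix.mul_assoc]
    have h4 : ∏ q, kq ρ T hE Φ τ₀ d m τ q = ∏ q, kq ρ T hE Φ τ₀ d m τ' q := by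
      apply Finset.prod_congr rfl
      intro q _
      unfold kq
      have h5 := gal_isConj hE hc q.1 q.2
      by_cases hr : IsConj τ q.2 q.2
      · rw [if_pos hr, if_pos (h5.mp hr), eR_gal ρ T hE τ₀ hε hA hL hm hc hs 1 q hr,
          eR_gal ρ T hE τ₀ hε hA hL hm hc hs (-1) q hr, hs q.1 q.2]
      · rw [if_neg hr, if_neg (fun h => hr (h5.mpr h)), hP]
        unfold dg
        rw [hs q.1 q.2]
    rw [h3, h4, det_mul]
    ring
  have h6 := uF_ne ρ T hE Φ hΦ τ₀ hε hA hB hker (m := m) τ'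
  constructor
  · rintro ⟨d', A', V', hA', hV', rfl⟩
    have hA'' : IsEig (ρ.Fr (conjElt hE τ₀) (sD (sT T τ₀) E)) ε A' := hA'
    rw [h1, det_unique hA''.1 hA.1 (fun v => by rw [hA''.2, hA.2]) _ hV' hV]
  · intro h7
    rw [h1] at h7
    have h8 := mul_left_cancel₀ h6 h7
    exact ⟨d, A, _, hA, hV, h8.symm⟩

include hε hA hL hm hB hker hΦ hae1 in
theorem mid_cond (τ : E →+* ℂ) (q : Emb F E) (hr : IsConj τ q.2 q.2) (δ : ℤ) (j : Fin (n q.1))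
    (hj : 2 * (T q.1).p q.2 j = w q.1) (hb : (T q.1).sgn (τ.comp q.2)
      (beta ((T q.1).sgn (τ.comp q.2)) ((T q.1).p q.2) (w q.1) j) = δ) :
    eS ρ d ae q ((T q.1).p q.2 j) = eR ρ T hE τ₀ d m δ (plc τ q) := by
  classical
  obtain ⟨i, φ⟩ := q
  have h5 : (galElt hE τ τ₀).1 i (act (galElt hE τ τ₀)⁻¹ (⟨i, φ⟩ : Emb F E)).2 = φ :=
    eq_of_heq (Sigma.mk.inj_iff.mp (act_act_inv (galElt hE τ τ₀) (⟨i, φ⟩ : Emb F E))).2
  have h1 := exp_real ρ T hE Φ hΦ τ₀ hε hA hB hker hL hm τ i _ φ h5 hr j hj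
  dsimp only at hb hj hr j
  rw [hb] at h1
  have h2 := hae1 (⟨i, φ⟩ : Emb F E) j
  have h3 : ∃ j', (T (plc τ (⟨i, φ⟩ : Emb F E)).1).sgn (plc τ (⟨i, φ⟩ : Emb F E)).2 j' = δ :=
    ⟨_, hb⟩
  unfold eS eR
  rw [if_pos h3, ← act_inv_eq hE τ₀ τ (⟨i, φ⟩ : Emb F E)]
  have h4 : ae (⟨i, φ⟩ : Emb F E) ((T i).p φ j) =
      m (act (galElt hE τ τ₀)⁻¹ (⟨i, φ⟩ : Emb F E)) δ := by
    rw [← h1] at h2
    exact h2
  change (ae (⟨i, φ⟩ : Emb F E) ((T i).p φ j) : ℤ) - _ = _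
  rw [h4]
  rfl

end main

end Pool.Agent.MP100fe7U
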