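import Pool.Agent.Lib.MP_100fe7_ntU.Frob
import Pool.Agent.Lib.MP_100fe7_nt.TBlocks

/-!
Bases of eigenspaces, the low part.
-/

set_option linter.unusedSectionVars false

namespace Pool.Agent.MP100fe7U

open Matrix MP100fe7T MP100fe7L

section uniq

variable {E : Type} [Field E] [CharZero E] {κ : Type} [Fintype κ] [DecidableEq κ]

/-- The columns of `A` are a basis of the eigenspace of `C` for `ε`. -/
def IsEig (C : Matrix κ κ E) (ε : E) {d : ℕ} (A : Matrix κ (Fin d) E) : Prop :=
  Function.Injective A.mulVec ∧ ∀ v : κ → E, v ∈ Set.range A.mulVec ↔ C.mulVec v = ε • v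

theorem eig_rel {d d' : ℕ} {A : Matrix κ (Fin d) E} {A' : Matrix κ (Fin d') E}
    (h : ∀ v, v ∈ Set.range A'.mulVec → v ∈ Set.range A.mulVec) {L : Matrix (Fin d) κ E}
    (hL : L * A = 1) : A * (L * A') = A' := by
  ext s j
  have h2 : A'.mulVec (Pi.single j 1) ∈ Set.range A.mulVec := h _ ⟨_, rfl⟩
  obtain ⟨x, hx⟩ := h2
  have h3 : (A * (L * A')).mulVec (Pi.single j 1) = A'.mulVec (Pi.single j 1) := by
    rw [← mulVec_mulVec, ← mulVec_mulVec, ← hx, mulVec_mulVec x, hL, one_mulVec]
  have h4 := congrFun h3 s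
  simpa using h4

/-- the determinant of an endomorphism of the subspace spanned by the columns of `A` is well
defined -/
theorem det_unique {d d' : ℕ} {A : Matrix κ (Fin d) E} {A' : Matrix κ (Fin d') E}
    (hA : Function.Injective A.mulVec) (hA' : Function.Injective A'.mulVec)
    (h : ∀ v, v ∈ Set.range A.mulVec ↔ v ∈ Set.range A'.mulVec) (X : Matrix κ κ E)
    {V : Matrix (Fin d) (Fin d) E} {V' : Matrix (Fin d') (Fin d') E} (hV : X * A = A * V)
    (hV' : X * A' = A' * V') : V.det = V'.det := by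
  obtain ⟨L, hL⟩ := exists_left A hA
  obtain ⟨L', hL'⟩ := exists_left A' hA'
  have h1 : A * (L * A') = A' := eig_rel (fun v hv => (h v).mpr hv) hL
  have h1' : A' * (L' * A) = A := eig_rel (fun v hv => (h v).mp hv) hL'
  have h5 : (L' * A) * (L * A') = 1 := by
    rw [Matrix.mul_assoc, h1, hL']
  have h6 : (L * A') * (L' * A) = 1 := by
    rw [Matrix.mul_assoc, h1', hL]
  have h7 : V' = (L' * A) * V * (L * A') := by
    have h8 : A' * V' = A' * ((L' * A) * V * (L * A')) := by
      rw [← hV', Matrix.mul_assoc (L' * A), ← Matrix.mul_assoc A', h1', ← Matrix.mul_assoc A, ← hV,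
        Matrix.mul_assoc X, h1]
    have h9 := congrArg (fun Y => L' * Y) h8
    simp only [← Matrix.mul_assoc] at h9
    rw [hL', Matrix.one_mul, Matrix.one_mul] at h9
    rw [h9]
    simp only [Matrix.mul_assoc]
  rw [h7]
  exact (det_conj_of_mul_eq_one h5 h6).symm

theorem dim_unique {d d' : ℕ} {A : Matrix κ (Fin d) E} {A' : Matrix κ (Fin d') E}
    (hA : Function.Injective A.mulVec) (hA' : Function.Injective A'.mulVec)
    (h : ∀ v, v ∈ Set.range A.mulVec ↔ v ∈ Set.range A'.mulVec) : d = d' := by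
  have h1 : LinearMap.range A.mulVecLin = LinearMap.range A'.mulVecLin := by
    ext v
    exact h v
  have h2 : Module.finrank E (LinearMap.range A.mulVecLin) = Module.finrank E (Fin d → E) :=
    LinearMap.finrank_range_of_inj hA
  have h3 : Module.finrank E (LinearMap.range A'.mulVecLin) = Module.finrank E (Fin d' → E) :=
    LinearMap.finrank_range_of_inj hA'
  rw [h1, h3] at h2
  simpa using h2.symm

/-- transport of an eigenbasis -/
theorem IsEig.transport {C C' : Matrix κ κ E} {ε : E} {d : ℕ} {A : Matrix κ (Fin d) E}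
    (hA : IsEig C ε A) (G G' : Matrix κ κ E) (hG : G' * G = 1) (h : G * C = C' * G) :
    IsEig C' ε (G * A) := by
  have hG' : G * G' = 1 := mul_eq_one_comm.mp hG
  constructor
  · intro x y hxy
    rw [← mulVec_mulVec, ← mulVec_mulVec] at hxy
    have h1 := congrArg (fun v => G'.mulVec v) hxy
    simp only [mulVec_mulVec] at h1
    rw [← Matrix.mul_assoc, hG, Matrix.one_mul] at h1
    exact hA.1 h1
  · intro v
    constructor
    · rintro ⟨x, rfl⟩
      have h1 := (hA.2 (A.mulVec x)).mp ⟨x, rfl⟩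
      rw [← mulVec_mulVec, mulVec_mulVec, ← h, ← mulVec_mulVec, h1, mulVec_smul]
    · intro hv
      have h1 : C.mulVec (G'.mulVec v) = ε • G'.mulVec v := by
        have h2 : C * G' = G' * C' := by
          have h3 := congrArg (fun Y => G' * Y * G') h
          simp only [Matrix.mul_assoc] at h3
          rw [← Matrix.mul_assoc G' G, hG, Matrix.one_mul, hG', Matrix.mul_one] at h3
          exact h3
        rw [mulVec_mulVec, h2, ← mulVec_mulVec, hv, mulVec_smul]
      obtain ⟨x, hx⟩ := (hA.2 _).mpr h1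
      refine ⟨x, ?_⟩
      rw [← mulVec_mulVec, hx, mulVec_mulVec, hG', one_mulVec]

end uniq

section low

variable {ι : Type} [Fintype ι] [DecidableEq ι] {F : ι → Type} [∀ i, Field (F i)]
  [∀ i, NumberField (F i)] {E : Type} [Field E] [NumberField E] {n : ι → ℕ} {κ : Type}
  [Fintype κ] [DecidableEq κ] (ρ : Rep F E n κ) {w : ι → ℤ}
  (T : ∀ i, MType (F i) E (n i) (w i))

/-- the Hodge indices -/
def idx (t : Tot F E n) : ℤ := (T t.1.1).p t.1.2 t.2

/-- the low part -/
def isLo (a : ℤ) (s : κ) : Prop := ρ.hodgeIdx T s < a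

noncomputable instance (a : ℤ) : DecidablePred (isLo ρ T a) := fun s => by
  unfold isLo
  exact inferInstance

theorem mem_lowPart (a : ℤ) (s : κ) : s ∈ ρ.lowPart T a ↔ isLo ρ T a s := by
  unfold Rep.lowPart isLo
  simp

theorem filter_lo (a : ℤ) : (Finset.univ.filter fun s => isLo ρ T a s) = ρ.lowPart T a := by
  ext s
  rw [mem_lowPart]
  simp

/-- the standard projection to the low part -/
theorem exists_B (a : ℤ) : ∃ B : Matrix (Fin (ρ.lowPart T a).card) κ E,
      Function.Surjective B.mulVec ∧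
      (∀ v : κ → E, B.mulVec v = 0 ↔ ∀ s, isLo ρ T a s → v s = 0) := by
  classical
  let ψ : Fin (ρ.lowPart T a).card ≃ {s // s ∈ ρ.lowPart T a} := (ρ.lowPart T a).equivFin.symm
  let B : Matrix (Fin (ρ.lowPart T a).card) κ E :=
    (1 : Matrix κ κ E).submatrix (fun i => (ψ i).1) id
  have hB : ∀ (v : κ → E) i, B.mulVec v i = v (ψ i).1 := by
    intro v i
    change ∑ s, (1 : Matrix κ κ E) (ψ i).1 s * v s = v (ψ i).1
    rw [Finset.sum_eq_single (ψ i).1]
    · rw [Matrix.one_apply_eq, one_mul]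
    · intro s _ hs
      rw [Matrix.one_apply_ne (Ne.symm hs), zero_mul]
    · simp
  refine ⟨B, ?_, ?_⟩
  · intro y
    refine ⟨fun s => if h : s ∈ ρ.lowPart T a then y (ψ.symm ⟨s, h⟩) else 0, ?_⟩
    funext i
    rw [hB]
    simp only [dif_pos (ψ i).2]
    simp
  · intro v
    constructor
    · intro h s hs
      have h1 := congrFun h (ψ.symm ⟨s, (mem_lowPart ρ T a s).mpr hs⟩)
      rw [hB, Equiv.apply_symm_apply] at h1
      exact h1
    · intro h
      funext i
      rw [hB]
      exact h _ ((mem_lowPart ρ T a _).mp (ψ i).2)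

theorem hodgeIdx_height (s : κ) : ρ.hodgeIdx T s = ρ.toPol.height (idx T) s -
    ∑ t : Tot F E n, (ρ.twist t.1.1 : ℤ) * idx T t := by
  unfold Rep.hodgeIdx PolRep.height
  rw [← Finset.sum_sub_distrib]
  apply Finset.sum_congr rfl
  intro t _
  unfold Rep.weight
  rw [sub_mul]
  rfl

theorem height_lt {a₀ : ℤ} {s t : κ} (hs : isLo ρ T a₀ s) (ht : ¬ isLo ρ T a₀ t) :
    ρ.toPol.height (idx T) s < ρ.toPol.height (idx T) t := by
  unfold isLo at hs ht
  rw [hodgeIdx_height] at hs ht
  omega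

theorem sum_weight_low (a₀ : ℤ) (t : Tot F E n) : ∑ s ∈ ρ.lowPart T a₀, ρ.weight s t =
    ((∑ s with isLo ρ T a₀ s, ρ.wt s t : ℕ) : ℤ) - ρ.twist t.1.1 * (ρ.lowPart T a₀).card := by
  unfold Rep.weight
  rw [Finset.sum_sub_distrib, Finset.sum_const, nsmul_eq_mul, filter_lo]
  push_cast
  ring

/-- The low part does not depend on the choice of the step of the filtration. -/
theorem low_unique {a₀ a : ℤ} {d : ℕ} {B : Matrix (Fin d) κ E} (hB : Function.Surjective B.mulVec)
    (hker : ∀ v : κ → E, B.mulVec v = 0 ↔ ∀ s, isLo ρ T a s → v s = 0)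
    (hd : d = (ρ.lowPart T a₀).card) (s : κ) : isLo ρ T a s ↔ isLo ρ T a₀ s := by
  obtain ⟨ψ, -⟩ := exists_coords_quot (isLo ρ T a) B hB hker
  have h1 := Fintype.card_congr ψ
  rw [Fintype.card_fin] at h1
  have h2 : Fintype.card {s // isLo ρ T a₀ s} = (ρ.lowPart T a₀).card := by
    rw [Fintype.card_subtype, filter_lo]
  refine lo_unique (fun s => ρ.hodgeIdx T s) a a₀ ?_ s
  have h3 : Fintype.card {s // isLo ρ T a s} = Fintype.card {s // isLo ρ T a₀ s} := by
    rw [h2, ← hd, h1]
  calc Fintype.card {s // ρ.hodgeIdx T s < a} = Fintype.card {s // isLo ρ T a s} :=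
        Fintype.card_congr (Equiv.subtypeEquivRight fun _ => Iff.rfl)
    _ = Fintype.card {s // isLo ρ T a₀ s} := h3
    _ = Fintype.card {s // ρ.hodgeIdx T s < a₀} :=
        Fintype.card_congr (Equiv.subtypeEquivRight fun _ => Iff.rfl)

end low

end Pool.Agent.MP100fe7U
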