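import Pool.Agent.Lib.MP_100fe7_ntU.LocFam

/-!
The value of the period at one embedding of the coefficients.
-/

set_option linter.unusedSectionVars false

namespace Pool.Agent.MP100fe7U

open Matrix MP100fe7L
open MP100fe7T (detP detP_diagonal)

section alg

/-- combining exponents -/
theorem zfac {x : ℂ} (hx : x ≠ 0) (tw d e : ℕ) :
    ((x ^ tw)⁻¹) ^ d * x ^ e = x ^ ((e : ℤ) - tw * d) := by
  rw [zpow_sub₀ hx, zpow_natCast, div_eq_mul_inv, inv_pow, ← pow_mul]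
  have h : x ^ ((tw : ℤ) * d) = x ^ (tw * d) := by
    rw [← zpow_natCast]
    congr 1
  rw [h, mul_comm]

theorem zfac_prod {α : Type} (s : Finset α) {f : α → ℂ} (hf : ∀ a ∈ s, f a ≠ 0) (tw d : ℕ)
    (e : α → ℕ) : (((∏ a ∈ s, f a) ^ tw)⁻¹) ^ d * ∏ a ∈ s, f a ^ e a =
      ∏ a ∈ s, f a ^ ((e a : ℤ) - tw * d) := by
  rw [← Finset.prod_pow, ← Finset.prod_inv_distrib, ← Finset.prod_pow,
    ← Finset.prod_mul_distrib]
  apply Finset.prod_congr rfl
  intro a ha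
  exact zfac (hf a ha) tw d (e a)

theorem zfac_two {x y : ℂ} (hx : x ≠ 0) (hy : y ≠ 0) (tw d e e' : ℕ) :
    (((x * y) ^ tw)⁻¹) ^ d * (x ^ e * y ^ e') =
      x ^ ((e : ℤ) - tw * d) * y ^ ((e' : ℤ) - tw * d) := by
  rw [← zfac hx, ← zfac hy, mul_pow, mul_inv, mul_pow]
  ring

theorem zfac_sq {x : ℂ} (hx : x ≠ 0) (tw d e : ℕ) :
    ((x ^ tw * x ^ tw)⁻¹) ^ d * x ^ e = x ^ ((e : ℤ) - 2 * tw * d) := by
  have h := zfac hx (2 * tw) d e
  push_cast at h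
  rw [← h]
  congr 3
  rw [← pow_add]
  congr 1
  ring

end alg

variable {ι : Type} [Fintype ι] [DecidableEq ι] {F : ι → Type} [∀ i, Field (F i)]
  [∀ i, NumberField (F i)] {E : Type} [Field E] [NumberField E] {n : ι → ℕ} {κ : Type}
  [Fintype κ] [DecidableEq κ] (ρ : Rep F E n κ) {w : ι → ℤ} (T : ∀ i, MType (F i) E (n i) (w i))
  (hE : Split F E) (Φ : (E →+* ℂ) → Finset (Emb F E)) (hΦ : PhiOk Φ) (τ₀ : E →+* ℂ)

/-- the place of an embedding at `τ` -/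
def plc (τ : E →+* ℂ) (q : Emb F E) : Σ i, (F i →+* ℂ) := ⟨q.1, τ.comp q.2⟩

/-- the embedding with a given place at `τ₀` -/
noncomputable def e0 (σ : Σ i, (F i →+* ℂ)) : Emb F E := ⟨σ.1, (hE τ₀ σ.1 σ.2).choose⟩

theorem e0_spec (σ : Σ i, (F i →+* ℂ)) : τ₀.comp (e0 hE τ₀ σ).2 = σ.2 :=
  (hE τ₀ σ.1 σ.2).choose_spec

theorem act_inv_eq (τ : E →+* ℂ) (q : Emb F E) :
    act (galElt hE τ τ₀)⁻¹ q = e0 hE τ₀ (plc τ q) := by
  apply act_injective (galElt hE τ τ₀)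
  rw [act_act_inv]
  obtain ⟨i, φ⟩ := q
  change (⟨i, φ⟩ : Emb F E) = ⟨i, (galElt hE τ τ₀).1 i (e0 hE τ₀ (plc τ ⟨i, φ⟩)).2⟩
  congr 1
  apply comp_injective τ
  rw [galElt_spec]
  exact (e0_spec hE τ₀ (plc τ (⟨i, φ⟩ : Emb F E))).symm

theorem e0_plc (q : Emb F E) : e0 hE τ₀ (plc τ₀ q) = q := by
  rw [← act_inv_eq hE τ₀ τ₀ q, galElt_self, inv_one, act_one]

section exps

variable (d : ℕ) (m : Emb F E → ℤ → ℕ) (ae : Emb F E → ℤ → ℕ)

/-- the exponent of the Hodge periods -/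
def eS (q : Emb F E) (a : ℤ) : ℤ := (ae q a : ℤ) - ρ.twist q.1 * d

open Classical in
/-- the exponents of the real periods -/
noncomputable def eR (δ : ℤ) (σ : Σ i, (F i →+* ℂ)) : ℤ :=
  if ∃ j, (T σ.1).sgn σ.2 j = δ then (m (e0 hE τ₀ σ) δ : ℤ) - ρ.twist σ.1 * d else 0

open Classical in
/-- the exponent at the complex places -/
noncomputable def eK (i : ι) : ℤ :=
  if h : ∃ φ : F i →+* E, ¬ IsConj τ₀ φ φ then
    (m ⟨i, h.choose⟩ 0 : ℤ) - 2 * ρ.twist i * d else 0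

end exps

section value

variable {d : ℕ} {A : Matrix κ (Fin d) E} {ε : E} (hε : ε * ε = 1)
  (hA : IsEig (ρ.Fr (conjElt hE τ₀) (sD (sT T τ₀) E)) ε A)
  {B : Matrix (Fin d) κ E} (hB : Function.Surjective B.mulVec) {a₀ : ℤ}
  (hker : ∀ v : κ → E, B.mulVec v = 0 ↔ ∀ s, isLo ρ T a₀ s → v s = 0)
  {L : Matrix (Fin d) κ E} (hL : L * A = 1) {m : Emb F E → ℤ → ℕ}
  (hm : ∀ t : Tot F E n, (eig ρ L A (Polynomial E) (fdiag (xT (conjElt hE τ₀) t))).det =
      Polynomial.X ^ m t.1 (cl (conjElt hE τ₀) (sT T τ₀) t))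
  (hm' : ∀ R : Finset (Emb F E), IsRepr (conjElt hE τ₀) R → ∀ (S : Type) [CommRing S]
      [Algebra E S] (h : Fam F E n S), IsSym (conjElt hE τ₀) (sT T τ₀) h → (eig ρ L A S h).det =
        ∏ q ∈ R, ∏ a ∈ colors (cl (conjElt hE τ₀) (sT T τ₀)) q,
          (blk (cl (conjElt hE τ₀) (sT T τ₀)) h q a).det ^ m q a)
  {ae : Emb F E → ℤ → ℕ}
  (hae : ∀ (R : Type) [CommRing R] [Algebra E R] (b : Fam F E n R),
      (∀ q j j', idx T ⟨q, j⟩ < idx T ⟨q, j'⟩ → b q j j' = 0) →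
      (∀ s t, isLo ρ T a₀ s → ¬ isLo ρ T a₀ t → ρ.toPol.pol R b s t = 0) ∧
      detP (isLo ρ T a₀) (ρ.toPol.pol R b) =
        ∏ q, ∏ c ∈ colors (idx T) q, (blk (idx T) b q c).det ^ ae q c)
  (τ : E →+* ℂ)

include hε hA hB hker hL hm hΦ in
theorem eK_eq (i : ι) (φ₀ : F i →+* E) (h : ¬ IsConj τ₀ φ₀ φ₀) (j : Fin (n i)) :
    eK ρ τ₀ d m i = (m ⟨i, φ₀⟩ 0 : ℤ) - 2 * ρ.twist i * d := by
  classical
  have hex : ∃ φ : F i →+* E, ¬ IsConj τ₀ φ φ := ⟨φ₀, h⟩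
  unfold eK
  rw [dif_pos hex, m_const ρ T hE Φ hΦ τ₀ hε hA hB hker hL hm i _ φ₀ hex.choose_spec h j]

include hae in
/-- the parabolic part -/
theorem par_part (b : Fam F E n ℂ) [Algebra E ℂ] (hbu : ∀ q, (b q).det ≠ 0)
    (hb : ∀ (q : Emb F E) j k, (T q.1).p q.2 j < (T q.1).p q.2 k → b q j k = 0) :
    (ρ.tw ℂ b)⁻¹ ^ d * detP (isLo ρ T a₀) (ρ.toPol.pol ℂ b) =
      ∏ q : Emb F E, ∏ a ∈ (T q.1).indices q.2,
        (pblk ((T q.1).p q.2) (b q) a).det ^ eS ρ d ae q a := by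
  rw [(hae ℂ b (fun q j j' h => hb q j j' h)).2]
  unfold Rep.tw
  rw [← Finset.prod_inv_distrib, ← Finset.prod_pow, ← Finset.prod_mul_distrib]
  apply Finset.prod_congr rfl
  intro q _
  have h1 : (b q).det = ∏ a ∈ (T q.1).indices q.2, (pblk ((T q.1).p q.2) (b q) a).det :=
    det_pblk (hb q)
  have h2 := hbu q
  rw [h1, Finset.prod_ne_zero_iff] at h2
  rw [h1]
  exact zfac_prod _ h2 (ρ.twist q.1) d (ae q)

include hε hA hB hker hL hm hm' hΦ in
/-- the symmetric part -/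
theorem sym_part (y : Fam F E n ℂ) [Algebra E ℂ] (hyu : ∀ q, (y q).det ≠ 0)
    (hy : IsSym (conjElt hE τ) (sT T τ) y) :
    (ρ.tw ℂ y)⁻¹ ^ d * (eig ρ L A ℂ (Rep.pull (galElt hE τ τ₀) y)).det =
      ∏ q : Emb F E, (if IsConj τ q.2 q.2 then
        (sblk ((T q.1).sgn (τ.comp q.2)) (y q) 1).det ^ eR ρ T hE τ₀ d m 1 (plc τ q) *
        (sblk ((T q.1).sgn (τ.comp q.2)) (y q) (-1)).det ^ eR ρ T hE τ₀ d m (-1) (plc τ q)
        else if q ∈ Φ τ then (y q).det ^ eK ρ τ₀ d m q.1 else 1) := by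
  classical
  rw [det_eig_tau ρ T hE Φ hΦ τ₀ hm' τ y hy]
  unfold Rep.tw
  rw [prod_pairs hE Φ hΦ τ (fun q => (y q).det ^ ρ.twist q.1), ← Finset.prod_inv_distrib,
    ← Finset.prod_pow, ← Finset.prod_mul_distrib]
  have hD : ∀ q : Emb F E, dgC T τ q.1 q.2 * dgC T τ q.1 q.2 = 1 := fun q => dgC_sq τ q.1 q.2
  have hyq : ∀ q : Emb F E, y (act (conjElt hE τ) q) * dgC T τ q.1 q.2 =
      dgC T τ q.1 q.2 * y q := fun q => congrFun hy q
  apply Finset.prod_congr rfl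
  intro q _
  by_cases hr : IsConj τ q.2 q.2
  · rw [if_pos hr, if_pos hr, if_pos hr, act_inv_eq hE τ₀ τ q]
    have hc : (conjElt hE τ).1 q.1 q.2 = q.2 := (conj_eq_iff hE τ q.1 q.2).mpr hr
    have h1 : y q * dgC T τ q.1 q.2 = dgC T τ q.1 q.2 * y q := by
      have h2 := hyq q
      have h3 : (act (conjElt hE τ) q) = q := (act_eq_iff hE τ q).mpr hr
      change y ⟨q.1, (conjElt hE τ).1 q.1 q.2⟩ * dgC T τ q.1 q.2 = _ at h2
      rw [hc] at h2
      exact h2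
    have h4 := det_sblk (s := (T q.1).sgn (τ.comp q.2)) (fun j => (T q.1).sgn_eq _ j) h1
    have h5 := hyu q
    rw [h4] at h5
    have h6 : (sblk ((T q.1).sgn (τ.comp q.2)) (y q) 1).det ≠ 0 := left_ne_zero_of_mul h5
    have h7 : (sblk ((T q.1).sgn (τ.comp q.2)) (y q) (-1)).det ≠ 0 := right_ne_zero_of_mul h5
    rw [h4, zfac_two h6 h7]
    congr 1
    · unfold eR
      by_cases hj : ∃ j, (T (plc τ q).1).sgn (plc τ q).2 j = 1
      · rw [if_pos hj]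
        rfl
      · have h8 : (sblk ((T q.1).sgn (τ.comp q.2)) (y q) 1).det = 1 :=
          sub_det_empty (y q) (fun j hj' => hj ⟨j, hj'⟩)
        rw [h8, _root_.one_zpow, _root_.one_zpow]
    · unfold eR
      by_cases hj : ∃ j, (T (plc τ q).1).sgn (plc τ q).2 j = -1
      · rw [if_pos hj]
        rfl
      · have h8 : (sblk ((T q.1).sgn (τ.comp q.2)) (y q) (-1)).det = 1 :=
          sub_det_empty (y q) (fun j hj' => hj ⟨j, hj'⟩)
        rw [h8, _root_.one_zpow, _root_.one_zpow]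
  · rw [if_neg hr, if_neg hr, if_neg hr]
    by_cases hq : q ∈ Φ τ
    · rw [if_pos hq, if_pos hq, if_pos hq]
      have h1 : (y (act (conjElt hE τ) q)).det = (y q).det := by
        have h2 := congrArg Matrix.det (hyq q)
        have h3 := congrArg Matrix.det (hD q)
        rw [det_mul, det_one] at h3
        rw [det_mul, det_mul, mul_comm] at h2
        exact mul_left_cancel₀ (left_ne_zero_of_mul_eq_one h3) h2
      have h1' : (y ⟨q.1, (conjElt hE τ).1 q.1 q.2⟩).det = (y q).det := h1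
      rw [h1', zfac_sq (hyu q)]
      rcases Nat.eq_zero_or_pos (n q.1) with h0 | h0
      · have h2 : (y q).det = 1 := by
          haveI : IsEmpty (Fin (n q.1)) := by
            rw [h0]
            infer_instance
          exact det_isEmpty
        rw [h2, _root_.one_zpow, _root_.one_zpow]
      · have h3 : ¬ IsConj τ₀ (act (galElt hE τ τ₀)⁻¹ q).2 (act (galElt hE τ τ₀)⁻¹ q).2 := by
          intro h4
          apply hr
          have h5 : (galElt hE τ τ₀).1 q.1 (act (galElt hE τ τ₀)⁻¹ q).2 = q.2 := by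
            have h6 := act_act_inv (galElt hE τ τ₀) q
            exact eq_of_heq (Sigma.mk.inj_iff.mp h6).2
          exact (isConj_gal hE τ₀ τ h5).mpr h4
        rw [eK_eq ρ T hE Φ hΦ τ₀ hε hA hB hker hL hm q.1
          (act (galElt hE τ τ₀)⁻¹ q).2 h3 ⟨0, h0⟩]
    · rw [if_neg hq, if_neg hq, if_neg hq]
      simp

include hε hA hB hker hL hm hm' hae hΦ in
/-- The value of the period at `τ`. -/
theorem value_formula (M : ∀ i, Datum (T i)) : ∃ b y : Fam F E n ℂ,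
    (∀ q, (b q).det ≠ 0) ∧ (∀ q, (y q).det ≠ 0) ∧
    (∀ (q : Emb F E) j k, (T q.1).p q.2 j < (T q.1).p q.2 k → b q j k = 0) ∧
    (∀ q : Emb F E, IsConj τ q.2 q.2 → y q * dgC T τ q.1 q.2 = dgC T τ q.1 q.2 * y q) ∧
    (∀ q : Emb F E, IsConj τ q.2 q.2 → RealForm M τ q (b q) (y q)) ∧
    (∀ q ∈ Φ τ, PairForm M hE τ q (b q) (y q) (b (act (conjElt hE τ) q))) ∧
    (B.map τ * ρ.compN M hE τ₀ τ * A.map τ).det =
      τ (B * (ρ.ev E (gamF T Φ τ) * (ρ.perm (galElt hE τ τ₀) * A))).det *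
      ∏ q : Emb F E, (if IsConj τ q.2 q.2 then
        (∏ a ∈ (T q.1).indices q.2, (pblk ((T q.1).p q.2) (b q) a).det ^ eS ρ d ae q a) *
        (sblk ((T q.1).sgn (τ.comp q.2)) (y q) 1).det ^ eR ρ T hE τ₀ d m 1 (plc τ q) *
        (sblk ((T q.1).sgn (τ.comp q.2)) (y q) (-1)).det ^ eR ρ T hE τ₀ d m (-1) (plc τ q)
        else if q ∈ Φ τ then
          (∏ a ∈ (T q.1).indices q.2, (pblk ((T q.1).p q.2) (b q) a).det ^ eS ρ d ae q a) *
            (y q).det ^ eK ρ τ₀ d m q.1 else 1) := by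
  classical
  obtain ⟨b, y, h1, h2, h3, h4, h5, h6, h7⟩ := exists_locfam M hE Φ hΦ τ
  have hsymq : ∀ q : Emb F E, IsConj τ q.2 q.2 →
      y q * dgC T τ q.1 q.2 = dgC T τ q.1 q.2 * y q := fun q hr => h4 q.1 q.2 q.2 hr
  refine ⟨b, y, h2, h3, h5, hsymq, h6, h7, ?_⟩
  letI : Algebra E ℂ := τ.toAlgebra
  have hsym : IsSym (conjElt hE τ) (sT T τ) y := by
    funext q
    exact h4 q.1 q.2 _ (isConj_conjElt hE τ q.1 q.2)
  have hcomp : (fun q : Emb F E => (M q.1).comp τ q.2) =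
      b * Fam.map' (gamF T Φ τ) (algebraMap E ℂ) * y := by
    funext q
    exact h1 q
  have h8 : ρ.compN M hE τ₀ τ = ρ.ev ℂ (b * Fam.map' (gamF T Φ τ) (algebraMap E ℂ) * y) *
      (ρ.perm (galElt hE τ τ₀)).map (algebraMap E ℂ) := by
    rw [← hcomp]
    rfl
  have h9 := core ρ T hE Φ τ₀ hε hA hB hker hL τ (K := ℂ) b y
    (hae ℂ b (fun q j j' h => h5 q j j' h)).1 hsym
  rw [← h8] at h9
  have h10 := par_part ρ T (d := d) hae b h2 h5
  have h11 := sym_part ρ T hE Φ hΦ τ₀ hε hA hB hker hL hm hm' τ y h3 hsym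
  rw [h10, h11, prod_pairs hE Φ hΦ τ, mul_assoc, ← Finset.prod_mul_distrib] at h9
  refine h9.trans ?_
  congr 1
  apply Finset.prod_congr rfl
  intro q _
  by_cases hr : IsConj τ q.2 q.2
  · rw [if_pos hr, if_pos hr, if_pos hr, mul_assoc]
  · rw [if_neg hr, if_neg hr, if_neg hr]
    by_cases hq : q ∈ Φ τ
    · rw [if_pos hq, if_pos hq, if_pos hq]
      congr 1
      have h12 : ∏ a ∈ (T (act (conjElt hE τ) q).1).indices (act (conjElt hE τ) q).2,
          (pblk ((T (act (conjElt hE τ) q).1).p (act (conjElt hE τ) q).2)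
            (b (act (conjElt hE τ) q)) a).det ^ eS ρ d ae (act (conjElt hE τ) q) a = 1 := by
        apply Finset.prod_eq_one
        intro a _
        have h13 := (h7 q hq).2.2 a
        have h14 : (pblk ((T (act (conjElt hE τ) q).1).p (act (conjElt hE τ) q).2)
            (b (act (conjElt hE τ) q)) a).det = 1 := h13
        rw [h14, _root_.one_zpow]
      rw [h12, mul_one]
    · rw [if_neg hq, if_neg hq, if_neg hq, mul_one]

end value

end Pool.Agent.MP100fe7U
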